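import Pool.Agent.W_448p_h97.PaO

/-!
MP_448cb3_co, G2, case B, window `j`: THE IDENTITY (6,4) with components with two stars: all the leading
coefficients (3,2) vanish.  helper97.
-/

namespace Pool.Agent.GaussPoset.EK

set_option linter.unusedSectionVars false

open Finset Win St Polynomial Wd

universe u

variable {P : Type u} [Fintype P] [PartialOrder P] [DecidableEq P] {r i j : ℕ}

variable {m : ℕ} {x : ℕ → P} {c : ℕ → ℤ} {β : ℤ} {t : Tops P}

variable {K : Finset P} {psi : P → P}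

section main

variable (h : NJ P r j) (hj : 2 ≤ j) (R : Red P j K psi)

include h hj R

/-- the profile of every component in case B -/
theorem NJ.PG (t : Tops P) : I2.PG (I2.bb j (j + 1) (topOf : P → Tops P) t)
    (I2.VV j (j + 1) (topOf : P → Tops P) t) := by
  have hjr : j ≤ r := by have := h.hr; omega
  obtain ⟨m, x, c, β, B⟩ := NJ.rowB h hj t
  rcases B.small h.g.H h.split with h1 | h1
  · exact (K2.PG_star h.g.H hjr (NJ.noQ h hj) (fun m hm => h.g.good m (by omega)) h.split R.mat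
      R.sub (K2.star_small h.g.H hjr h.split R h1)).1
  · obtain ⟨w, v, w', v', Q⟩ := Pa.exists_k9x h B h1 hj R
    exact Q.pg

/-- the inequality for every component in case B -/
theorem NJ.w3_sq (t : Tops P) : 0 ≤ I2.w3 (I2.bb j (j + 1) (topOf : P → Tops P) t)
    (I2.VV j (j + 1) (topOf : P → Tops P) t) ^ 2 -
      2 * I2.w6 (I2.bb j (j + 1) (topOf : P → Tops P) t) (I2.VV j (j + 1) (topOf : P → Tops P) t) ∧
    (I2.w3 (I2.bb j (j + 1) (topOf : P → Tops P) t)
      (I2.VV j (j + 1) (topOf : P → Tops P) t) ^ 2 -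
      2 * I2.w6 (I2.bb j (j + 1) (topOf : P → Tops P) t) (I2.VV j (j + 1) (topOf : P → Tops P) t) = 0 →
      I2.w3 (I2.bb j (j + 1) (topOf : P → Tops P) t) (I2.VV j (j + 1) (topOf : P → Tops P) t) = 0 ∧
      I2.w6 (I2.bb j (j + 1) (topOf : P → Tops P) t) (I2.VV j (j + 1) (topOf : P → Tops P) t) = 0) := by
  have hjr : j ≤ r := by have := h.hr; omega
  obtain ⟨m, x, c, β, B⟩ := NJ.rowB h hj t
  rcases B.small h.g.H h.split with h1 | h1
  · have h2 := (K2.PG_star h.g.H hjr (NJ.noQ h hj) (fun m hm => h.g.good m (by omega)) h.split R.mat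
      R.sub (K2.star_small h.g.H hjr h.split R h1)).2
    rw [h2, mul_zero, sub_zero]
    refine ⟨sq_nonneg _, fun h3 => ⟨?_, rfl⟩⟩
    exact pow_eq_zero_iff (two_ne_zero) |>.1 h3
  · obtain ⟨w, v, w', v', Q⟩ := Pa.exists_k9x h B h1 hj R
    exact ⟨Q.ineq.1, Q.zero⟩

/-- THE IDENTITY (6,4) IN CASE B: all the leading coefficients (3,2) and (6,4) vanish, and the joins of
a double and a single element have weight zero -/
theorem NJ.w3_zero (hbad : ∀ z y v, K2.SD j (topOf : P → Tops P) z y v →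
      z ∉ cuni (j + 1) (topOf : P → Tops P) → BadR P j y →
      sa j (topOf : P → Tops P) K (uc v) (topOf v) = 0) :
    (∀ t : Tops P,
      I2.w3 (I2.bb j (j + 1) (topOf : P → Tops P) t) (I2.VV j (j + 1) (topOf : P → Tops P) t) = 0 ∧
      I2.w6 (I2.bb j (j + 1) (topOf : P → Tops P) t) (I2.VV j (j + 1) (topOf : P → Tops P) t) = 0) ∧
    (∀ (t : Tops P) (m : ℕ) (x : ℕ → P) (c : ℕ → ℤ) (β : ℤ), RowB P j t m x c β → Pat6 m c β →
      7 ≤ m ∧ Pa.dl j (cext (j + 1) (topOf : P → Tops P) t) x 2 = 1 ∧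
        Pa.dl j (cext (j + 1) (topOf : P → Tops P) t) x (m - 3) = 1) ∧
    ∀ z ∈ K2.Z2 j (topOf : P → Tops P), Ek j K (K2.Tz z) 3 = 0 ∧ Ek j K (K2.Tz z) 2 = 0 := by
  have hjr : j ≤ r := by have := h.hr; omega
  have h1 := K2.six_four h.g.H hjr (NJ.noQ h hj) (fun m hm => h.g.good m (by omega)) h.split R.mat
    R.sub (fun a _ => NJ.PG h hj R a)
  have h2 : ∀ z ∈ K2.Z2 j (topOf : P → Tops P),
      0 ≤ Ek j K (K2.Tz z) 3 ∧ 0 ≤ Ek j K (K2.Tz z) 2 := by
    intro z hz
    obtain ⟨hz1, y, v, S⟩ := K2.mem_Z2.1 hz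
    have h3 := NJ.join_nonneg h R S hj (hbad z y v S hz1)
    exact ⟨h3 3 (by norm_num), h3 2 le_rfl⟩
  have h3 : ∀ z ∈ K2.Z2 j (topOf : P → Tops P), 0 ≤ Ek j K (K2.Tz z) 3 + Ek j K (K2.Tz z) 2 :=
    fun z hz => add_nonneg (h2 z hz).1 (h2 z hz).2
  have h4 := sum_nonneg h3
  have h5 := sum_nonneg (fun (a : Tops P) (_ : a ∈ univ.image (topOf : P → Tops P)) =>
    (NJ.w3_sq h hj R a).1)
  have h6 := (sum_eq_zero_iff_of_nonneg h3).1 (by linarith)
  have h7 := (sum_eq_zero_iff_of_nonneg (fun (a : Tops P)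
    (_ : a ∈ univ.image (topOf : P → Tops P)) => (NJ.w3_sq h hj R a).1)).1 (by linarith)
  have hall : ∀ t : Tops P, t ∈ univ.image (topOf : P → Tops P) := by
    intro t
    refine mem_image.2 ⟨(t : P), mem_univ _, ?_⟩
    exact Subtype.ext (Hul.top_unique (h.nj (by have := t.2; omega)) (topOf (t : P)).2 t.2
      (le_topOf (t : P)) le_rfl)
  refine ⟨fun t => (NJ.w3_sq h hj R t).2 (h7 t (hall t)), ?_, ?_⟩
  · intro t m x c β B hp
    obtain ⟨w, v, w', v', Q⟩ := Pa.exists_k9x h B hp hj R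
    exact Q.ineq'.2 (h7 t (hall t))
  · intro z hz
    have h8 := h6 z hz
    have h9 := h2 z hz
    exact ⟨by linarith, by linarith⟩

end main

end Pool.Agent.GaussPoset.EK
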