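import Pool.Agent.W_448w4_h10.MD
import Pool.Agent.W_448p6_h15.PA

/-!
MP_448cb3_co, G2, case B: THE IDENTITIES (3,2) AND (4,2) at the window `j` without the hypothesis
`w32 = 0`: the logarithmic form of the coefficient (4,2).  helper97.
-/

namespace Pool.Agent.GaussPoset.Win.I2

set_option linter.unusedSectionVars false

open Finset

/-! ### algebra -/

/-- coefficient of `q^1 d^b` -/
noncomputable def c1 (b : ℕ) (V : PowerSeries A) : ℤ :=
  PowerSeries.coeff b (PowerSeries.coeff 1 V : A)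

lemma cg_one (b : ℕ) (V : PowerSeries A) : cg 1 b V = c1 b V := by
  unfold cg c1 gd
  simp

lemma cg_two (b : ℕ) (V : PowerSeries A) : cg 2 b V = al 2 b V := by
  unfold cg al gd
  simp

lemma cg_four (b : ℕ) (V : PowerSeries A) : cg 4 b V = be 4 b V := by
  unfold cg be gd
  simp

lemma anti_cg4 (f : ℕ × ℕ → ℤ) :
    (∑ p ∈ Finset.HasAntidiagonal.antidiagonal 4, f p =
      f (0, 4) + f (1, 3) + f (2, 2) + f (3, 1) + f (4, 0)) ∧
    (∑ p ∈ Finset.HasAntidiagonal.antidiagonal 2, f p = f (0, 2) + f (1, 1) + f (2, 0)) ∧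
    (∑ p ∈ Finset.HasAntidiagonal.antidiagonal 1, f p = f (0, 1) + f (1, 0)) := by
  simp only [Finset.Nat.sum_antidiagonal_eq_sum_range_succ_mk, Finset.sum_range_succ,
    Finset.sum_range_zero]
  norm_num

section mul

variable {b b' : ℕ} {V V' : PowerSeries A} (h : PG b V) (h' : PG b' V')
include h h'

lemma c1_mul_PG : c1 (b + b') (V * V') = eps b V * c1 b' V' + c1 b V * eps b' V' := by
  rw [← cg_zero, ← cg_zero, ← cg_one, ← cg_one, ← cg_one, cg_mul h h' (by omega),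
    (anti_cg4 _).2.2]
  simp [gd]

lemma al_mul_PG : al 2 (b + b') (V * V') = eps b V * al 2 b' V' + al 2 b V * eps b' V' := by
  rw [← cg_zero, ← cg_zero, ← cg_two, ← cg_two, ← cg_two, cg_mul h h' (by omega),
    (anti_cg4 _).2.1]
  simp [gd]

lemma be_mul_PG : be 4 (b + b') (V * V') = eps b V * be 4 b' V' + c1 b V * w3 b' V' +
    al 2 b V * al 2 b' V' + w3 b V * c1 b' V' + be 4 b V * eps b' V' := by
  rw [← cg_zero, ← cg_zero, ← cg_one, ← cg_one, ← cg_two, ← cg_two, ← cg_three, ← cg_three,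
    ← cg_four, ← cg_four, ← cg_four, cg_mul h h' (by omega), (anti_cg4 _).1]
  simp [gd]

end mul

/-- the additive quantity at the energy four -/
noncomputable def Q4 (b : ℕ) (V : PowerSeries A) : ℤ :=
  al 2 b V ^ 2 - 2 * be 4 b V + 2 * c1 b V * w3 b V

/-- the product over the components -/
theorem prod_Q4 {ι : Type*} (s : Finset ι) (b : ι → ℕ) (V : ι → PowerSeries A)
    (h : ∀ c ∈ s, PG (b c) (V c)) (h1 : ∀ c ∈ s, eps (b c) (V c) = 1) :
    PG (∑ c ∈ s, b c) (∏ c ∈ s, V c) ∧ eps (∑ c ∈ s, b c) (∏ c ∈ s, V c) = 1 ∧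
    w3 (∑ c ∈ s, b c) (∏ c ∈ s, V c) = ∑ c ∈ s, w3 (b c) (V c) ∧
    al 2 (∑ c ∈ s, b c) (∏ c ∈ s, V c) = ∑ c ∈ s, al 2 (b c) (V c) ∧
    Q4 (∑ c ∈ s, b c) (∏ c ∈ s, V c) = ∑ c ∈ s, Q4 (b c) (V c) := by
  classical
  induction s using Finset.induction_on with
  | empty =>
    simp only [Finset.sum_empty, Finset.prod_empty]
    refine ⟨PG_one, ?_, ?_, ?_, ?_⟩
    · simp [eps]
    · simp [w3, PowerSeries.coeff_one]
    · simp [al, PowerSeries.coeff_one]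
    · simp [Q4, al, be, c1, w3, PowerSeries.coeff_one]
  | insert a s ha ih =>
    obtain ⟨i1, i2, i3, i4, i5⟩ := ih (fun c hc => h c (Finset.mem_insert_of_mem hc))
      (fun c hc => h1 c (Finset.mem_insert_of_mem hc))
    have ha1 := h a (Finset.mem_insert_self a s)
    have ha2 := h1 a (Finset.mem_insert_self a s)
    simp only [Finset.sum_insert ha, Finset.prod_insert ha]
    rw [← i3, ← i4, ← i5]
    refine ⟨ha1.mul i1, ?_, ?_, ?_, ?_⟩
    · rw [eps_mul_PG ha1 i1, ha2, i2, one_mul]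
    · rw [w3_mul_PG ha1 i1, ha2, i2]; ring
    · rw [al_mul_PG ha1 i1, ha2, i2]; ring
    · unfold Q4
      rw [w3_mul_PG ha1 i1, al_mul_PG ha1 i1, be_mul_PG ha1 i1, c1_mul_PG ha1 i1, ha2, i2]
      ring

end Pool.Agent.GaussPoset.Win.I2

namespace Pool.Agent.GaussPoset.Win.K2

set_option linter.unusedSectionVars false

open Finset I2

universe u

variable {P : Type u} [Fintype P] [PartialOrder P] [DecidableEq P] {r i : ℕ} {e : P → ℕ}

variable {ι : Type*} [DecidableEq ι] {κ : P → ι} {K : Finset P} {psi : P → P}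

/-- THE IDENTITIES (3,2), (2,1) AND (4,2), without the hypothesis `w32 = 0` -/
theorem four_two_gen (H : Gr P r) (hir : i ≤ r) (hq : NoQ P (i + 2))
    (hg : ∀ m, m + 1 = i → Good P m) (hκ : Split (i + 1) κ) (hM : Mat P i K psi)
    (hK : K ⊆ dbL P i ∪ dbU P i)
    (hP : ∀ a ∈ univ.image κ, PG (bb i (i + 1) κ a) (VV i (i + 1) κ a)) :
    ∑ a ∈ univ.image κ, w3 (bb i (i + 1) κ a) (VV i (i + 1) κ a) = 0 ∧
    ∑ a ∈ univ.image κ, al 2 (bb i (i + 1) κ a) (VV i (i + 1) κ a) = 0 ∧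
    ∑ a ∈ univ.image κ, Q4 (bb i (i + 1) κ a) (VV i (i + 1) κ a) =
      - (2 * ∑ z ∈ Z2 i κ, (EK.Ek i K (Tz z) 1 + EK.Ek i K (Tz z) 0)) := by
  classical
  have hB : ∑ a ∈ univ.image κ, bb i (i + 1) κ a = (lv P i).card := sum_card_st (by omega) hκ
  have hE : ∀ a ∈ univ.image κ, eps (bb i (i + 1) κ a) (VV i (i + 1) κ a) = 1 :=
    fun a _ => eps_VV H hir a
  have htot : ∀ n, dd ^ (lv P i).card ∣ ∑ e ∈ (univ : Finset P).piAntidiag n, trm i e :=
    fun n => dvd_sum_trm H hir n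
  obtain ⟨-, -, i3, i4, i5⟩ := prod_Q4 (univ.image κ) _ _ hP hE
  rw [hB] at i3 i4 i5
  have h3 : w3 (lv P i).card (∏ a ∈ univ.image κ, VV i (i + 1) κ a) = 0 := by
    unfold w3
    apply coeff_zero_of_dvd (a := (lv P i).card + 1)
    · rw [prod_eq H hir hκ]
      have h4 : dd ^ ((lv P i).card - 1) ∣
          ∑ e ∈ (univ : Finset P).piAntidiag 3, trm i e -
            ∑ e ∈ ((univ : Finset P).piAntidiag 3).filter (Cr i κ), trm i e :=
        dvd_sub ((pow_dvd_pow dd (Nat.sub_le _ _)).trans (htot 3))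
          (cross3 H hir hq hg hκ le_rfl)
      refine (pow_dvd_pow dd (show (lv P i).card + 1 ≤ 2 + ((lv P i).card - 1) by omega)).trans ?_
      rw [pow_add]
      exact mul_dvd_mul_left _ h4
    · omega
  have h2 : al 2 (lv P i).card (∏ a ∈ univ.image κ, VV i (i + 1) κ a) = 0 := by
    unfold al
    apply coeff_zero_of_dvd (a := (lv P i).card + 1)
    · rw [prod_eq H hir hκ, cross_two H hq hκ le_rfl, sub_zero, pow_succ']
      exact mul_dvd_mul_left _ (dvd_sum_trm H hir 2)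
    · omega
  have h4 : be 4 (lv P i).card (∏ a ∈ univ.image κ, VV i (i + 1) κ a) =
      ∑ z ∈ Z2 i κ, (EK.Ek i K (Tz z) 1 + EK.Ek i K (Tz z) 0) :=
    prod_coeff H hir hq hg hκ hM hK 0
  refine ⟨by rw [← i3, h3], by rw [← i4, h2], ?_⟩
  rw [← i5]
  unfold Q4
  rw [h3, h2, h4]
  ring

/-- `T`: the combination of the coefficients (2,1), (3,2), (4,2), (6,4) of a component -/
noncomputable def TT (mu : ℤ) (b : ℕ) (V : PowerSeries A) : ℤ :=
  al 2 b V + Q4 b V + mu * w3 b V + (w3 b V ^ 2 - 2 * w6 b V)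

/-- THE TOTAL IDENTITY -/
theorem identity_TT (H : Gr P r) (hir : i ≤ r) (hq : NoQ P (i + 2))
    (hg : ∀ m, m + 1 = i → Good P m) (hκ : Split (i + 1) κ) (hM : Mat P i K psi)
    (hK : K ⊆ dbL P i ∪ dbU P i)
    (hP : ∀ a ∈ univ.image κ, PG (bb i (i + 1) κ a) (VV i (i + 1) κ a)) (mu : ℤ) :
    ∑ a ∈ univ.image κ, TT mu (bb i (i + 1) κ a) (VV i (i + 1) κ a) +
      2 * ∑ z ∈ Z2 i κ, (1 + EK.Ek i K (Tz z) 1 + EK.Ek i K (Tz z) 2 + EK.Ek i K (Tz z) 3) =
        0 := by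
  obtain ⟨h1, h2, h3⟩ := four_two_gen H hir hq hg hκ hM hK hP
  have h4 := six_four H hir hq hg hκ hM hK hP
  unfold TT
  rw [sum_add_distrib, sum_add_distrib, sum_add_distrib, h2, h3, h4, ← mul_sum, h1]
  have : ∑ z ∈ Z2 i κ, (1 + EK.Ek i K (Tz z) 1 + EK.Ek i K (Tz z) 2 + EK.Ek i K (Tz z) 3) =
      ∑ z ∈ Z2 i κ, (EK.Ek i K (Tz z) 1 + EK.Ek i K (Tz z) 0) +
        ∑ z ∈ Z2 i κ, (EK.Ek i K (Tz z) 3 + EK.Ek i K (Tz z) 2) := by
    rw [← sum_add_distrib]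
    refine Finset.sum_congr rfl fun z _ => ?_
    rw [Ek_zero hK]
    ring
  rw [this]
  ring

/-- CONSEQUENCE: if all the terms are nonnegative, they vanish -/
theorem TT_zero (H : Gr P r) (hir : i ≤ r) (hq : NoQ P (i + 2))
    (hg : ∀ m, m + 1 = i → Good P m) (hκ : Split (i + 1) κ) (hM : Mat P i K psi)
    (hK : K ⊆ dbL P i ∪ dbU P i)
    (hP : ∀ a ∈ univ.image κ, PG (bb i (i + 1) κ a) (VV i (i + 1) κ a)) {mu : ℤ}
    (hT : ∀ a ∈ univ.image κ, 0 ≤ TT mu (bb i (i + 1) κ a) (VV i (i + 1) κ a))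
    (hS : ∀ z ∈ Z2 i κ,
      0 ≤ 1 + EK.Ek i K (Tz z) 1 + EK.Ek i K (Tz z) 2 + EK.Ek i K (Tz z) 3) :
    (∀ a ∈ univ.image κ, TT mu (bb i (i + 1) κ a) (VV i (i + 1) κ a) = 0) ∧
    ∀ z ∈ Z2 i κ,
      1 + EK.Ek i K (Tz z) 1 + EK.Ek i K (Tz z) 2 + EK.Ek i K (Tz z) 3 = 0 := by
  have h1 := identity_TT H hir hq hg hκ hM hK hP mu
  have h3 := Finset.sum_nonneg hT
  have h4 := Finset.sum_nonneg hS
  exact ⟨(Finset.sum_eq_zero_iff_of_nonneg hT).1 (by linarith),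
    (Finset.sum_eq_zero_iff_of_nonneg hS).1 (by linarith)⟩

end Pool.Agent.GaussPoset.Win.K2
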