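import Pool.Agent.W_448p_h97.PbY
import Pool.Agent.W_448p_h97.PaP
import Pool.Agent.W_448kf_h15.KfH

/-!
MP_448cb3_co, G2, case B, window `j`: `F` of a component with two stars, the statement for `NJ`.
helper97.
-/

namespace Pool.Agent.GaussPoset.EK

set_option linter.unusedSectionVars false

open Finset Win St Polynomial Wd

universe u

variable {P : Type u} [Fintype P] [PartialOrder P] [DecidableEq P] {r i j : ℕ}

variable {m : ℕ} {x : ℕ → P} {c : ℕ → ℤ} {β : ℤ} {t : Tops P}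

variable {K : Finset P} {psi : P → P}

section main

variable (h : NJ P r j) (hj : 2 ≤ j) (R : Red P j K psi)

include h hj R

/-- the profile of a component with two stars, if all the values (3,2) vanish -/
theorem NJ.pat6_prof (hw : I2.w3 (I2.bb j (j + 1) (topOf : P → Tops P) t)
      (I2.VV j (j + 1) (topOf : P → Tops P) t) = 0) (B : RowB P j t m x c β) (hp : Pat6 m c β) :
    I2.Prof 2 4 (I2.bb j (j + 1) (topOf : P → Tops P) t)
      (I2.VV j (j + 1) (topOf : P → Tops P) t) ∧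
    I2.eps (I2.bb j (j + 1) (topOf : P → Tops P) t)
      (I2.VV j (j + 1) (topOf : P → Tops P) t) = 1 := by
  obtain ⟨w, v, w', v', Q⟩ := Pa.exists_k9x h B hp hj R
  exact ⟨Pb.two_prof Q hw, Pb.two_eps Q⟩

/-- THE BOUNDS FOR `F` of a component with two stars -/
theorem NJ.pat6_F (B : RowB P j t m x c β) (hp : Pat6 m c β) (h7 : 7 ≤ m)
    (d2 : Pa.dl j (cext (j + 1) (topOf : P → Tops P) t) x 2 = 1)
    (d3 : Pa.dl j (cext (j + 1) (topOf : P → Tops P) t) x (m - 3) = 1) :
    ((uc (x 0)).card = 2 → (uc (x m)).card = 2 →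
      0 ≤ W4.Fv j (cext (j + 1) (topOf : P → Tops P) t)) ∧
    ((uc (x 0)).card = 2 ∨ (uc (x m)).card = 2 →
      -2 ≤ W4.Fv j (cext (j + 1) (topOf : P → Tops P) t)) ∧
    ((∀ z, lev z = j + 2 → ∀ y ∈ uc z, y ∈ cext (j + 1) (topOf : P → Tops P) t →
      (uc y).card = 2 → z ∈ cext (j + 1) (topOf : P → Tops P) t) →
      0 ≤ W4.Fv j (cext (j + 1) (topOf : P → Tops P) t) ∧
      ((uc (x 0)).card = 2 ∨ (uc (x m)).card = 2 →
        0 < W4.Fv j (cext (j + 1) (topOf : P → Tops P) t))) :=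
  Pb.pat6_F h B hp hj R (NJ.prow h hj B (by omega)) h7 d2 d3

end main

end Pool.Agent.GaussPoset.EK
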