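import Pool.Agent.W_448w4_h10.KW

/-!
MP_448cb3_co, G2, case B, window `j`: natural cores of a part with an arbitrary set of unmatched doubles
(the statements of `W_448w4_h10` for two unmatched doubles, the same proofs).  helper97.
-/

namespace Pool.Agent.GaussPoset.Win.Pa

set_option linter.unusedSectionVars false

open Finset W4
open Pool.Agent.GaussPoset.Win.So (IV IV_chi IV_Fe)
open Pool.Agent.GaussPoset.Win.SO (Sde Pen TD On kS tL tU sde_low sde_up kS_sum cheap_of PN vp con
  con_sub on cheap_coeff cheap_dvd)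
open Pool.Agent.GaussPoset.Win.I2 (kd gu kl kn kr so cc fr KK KD lS uS mem_lS mem_uS kd_dc kd_uc gu_uc
  gu_dc adm_low adm_up KD_low KD_up fr_low fr_up)

universe u

variable {P : Type u} [Fintype P] [PartialOrder P] [DecidableEq P] {r i : ℕ}
variable {e f : P → ℕ} {psi : P → P} {C K : Finset P}

/-- a part with an arbitrary set of unmatched doubles -/
structure PaQ (r i : ℕ) (K : Finset P) (psi : P → P) (C : Finset P) : Prop where
  H : Gr P r
  hi : 1 ≤ i
  hi2 : i + 1 ≤ r
  hM : Mat P i K psi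
  hC : Part (i + 1) C
  nq : ∀ z ∈ C, lev z = i + 2 → ∀ x ∈ uc z, ∀ x' ∈ uc z, (uc x).card = 2 → (uc x').card = 2 →
    (uc x ∩ uc x').Nonempty
  nq' : ∀ z ∈ C, lev z + 2 = i → ∀ x ∈ dc z, ∀ x' ∈ dc z, (dc x).card = 2 → (dc x').card = 2 →
    (dc x ∩ dc x').Nonempty

lemma PaQ.part (Q : PaQ r i K psi C) : Part i C :=
  ⟨fun h1 h2 => Q.hC.up h1 h2, fun h1 h2 h3 => Q.hC.dn h1 (by omega) h3⟩

lemma PaQ.hir (Q : PaQ r i K psi C) : i ≤ r := by have := Q.hi2; omega

/-- the abstract configuration of a natural core -/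
theorem PaQ.cf (Q : PaQ r i K psi C) (hc : IsCore i ∅ (ps K psi) e) (hs : Spt C e)
    (hA : AdmL i e) (hB : AdmU i e) (hd : Disjoint (AL i e) (AU i e)) :
    Cf uc dc (tL (P := P) i) (tU i) (lv P i) (lS P i) (uS P i) e where
  s1 := sde_low Q.H i
  s2 := sde_up Q.H (by have := Q.hi2; omega)
  d1 := by
    rw [disjoint_left]
    intro x hx hx'
    rw [mem_lS] at hx
    rw [mem_lv] at hx'
    omega
  d2 := by
    rw [disjoint_left]
    intro x hx hx'
    rw [mem_uS] at hx
    rw [mem_lv] at hx'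
    omega
  d3 := by
    rw [disjoint_left]
    intro x hx hx'
    rw [mem_lS] at hx
    rw [mem_uS] at hx'
    omega
  adm1 := adm_low hA
  adm2 := adm_up hB
  dis := by rw [KD_low, KD_up]; exact hd
  core1 := by
    classical
    intro x hx ht he
    rw [mem_lS] at hx
    unfold tL at ht
    have hl : lev x = i + 1 := by omega
    have hn : x ∈ near P i := mem_near.2 (Or.inl hl)
    rcases core_nearK hc hn (notMem_empty x) he with h | ⟨h1, h2⟩
    · left
      rw [mem_Tch] at h
      rcases h with ⟨-, z, hz, hz'⟩ | ⟨h3, -⟩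
      · exact ⟨z, mem_dc.2 hz, hz'⟩
      · omega
    · by_cases hxK : x ∈ K
      · left
        unfold ps at h2
        rw [if_pos hxK, mem_Tch] at h2
        rcases h2 with ⟨-, z, hz, hz'⟩ | ⟨h3, -⟩
        · exact ⟨z, mem_dc.2 hz, hz'⟩
        · omega
      right
      unfold ps at h2
      rw [if_neg hxK] at h2
      have hd : x ∈ dbL P i := by
        rcases mem_union.1 h1 with h1 | h1
        · exact h1
        · rw [mem_dbU] at h1; omega
      obtain ⟨g1, g2⟩ := Q.hM.low x hd hxK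
      rw [mem_dbL] at hd
      rw [mem_dbU] at g1
      refine ⟨psi x, mem_uS.2 (by omega), by unfold tU; omega, g2, hd.2, ?_⟩
      rw [mem_Tch] at h2
      rcases h2 with ⟨h3, -⟩ | ⟨-, z, hz, hz'⟩
      · omega
      · exact ⟨z, mem_uc.2 hz, hz'⟩
  core2 := by
    classical
    intro x hx ht he
    rw [mem_uS] at hx
    unfold tU at ht
    have hl : lev x + 1 = i := by omega
    have hn : x ∈ near P i := mem_near.2 (Or.inr hl)
    rcases core_nearK hc hn (notMem_empty x) he with h | ⟨h1, h2⟩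
    · left
      rw [mem_Tch] at h
      rcases h with ⟨h3, -⟩ | ⟨-, z, hz, hz'⟩
      · omega
      · exact ⟨z, mem_uc.2 hz, hz'⟩
    · by_cases hxK : x ∈ K
      · left
        unfold ps at h2
        rw [if_pos hxK, mem_Tch] at h2
        rcases h2 with ⟨h3, -⟩ | ⟨-, z, hz, hz'⟩
        · omega
        · exact ⟨z, mem_uc.2 hz, hz'⟩
      right
      unfold ps at h2
      rw [if_neg hxK] at h2
      have hd : x ∈ dbU P i := by
        rcases mem_union.1 h1 with h1 | h1
        · rw [mem_dbL] at h1; omega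
        · exact h1
      obtain ⟨g1, g2⟩ := Q.hM.upp x hd hxK
      rw [mem_dbU] at hd
      rw [mem_dbL] at g1
      refine ⟨psi x, mem_lS.2 (by omega), by unfold tL; omega, g2, hd.2, ?_⟩
      rw [mem_Tch] at h2
      rcases h2 with ⟨-, z, hz, hz'⟩ | ⟨h3, -⟩
      · exact ⟨z, mem_dc.2 hz, hz'⟩
      · omega

lemma PaQ.nq1 (Q : PaQ r i K psi C) (hs : Spt C e) : NQ uc (tL (P := P) i) (lS P i) e := by
  intro w hw ht he x hx x' hx' h1 h2
  rw [mem_lS] at hw
  unfold tL at ht
  exact Q.nq w (mem_of_pos hs he) (by omega) x hx x' hx' h1 h2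

lemma PaQ.nq2 (Q : PaQ r i K psi C) (hs : Spt C e) : NQ dc (tU (P := P) i) (uS P i) e := by
  intro w hw ht he x hx x' hx' h1 h2
  rw [mem_uS] at hw
  unfold tU at ht
  exact Q.nq' w (mem_of_pos hs he) (by omega) x hx x' hx' h1 h2

/-- CLASSIFICATION, energy at most four -/
theorem PaQ.cls (Q : PaQ r i K psi C) (hc : IsCore i ∅ (ps K psi) e) (hs : Spt C e)
    (hE : ∑ x, e x ≤ 4) : Cheap 1 i e ∨ (Cheap 2 i e ∧ L4 i e) := by
  by_cases hA : AdmL i e
  swap
  · exact Or.inl (Or.inl hA)
  by_cases hB : AdmU i e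
  swap
  · exact Or.inl (Or.inr (Or.inl hB))
  by_cases hd : Disjoint (AL i e) (AU i e)
  swap
  · exact Or.inl (Or.inr (Or.inr (Or.inl hd)))
  rcases (Q.cf hc hs hA hB hd).classify hE (Q.nq1 hs) (Q.nq2 hs) with h | ⟨h1, h2⟩
  · exact Or.inl (cheap_of (by exact_mod_cast h))
  · exact Or.inr ⟨cheap_of (by exact_mod_cast h1), h2⟩

/-- CLASSIFICATION, energy at most two -/
theorem PaQ.cls2 (Q : PaQ r i K psi C) (hc : IsCore i ∅ (ps K psi) e) (hs : Spt C e)
    (hE : ∑ x, e x ≤ 2) : Cheap 0 i e ∨ (Cheap 1 i e ∧ L2 i e) := by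
  by_cases hA : AdmL i e
  swap
  · exact Or.inl (Or.inl hA)
  by_cases hB : AdmU i e
  swap
  · exact Or.inl (Or.inr (Or.inl hB))
  by_cases hd : Disjoint (AL i e) (AU i e)
  swap
  · exact Or.inl (Or.inr (Or.inr (Or.inl hd)))
  rcases (Q.cf hc hs hA hB hd).low2 hE with h | ⟨h1, h2⟩
  · exact Or.inl (SO.cheap_of (by exact_mod_cast h))
  · exact Or.inr ⟨SO.cheap_of (by exact_mod_cast h1), h2⟩

/-- CLASSIFICATION, energy three -/
theorem PaQ.cls3 (Q : PaQ r i K psi C) (hc : IsCore i ∅ (ps K psi) e) (hs : Spt C e)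
    (hE : ∑ x, e x = 3) :
    Cheap 0 i e ∨ ((∃ q ∈ I3 i C, m3 i q = e) ∨ ∃ z ∈ Z4 i C, mz i z = e) := by
  by_cases hA : AdmL i e
  swap
  · exact Or.inl (Or.inl hA)
  by_cases hB : AdmU i e
  swap
  · exact Or.inl (Or.inr (Or.inl hB))
  by_cases hd : Disjoint (AL i e) (AU i e)
  swap
  · exact Or.inl (Or.inr (Or.inr (Or.inl hd)))
  rcases (Q.cf hc hs hA hB hd).low3 hE (Q.nq1 hs) (Q.nq2 hs) with h | ⟨-, h⟩
  · exact Or.inl (cheap_of (by exact_mod_cast h))
  · right
    rcases h with h | h | h | h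
    · exact Or.inl (Q3_index Q.H hs h)
    · exact Or.inl (Q3_index' Q.H hs h)
    · exact Or.inr (T3_index Q.H hs h)
    · exact Or.inr (T3_index' Q.H hs h)

theorem PaQ.cheap0 (Q : PaQ r i K psi C) (hc : IsCore i ∅ (ps K psi) e) (hs : Spt C e)
    (hE : ∑ x, e x < 2) : Cheap 0 i e := by
  rcases Q.cls2 hc hs hE.le with h | ⟨-, h⟩
  · exact h
  · have := h.energy Q.H
    omega

/-- SUMS over the cores of energy two -/
theorem PaQ.sum2 (Q : PaQ r i K psi C) (X : (P → ℕ) → ℤ)
    (hX : ∀ e, Spt C e → Cheap 0 i e → IsCore i ∅ (ps K psi) e → ∑ x, e x = 2 → X e = 0) :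
    ∑ e ∈ Co i K psi C 2, X e = ∑ p ∈ PN i C, X (on (con i p)) := by
  classical
  have H := Q.H
  have h1 : ∑ e ∈ Co i K psi C 2, X e = ∑ e ∈ (PN i C).image (fun p => on (con i p)), X e := by
    symm
    refine sum_subset ?_ ?_
    · intro e he
      rw [mem_image] at he
      obtain ⟨p, hp, rfl⟩ := he
      exact mem_Co.2 ⟨(c2_value H Q.hi Q.hi2 Q.hC hp).1, c2_spt H Q.hC hp, c2_core H hp⟩
    · intro e he hne
      obtain ⟨g1, g2, g3⟩ := mem_Co.1 he
      rcases Q.cls2 g3 g2 g1.le with h | ⟨-, h⟩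
      · exact hX e g2 h g3 g1
      · exfalso
        apply hne
        rw [mem_image]
        exact L2_index H g2 h
  rw [h1, sum_image (fun a ha b hb h => c2_inj H ha hb h)]

/-- SUMS over the cores of energy three with a label on the site `b` -/
theorem PaQ.sum3 (Q : PaQ r i K psi C) {b : P} (hbl : lev b = i)
    (X : (P → ℕ) → ℤ) (hX : ∀ e, Spt C e → Cheap 0 i e → X e = 0)
    (hX2 : ∀ e, e b = 0 → X e = 0) :
    ∑ e ∈ Co i K psi C 3, X e =
      ∑ p ∈ (PN i C).filter (fun p => (p, b) ∈ I3 i C), X (m3 i (p, b)) := by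
  classical
  have H := Q.H
  have hir := Q.hir
  have hcon : ∀ p ∈ PN i C, b ∉ con i p := by
    intro p hp h
    exact (SO.con_cls H (SO.num_PN H hp).ns).ns b h hbl
  have hval : ∀ p ∈ PN i C, ∀ g, m3 i (p, g) b = if g = b then 1 else 0 := by
    intro p hp g
    show on (con i p) b + (Pi.single g 1 : P → ℕ) b = _
    have : on (con i p) b = 0 := by
      unfold on
      rw [if_neg (hcon p hp)]
    rw [this, zero_add]
    by_cases h : g = b
    · rw [if_pos h, h, Pi.single_eq_same]
    · rw [if_neg h, Pi.single_eq_of_ne (fun h' => h h'.symm)]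
  have h1 : ∑ e ∈ Co i K psi C 3, X e =
      ∑ e ∈ ((PN i C).filter (fun p => (p, b) ∈ I3 i C)).image (fun p => m3 i (p, b)), X e := by
    symm
    refine sum_subset ?_ ?_
    · intro e he
      rw [mem_image] at he
      obtain ⟨p, hp, rfl⟩ := he
      have hq := (mem_filter.1 hp).2
      exact mem_Co.2 ⟨m3_sum H hq, (m3_val H hir Q.hC hq).2.2.2.2.2.2, m3_core H hq⟩
    · intro e he hne
      obtain ⟨g1, g2, g3⟩ := mem_Co.1 he
      rcases Q.cls3 g3 g2 g1 with h | ⟨q, hq, h⟩ | ⟨z, hz, h⟩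
      · exact hX e g2 h
      · by_cases hqb : q.2 = b
        · exfalso
          apply hne
          rw [mem_image]
          refine ⟨q.1, ?_, ?_⟩
          · rw [mem_filter]
            refine ⟨(mem_I3.1 hq).1, ?_⟩
            rw [← hqb]
            exact hq
          · show m3 i (q.1, b) = e
            rw [← hqb]
            exact h
        · apply hX2
          rw [← h]
          have := hval q.1 (mem_I3.1 hq).1 q.2
          rw [if_neg hqb] at this
          exact this
      · apply hX2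
        rw [← h]
        unfold mz on
        rw [if_neg]
        intro hbz
        have hl : lev z ≠ i := by
          rcases Z4_cases hz with ⟨-, h, -⟩ | ⟨-, h, -⟩ <;> omega
        exact (SO.con_cls H hl).ns b hbz hbl
  rw [h1, sum_image]
  intro p hp p' hp' h
  have hp1 := mem_filter.1 hp
  have hp2 := mem_filter.1 hp'
  apply c2_inj H hp1.1 hp2.1
  funext x
  have h3 := congrFun h x
  have h4 : on (con i p) x + (Pi.single b 1 : P → ℕ) x =
      on (con i p') x + (Pi.single b 1 : P → ℕ) x := h3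
  omega

/-- SUMS over the cores of energy four -/
theorem PaQ.sum4 (Q : PaQ r i K psi C) (X : (P → ℕ) → ℤ)
    (hX : ∀ e, Spt C e → Cheap 1 i e → X e = 0) :
    2 * ∑ e ∈ Co i K psi C 4, X e =
      ∑ q ∈ P4 i C, X (c4 i q) + 2 * (∑ z ∈ Z4 i C, X (cA i z) + ∑ z ∈ T4 i C, X (cB i z)) := by
  classical
  have H := Q.H
  have hir := Q.hir
  have h1 : ∑ e ∈ Co i K psi C 4, X e =
      ∑ e ∈ (P4 i C).image (c4 i) ∪ ((Z4 i C).image (cA i) ∪ (T4 i C).image (cB i)), X e := by
    symm
    refine sum_subset ?_ ?_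
    · intro e he
      simp only [mem_union, mem_image] at he
      rcases he with ⟨q, hq, rfl⟩ | ⟨z, hz, rfl⟩ | ⟨z, hz, rfl⟩
      · have hv := c4_value H Q.hi Q.hi2 Q.hC hq
        exact mem_Co.2 ⟨hv.1, c4_spt H Q.hC hq, c4_core H hq⟩
      · have hv := cA_value H hir Q.hC hz
        exact mem_Co.2 ⟨hv.1, cA_spt H Q.hC hz, cA_core H hz⟩
      · have hv := cB_value H hir Q.hC hz
        exact mem_Co.2 ⟨hv.1, cB_spt H Q.hC hz, cB_core H hz⟩
    · intro e he hne
      obtain ⟨g1, g2, g3⟩ := mem_Co.1 he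
      rcases Q.cls g3 g2 g1.le with h | ⟨-, h⟩
      · exact hX e g2 h
      · exfalso
        apply hne
        simp only [mem_union, mem_image]
        rcases h with h | h | h | h | h | h | h
        · exact Or.inl (PP_index H g2 h)
        · exact Or.inl (PP_index' H g2 h)
        · exact Or.inl (PQ_index H g2 h)
        · exact Or.inr (Or.inl (A4_index H g2 h))
        · exact Or.inr (Or.inl (A4_index' H g2 h))
        · exact Or.inr (Or.inr (B4_index H g2 h))
        · exact Or.inr (Or.inr (B4_index' H g2 h))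
  rw [h1, sum_union, sum_union]
  rotate_left
  · rw [disjoint_left]
    intro e he he'
    rw [mem_image] at he he'
    obtain ⟨z, hz, rfl⟩ := he
    obtain ⟨z', hz', h⟩ := he'
    have h2 := cA_two (i := i) z
    rw [← h] at h2
    have h3 := on_le_one (con i z' ∪ cS i z') z
    unfold cB at h2
    omega
  · rw [disjoint_union_right]
    constructor
    · rw [disjoint_left]
      intro e he he'
      rw [mem_image] at he he'
      obtain ⟨q, hq, rfl⟩ := he
      obtain ⟨z, hz, h⟩ := he'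
      have h2 := cA_two (i := i) z
      rw [h] at h2
      have h3 := on_le_one (con i q.1 ∪ con i q.2) z
      unfold c4 at h2
      omega
    · rw [disjoint_left]
      intro e he he'
      rw [mem_image] at he he'
      obtain ⟨q, hq, rfl⟩ := he
      obtain ⟨z, hz, h⟩ := he'
      obtain ⟨v, hv, hv2⟩ := cB_site H hz
      rw [h, c4_site H hq hv] at hv2
      omega
  rw [sum_image (fun a _ b _ h => cA_inj h), sum_image (fun a ha b hb h => cB_inj H ha hb h)]
  have e1 : 2 * ∑ e ∈ (P4 i C).image (c4 i), X e = ∑ q ∈ P4 i C, X (c4 i q) := by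
    have h1 : ∑ q ∈ P4 i C, X (c4 i q) =
        ∑ e ∈ (P4 i C).image (c4 i), ∑ q ∈ (P4 i C).filter (fun q => c4 i q = e), X (c4 i q) :=
      (Finset.sum_fiberwise_of_maps_to (fun q hq => mem_image_of_mem _ hq) _).symm
    rw [h1, Finset.mul_sum]
    refine Finset.sum_congr rfl fun e he => ?_
    rw [mem_image] at he
    obtain ⟨q, hq, rfl⟩ := he
    have h2 : (P4 i C).filter (fun q' => c4 i q' = c4 i q) = {q, q.swap} := by
      ext q'
      rw [mem_filter, mem_insert, mem_singleton]
      constructor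
      · rintro ⟨h3, h4⟩
        exact c4_fib H hir hq h3 h4
      · rintro (rfl | rfl)
        · exact ⟨hq, rfl⟩
        · exact ⟨P4_swap hq, c4_swap q⟩
    have hne := P4_ne H hir hq
    rw [h2, Finset.sum_pair, c4_swap]
    · ring
    · intro h
      exact hne (congrArg Prod.fst h)
  rw [← e1]
  ring

end Pool.Agent.GaussPoset.Win.Pa
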