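import Pool.Agent.W_448p_h97.PaA

/-!
MP_448cb3_co, G2, case B, window `j`: the window sum of a component with four unmatched doubles
(two stars `w, v` and `w', v'`) as a sum over the natural cores and the labels of the two stars.
helper97.
-/

namespace Pool.Agent.GaussPoset.Win.Pa

set_option linter.unusedSectionVars false

open Finset W4
open Pool.Agent.GaussPoset.Win.So (IV IV_chi IV_Fe)

universe u

variable {P : Type u} [Fintype P] [PartialOrder P] [DecidableEq P] {r i : ℕ}
variable {e f : P → ℕ} {psi : P → P} {C K : Finset P} {w v w' v' : P}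

/-! ### generating functions of labellings -/

/-- generating function over the labellings of `R` -/
noncomputable def GF (g : P → ℕ → A) (R : Finset P) : PowerSeries A :=
  PowerSeries.mk fun m => ∑ l ∈ R.piAntidiag m, ∏ x ∈ R, g x (l x)

lemma GF_empty (g : P → ℕ → A) : GF g (∅ : Finset P) = 1 := by
  ext1 m
  unfold GF
  rw [PowerSeries.coeff_mk, PowerSeries.coeff_one]
  rcases Nat.eq_zero_or_pos m with rfl | hm
  · rw [Finset.piAntidiag_zero, Finset.sum_singleton, Finset.prod_empty, if_pos rfl]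
  · rw [Finset.piAntidiag_empty_of_ne_zero (by omega), Finset.sum_empty, if_neg (by omega)]

lemma GF_insert (g : P → ℕ → A) {R : Finset P} {x : P} (hx : x ∉ R) :
    GF g (insert x R) = PowerSeries.mk (g x) * GF g R := by
  ext1 m
  rw [PowerSeries.coeff_mul]
  unfold GF
  rw [PowerSeries.coeff_mk, sum_pa_insert g hx m]
  refine sum_congr rfl fun p _ => ?_
  rw [PowerSeries.coeff_mk, PowerSeries.coeff_mk]

lemma GF_prod (g : P → ℕ → A) (R : Finset P) : GF g R = ∏ x ∈ R, PowerSeries.mk (g x) := by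
  classical
  induction R using Finset.induction_on with
  | empty => rw [GF_empty, Finset.prod_empty]
  | insert x R hx ih => rw [GF_insert g hx, Finset.prod_insert hx, ih]

open Classical in
/-- the generating function of an unmatched element -/
noncomputable def TX (i : ℕ) (e : P → ℕ) (x : P) (S : Finset P) : PowerSeries A :=
  if x ∈ Tch i e then 1 else PowerSeries.mk fun a => wt i e x a S

/-- the coefficients of `TX` -/
noncomputable def tx (i : ℕ) (e : P → ℕ) (x : P) (a : ℕ) (S : Finset P) : A :=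
  PowerSeries.coeff a (TX i e x S)

/-- the sum over the labels of two unmatched elements -/
noncomputable def WW (i : ℕ) (e : P → ℕ) (x y : P) (n : ℕ) (S : Finset P) : A :=
  ∑ p ∈ antidiagonal n, tx i e x p.1 S * tx i e y p.2 S

lemma coeff_WW (x y : P) (n : ℕ) (S : Finset P) :
    PowerSeries.coeff n (TX i e x S * TX i e y S) = WW i e x y n S := by
  rw [PowerSeries.coeff_mul]
  rfl

lemma tx_free {x : P} (h : x ∉ Tch i e) (a : ℕ) (S : Finset P) : tx i e x a S = wt i e x a S := by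
  unfold tx TX
  rw [if_neg h, PowerSeries.coeff_mk]

lemma tx_tch {x : P} (h : x ∈ Tch i e) (a : ℕ) (S : Finset P) :
    tx i e x a S = if a = 0 then 1 else 0 := by
  unfold tx TX
  rw [if_pos h, PowerSeries.coeff_one]

/-- a component with exactly four unmatched doubles -/
structure K9 (r i : ℕ) (K : Finset P) (psi : P → P) (C : Finset P) (w v w' v' : P) : Prop
    extends PaQ r i K psi C where
  hK : ∀ x ∈ C, x ∈ K ↔ x = w ∨ x = v ∨ x = w' ∨ x = v'
  wC : w ∈ C
  vC : v ∈ C
  wC' : w' ∈ C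
  vC' : v' ∈ C
  lw : lev w = i + 1
  lv : lev v + 1 = i
  lw' : lev w' = i + 1
  lv' : lev v' + 1 = i
  nww : w ≠ w'
  nvv : v ≠ v'

section

variable (Q : K9 r i K psi C w v w' v')
include Q

lemma K9.nw : w ∈ near P i := mem_near.2 (Or.inl Q.lw)
lemma K9.nv : v ∈ near P i := mem_near.2 (Or.inr Q.lv)
lemma K9.nw' : w' ∈ near P i := mem_near.2 (Or.inl Q.lw')
lemma K9.nv' : v' ∈ near P i := mem_near.2 (Or.inr Q.lv')
lemma K9.wK : w ∈ K := (Q.hK w Q.wC).2 (Or.inl rfl)
lemma K9.vK : v ∈ K := (Q.hK v Q.vC).2 (Or.inr (Or.inl rfl))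
lemma K9.wK' : w' ∈ K := (Q.hK w' Q.wC').2 (Or.inr (Or.inr (Or.inl rfl)))
lemma K9.vK' : v' ∈ K := (Q.hK v' Q.vC').2 (Or.inr (Or.inr (Or.inr rfl)))

lemma K9.nwv : w ≠ v := by
  have := Q.lw
  have := Q.lv
  rintro rfl
  omega

lemma K9.nwv' : w ≠ v' := by
  have := Q.lw
  have := Q.lv'
  rintro rfl
  omega

lemma K9.nvw' : v ≠ w' := by
  have := Q.lw'
  have := Q.lv
  rintro rfl
  omega

lemma K9.nwv'' : w' ≠ v' := by
  have := Q.lw'
  have := Q.lv'
  rintro rfl
  omega

/-- the four elements -/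
lemma K9.RK_ps (e : P → ℕ) : RK i ∅ (ps K psi) C e = RK i K psi C e ∪
    ({w, v, w', v'} : Finset P).filter (fun x => x ∉ Tch i e) := by
  ext x
  rw [mem_RK_ps, mem_union, mem_filter]
  simp only [mem_insert, mem_singleton]
  constructor
  · rintro (h | ⟨h1, h2, h3, h4⟩)
    · exact Or.inl h
    · exact Or.inr ⟨(Q.hK x h3).1 h1, h4⟩
  · rintro (h | ⟨h, h4⟩)
    · exact Or.inl h
    · right
      rcases h with rfl | rfl | rfl | rfl
      · exact ⟨Q.wK, Q.nw, Q.wC, h4⟩
      · exact ⟨Q.vK, Q.nv, Q.vC, h4⟩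
      · exact ⟨Q.wK', Q.nw', Q.wC', h4⟩
      · exact ⟨Q.vK', Q.nv', Q.vC', h4⟩

/-- THE SPLIT of the sum over the labellings of the free near elements -/
theorem K9.GK_split (e : P → ℕ) (m : ℕ) (S : Finset P) :
    GK i ∅ (ps K psi) C e m S = ∑ p ∈ antidiagonal m, ∑ t ∈ antidiagonal p.2,
      WW i e w v p.1 S * (WW i e w' v' t.1 S * GK i K psi C e t.2 S) := by
  classical
  obtain ⟨g, hg⟩ : ∃ g : P → ℕ → A, g = fun x a => wt i e x a S := ⟨_, rfl⟩
  have h1 : GK i ∅ (ps K psi) C e m S =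
      PowerSeries.coeff m (GF g (RK i ∅ (ps K psi) C e)) := by
    unfold GK GF
    rw [PowerSeries.coeff_mk, hg]
  have h2 : ∀ m, GK i K psi C e m S = PowerSeries.coeff m (GF g (RK i K psi C e)) := by
    intro m
    unfold GK GF
    rw [PowerSeries.coeff_mk, hg]
  have hdis : Disjoint (RK i K psi C e)
      (({w, v, w', v'} : Finset P).filter (fun x => x ∉ Tch i e)) := by
    rw [disjoint_left]
    intro x hx hx'
    rw [mem_filter] at hx'
    simp only [mem_insert, mem_singleton] at hx'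
    have hK : x ∈ K := by
      rcases hx'.1 with rfl | rfl | rfl | rfl
      · exact Q.wK
      · exact Q.vK
      · exact Q.wK'
      · exact Q.vK'
    exact notMem_RK hK hx
  have h3 : ∏ x ∈ ({w, v, w', v'} : Finset P).filter (fun x => x ∉ Tch i e),
      PowerSeries.mk (g x) = TX i e w S * TX i e v S * (TX i e w' S * TX i e v' S) := by
    have h4 : ∀ x, (if x ∉ Tch i e then PowerSeries.mk (g x) else (1 : PowerSeries A)) =
        TX i e x S := by
      intro x
      unfold TX
      rw [hg]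
      by_cases hx : x ∈ Tch i e
      · rw [if_pos hx, if_neg (not_not.2 hx)]
      · rw [if_neg hx, if_pos hx]
    rw [Finset.prod_filter, prod_congr rfl fun x _ => h4 x, prod_insert, prod_insert, prod_insert,
      prod_singleton]
    · ring
    · rw [mem_singleton]
      exact Q.nwv''
    · rw [mem_insert, mem_singleton, not_or]
      exact ⟨Q.nvw', Q.nvv⟩
    · rw [mem_insert, mem_insert, mem_singleton, not_or, not_or]
      exact ⟨Q.nwv, Q.nww, Q.nwv'⟩
  rw [h1, Q.RK_ps e, GF_prod, prod_union hdis, h3, mul_comm, ← GF_prod, mul_assoc,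
    PowerSeries.coeff_mul]
  refine sum_congr rfl fun p _ => ?_
  rw [coeff_WW, PowerSeries.coeff_mul, mul_sum]
  refine sum_congr rfl fun t _ => ?_
  rw [coeff_WW, h2]

end

/-- the contribution of a natural core with energies `a`, `b` on the two stars and `m` on the free near
elements -/
noncomputable def J9 (i : ℕ) (K : Finset P) (psi : P → P) (C : Finset P) (w v w' v' : P)
    (e : P → ℕ) (a b m : ℕ) : A :=
  IV (st i C) (fun S => Fe i e S * (WW i e w v a S * (WW i e w' v' b S * GK i K psi C e m S)))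

section

variable (Q : K9 r i K psi C w v w' v')
include Q

/-- THE WINDOW SUM -/
theorem K9.ZC_split (n : ℕ) :
    ZC i C n = ∑ q ∈ range (n + 1), ∑ e ∈ Co i K psi C q,
      ∑ p ∈ antidiagonal (n - q), ∑ t ∈ antidiagonal p.2,
        J9 i K psi C w v w' v' e p.1 t.1 t.2 := by
  classical
  rw [ZC_coresK Q.H Q.hir ∅ (ps K psi) Q.part n]
  refine sum_congr rfl fun q _ => ?_
  have h0 : (C.piAntidiag q).filter (IsCore i ∅ (ps K psi)) = Co i K psi C q := by
    unfold Co
    congr
  rw [h0]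
  refine sum_congr rfl fun e he => ?_
  unfold JK
  have h1 : (fun S => Fe i e S * GK i ∅ (ps K psi) C e (n - q) S) =
      fun S => ∑ p ∈ antidiagonal (n - q), ∑ t ∈ antidiagonal p.2,
        Fe i e S * (WW i e w v p.1 S * (WW i e w' v' t.1 S * GK i K psi C e t.2 S)) := by
    funext S
    rw [Q.GK_split, mul_sum]
    refine sum_congr rfl fun p _ => ?_
    rw [mul_sum]
  rw [h1]
  refine (IV_sum _ _ (fun (p : ℕ × ℕ) S => ∑ t ∈ antidiagonal p.2,
        Fe i e S * (WW i e w v p.1 S * (WW i e w' v' t.1 S * GK i K psi C e t.2 S)))).trans ?_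
  refine sum_congr rfl fun p _ => ?_
  exact IV_sum _ _ (fun (t : ℕ × ℕ) S => Fe i e S * (WW i e w v p.1 S * (WW i e w' v' t.1 S *
    GK i K psi C e t.2 S)))

end

/-! ### orders -/

/-- the coefficients have at most one deficit -/
lemma Rk_tx (H : Gr P r) (hi : 1 ≤ i) (hi2 : i + 1 ≤ r) {x : P} (hx : x ∈ near P i) (a : ℕ) :
    Rk (lv P i) (ind a) (tx i e x a) := by
  by_cases hT : x ∈ Tch i e
  · refine Rk_congr (f := fun _ => if a = 0 then 1 else 0) (fun S _ => (tx_tch hT a S).symm) ?_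
    by_cases ha : a = 0
    · rw [if_pos ha, ha, ind_zero]
      exact Rk_const _ 0 1
    · rw [if_neg ha]
      exact Rk_zero _ _
  · exact Rk_congr (fun S _ => (tx_free hT a S).symm) (Rk_wt H hi hi2 hx a)

/-- two labels: at most two deficits -/
lemma Rk_WW2 (H : Gr P r) (hi : 1 ≤ i) (hi2 : i + 1 ≤ r) {x y : P} (hx : x ∈ near P i)
    (hy : y ∈ near P i) (n : ℕ) : Rk (lv P i) (min n 2) (WW i e x y n) := by
  refine Rk_congr (f := fun S => ∑ p ∈ antidiagonal n, tx i e x p.1 S * tx i e y p.2 S)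
    (fun S _ => rfl) ?_
  refine Rk_sum _ fun p hp => ?_
  rw [HasAntidiagonal.mem_antidiagonal] at hp
  refine Rk_mono ?_ (Rk_mul (Rk_tx H hi hi2 hx p.1) (Rk_tx H hi hi2 hy p.2))
  unfold ind
  split_ifs <;> omega

/-- a common site without label, or a touched element: at most one deficit -/
lemma Rk_WW1 (H : Gr P r) (hi : 1 ≤ i) (hi2 : i + 1 ≤ r) {x y q : P} (hx : lev x = i + 1)
    (hy : lev y + 1 = i) (hq : q ∈ uc x) (hq' : q ∈ dc y)
    (h : e q = 0 ∨ x ∈ Tch i e ∨ y ∈ Tch i e) (n : ℕ) :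
    Rk (lv P i) (min n 1) (WW i e x y n) := by
  have hx' : x ∈ near P i := mem_near.2 (Or.inl hx)
  have hy' : y ∈ near P i := mem_near.2 (Or.inr hy)
  refine Rk_congr (f := fun S => ∑ p ∈ antidiagonal n, tx i e x p.1 S * tx i e y p.2 S)
    (fun S _ => rfl) ?_
  refine Rk_sum _ fun p hp => ?_
  rw [HasAntidiagonal.mem_antidiagonal] at hp
  by_cases hab : p.1 = 0 ∨ p.2 = 0
  · refine Rk_mono ?_ (Rk_mul (Rk_tx H hi hi2 hx' p.1) (Rk_tx H hi hi2 hy' p.2))
    unfold ind
    split_ifs <;> omega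
  · refine Rk_congr (f := fun _ => 0) (fun S _ => ?_) (Rk_zero _ _)
    symm
    show tx i e x p.1 S * tx i e y p.2 S = 0
    by_cases hTx : x ∈ Tch i e
    · rw [tx_tch hTx, if_neg (by omega), zero_mul]
    by_cases hTy : y ∈ Tch i e
    · rw [tx_tch hTy, if_neg (by omega), mul_zero]
    have h0 : e q = 0 := by
      rcases h with h | h | h
      · exact h
      · exact absurd h hTx
      · exact absurd h hTy
    rw [tx_free hTx, tx_free hTy, wt_low hx, wt_upp hy]
    have q1 : q ∈ kz i e x p.1 := mem_kz.2 ⟨by rw [nz_low hx]; exact hq, by omega⟩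
    have q2 : q ∈ kz i e y p.2 := mem_kz.2 ⟨by rw [nz_upp hy]; exact hq', by omega⟩
    by_cases hS : q ∈ S
    · have : chi ∅ (kz i e y p.2) S = 0 := by
        unfold chi
        rw [if_neg]
        rintro ⟨-, h2⟩
        exact disjoint_left.1 h2 q2 hS
      rw [this]
      ring
    · have : chi (kz i e x p.1) ∅ S = 0 := by
        unfold chi
        rw [if_neg]
        rintro ⟨h2, -⟩
        exact hS (h2 q1)
      rw [this]
      ring

open Classical in
/-- the star is open: its centre has a label and its elements are untouched -/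
noncomputable def bt (i : ℕ) (e : P → ℕ) (w v q : P) : ℕ :=
  if 1 ≤ e q ∧ w ∉ Tch i e ∧ v ∉ Tch i e then 1 else 0

/-- the number of deficits of a star of energy `n` -/
def rk (n β : ℕ) : ℕ := if n = 0 then 0 else if n = 1 then 1 else 1 + β

lemma bt_le (w v q : P) : bt i e w v q ≤ 1 := by
  unfold bt
  split_ifs <;> omega

lemma Rk_WW (H : Gr P r) (hi : 1 ≤ i) (hi2 : i + 1 ≤ r) {x y q : P} (hx : lev x = i + 1)
    (hy : lev y + 1 = i) (hq : q ∈ uc x) (hq' : q ∈ dc y) (n : ℕ) :
    Rk (lv P i) (rk n (bt i e x y q)) (WW i e x y n) := by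
  have hx' : x ∈ near P i := mem_near.2 (Or.inl hx)
  have hy' : y ∈ near P i := mem_near.2 (Or.inr hy)
  by_cases h : 1 ≤ e q ∧ x ∉ Tch i e ∧ y ∉ Tch i e
  · have hb : bt i e x y q = 1 := by unfold bt; rw [if_pos h]
    rw [hb]
    refine Rk_mono ?_ (Rk_WW2 H hi hi2 hx' hy' n)
    unfold rk
    split_ifs <;> omega
  · have hb : bt i e x y q = 0 := by unfold bt; rw [if_neg h]
    rw [hb]
    refine Rk_mono ?_ (Rk_WW1 H hi hi2 hx hy hq hq' ?_ n)
    · unfold rk
      split_ifs <;> omega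
    · by_contra hcon
      rw [not_or, not_or] at hcon
      exact h ⟨by omega, hcon.2.1, hcon.2.2⟩

section

variable (Q : K9 r i K psi C w v w' v')
include Q

/-- ORDER of a contribution -/
theorem K9.J9_od {k : ℕ} (hk : Cheap k i e) {b b' : P} (hb : b ∈ uc w) (hb1 : b ∈ dc v)
    (hb' : b' ∈ uc w') (hb1' : b' ∈ dc v') (n1 n2 m : ℕ) :
    od (st i C).card (k + rk n1 (bt i e w v b) + rk n2 (bt i e w' v' b'))
      (J9 i K psi C w v w' v' e n1 n2 m) := by
  unfold J9
  apply od_of_Rk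
  have h1 := Rk_mul (Rk_of_cheap hk) (Rk_mul (Rk_WW (e := e) Q.H Q.hi Q.hi2 Q.lw Q.lv hb hb1 n1)
    (Rk_mul (Rk_WW (e := e) Q.H Q.hi Q.hi2 Q.lw' Q.lv' hb' hb1' n2)
      (GK_Rk Q.H Q.hi Q.hi2 Q.hM Q.hC e m)))
  rw [add_zero, ← add_assoc] at h1
  exact h1

end

end Pool.Agent.GaussPoset.Win.Pa
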