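import Pool.Agent.W_448p_h97.PaB
import Pool.Agent.W_448so_h63.GD

/-!
MP_448cb3_co, G2, case B, window `j`: the deficits of the natural cores of a component with two stars,
the orders of the window sum and its leading terms.  helper97.
-/

namespace Pool.Agent.GaussPoset.Win.Pa

set_option linter.unusedSectionVars false

open Finset W4
open Pool.Agent.GaussPoset.Win.So (IV IV_chi IV_Fe)
open Pool.Agent.GaussPoset.Win.I2 (lS uS mem_lS mem_uS)

universe u

variable {P : Type u} [Fintype P] [PartialOrder P] [DecidableEq P] {r i : ℕ}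
variable {e f : P → ℕ} {psi : P → P} {C K : Finset P} {w v w' v' : P}

/-- a natural core has no simple edge -/
lemma core_SK (hM : Mat P i K psi) (hc : IsCore i ∅ (ps K psi) e) : K2.SK i K psi e = ∅ := by
  rw [Finset.eq_empty_iff_forall_notMem]
  intro y hy
  rw [K2.mem_SK] at hy
  obtain ⟨hd, hK, hS⟩ := hy
  obtain ⟨p1, p2, p3, p4⟩ := K2.psi_low hM hd hK
  have l1 := mem_dbL.1 hd
  have l2 := mem_dbU.1 p1
  have t1 : y ∉ Tch i e := by
    rw [mem_Tch]
    rintro (⟨-, z, hz, h0⟩ | ⟨h, -⟩)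
    · have := hS.lo z (mem_dc.2 hz)
      omega
    · omega
  have t2 : psi y ∉ Tch i e := by
    rw [mem_Tch]
    rintro (⟨h, -⟩ | ⟨-, z, hz, h0⟩)
    · omega
    · have := hS.up z (mem_uc.2 hz)
      omega
  have e1 : e y = 0 := hc y (mem_Rst.2 ⟨mem_near.2 (Or.inl l1.1), notMem_empty y, t1, by
    rintro ⟨-, h⟩
    unfold ps at h
    rw [if_neg hK] at h
    exact t2 h⟩)
  have e2 : e (psi y) = 0 := hc _ (mem_Rst.2 ⟨mem_near.2 (Or.inr l2.1), notMem_empty _, t2, by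
    rintro ⟨-, h⟩
    unfold ps at h
    rw [if_neg p4, p3] at h
    exact t1 h⟩)
  rcases hS.one with h | h <;> omega

/-- a natural core has no unexcited bad element of `K` -/
lemma core_KB (H : Gr P r) (hir : i ≤ r) (hq : K2.NoQ P (i + 2)) (hg : ∀ m, m + 1 = i → Good P m)
    (hM : Mat P i K psi) (hc : IsCore i ∅ (ps K psi) e) : K2.KB i K e = ∅ := by
  rw [Finset.eq_empty_iff_forall_notMem]
  intro y hy
  rw [K2.mem_KB] at hy
  obtain ⟨hK, ⟨h1, h2⟩ | ⟨h1, h2⟩⟩ := hy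
  · obtain ⟨h3, h4⟩ := K2.mem_bL hM H hq h1
    have l1 := mem_dbL.1 h3
    have t1 : y ∉ Tch i e := by
      rw [mem_Tch]
      rintro (⟨-, z, hz, h0⟩ | ⟨h, -⟩)
      · have := h2 z (mem_dc.2 hz)
        omega
      · omega
    have e1 : e y = 0 := hc y (mem_Rst.2 ⟨mem_near.2 (Or.inl l1.1), notMem_empty y, t1, by
      rintro ⟨-, h⟩
      unfold ps at h
      rw [if_pos hK] at h
      exact t1 h⟩)
    omega
  · obtain ⟨h3, h4⟩ := K2.mem_bU hM H hir hg h1
    have l1 := mem_dbU.1 h3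
    have t1 : y ∉ Tch i e := by
      rw [mem_Tch]
      rintro (⟨h, -⟩ | ⟨-, z, hz, h0⟩)
      · omega
      · have := h2 z (mem_uc.2 hz)
        omega
    have e1 : e y = 0 := hc y (mem_Rst.2 ⟨mem_near.2 (Or.inr l1.1), notMem_empty y, t1, by
      rintro ⟨-, h⟩
      unfold ps at h
      rw [if_pos hK] at h
      exact t1 h⟩)
    omega

/-- the sites of the two stars -/
structure K9b (r i : ℕ) (K : Finset P) (psi : P → P) (C : Finset P) (w v w' v' b b' : P) : Prop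
    extends K9 r i K psi C w v w' v' where
  hb : b ∈ uc w
  hb1 : b ∈ dc v
  hb' : b' ∈ uc w'
  hb1' : b' ∈ dc v'
  nbb : b ≠ b'
  NQ2 : K2.NoQ P (i + 2)
  Gd : ∀ m, m + 1 = i → Good P m
  tw : ∃ x, x ∉ K ∧ uc x = uc w
  tw' : ∃ x, x ∉ K ∧ uc x = uc w'

section

variable {b b' : P} (Q : K9b r i K psi C w v w' v' b b')
include Q

lemma K9b.lb : lev b = i := by
  have := lev_uc Q.H Q.hb
  have := Q.lw
  omega

lemma K9b.lb' : lev b' = i := by
  have := lev_uc Q.H Q.hb'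
  have := Q.lw'
  omega

/-- no site is full on both sides -/
theorem K9b.full (hs : Spt C e) (hd : Disjoint (AL i e) (AU i e)) {x : P} (hx : lev x = i)
    (h1 : ∀ y ∈ dc x, y ∈ K2.bL i e) (h1' : ∃ y, y ∈ dc x)
    (h2 : ∀ y ∈ uc x, y ∈ K2.bU i e) : False := by
  have H := Q.H
  have hir := Q.hir
  have key : ∀ y ∈ dc x, y ∈ K := by
    intro y hy
    by_contra hyK
    have hyb := h1 y hy
    obtain ⟨h3, h4⟩ := K2.mem_bL Q.hM H Q.NQ2 hyb
    obtain ⟨p1, p2, p3, p4⟩ := K2.psi_low Q.hM h3 hyK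
    have l1 := mem_dbL.1 h3
    have l2 := mem_dbU.1 p1
    have h5 : psi y ∈ uc x := by
      rw [mem_uc, ← mem_dc, p2, mem_uc, ← mem_dc]
      exact hy
    have h6 := h2 _ h5
    refine K2.bad_ns_ne H hir Q.NQ2 Q.Gd hd (k := y) (k' := psi y) ?_ ?_ ?_ ?_
    · exact mem_union_left _ hyb
    · exact mem_union_right _ h6
    · intro h
      rw [← h] at l2
      omega
    · unfold ns
      rw [if_pos l1.1, if_neg (by omega), p2]
  obtain ⟨y, hy⟩ := h1'
  have hyC : y ∈ C := by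
    have := (K2.mem_bL Q.hM H Q.NQ2 (h1 y hy)).2
    exact mem_of_pos hs (by omega)
  have hyl := (mem_dbL.1 (K2.mem_bL Q.hM H Q.NQ2 (h1 y hy)).1).1
  have hxy : x ∈ uc y := mem_uc.2 (mem_dc.1 hy)
  rcases (Q.hK y hyC).1 (key y hy) with h | h | h | h
  · obtain ⟨t, t1, t2⟩ := Q.tw
    rw [h, ← t2] at hxy
    exact t1 (key t (mem_dc.2 (mem_uc.1 hxy)))
  · have := Q.lv
    rw [h] at hyl
    omega
  · obtain ⟨t, t1, t2⟩ := Q.tw'
    rw [h, ← t2] at hxy
    exact t1 (key t (mem_dc.2 (mem_uc.1 hxy)))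
  · have := Q.lv'
    rw [h] at hyl
    omega

/-- THE NATURAL BOUND -/
theorem K9b.nb (hc : IsCore i ∅ (ps K psi) e) (hs : Spt C e) (hA : AdmL i e) (hB : AdmU i e)
    (hd : Disjoint (AL i e) (AU i e)) :
    2 * ((AL i e).card + (AU i e).card) + bt i e w v b + bt i e w' v' b' ≤
      ∑ x, e x + 2 * (pL i e + pU i e) := by
  classical
  have H := Q.H
  have hir := Q.hir
  obtain ⟨XL, XU, hXL, hXU, h⟩ := K2.main_K Q.hM H hir Q.NQ2 Q.Gd hA hB hd (δ := 0) (Or.inl rfl)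
  rw [core_SK Q.hM hc, core_KB H hir Q.NQ2 Q.Gd Q.hM hc, card_empty] at h
  have hdis : Disjoint XL XU := by
    rw [disjoint_left]
    intro x hx hx'
    obtain ⟨g1, g2, g3, g4⟩ := hXL x hx
    obtain ⟨k1, k2, k3, k4⟩ := hXU x hx'
    exact Q.full hs hd g1 (fun y hy => (g4 y hy).1) g3 (fun y hy => (k4 y hy).1)
  obtain ⟨B, hBd⟩ : ∃ B : Finset P, B = ({b, b'} : Finset P).filter (fun x =>
      (x = b ∧ bt i e w v b = 1) ∨ (x = b' ∧ bt i e w' v' b' = 1)) := ⟨_, rfl⟩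
  have hB1 : ∀ x ∈ B, lev x = i ∧ 1 ≤ e x ∧ x ∉ XL ∧ x ∉ XU := by
    intro x hx
    rw [hBd, mem_filter] at hx
    have gen : ∀ {w v b : P}, lev w = i + 1 → lev v + 1 = i → b ∈ uc w → b ∈ dc v →
        bt i e w v b = 1 → lev b = i ∧ 1 ≤ e b ∧ b ∉ XL ∧ b ∉ XU := by
      intro w v b lw lv bw bv hb
      unfold bt at hb
      have hb' : 1 ≤ e b ∧ w ∉ Tch i e ∧ v ∉ Tch i e := by
        by_contra hcon
        rw [if_neg hcon] at hb
        omega
      have hl := lev_uc H bw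
      refine ⟨by omega, hb'.1, ?_, ?_⟩
      · intro hX
        obtain ⟨z, hz, hz1⟩ := ((hXL b hX).2.2.2 w (mem_dc.2 (mem_uc.1 bw))).2
        exact hb'.2.1 (mem_Tch.2 (Or.inl ⟨lw, z, mem_dc.1 hz, hz1⟩))
      · intro hX
        obtain ⟨z, hz, hz1⟩ := ((hXU b hX).2.2.2 v (mem_uc.2 (mem_dc.1 bv))).2
        exact hb'.2.2 (mem_Tch.2 (Or.inr ⟨lv, z, mem_uc.1 hz, hz1⟩))
    rcases hx.2 with ⟨rfl, h2⟩ | ⟨rfl, h2⟩
    · exact gen Q.lw Q.lv Q.hb Q.hb1 h2
    · exact gen Q.lw' Q.lv' Q.hb' Q.hb1' h2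
  have hBc : bt i e w v b + bt i e w' v' b' ≤ B.card := by
    have g1 := bt_le (i := i) (e := e) w v b
    have g2 := bt_le (i := i) (e := e) w' v' b'
    have m1 : bt i e w v b = 1 → b ∈ B := by
      intro h
      rw [hBd, mem_filter]
      exact ⟨mem_insert_self _ _, Or.inl ⟨rfl, h⟩⟩
    have m2 : bt i e w' v' b' = 1 → b' ∈ B := by
      intro h
      rw [hBd, mem_filter]
      exact ⟨mem_insert_of_mem (mem_singleton_self _), Or.inr ⟨rfl, h⟩⟩
    rcases Nat.eq_zero_or_pos (bt i e w v b) with z1 | z1 <;>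
      rcases Nat.eq_zero_or_pos (bt i e w' v' b') with z2 | z2
    · omega
    · have := card_pos.2 ⟨b', m2 (by omega)⟩
      omega
    · have := card_pos.2 ⟨b, m1 (by omega)⟩
      omega
    · have h3 : ({b, b'} : Finset P) ⊆ B := by
        intro x hx
        rw [mem_insert, mem_singleton] at hx
        rcases hx with rfl | rfl
        · exact m1 (by omega)
        · exact m2 (by omega)
      have h4 := card_le_card h3
      rw [card_pair Q.nbb] at h4
      omega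
  have hdB : Disjoint B (XL ∪ XU) := by
    rw [disjoint_left]
    intro x hx hx'
    obtain ⟨-, -, g3, g4⟩ := hB1 x hx
    rcases mem_union.1 hx' with h | h
    · exact g3 h
    · exact g4 h
  have hsum : (B ∪ (XL ∪ XU)).card ≤ ∑ x ∈ lv P i, e x := by
    rw [Finset.card_eq_sum_ones]
    have hh : ∀ x ∈ B ∪ (XL ∪ XU), lev x = i ∧ 1 ≤ e x := by
      intro x hx
      rcases mem_union.1 hx with h | h
      · exact ⟨(hB1 x h).1, (hB1 x h).2.1⟩
      · rcases mem_union.1 h with h | h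
        · exact ⟨(hXL x h).1, (hXL x h).2.1⟩
        · exact ⟨(hXU x h).1, (hXU x h).2.1⟩
    refine le_trans (Finset.sum_le_sum (g := fun x => e x) fun x hx => (hh x hx).2) ?_
    exact Finset.sum_le_sum_of_subset fun x hx => mem_lv.2 (hh x hx).1
  rw [card_union_of_disjoint hdB, card_union_of_disjoint hdis] at hsum
  have htot : ∑ x ∈ lS P i, e x + ∑ x ∈ uS P i, e x + ∑ x ∈ lv P i, e x ≤ ∑ x, e x := by
    have d1 : Disjoint (lS P i) (uS P i) := by
      rw [disjoint_left]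
      intro x hx hx'
      rw [mem_lS] at hx
      rw [mem_uS] at hx'
      omega
    have d2 : Disjoint (lS P i ∪ uS P i) (lv P i) := by
      rw [disjoint_left]
      intro x hx hx'
      rw [mem_lv] at hx'
      rcases mem_union.1 hx with h | h
      · rw [mem_lS] at h
        omega
      · rw [mem_uS] at h
        omega
    rw [← sum_union d1, ← sum_union d2]
    exact sum_le_sum_of_subset (subset_univ _)
  omega

/-- cheapness of the natural cores -/
theorem K9b.cheap {q : ℕ} (he : e ∈ Co i K psi C q) :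
    Cheap ((q - bt i e w v b - bt i e w' v' b') / 2) i e := by
  classical
  obtain ⟨g1, g2, g3⟩ := mem_Co.1 he
  by_cases hA : AdmL i e
  swap
  · exact Or.inl hA
  by_cases hB : AdmU i e
  swap
  · exact Or.inr (Or.inl hB)
  by_cases hd : Disjoint (AL i e) (AU i e)
  swap
  · exact Or.inr (Or.inr (Or.inl hd))
  have h := Q.nb g3 g2 hA hB hd
  rw [g1] at h
  right; right; right
  omega

/-- the labels of the centres -/
lemma K9b.bt_sum {n : ℕ} (hs : ∑ x, e x = n) : bt i e w v b + bt i e w' v' b' ≤ n := by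
  have h1 : bt i e w v b ≤ e b := by
    unfold bt
    split_ifs with h
    · exact h.1
    · omega
  have h2 : bt i e w' v' b' ≤ e b' := by
    unfold bt
    split_ifs with h
    · exact h.1
    · omega
  have h3 : ∑ x ∈ ({b, b'} : Finset P), e x ≤ ∑ x, e x := sum_le_sum_of_subset (subset_univ _)
  rw [sum_pair Q.nbb, hs] at h3
  omega

/-- ORDER of the contribution of a natural core -/
theorem K9b.od {q : ℕ} (he : e ∈ Co i K psi C q) (n1 n2 m : ℕ) :
    od (st i C).card ((q - bt i e w v b - bt i e w' v' b') / 2 + rk n1 (bt i e w v b) +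
      rk n2 (bt i e w' v' b')) (J9 i K psi C w v w' v' e n1 n2 m) :=
  Q.J9_od (Q.cheap he) Q.hb Q.hb1 Q.hb' Q.hb1' n1 n2 m

/-- orders with a numerical bound -/
theorem K9b.od' {q k : ℕ} (he : e ∈ Co i K psi C q) {n1 n2 m : ℕ}
    (hk : ∀ β β', β ≤ 1 → β' ≤ 1 → β + β' ≤ q → (q - β - β') / 2 + rk n1 β + rk n2 β' ≤ k) :
    W4.od (st i C).card k (J9 i K psi C w v w' v' e n1 n2 m) :=
  od_mono (hk _ _ (bt_le _ _ _) (bt_le _ _ _) (Q.bt_sum (mem_Co.1 he).1)) (Q.od he n1 n2 m)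

end

/-- sums over triples -/
lemma tri_sum {M : Type*} [AddCommMonoid M] (s : ℕ) (F : ℕ → ℕ → ℕ → M)
    (T : Finset (ℕ × ℕ × ℕ)) (hT : ∀ x ∈ T, x.1 + x.2.1 + x.2.2 = s)
    (h0 : ∀ x y z, x + y + z = s → (x, y, z) ∉ T → F x y z = 0) :
    ∑ p ∈ antidiagonal s, ∑ t ∈ antidiagonal p.2, F p.1 t.1 t.2 =
      ∑ x ∈ T, F x.1 x.2.1 x.2.2 := by
  classical
  rw [Finset.sum_sigma']
  symm
  refine Finset.sum_of_injOn (fun x => (⟨(x.1, x.2.1 + x.2.2), (x.2.1, x.2.2)⟩ : (_ : ℕ × ℕ) × ℕ × ℕ))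
    ?_ ?_ ?_ ?_
  · rintro ⟨x, y, z⟩ - ⟨x', y', z'⟩ - h
    simp only [Sigma.mk.injEq, Prod.mk.injEq, heq_eq_eq] at h
    obtain ⟨⟨h1, -⟩, h2, h3⟩ := h
    rw [h1, h2, h3]
  · rintro ⟨x, y, z⟩ hx
    have := hT _ hx
    simp only [coe_sigma, Set.mem_sigma_iff, mem_coe, HasAntidiagonal.mem_antidiagonal]
    simp only at this
    exact ⟨by omega, trivial⟩
  · rintro ⟨⟨x, y'⟩, ⟨y, z⟩⟩ hx hn
    simp only [mem_sigma, HasAntidiagonal.mem_antidiagonal] at hx
    obtain ⟨h1, h2⟩ := hx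
    apply h0 x y z (by omega)
    intro hm
    apply hn
    refine ⟨(x, y, z), hm, ?_⟩
    show (⟨(x, y + z), (y, z)⟩ : (_ : ℕ × ℕ) × ℕ × ℕ) = ⟨(x, y'), (y, z)⟩
    rw [h2]
  · rintro ⟨x, y, z⟩ -
    rfl

section

variable {b b' : P} (Q : K9b r i K psi C w v w' v' b b')
include Q

/-- ORDERS of the window sum -/
theorem K9b.ZC_od {n k : ℕ} (hk : ∀ q β β' n1 n2, β ≤ 1 → β' ≤ 1 → β + β' ≤ q →
    q + n1 + n2 ≤ n → (q - β - β') / 2 + rk n1 β + rk n2 β' ≤ k) :
    W4.od (st i C).card k (ZC i C n) := by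
  rw [Q.ZC_split n]
  refine od_sum fun q hq => od_sum fun e he => od_sum fun p hp => od_sum fun t ht => ?_
  rw [mem_range] at hq
  rw [HasAntidiagonal.mem_antidiagonal] at hp ht
  exact Q.od' he fun β β' h1 h2 h3 => hk q β β' _ _ h1 h2 h3 (by omega)

theorem K9b.od2 : W4.od (st i C).card 2 (ZC i C 2) := Q.ZC_od fun q β β' n1 n2 h1 h2 h3 h4 => by
  unfold rk; split_ifs <;> omega

theorem K9b.od3 : W4.od (st i C).card 2 (ZC i C 3) := Q.ZC_od fun q β β' n1 n2 h1 h2 h3 h4 => by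
  unfold rk; split_ifs <;> omega

theorem K9b.od4 : W4.od (st i C).card 3 (ZC i C 4) := Q.ZC_od fun q β β' n1 n2 h1 h2 h3 h4 => by
  unfold rk; split_ifs <;> omega

theorem K9b.od5 : W4.od (st i C).card 3 (ZC i C 5) := Q.ZC_od fun q β β' n1 n2 h1 h2 h3 h4 => by
  unfold rk; split_ifs <;> omega

theorem K9b.od6 : W4.od (st i C).card 4 (ZC i C 6) := Q.ZC_od fun q β β' n1 n2 h1 h2 h3 h4 => by
  unfold rk; split_ifs <;> omega

/-- the leading terms -/
theorem K9b.ZC_lc {n k : ℕ} (T : ℕ → Finset (ℕ × ℕ × ℕ))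
    (hT : ∀ q ≤ n, ∀ x ∈ T q, x.1 + x.2.1 + x.2.2 = n - q)
    (hk : ∀ q n1 n2 m, q + n1 + n2 + m = n → (n1, n2, m) ∉ T q → ∀ β β', β ≤ 1 → β' ≤ 1 →
      β + β' ≤ q → (q - β - β') / 2 + rk n1 β + rk n2 β' < k) :
    lc (st i C).card k (ZC i C n) = ∑ q ∈ range (n + 1), ∑ e ∈ Co i K psi C q, ∑ x ∈ T q,
      lc (st i C).card k (J9 i K psi C w v w' v' e x.1 x.2.1 x.2.2) := by
  rw [Q.ZC_split n, lc_sum]
  refine sum_congr rfl fun q hq => ?_
  rw [lc_sum]
  refine sum_congr rfl fun e he => ?_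
  rw [mem_range] at hq
  rw [lc_sum]
  have h1 : ∀ p ∈ antidiagonal (n - q), lc (st i C).card k (∑ t ∈ antidiagonal p.2,
      J9 i K psi C w v w' v' e p.1 t.1 t.2) = ∑ t ∈ antidiagonal p.2,
      lc (st i C).card k (J9 i K psi C w v w' v' e p.1 t.1 t.2) := fun p _ => lc_sum _ _ _ _
  rw [sum_congr rfl h1]
  refine tri_sum (n - q) (fun x y z => lc (st i C).card k (J9 i K psi C w v w' v' e x y z)) (T q)
    (hT q (by omega)) ?_
  intro x y z hx hn
  rcases Nat.eq_zero_or_pos k with rfl | hk0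
  · have := hk q x y z (by omega) hn 0 0 (by omega) (by omega) (by omega)
    omega
  · exact lc_lt (show k - 1 < k by omega) (Q.od' he fun β β' g1 g2 g3 => by
      have := hk q x y z (by omega) hn β β' g1 g2 g3
      omega)

end

end Pool.Agent.GaussPoset.Win.Pa
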