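import Pool.Agent.W_448p_h97.PaC

/-!
MP_448cb3_co, G2, case B, window `j`: values of the contributions of a component with two stars.
helper97.
-/

namespace Pool.Agent.GaussPoset.Win.Pa

set_option linter.unusedSectionVars false

open Finset W4
open Pool.Agent.GaussPoset.Win.So (IV_chi IV_Fe)

universe u

variable {P : Type u} [Fintype P] [PartialOrder P] [DecidableEq P] {r i : ℕ}
variable {e f : P → ℕ} {psi : P → P} {C K : Finset P} {w v w' v' : P}

/-! ### adding a label -/

lemma Part_i {i : ℕ} (hC : Part (i + 1) C) : Part i C :=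
  ⟨fun h1 h2 => hC.up h1 h2, fun h1 h2 h3 => hC.dn h1 (by omega) h3⟩

lemma Spt_add (hs : Spt C e) {x : P} (hx : x ∈ C) (a : ℕ) : Spt C (e + Pi.single x a) := by
  intro y hy
  rw [Pi.add_apply, hs y hy, Pi.single_apply, if_neg, add_zero]
  rintro rfl
  exact hy hx

lemma tC_bad (H : Gr P r) (hir : i ≤ r) (hC : Part (i + 1) C) (hs : Spt C e) {x : P}
    (hx : x ∈ near P i) (hxC : x ∈ C) (hT : x ∉ Tch i e) (h0 : e x = 0) (a : ℕ)
    (h : ¬ (AdmL i e ∧ AdmU i e ∧ Disjoint (AL i e) (AU i e))) :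
    tC i C (e + Pi.single x a) = 0 := by
  rw [W4.tC_add H hir (Part_i hC) hs hx hxC hT h0 a]
  unfold IV
  refine sum_eq_zero fun S _ => ?_
  show xx ^ S.card * (Fe i e S * _) = 0
  rw [Fe_zero h, zero_mul, mul_zero]

/-- ADDING A LABEL on an untouched double -/
theorem add_lc (H : Gr P r) (hir : i ≤ r) (hC : Part (i + 1) C) (hs : Spt C e) {x : P}
    (hx : x ∈ near P i) (hxC : x ∈ C) (h2 : (nz i x).card = 2) (hT : x ∉ Tch i e) (h0 : e x = 0)
    {a k : ℕ} (ha : a ≠ 0) (ho : od (st i C).card k (tC i C e)) :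
    od (st i C).card (k + 1) (tC i C (e + Pi.single x a)) ∧
      lc (st i C).card (k + 1) (tC i C (e + Pi.single x a)) =
        sg1 i x * FG i e x a * lc (st i C).card k (tC i C e) := by
  by_cases hadm : AdmL i e ∧ AdmU i e ∧ Disjoint (AL i e) (AU i e)
  swap
  · rw [tC_bad H hir hC hs hx hxC hT h0 a hadm, W4.tC_zero hadm, lc_zero, lc_zero, mul_zero]
    exact ⟨od_zero _ _, rfl⟩
  unfold FG
  by_cases hF : Fx i e x a
  · obtain ⟨g1, g2⟩ := val_F H hir hC hs hadm.2.2 hx hxC hT h0 h2 hF ho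
    rw [if_pos hF, g2]
    exact ⟨g1, by ring⟩
  · rw [if_neg hF]
    by_cases hG : Gx i e x a
    · obtain ⟨g1, g2⟩ := val_G H hir hC hs hadm.2.2 hx hxC hT h0 hG ho
      rw [if_pos hG, g2]
      exact ⟨g1, by ring⟩
    · have := val_N H hir hC hs hadm.2.2 hx hxC hT h0 (by omega) (fun _ => hF) hG ho
      rw [if_neg hG, mul_zero, zero_mul]
      exact ⟨od_succ this, lc_of_od this⟩

/-- the killed sites after adding a label -/
lemma ALU_add (H : Gr P r) {x : P} (hx : x ∈ near P i) (h0 : e x = 0) (a : ℕ) :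
    AL i (e + Pi.single x a) ∪ AU i (e + Pi.single x a) = AL i e ∪ AU i e ∪ kz i e x a := by
  rcases mem_near.1 hx with h | h
  · rw [AL_low H h h0, AU_low H h h0]
    ext y
    simp only [mem_union]
    tauto
  · rw [AL_upp H h h0, AU_upp H h h0, union_assoc]

lemma add_site (H : Gr P r) {x y : P} (hx : x ∈ near P i) (hy : lev y = i) (a : ℕ) :
    (e + Pi.single x a : P → ℕ) y = e y := by
  rw [Pi.add_apply, Pi.single_apply, if_neg, add_zero]
  rintro rfl
  rw [mem_near] at hx
  omega

lemma FG_add (H : Gr P r) {x y : P} (hx : x ∈ near P i) (hy : y ∈ near P i) (h0 : e x = 0)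
    {a b : ℕ} (hd : Disjoint (kz i e x a) (nz i y)) :
    FG i (e + Pi.single x a) y b = FG i e y b := by
  have h1 : (∀ s ∈ nz i y, (e + Pi.single x a : P → ℕ) s < b) ↔ ∀ s ∈ nz i y, e s < b := by
    constructor
    · intro h s hs
      have := h s hs
      rwa [add_site H hx (nz_lev H hy hs)] at this
    · intro h s hs
      rw [add_site H hx (nz_lev H hy hs)]
      exact h s hs
  have h2 : kz i (e + Pi.single x a) y b = kz i e y b := kz_add H hx hy
  have h3 : ∀ B : Finset P, B ⊆ nz i y → (Disjoint B (AL i (e + Pi.single x a) ∪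
      AU i (e + Pi.single x a)) ↔ Disjoint B (AL i e ∪ AU i e)) := by
    intro B hB
    rw [ALU_add H hx h0, disjoint_union_right]
    constructor
    · exact fun h => h.1
    · exact fun h => ⟨h, (disjoint_of_subset_right hB hd).symm⟩
  unfold FG
  have e1 : Fx i (e + Pi.single x a) y b ↔ Fx i e y b := by
    unfold Fx
    rw [h1, h3 _ subset_rfl]
  have e2 : Gx i (e + Pi.single x a) y b ↔ Gx i e y b := by
    unfold Gx
    rw [h2, h3 _ kz_sub]
  by_cases c1 : Fx i e y b
  · rw [if_pos c1, if_pos (e1.2 c1)]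
  · rw [if_neg c1, if_neg (fun h => c1 (e1.1 h))]
    by_cases c2 : Gx i e y b
    · rw [if_pos c2, if_pos (e2.2 c2)]
    · rw [if_neg c2, if_neg (fun h => c2 (e2.1 h))]

/-! ### the contributions as values of configurations -/

lemma tx_add (H : Gr P r) {l : P → ℕ} (hl : ∀ x, x ∉ near P i → l x = 0) {y : P}
    (hy : y ∈ near P i) (b : ℕ) (S : Finset P) : tx i (e + l) y b S = tx i e y b S := by
  have hT : Tch i (e + l) = Tch i e := Tch_add H hl
  by_cases h : y ∈ Tch i e
  · rw [tx_tch h, tx_tch (by rw [hT]; exact h)]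
  · rw [tx_free h, tx_free (by rw [hT]; exact h)]
    refine So.wt_congr H (fun z hz => ?_) hy _ _
    rw [Pi.add_apply, hl z, add_zero]
    rw [mem_near]
    omega

open Classical in
lemma Fe_tx (H : Gr P r) (hir : i ≤ r) {x : P} (hx : x ∈ near P i)
    (h0 : x ∉ Tch i e → e x = 0) (a : ℕ) (S : Finset P) :
    Fe i e S * tx i e x a S = if Ac i e x a then Fe i (e + Pi.single x a) S else 0 := by
  by_cases hT : x ∈ Tch i e
  · rw [tx_tch hT]
    by_cases ha : a = 0
    · rw [if_pos ha, ha, if_pos (show Ac i e x 0 from Or.inl rfl), Pi.single_zero, add_zero, mul_one]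
    · rw [if_neg ha, mul_zero, if_neg (show ¬ Ac i e x a from ?_)]
      rintro (h | h)
      · exact ha h
      · exact h hT
  · rw [tx_free hT, if_pos (show Ac i e x a from Or.inr hT), Fe_add1 H hir hx hT (h0 hT)]

open Classical in
/-- the value with labels on the two stars -/
noncomputable def Jw (i : ℕ) (K : Finset P) (psi : P → P) (C : Finset P) (w v w' v' : P)
    (e : P → ℕ) (a b a' b' m : ℕ) : A :=
  if (Ac i e w a ∧ Ac i e v b) ∧ Ac i e w' a' ∧ Ac i e v' b' then
    JK i K psi C m (e + Pi.single w a + Pi.single v b + Pi.single w' a' + Pi.single v' b')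
  else 0

section

variable (Q : K9 r i K psi C w v w' v')
include Q

lemma K9.core0 (hc : IsCore i ∅ (ps K psi) e) {x : P} (hx : x = w ∨ x = v ∨ x = w' ∨ x = v')
    (hT : x ∉ Tch i e) : e x = 0 := by
  refine hc x (mem_RK.1 (mem_RK_ps (C := C) |>.2 (Or.inr ?_))).1
  rcases hx with rfl | rfl | rfl | rfl
  · exact ⟨Q.wK, Q.nw, Q.wC, hT⟩
  · exact ⟨Q.vK, Q.nv, Q.vC, hT⟩
  · exact ⟨Q.wK', Q.nw', Q.wC', hT⟩
  · exact ⟨Q.vK', Q.nv', Q.vC', hT⟩

lemma K9.Fe4 (hc : IsCore i ∅ (ps K psi) e) (a b a' b' m : ℕ) :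
    So.IV (st i C) (fun S => Fe i e S * (tx i e w a S * tx i e v b S *
      (tx i e w' a' S * tx i e v' b' S * GK i K psi C e m S))) =
    Jw i K psi C w v w' v' e a b a' b' m := by
  classical
  have H := Q.H
  have hir := Q.hir
  have c1 := fun h => Q.core0 hc (x := w) (Or.inl rfl) h
  have c2 := fun h => Q.core0 hc (x := v) (Or.inr (Or.inl rfl)) h
  have c3 := fun h => Q.core0 hc (x := w') (Or.inr (Or.inr (Or.inl rfl))) h
  have c4 := fun h => Q.core0 hc (x := v') (Or.inr (Or.inr (Or.inr rfl))) h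
  have f1 := single_far (i := i) Q.nw a
  have f2 := single_far (i := i) Q.nv b
  have f3 := single_far (i := i) Q.nw' a'
  have f4 := single_far (i := i) Q.nv' b'
  obtain ⟨e1, he1⟩ : ∃ e1, e1 = e + Pi.single w a := ⟨_, rfl⟩
  obtain ⟨e2, he2⟩ : ∃ e2, e2 = e1 + Pi.single v b := ⟨_, rfl⟩
  obtain ⟨e3, he3⟩ : ∃ e3, e3 = e2 + Pi.single w' a' := ⟨_, rfl⟩
  have T1 : Tch i e1 = Tch i e := by rw [he1]; exact Tch_add H f1
  have T2 : Tch i e2 = Tch i e := by rw [he2, Tch_add H f2]; exact T1
  have T3 : Tch i e3 = Tch i e := by rw [he3, Tch_add H f3]; exact T2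
  have key : ∀ S, Fe i e S * (tx i e w a S * tx i e v b S *
      (tx i e w' a' S * tx i e v' b' S * GK i K psi C e m S)) =
      if (Ac i e w a ∧ Ac i e v b) ∧ Ac i e w' a' ∧ Ac i e v' b' then
        Fe i (e3 + Pi.single v' b') S * GK i K psi C (e3 + Pi.single v' b') m S else 0 := by
    intro S
    have x1 : tx i e v b S = tx i e1 v b S := by rw [he1, tx_add H f1 Q.nv]
    have x2 : tx i e w' a' S = tx i e2 w' a' S := by
      rw [he2, tx_add H f2 Q.nw', he1, tx_add H f1 Q.nw']
    have x3 : tx i e v' b' S = tx i e3 v' b' S := by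
      rw [he3, tx_add H f3 Q.nv', he2, tx_add H f2 Q.nv', he1, tx_add H f1 Q.nv']
    have x4 : GK i K psi C e m S = GK i K psi C (e3 + Pi.single v' b') m S := by
      rw [GK_add H f4, he3, GK_add H f3, he2, GK_add H f2, he1, GK_add H f1]
    have s1 : Fe i e S * tx i e w a S = if Ac i e w a then Fe i e1 S else 0 := by
      rw [he1]; exact Fe_tx H hir Q.nw c1 a S
    have s2 : Fe i e1 S * tx i e v b S = if Ac i e v b then Fe i e2 S else 0 := by
      have := Fe_tx H hir (e := e1) Q.nv (fun h => by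
        rw [T1] at h
        rw [he1, Pi.add_apply, c2 h, Pi.single_apply, if_neg Q.nwv.symm, add_zero]) b S
      rw [← x1] at this
      rw [this, he2]
      unfold Ac
      rw [T1]
    have s3 : Fe i e2 S * tx i e w' a' S = if Ac i e w' a' then Fe i e3 S else 0 := by
      have := Fe_tx H hir (e := e2) Q.nw' (fun h => by
        rw [T2] at h
        rw [he2, he1, Pi.add_apply, Pi.add_apply, c3 h, Pi.single_apply, if_neg Q.nww.symm,
          Pi.single_apply, if_neg Q.nvw'.symm, add_zero, add_zero]) a' S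
      rw [← x2] at this
      rw [this, he3]
      unfold Ac
      rw [T2]
    have s4 : Fe i e3 S * tx i e v' b' S =
        if Ac i e v' b' then Fe i (e3 + Pi.single v' b') S else 0 := by
      have := Fe_tx H hir (e := e3) Q.nv' (fun h => by
        rw [T3] at h
        rw [he3, he2, he1, Pi.add_apply, Pi.add_apply, Pi.add_apply, c4 h, Pi.single_apply,
          if_neg Q.nwv'.symm, Pi.single_apply, if_neg Q.nvv.symm, Pi.single_apply,
          if_neg Q.nwv''.symm, add_zero, add_zero, add_zero]) b' S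
      rw [← x3] at this
      rw [this]
      unfold Ac
      rw [T3]
    have t : Fe i e S * (tx i e w a S * tx i e v b S *
        (tx i e w' a' S * tx i e v' b' S * GK i K psi C e m S)) =
        Fe i e S * tx i e w a S * tx i e v b S * tx i e w' a' S * tx i e v' b' S *
          GK i K psi C e m S := by ring
    rw [t, s1]
    by_cases g1 : Ac i e w a
    · rw [if_pos g1, s2]
      by_cases g2 : Ac i e v b
      · rw [if_pos g2, s3]
        by_cases g3 : Ac i e w' a'
        · rw [if_pos g3, s4]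
          by_cases g4 : Ac i e v' b'
          · rw [if_pos g4, if_pos ⟨⟨g1, g2⟩, g3, g4⟩, x4]
          · rw [if_neg g4, if_neg (fun h => g4 h.2.2), zero_mul]
        · rw [if_neg g3, if_neg (fun h => g3 h.2.1), zero_mul, zero_mul]
      · rw [if_neg g2, if_neg (fun h => g2 h.1.2), zero_mul, zero_mul, zero_mul]
    · rw [if_neg g1, if_neg (fun h => g1 h.1.1), zero_mul, zero_mul, zero_mul, zero_mul]
  unfold Jw JK
  have hfun : (fun S => Fe i e S * (tx i e w a S * tx i e v b S *
      (tx i e w' a' S * tx i e v' b' S * GK i K psi C e m S))) = fun S =>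
      if (Ac i e w a ∧ Ac i e v b) ∧ Ac i e w' a' ∧ Ac i e v' b' then
        Fe i (e3 + Pi.single v' b') S * GK i K psi C (e3 + Pi.single v' b') m S else 0 :=
    funext key
  rw [hfun]
  by_cases hc' : (Ac i e w a ∧ Ac i e v b) ∧ Ac i e w' a' ∧ Ac i e v' b'
  · simp only [if_pos hc']
    rw [he3, he2, he1]
  · simp only [if_neg hc']
    unfold So.IV
    exact sum_eq_zero fun S _ => mul_zero _

/-- the contributions as sums of values -/
theorem K9.J9_eq (hc : IsCore i ∅ (ps K psi) e) (n1 n2 m : ℕ) :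
    J9 i K psi C w v w' v' e n1 n2 m = ∑ p ∈ antidiagonal n1, ∑ q ∈ antidiagonal n2,
      Jw i K psi C w v w' v' e p.1 p.2 q.1 q.2 m := by
  unfold J9
  have h1 : (fun S => Fe i e S * (WW i e w v n1 S * (WW i e w' v' n2 S * GK i K psi C e m S))) =
      fun S => ∑ p ∈ antidiagonal n1, ∑ q ∈ antidiagonal n2, Fe i e S *
        (tx i e w p.1 S * tx i e v p.2 S * (tx i e w' q.1 S * tx i e v' q.2 S *
          GK i K psi C e m S)) := by
    funext S
    unfold WW
    rw [sum_mul, mul_sum]
    refine sum_congr rfl fun p _ => ?_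
    rw [sum_mul, mul_sum, mul_sum]
  rw [h1]
  refine (IV_sum _ _ (fun (p : ℕ × ℕ) S => ∑ q ∈ antidiagonal n2, Fe i e S *
        (tx i e w p.1 S * tx i e v p.2 S * (tx i e w' q.1 S * tx i e v' q.2 S *
          GK i K psi C e m S)))).trans ?_
  refine sum_congr rfl fun p _ => ?_
  refine (IV_sum _ _ (fun (q : ℕ × ℕ) S => Fe i e S *
        (tx i e w p.1 S * tx i e v p.2 S * (tx i e w' q.1 S * tx i e v' q.2 S *
          GK i K psi C e m S)))).trans ?_
  exact sum_congr rfl fun q _ => Q.Fe4 hc _ _ _ _ m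

end

end Pool.Agent.GaussPoset.Win.Pa
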