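import Pool.Agent.W_448p_h97.PaD

/-!
MP_448cb3_co, G2, case B, window `j`: values of the contributions with labels on the two stars.
helper97.
-/

namespace Pool.Agent.GaussPoset.Win.Pa

set_option linter.unusedSectionVars false

open Finset W4
open Pool.Agent.GaussPoset.Win.So (IV_chi IV_Fe)

universe u

variable {P : Type u} [Fintype P] [PartialOrder P] [DecidableEq P] {r i : ℕ}
variable {e f : P → ℕ} {psi : P → P} {C K : Finset P} {w v w' v' a b c a' b' c' : P}

/-- the factor of a label -/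
noncomputable def fg (i : ℕ) (e : P → ℕ) (x : P) (n : ℕ) : ℤ :=
  if n = 0 then 1 else sg1 i x * FG i e x n

lemma fg_zero (e : P → ℕ) (x : P) : fg i e x 0 = 1 := if_pos rfl

lemma fg_pos (e : P → ℕ) (x : P) {n : ℕ} (h : n ≠ 0) : fg i e x n = sg1 i x * FG i e x n :=
  if_neg h

/-- one step -/
lemma step_lc (H : Gr P r) (hir : i ≤ r) (hC : Part (i + 1) C) (hs : Spt C e) {x : P}
    (hx : x ∈ near P i) (hxC : x ∈ C) (h2 : (nz i x).card = 2) {n k : ℕ}
    (hA : n = 0 ∨ (x ∉ Tch i e ∧ e x = 0)) (ho : od (st i C).card k (tC i C e)) :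
    od (st i C).card (k + ind n) (tC i C (e + Pi.single x n)) ∧
      lc (st i C).card (k + ind n) (tC i C (e + Pi.single x n)) =
        fg i e x n * lc (st i C).card k (tC i C e) := by
  by_cases hn : n = 0
  · rw [hn, ind_zero, Pi.single_zero, add_zero, add_zero, fg_zero, one_mul]
    exact ⟨ho, rfl⟩
  · obtain ⟨g1, g2⟩ := hA.resolve_left hn
    rw [ind_pos hn, fg_pos e x hn]
    exact add_lc H hir hC hs hx hxC h2 g1 g2 hn ho

lemma fg_add (H : Gr P r) {x y : P} (hx : x ∈ near P i) (hy : y ∈ near P i) {m n : ℕ}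
    (h0 : m = 0 ∨ e x = 0) (hd : m = 0 ∨ n = 0 ∨ Disjoint (kz i e x m) (nz i y)) :
    fg i (e + Pi.single x m) y n = fg i e y n := by
  by_cases hm : m = 0
  · rw [hm, Pi.single_zero, add_zero]
  by_cases hn : n = 0
  · rw [hn, fg_zero, fg_zero]
  rw [fg_pos _ _ hn, fg_pos _ _ hn,
    FG_add H hx hy (h0.resolve_left hm) ((hd.resolve_left hm).resolve_left hn)]

/-- a component with two stars and its sites -/
structure K9c (r i : ℕ) (K : Finset P) (psi : P → P) (C : Finset P)
    (w v w' v' a b c a' b' c' : P) : Prop extends K9b r i K psi C w v w' v' b b' where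
  uw : uc w = {a, b}
  dv : dc v = {b, c}
  uw' : uc w' = {a', b'}
  dv' : dc v' = {b', c'}
  nab : a ≠ b
  nbc : b ≠ c
  nac : a ≠ c
  nab' : a' ≠ b'
  nbc' : b' ≠ c'
  nac' : a' ≠ c'
  nLR : Disjoint ({a, b, c} : Finset P) {a', b', c'}

section

variable (Q : K9c r i K psi C w v w' v' a b c a' b' c')
include Q

lemma K9c.nzw : nz i w = {a, b} := by rw [nz_low Q.lw, Q.uw]
lemma K9c.nzv : nz i v = {b, c} := by rw [nz_upp Q.lv, Q.dv]
lemma K9c.nzw' : nz i w' = {a', b'} := by rw [nz_low Q.lw', Q.uw']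
lemma K9c.nzv' : nz i v' = {b', c'} := by rw [nz_upp Q.lv', Q.dv']

lemma K9c.w2 : (nz i w).card = 2 := by rw [Q.nzw, card_pair Q.nab]
lemma K9c.v2 : (nz i v).card = 2 := by rw [Q.nzv, card_pair Q.nbc]
lemma K9c.w2' : (nz i w').card = 2 := by rw [Q.nzw', card_pair Q.nab']
lemma K9c.v2' : (nz i v').card = 2 := by rw [Q.nzv', card_pair Q.nbc']

/-- the sites of the two stars are disjoint -/
lemma K9c.dLR {x y : P} (hx : x = w ∨ x = v) (hy : y = w' ∨ y = v') :
    Disjoint (nz i x) (nz i y) := by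
  have h1 : nz i x ⊆ {a, b, c} := by
    rcases hx with rfl | rfl
    · rw [Q.nzw]
      intro z hz
      simp only [mem_insert, mem_singleton] at hz ⊢
      tauto
    · rw [Q.nzv]
      intro z hz
      simp only [mem_insert, mem_singleton] at hz ⊢
      tauto
  have h2 : nz i y ⊆ {a', b', c'} := by
    rcases hy with rfl | rfl
    · rw [Q.nzw']
      intro z hz
      simp only [mem_insert, mem_singleton] at hz ⊢
      tauto
    · rw [Q.nzv']
      intro z hz
      simp only [mem_insert, mem_singleton] at hz ⊢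
      tauto
  exact disjoint_of_subset_left h1 (disjoint_of_subset_right h2 Q.nLR)

lemma K9c.dwv {e : P → ℕ} (h : 1 ≤ e b) : Disjoint (kz i e w 1) (nz i v) := by
  rw [disjoint_left]
  intro x hx hx'
  rw [mem_kz, Q.nzw, mem_insert, mem_singleton] at hx
  rw [Q.nzv, mem_insert, mem_singleton] at hx'
  rcases hx with ⟨rfl | rfl, h1⟩
  · rcases hx' with h2 | h2
    · exact Q.nab h2
    · exact Q.nac h2
  · omega

lemma K9c.dwv' {e : P → ℕ} (h : 1 ≤ e b') : Disjoint (kz i e w' 1) (nz i v') := by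
  rw [disjoint_left]
  intro x hx hx'
  rw [mem_kz, Q.nzw', mem_insert, mem_singleton] at hx
  rw [Q.nzv', mem_insert, mem_singleton] at hx'
  rcases hx with ⟨rfl | rfl, h1⟩
  · rcases hx' with h2 | h2
    · exact Q.nab' h2
    · exact Q.nac' h2
  · omega

/-- THE VALUE with labels on the two stars -/
theorem K9c.val4 (hc : IsCore i ∅ (ps K psi) e) (hs : Spt C e) {k : ℕ}
    (ho : od (st i C).card k (tC i C e)) {α β α' β' : ℕ}
    (h1 : α = 0 ∨ β = 0 ∨ (α = 1 ∧ β = 1 ∧ 1 ≤ e b))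
    (h2 : α' = 0 ∨ β' = 0 ∨ (α' = 1 ∧ β' = 1 ∧ 1 ≤ e b'))
    (t1 : α ≤ 1 ∨ w ∉ Tch i e) (t2 : β ≤ 1 ∨ v ∉ Tch i e) (t3 : α' ≤ 1 ∨ w' ∉ Tch i e)
    (t4 : β' ≤ 1 ∨ v' ∉ Tch i e) :
    od (st i C).card (k + ind α + ind β + ind α' + ind β')
        (Jw i K psi C w v w' v' e α β α' β' 0) ∧
      lc (st i C).card (k + ind α + ind β + ind α' + ind β')
        (Jw i K psi C w v w' v' e α β α' β' 0) =
        fg i e w α * fg i e v β * fg i e w' α' * fg i e v' β' * lc (st i C).card k (tC i C e) := by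
  classical
  have H := Q.H
  have hir := Q.hir
  have hC := Q.hC
  have f1 := single_far (i := i) Q.nw α
  have f2 := single_far (i := i) Q.nv β
  have f3 := single_far (i := i) Q.nw' α'
  have f4 := single_far (i := i) Q.nv' β'
  have c1 := fun h => Q.core0 hc (x := w) (Or.inl rfl) h
  have c2 := fun h => Q.core0 hc (x := v) (Or.inr (Or.inl rfl)) h
  have c3 := fun h => Q.core0 hc (x := w') (Or.inr (Or.inr (Or.inl rfl))) h
  have c4 := fun h => Q.core0 hc (x := v') (Or.inr (Or.inr (Or.inr rfl))) h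
  unfold Jw
  by_cases hA : (Ac i e w α ∧ Ac i e v β) ∧ Ac i e w' α' ∧ Ac i e v' β'
  · rw [if_pos hA]
    obtain ⟨⟨g1, g2⟩, g3, g4⟩ := hA
    obtain ⟨e1, he1⟩ : ∃ e1, e1 = e + Pi.single w α := ⟨_, rfl⟩
    obtain ⟨e2, he2⟩ : ∃ e2, e2 = e1 + Pi.single v β := ⟨_, rfl⟩
    obtain ⟨e3, he3⟩ : ∃ e3, e3 = e2 + Pi.single w' α' := ⟨_, rfl⟩
    have T1 : Tch i e1 = Tch i e := by rw [he1]; exact Tch_add H f1
    have T2 : Tch i e2 = Tch i e := by rw [he2, Tch_add H f2]; exact T1
    have T3 : Tch i e3 = Tch i e := by rw [he3, Tch_add H f3]; exact T2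
    have s1 : Spt C e1 := by rw [he1]; exact Spt_add hs Q.wC α
    have s2 : Spt C e2 := by rw [he2]; exact Spt_add s1 Q.vC β
    have s3 : Spt C e3 := by rw [he3]; exact Spt_add s2 Q.wC' α'
    have s4 : Spt C (e3 + Pi.single v' β') := Spt_add s3 Q.vC' β'
    have z1 : α = 0 ∨ e w = 0 := g1.imp_right c1
    have z2 : β = 0 ∨ e1 v = 0 := by
      refine g2.imp_right fun h => ?_
      rw [he1, Pi.add_apply, c2 h, Pi.single_apply, if_neg Q.nwv.symm, add_zero]
    have z3 : α' = 0 ∨ e2 w' = 0 := by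
      refine g3.imp_right fun h => ?_
      rw [he2, he1, Pi.add_apply, Pi.add_apply, c3 h, Pi.single_apply, if_neg Q.nww.symm,
        Pi.single_apply, if_neg Q.nvw'.symm, add_zero, add_zero]
    have z4 : β' = 0 ∨ e3 v' = 0 := by
      refine g4.imp_right fun h => ?_
      rw [he3, he2, he1, Pi.add_apply, Pi.add_apply, Pi.add_apply, c4 h, Pi.single_apply,
        if_neg Q.nwv'.symm, Pi.single_apply, if_neg Q.nvv.symm, Pi.single_apply,
        if_neg Q.nwv''.symm, add_zero, add_zero, add_zero]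
    have a1 : α = 0 ∨ (w ∉ Tch i e ∧ e w = 0) := by
      rcases z1 with h | h
      · exact Or.inl h
      · rcases g1 with g | g
        · exact Or.inl g
        · exact Or.inr ⟨g, h⟩
    have a2 : β = 0 ∨ (v ∉ Tch i e1 ∧ e1 v = 0) := by
      rw [T1]
      rcases z2 with h | h
      · exact Or.inl h
      · rcases g2 with g | g
        · exact Or.inl g
        · exact Or.inr ⟨g, h⟩
    have a3 : α' = 0 ∨ (w' ∉ Tch i e2 ∧ e2 w' = 0) := by
      rw [T2]
      rcases z3 with h | h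
      · exact Or.inl h
      · rcases g3 with g | g
        · exact Or.inl g
        · exact Or.inr ⟨g, h⟩
    have a4 : β' = 0 ∨ (v' ∉ Tch i e3 ∧ e3 v' = 0) := by
      rw [T3]
      rcases z4 with h | h
      · exact Or.inl h
      · rcases g4 with g | g
        · exact Or.inl g
        · exact Or.inr ⟨g, h⟩
    obtain ⟨o1, l1⟩ := step_lc H hir hC hs Q.nw Q.wC Q.w2 a1 ho
    rw [← he1] at o1 l1
    obtain ⟨o2, l2⟩ := step_lc H hir hC s1 Q.nv Q.vC Q.v2 a2 o1
    rw [← he2] at o2 l2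
    obtain ⟨o3, l3⟩ := step_lc H hir hC s2 Q.nw' Q.wC' Q.w2' a3 o2
    rw [← he3] at o3 l3
    obtain ⟨o4, l4⟩ := step_lc H hir hC s3 Q.nv' Q.vC' Q.v2' a4 o3
    -- the factors
    have d2 : fg i e1 v β = fg i e v β := by
      rw [he1]
      refine fg_add H Q.nw Q.nv z1 ?_
      rcases h1 with h | h | ⟨h, h', h''⟩
      · exact Or.inl h
      · exact Or.inr (Or.inl h)
      · rw [h]
        exact Or.inr (Or.inr (Q.dwv h''))
    have cross : ∀ {x y : P}, (x = w ∨ x = v) → (y = w' ∨ y = v') → ∀ (e : P → ℕ) n,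
        Disjoint (kz i e x n) (nz i y) := fun hx hy e n =>
      disjoint_of_subset_left kz_sub (Q.dLR hx hy)
    have d3 : fg i e2 w' α' = fg i e w' α' := by
      rw [he2, fg_add H Q.nv Q.nw' z2 (Or.inr (Or.inr (cross (Or.inr rfl) (Or.inl rfl) _ _))), he1,
        fg_add H Q.nw Q.nw' z1 (Or.inr (Or.inr (cross (Or.inl rfl) (Or.inl rfl) _ _)))]
    have d4 : fg i e3 v' β' = fg i e v' β' := by
      have h3 : fg i e3 v' β' = fg i e2 v' β' := by
        rw [he3]
        refine fg_add H Q.nw' Q.nv' z3 ?_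
        rcases h2 with h | h | ⟨h, h', h''⟩
        · exact Or.inl h
        · exact Or.inr (Or.inl h)
        · rw [h]
          refine Or.inr (Or.inr (Q.dwv' ?_))
          rw [he2, add_site H Q.nv Q.lb', he1, add_site H Q.nw Q.lb']
          exact h''
      rw [h3, he2, fg_add H Q.nv Q.nv' z2 (Or.inr (Or.inr (cross (Or.inr rfl) (Or.inr rfl) _ _))),
        he1, fg_add H Q.nw Q.nv' z1 (Or.inr (Or.inr (cross (Or.inl rfl) (Or.inr rfl) _ _)))]
    rw [← he1, ← he2, ← he3, JK_zero H hir Q.part s4]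
    refine ⟨o4, ?_⟩
    rw [l4, l3, l2, l1, d2, d3, d4]
    ring
  · rw [if_neg hA]
    refine ⟨od_zero _ _, ?_⟩
    rw [lc_zero]
    by_cases hadm : AdmL i e ∧ AdmU i e ∧ Disjoint (AL i e) (AU i e)
    swap
    · rw [W4.tC_zero hadm, lc_zero, mul_zero]
    -- a touched element with label one
    have key : ∀ {x : P} {n : ℕ}, x ∈ near P i → (nz i x).card = 2 → (n ≤ 1 ∨ x ∉ Tch i e) →
        ¬ Ac i e x n → fg i e x n = 0 := by
      intro x n hx h2 hn hA
      have h3 : n ≠ 0 := fun h => hA (Or.inl h)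
      have h4 : x ∈ Tch i e := by
        by_contra h
        exact hA (Or.inr h)
      have h5 : n = 1 := by
        rcases hn with h | h
        · omega
        · exact absurd h4 h
      rw [fg_pos _ _ h3, h5]
      have hpos : 0 < e x := by
        by_contra h
        have h4' := h4
        rw [mem_Tch] at h4'
        rcases h4' with ⟨h1, z, hz, hz'⟩ | ⟨h1, z, hz, hz'⟩
        · refine hadm.1 x (by omega) ⟨⟨z, hz, by omega⟩, ?_⟩
          obtain ⟨y, hy⟩ := uc_nonempty H (x := x) (by omega)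
          exact ⟨y, mem_uc.1 hy, by omega⟩
        · refine hadm.2.1 x (by omega) ⟨⟨z, hz, by omega⟩, ?_⟩
          obtain ⟨y, hy⟩ := dc_nonempty H (x := x) (by have := Q.hi2; omega)
          exact ⟨y, mem_dc.1 hy, by omega⟩
      have kk : ∀ y ∈ nz i x, e y = 0 → y ∈ AL i e ∪ AU i e := by
        intro y hy hy0
        have hl := nz_lev H hx hy
        rw [mem_union, NormD_mem_AL, NormD_mem_AU]
        rcases mem_near.1 hx with h | h
        · rw [nz_low h] at hy
          exact Or.inl ⟨hl, x, mem_uc.1 hy, by omega⟩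
        · rw [nz_upp h] at hy
          exact Or.inr ⟨hl, x, mem_dc.1 hy, by omega⟩
      have hFG : FG i e x 1 = 0 := by
        unfold FG
        rw [if_neg, if_neg]
        · rintro ⟨g1, g2, g3⟩
          obtain ⟨y, hy⟩ := card_eq_one.1 g1
          have hy1 : y ∈ kz i e x 1 := by rw [hy]; exact mem_singleton_self _
          obtain ⟨hy2, hy3⟩ := mem_kz.1 hy1
          exact disjoint_left.1 g3 hy1 (kk y hy2 (by omega))
        · rintro ⟨g1, g2⟩
          obtain ⟨y, hy⟩ : (nz i x).Nonempty := by rw [← card_pos]; omega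
          have := g1 y hy
          exact disjoint_left.1 g2 hy (kk y hy (by omega))
      rw [hFG, mul_zero]
    by_cases g1 : Ac i e w α
    · by_cases g2 : Ac i e v β
      · by_cases g3 : Ac i e w' α'
        · by_cases g4 : Ac i e v' β'
          · exact absurd ⟨⟨g1, g2⟩, g3, g4⟩ hA
          · rw [key Q.nv' Q.v2' t4 g4]; ring
        · rw [key Q.nw' Q.w2' t3 g3]; ring
      · rw [key Q.nv Q.v2 t2 g2]; ring
    · rw [key Q.nw Q.w2 t1 g1]; ring

end

end Pool.Agent.GaussPoset.Win.Pa
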