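import Pool.Agent.W_448p_h97.PaE

/-!
MP_448cb3_co, G2, case B, window `j`: the leading coefficients of the contributions of a component with
two stars.  helper97.
-/

namespace Pool.Agent.GaussPoset.Win.Pa

set_option linter.unusedSectionVars false

open Finset W4
open Pool.Agent.GaussPoset.Win.So (IV_chi IV_Fe)

universe u

variable {P : Type u} [Fintype P] [PartialOrder P] [DecidableEq P] {r i : ℕ}
variable {e f : P → ℕ} {psi : P → P} {C K : Finset P} {w v w' v' a b c a' b' c' : P}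

lemma an0 {M : Type*} [AddCommMonoid M] (g : ℕ × ℕ → M) : ∑ p ∈ antidiagonal 0, g p = g (0, 0) := by
  simp

lemma an1 {M : Type*} [AddCommMonoid M] (g : ℕ × ℕ → M) :
    ∑ p ∈ antidiagonal 1, g p = g (0, 1) + g (1, 0) := by
  simp [Finset.Nat.antidiagonal_succ]

lemma an2 {M : Type*} [AddCommMonoid M] (g : ℕ × ℕ → M) :
    ∑ p ∈ antidiagonal 2, g p = g (0, 2) + (g (1, 1) + g (2, 0)) := by
  simp [Finset.Nat.antidiagonal_succ]

/-- the difference of the types of the two elements of a star -/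
noncomputable def DD (i : ℕ) (e : P → ℕ) (w v : P) : ℤ := FG i e w 1 - FG i e v 1

/-- the product of the types -/
noncomputable def PP (i : ℕ) (e : P → ℕ) (w v : P) : ℤ := FG i e w 1 * FG i e v 1

section

variable (Q : K9c r i K psi C w v w' v' a b c a' b' c')
include Q

lemma K9c.fw : fg i e w 1 = FG i e w 1 := by
  rw [fg_pos _ _ one_ne_zero]
  unfold sg1
  rw [if_pos Q.lw, one_mul]

lemma K9c.fv : fg i e v 1 = - FG i e v 1 := by
  rw [fg_pos _ _ one_ne_zero]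
  unfold sg1
  rw [if_neg (by have := Q.lv; omega)]
  ring

lemma K9c.fw' : fg i e w' 1 = FG i e w' 1 := by
  rw [fg_pos _ _ one_ne_zero]
  unfold sg1
  rw [if_pos Q.lw', one_mul]

lemma K9c.fv' : fg i e v' 1 = - FG i e v' 1 := by
  rw [fg_pos _ _ one_ne_zero]
  unfold sg1
  rw [if_neg (by have := Q.lv'; omega)]
  ring

variable (hc : IsCore i ∅ (ps K psi) e) (hs : Spt C e) {k : ℕ}
    (ho : od (st i C).card k (tC i C e))
include hc hs ho

theorem K9c.J000 : lc (st i C).card k (J9 i K psi C w v w' v' e 0 0 0) =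
    lc (st i C).card k (tC i C e) := by
  rw [Q.J9_eq hc, an0, an0]
  have := (Q.val4 hc hs ho (α := 0) (β := 0) (α' := 0) (β' := 0) (Or.inl rfl) (Or.inl rfl)
    (Or.inl (by omega)) (Or.inl (by omega)) (Or.inl (by omega)) (Or.inl (by omega))).2
  simp only [ind_zero, fg_zero, one_mul, add_zero] at this
  exact this

theorem K9c.J100 : lc (st i C).card (k + 1) (J9 i K psi C w v w' v' e 1 0 0) =
    DD i e w v * lc (st i C).card k (tC i C e) := by
  rw [Q.J9_eq hc, an1, an0, an0, lc_add]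
  have h1 := (Q.val4 hc hs ho (α := 0) (β := 1) (α' := 0) (β' := 0) (Or.inl rfl) (Or.inl rfl)
    (Or.inl (by omega)) (Or.inl (by omega)) (Or.inl (by omega)) (Or.inl (by omega))).2
  have h2 := (Q.val4 hc hs ho (α := 1) (β := 0) (α' := 0) (β' := 0) (Or.inr (Or.inl rfl))
    (Or.inl rfl) (Or.inl (by omega)) (Or.inl (by omega)) (Or.inl (by omega))
    (Or.inl (by omega))).2
  simp only [ind_zero, ind_pos one_ne_zero, fg_zero, one_mul, mul_one, add_zero, Q.fw,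
    Q.fv] at h1 h2
  rw [h1, h2]
  unfold DD
  ring

theorem K9c.J010 : lc (st i C).card (k + 1) (J9 i K psi C w v w' v' e 0 1 0) =
    DD i e w' v' * lc (st i C).card k (tC i C e) := by
  rw [Q.J9_eq hc, an0, an1, lc_add]
  have h1 := (Q.val4 hc hs ho (α := 0) (β := 0) (α' := 0) (β' := 1) (Or.inl rfl) (Or.inl rfl)
    (Or.inl (by omega)) (Or.inl (by omega)) (Or.inl (by omega)) (Or.inl (by omega))).2
  have h2 := (Q.val4 hc hs ho (α := 0) (β := 0) (α' := 1) (β' := 0) (Or.inl rfl)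
    (Or.inr (Or.inl rfl)) (Or.inl (by omega)) (Or.inl (by omega)) (Or.inl (by omega))
    (Or.inl (by omega))).2
  simp only [ind_zero, ind_pos one_ne_zero, fg_zero, one_mul, mul_one, add_zero, Q.fw',
    Q.fv'] at h1 h2
  rw [h1, h2]
  unfold DD
  ring

theorem K9c.J110 : lc (st i C).card (k + 2) (J9 i K psi C w v w' v' e 1 1 0) =
    DD i e w v * DD i e w' v' * lc (st i C).card k (tC i C e) := by
  rw [Q.J9_eq hc, an1, an1, an1, lc_add, lc_add, lc_add]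
  have h1 := (Q.val4 hc hs ho (α := 0) (β := 1) (α' := 0) (β' := 1) (Or.inl rfl) (Or.inl rfl)
    (Or.inl (by omega)) (Or.inl (by omega)) (Or.inl (by omega)) (Or.inl (by omega))).2
  have h2 := (Q.val4 hc hs ho (α := 0) (β := 1) (α' := 1) (β' := 0) (Or.inl rfl)
    (Or.inr (Or.inl rfl)) (Or.inl (by omega)) (Or.inl (by omega)) (Or.inl (by omega))
    (Or.inl (by omega))).2
  have h3 := (Q.val4 hc hs ho (α := 1) (β := 0) (α' := 0) (β' := 1) (Or.inr (Or.inl rfl))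
    (Or.inl rfl) (Or.inl (by omega)) (Or.inl (by omega)) (Or.inl (by omega))
    (Or.inl (by omega))).2
  have h4 := (Q.val4 hc hs ho (α := 1) (β := 0) (α' := 1) (β' := 0) (Or.inr (Or.inl rfl))
    (Or.inr (Or.inl rfl)) (Or.inl (by omega)) (Or.inl (by omega)) (Or.inl (by omega))
    (Or.inl (by omega))).2
  simp only [ind_zero, ind_pos one_ne_zero, fg_zero, one_mul, mul_one, add_zero, Q.fw', Q.fw,
    Q.fv, Q.fv', add_assoc, Nat.reduceAdd] at h1 h2 h3 h4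
  rw [h1, h2, h3, h4]
  unfold DD
  ring

variable (b1 : 1 ≤ e b) (nw : w ∉ Tch i e) (nv : v ∉ Tch i e)
include b1 nw nv

theorem K9c.J200 : lc (st i C).card (k + 2) (J9 i K psi C w v w' v' e 2 0 0) =
    - PP i e w v * lc (st i C).card k (tC i C e) := by
  rw [Q.J9_eq hc, an2, an0, an0, an0, lc_add, lc_add]
  have h1 := (Q.val4 hc hs ho (α := 0) (β := 2) (α' := 0) (β' := 0) (Or.inl rfl) (Or.inl rfl)
    (Or.inr nw) (Or.inr nv) (Or.inl (by omega)) (Or.inl (by omega))).1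
  have h2 := (Q.val4 hc hs ho (α := 2) (β := 0) (α' := 0) (β' := 0) (Or.inr (Or.inl rfl))
    (Or.inl rfl) (Or.inr nw) (Or.inr nv) (Or.inl (by omega)) (Or.inl (by omega))).1
  have h3 := (Q.val4 hc hs ho (α := 1) (β := 1) (α' := 0) (β' := 0)
    (Or.inr (Or.inr ⟨rfl, rfl, b1⟩)) (Or.inl rfl) (Or.inr nw) (Or.inr nv) (Or.inl (by omega))
    (Or.inl (by omega))).2
  simp only [ind_zero, ind_pos one_ne_zero, ind_pos two_ne_zero, fg_zero, one_mul, mul_one,
    add_zero, Q.fw, Q.fv, add_assoc, Nat.reduceAdd] at h1 h2 h3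
  rw [lc_lt (show k + 1 < k + 2 by omega) h1, lc_lt (show k + 1 < k + 2 by omega) h2, h3]
  unfold PP
  ring

theorem K9c.J210 : lc (st i C).card (k + 3) (J9 i K psi C w v w' v' e 2 1 0) =
    - PP i e w v * DD i e w' v' * lc (st i C).card k (tC i C e) := by
  rw [Q.J9_eq hc, an2, an1, an1, an1, lc_add, lc_add, lc_add, lc_add, lc_add]
  have h1 := (Q.val4 hc hs ho (α := 0) (β := 2) (α' := 0) (β' := 1) (Or.inl rfl) (Or.inl rfl)
    (Or.inr nw) (Or.inr nv) (Or.inl (by omega)) (Or.inl (by omega))).1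
  have h1' := (Q.val4 hc hs ho (α := 0) (β := 2) (α' := 1) (β' := 0) (Or.inl rfl)
    (Or.inr (Or.inl rfl))
    (Or.inr nw) (Or.inr nv) (Or.inl (by omega)) (Or.inl (by omega))).1
  have h2 := (Q.val4 hc hs ho (α := 2) (β := 0) (α' := 0) (β' := 1) (Or.inr (Or.inl rfl))
    (Or.inl rfl) (Or.inr nw) (Or.inr nv) (Or.inl (by omega)) (Or.inl (by omega))).1
  have h2' := (Q.val4 hc hs ho (α := 2) (β := 0) (α' := 1) (β' := 0) (Or.inr (Or.inl rfl))
    (Or.inr (Or.inl rfl)) (Or.inr nw) (Or.inr nv) (Or.inl (by omega)) (Or.inl (by omega))).1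
  have h3 := (Q.val4 hc hs ho (α := 1) (β := 1) (α' := 0) (β' := 1)
    (Or.inr (Or.inr ⟨rfl, rfl, b1⟩)) (Or.inl rfl) (Or.inr nw) (Or.inr nv) (Or.inl (by omega))
    (Or.inl (by omega))).2
  have h3' := (Q.val4 hc hs ho (α := 1) (β := 1) (α' := 1) (β' := 0)
    (Or.inr (Or.inr ⟨rfl, rfl, b1⟩)) (Or.inr (Or.inl rfl)) (Or.inr nw) (Or.inr nv)
    (Or.inl (by omega)) (Or.inl (by omega))).2
  simp only [ind_zero, ind_pos one_ne_zero, ind_pos two_ne_zero, fg_zero, one_mul, mul_one,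
    add_zero, Q.fw, Q.fv, Q.fw', Q.fv', add_assoc, Nat.reduceAdd] at h1 h1' h2 h2' h3 h3'
  rw [lc_lt (show k + 2 < k + 3 by omega) h1, lc_lt (show k + 2 < k + 3 by omega) h1',
    lc_lt (show k + 2 < k + 3 by omega) h2, lc_lt (show k + 2 < k + 3 by omega) h2', h3, h3']
  unfold PP DD
  ring

variable (b1' : 1 ≤ e b') (nw' : w' ∉ Tch i e) (nv' : v' ∉ Tch i e)
include b1' nw' nv'

theorem K9c.J220 : lc (st i C).card (k + 4) (J9 i K psi C w v w' v' e 2 2 0) =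
    PP i e w v * PP i e w' v' * lc (st i C).card k (tC i C e) := by
  rw [Q.J9_eq hc, an2, an2, an2, an2, lc_add, lc_add, lc_add, lc_add, lc_add, lc_add, lc_add,
    lc_add]
  have t1 : ∀ {n : ℕ}, n ≤ 1 ∨ w ∉ Tch i e := Or.inr nw
  have t2 : ∀ {n : ℕ}, n ≤ 1 ∨ v ∉ Tch i e := Or.inr nv
  have t3 : ∀ {n : ℕ}, n ≤ 1 ∨ w' ∉ Tch i e := Or.inr nw'
  have t4 : ∀ {n : ℕ}, n ≤ 1 ∨ v' ∉ Tch i e := Or.inr nv'
  have g : ∀ {α β α' β' : ℕ}, (α = 0 ∨ β = 0 ∨ (α = 1 ∧ β = 1 ∧ 1 ≤ e b)) →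
      (α' = 0 ∨ β' = 0 ∨ (α' = 1 ∧ β' = 1 ∧ 1 ≤ e b')) → ind α + ind β + ind α' + ind β' < 4 →
      lc (st i C).card (k + 4) (Jw i K psi C w v w' v' e α β α' β' 0) = 0 := by
    intro α β α' β' g1 g2 g3
    exact lc_lt (by omega) (Q.val4 hc hs ho g1 g2 t1 t2 t3 t4).1
  have h3 := (Q.val4 hc hs ho (α := 1) (β := 1) (α' := 1) (β' := 1)
    (Or.inr (Or.inr ⟨rfl, rfl, b1⟩)) (Or.inr (Or.inr ⟨rfl, rfl, b1'⟩)) t1 t2 t3 t4).2
  simp only [ind_pos one_ne_zero, Q.fw, Q.fv, Q.fw', Q.fv', add_assoc, Nat.reduceAdd] at h3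
  rw [h3, g (Or.inl rfl) (Or.inl rfl) (by decide), g (Or.inl rfl)
      (Or.inr (Or.inr ⟨rfl, rfl, b1'⟩)) (by decide),
    g (Or.inl rfl) (Or.inr (Or.inl rfl)) (by decide),
    g (Or.inr (Or.inr ⟨rfl, rfl, b1⟩)) (Or.inl rfl) (by decide),
    g (Or.inr (Or.inr ⟨rfl, rfl, b1⟩)) (Or.inr (Or.inl rfl)) (by decide),
    g (Or.inr (Or.inl rfl)) (Or.inl rfl) (by decide),
    g (Or.inr (Or.inl rfl)) (Or.inr (Or.inr ⟨rfl, rfl, b1'⟩)) (by decide),
    g (Or.inr (Or.inl rfl)) (Or.inr (Or.inl rfl)) (by decide)]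
  unfold PP
  ring

end

section

variable (Q : K9c r i K psi C w v w' v' a b c a' b' c')
include Q
variable (hc : IsCore i ∅ (ps K psi) e) (hs : Spt C e) {k : ℕ}
    (ho : od (st i C).card k (tC i C e))
include hc hs ho
variable (b1' : 1 ≤ e b') (nw' : w' ∉ Tch i e) (nv' : v' ∉ Tch i e)
include b1' nw' nv'

theorem K9c.J020 : lc (st i C).card (k + 2) (J9 i K psi C w v w' v' e 0 2 0) =
    - PP i e w' v' * lc (st i C).card k (tC i C e) := by
  rw [Q.J9_eq hc, an0, an2, lc_add, lc_add]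
  have h1 := (Q.val4 hc hs ho (α := 0) (β := 0) (α' := 0) (β' := 2) (Or.inl rfl) (Or.inl rfl)
    (Or.inl (by omega)) (Or.inl (by omega)) (Or.inr nw') (Or.inr nv')).1
  have h2 := (Q.val4 hc hs ho (α := 0) (β := 0) (α' := 2) (β' := 0) (Or.inl rfl)
    (Or.inr (Or.inl rfl)) (Or.inl (by omega)) (Or.inl (by omega)) (Or.inr nw') (Or.inr nv')).1
  have h3 := (Q.val4 hc hs ho (α := 0) (β := 0) (α' := 1) (β' := 1)
    (Or.inl rfl) (Or.inr (Or.inr ⟨rfl, rfl, b1'⟩)) (Or.inl (by omega)) (Or.inl (by omega))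
    (Or.inr nw') (Or.inr nv')).2
  simp only [ind_zero, ind_pos one_ne_zero, ind_pos two_ne_zero, fg_zero, one_mul, mul_one,
    add_zero, Q.fw', Q.fv', add_assoc, Nat.reduceAdd] at h1 h2 h3
  rw [lc_lt (show k + 1 < k + 2 by omega) h1, lc_lt (show k + 1 < k + 2 by omega) h2, h3]
  unfold PP
  ring

theorem K9c.J120 : lc (st i C).card (k + 3) (J9 i K psi C w v w' v' e 1 2 0) =
    - PP i e w' v' * DD i e w v * lc (st i C).card k (tC i C e) := by
  rw [Q.J9_eq hc, an1, an2, an2, lc_add, lc_add, lc_add, lc_add, lc_add]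
  have h1 := (Q.val4 hc hs ho (α := 0) (β := 1) (α' := 0) (β' := 2) (Or.inl rfl) (Or.inl rfl)
    (Or.inl (by omega)) (Or.inl (by omega)) (Or.inr nw') (Or.inr nv')).1
  have h1' := (Q.val4 hc hs ho (α := 1) (β := 0) (α' := 0) (β' := 2) (Or.inr (Or.inl rfl))
    (Or.inl rfl) (Or.inl (by omega)) (Or.inl (by omega)) (Or.inr nw') (Or.inr nv')).1
  have h2 := (Q.val4 hc hs ho (α := 0) (β := 1) (α' := 2) (β' := 0) (Or.inl rfl)
    (Or.inr (Or.inl rfl)) (Or.inl (by omega)) (Or.inl (by omega)) (Or.inr nw') (Or.inr nv')).1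
  have h2' := (Q.val4 hc hs ho (α := 1) (β := 0) (α' := 2) (β' := 0) (Or.inr (Or.inl rfl))
    (Or.inr (Or.inl rfl)) (Or.inl (by omega)) (Or.inl (by omega)) (Or.inr nw') (Or.inr nv')).1
  have h3 := (Q.val4 hc hs ho (α := 0) (β := 1) (α' := 1) (β' := 1)
    (Or.inl rfl) (Or.inr (Or.inr ⟨rfl, rfl, b1'⟩)) (Or.inl (by omega)) (Or.inl (by omega))
    (Or.inr nw') (Or.inr nv')).2
  have h3' := (Q.val4 hc hs ho (α := 1) (β := 0) (α' := 1) (β' := 1)
    (Or.inr (Or.inl rfl)) (Or.inr (Or.inr ⟨rfl, rfl, b1'⟩)) (Or.inl (by omega))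
    (Or.inl (by omega)) (Or.inr nw') (Or.inr nv')).2
  simp only [ind_zero, ind_pos one_ne_zero, ind_pos two_ne_zero, fg_zero, one_mul, mul_one,
    add_zero, Q.fw, Q.fv, Q.fw', Q.fv', add_assoc, Nat.reduceAdd] at h1 h1' h2 h2' h3 h3'
  rw [lc_lt (show k + 2 < k + 3 by omega) h1, lc_lt (show k + 2 < k + 3 by omega) h1',
    lc_lt (show k + 2 < k + 3 by omega) h2, lc_lt (show k + 2 < k + 3 by omega) h2', h3, h3']
  unfold PP DD
  ring

end

end Pool.Agent.GaussPoset.Win.Pa
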