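import Pool.Agent.W_448p_h97.PaF

/-!
MP_448cb3_co, G2, case B, window `j`: the cores of energy zero and one, labels on the centres of the stars.
helper97.
-/

namespace Pool.Agent.GaussPoset.Win.Pa

set_option linter.unusedSectionVars false

open Finset W4
open Pool.Agent.GaussPoset.Win.So (IV_chi IV_Fe)

universe u

variable {P : Type u} [Fintype P] [PartialOrder P] [DecidableEq P] {r i : ℕ}
variable {e f : P → ℕ} {psi : P → P} {C K : Finset P} {w v w' v' a b c a' b' c' : P}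

/-- lowering the order -/
lemma od_pred {b k : ℕ} {X : A} (h : od b (k + 1) X) (h0 : lc b (k + 1) X = 0) : od b k X := by
  unfold od lc at *
  have h1 : (dd : A) ^ (b + 1) ∣ dd ^ (k + 1) * X := by
    unfold dd at *
    rw [PowerSeries.X_pow_dvd_iff] at h ⊢
    intro m hm
    rcases Nat.lt_or_ge m b with h2 | h2
    · exact h m h2
    · have : m = b := by omega
      rw [this]
      exact h0
  rw [pow_succ', pow_succ', mul_assoc] at h1
  exact (mul_dvd_mul_iff_left dd_ne).1 h1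

lemma Sc_single {y : P} (hy : lev y = i) (n : ℕ) : Sc i (Pi.single y n : P → ℕ) := by
  intro x hx
  rw [Pi.single_apply, if_neg]
  rintro rfl
  exact hx hy

lemma Sc_add {l l' : P → ℕ} (h : Sc i l) (h' : Sc i l') : Sc i (l + l') := by
  intro x hx
  rw [Pi.add_apply, h x hx, h' x hx]

lemma zero_data (H : Gr P r) (hi : 1 ≤ i) (hi2 : i + 1 ≤ r) :
    Sc i (0 : P → ℕ) ∧ Spt C (0 : P → ℕ) ∧ IsCore i ∅ (ps K psi) (0 : P → ℕ) ∧
      od (st i C).card 0 (tC i C (0 : P → ℕ)) ∧ lc (st i C).card 0 (tC i C (0 : P → ℕ)) = 1 := by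
  have hS : Sc i (0 : P → ℕ) := fun _ _ => rfl
  exact ⟨hS, fun _ _ => rfl, fun _ _ => rfl, (hS.val H hi hi2).2.2.2.2.1,
    (hS.val H hi hi2).2.2.2.2.2⟩

lemma sum_one_single (h : ∑ x, e x = 1) : ∃ y, e = Pi.single y 1 := by
  obtain ⟨y, hy⟩ : ∃ y, 1 ≤ e y := by
    by_contra hcon
    push Not at hcon
    have : ∑ x, e x = 0 := sum_eq_zero fun x _ => by have := hcon x; omega
    omega
  refine ⟨y, ?_⟩
  have h1 := Finset.add_sum_erase univ e (mem_univ y)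
  rw [h] at h1
  have h2 : ∑ x ∈ univ.erase y, e x = 0 := by omega
  rw [sum_eq_zero_iff] at h2
  funext x
  by_cases hx : x = y
  · rw [hx, Pi.single_eq_same]
    omega
  · rw [Pi.single_eq_of_ne hx]
    exact h2 x (mem_erase.2 ⟨hx, mem_univ x⟩)

/-- the cores of energy one -/
theorem Co_one (H : Gr P r) (hi2 : i + 1 ≤ r) (he : e ∈ Co i K psi C 1) :
    ¬ (AdmL i e ∧ AdmU i e ∧ Disjoint (AL i e) (AU i e)) ∨ ∃ y, lev y = i ∧ y ∈ C ∧
      e = Pi.single y 1 := by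
  obtain ⟨h1, h2, h3⟩ := mem_Co.1 he
  obtain ⟨y, hy⟩ := sum_one_single h1
  have ey : e y = 1 := by rw [hy, Pi.single_eq_same]
  have ez : ∀ x, x ≠ y → e x = 0 := fun x hx => by rw [hy, Pi.single_eq_of_ne hx]
  have hyC : y ∈ C := mem_of_pos h2 (by omega)
  by_cases hl : lev y = i
  · exact Or.inr ⟨y, hl, hyC, hy⟩
  left
  rintro ⟨hA, hB, -⟩
  by_cases hn : y ∈ near P i
  · -- near
    have hT : ∀ x, x ∉ Tch i e := by
      intro x hx
      rw [mem_Tch] at hx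
      rw [mem_near] at hn
      rcases hx with ⟨g1, z, g2, g3⟩ | ⟨g1, z, g2, g3⟩
      · have := lev_cov H g2
        have hzy : z = y := by
          by_contra h
          have := ez z h
          omega
        rw [hzy] at this
        omega
      · have := lev_cov H g2
        have hzy : z = y := by
          by_contra h
          have := ez z h
          omega
        rw [hzy] at this
        omega
    have := h3 y (mem_Rst.2 ⟨hn, notMem_empty y, hT y, fun h => hT _ h.2⟩)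
    omega
  · rw [mem_near, not_or] at hn
    rcases Nat.lt_or_gt_of_ne hl with h | h
    · -- above the window
      obtain ⟨t, ht⟩ := dc_nonempty H (x := y) (by omega)
      have l1 := lev_dc H ht
      obtain ⟨z, hz⟩ := dc_nonempty H (x := t) (by omega)
      have ht0 : e t = 0 := ez t (by rintro rfl; omega)
      exact hB t (by omega) ⟨⟨y, mem_dc.1 ht, by omega⟩, ⟨z, mem_dc.1 hz, by omega⟩⟩
    · obtain ⟨t, ht⟩ := uc_nonempty H (x := y) (by omega)
      have l1 := lev_uc H ht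
      obtain ⟨z, hz⟩ := uc_nonempty H (x := t) (by omega)
      have ht0 : e t = 0 := ez t (by rintro rfl; omega)
      exact hA t (by omega) ⟨⟨y, mem_uc.1 ht, by omega⟩, ⟨z, mem_uc.1 hz, by omega⟩⟩

section

variable (Q : K9c r i K psi C w v w' v' a b c a' b' c')
include Q

lemma K9c.mC : a ∈ C ∧ b ∈ C ∧ c ∈ C := by
  refine ⟨Q.hC.up Q.wC (mem_uc.1 (by rw [Q.uw]; simp)), Q.hC.up Q.wC (mem_uc.1 (by rw [Q.uw]; simp)),
    Q.hC.dn Q.vC (by have := Q.lv; omega) (mem_dc.1 (by rw [Q.dv]; simp))⟩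

lemma K9c.mC' : a' ∈ C ∧ b' ∈ C ∧ c' ∈ C := by
  refine ⟨Q.hC.up Q.wC' (mem_uc.1 (by rw [Q.uw']; simp)),
    Q.hC.up Q.wC' (mem_uc.1 (by rw [Q.uw']; simp)),
    Q.hC.dn Q.vC' (by have := Q.lv'; omega) (mem_dc.1 (by rw [Q.dv']; simp))⟩

/-- types for a configuration on the sites -/
lemma K9c.DDs (hS : Sc i e) : DD i e w v =
    (if e a < 1 ∧ e b < 1 then 1 else if e a < 1 ∨ e b < 1 then -1 else 0) -
      (if e b < 1 ∧ e c < 1 then 1 else if e b < 1 ∨ e c < 1 then -1 else 0) := by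
  unfold DD
  rw [hS.FG Q.H Q.hi Q.hi2 Q.nab Q.nzw, hS.FG Q.H Q.hi Q.hi2 Q.nbc Q.nzv]

lemma K9c.DDs' (hS : Sc i e) : DD i e w' v' =
    (if e a' < 1 ∧ e b' < 1 then 1 else if e a' < 1 ∨ e b' < 1 then -1 else 0) -
      (if e b' < 1 ∧ e c' < 1 then 1 else if e b' < 1 ∨ e c' < 1 then -1 else 0) := by
  unfold DD
  rw [hS.FG Q.H Q.hi Q.hi2 Q.nab' Q.nzw', hS.FG Q.H Q.hi Q.hi2 Q.nbc' Q.nzv']

lemma K9c.PPs (hS : Sc i e) : PP i e w v =
    (if e a < 1 ∧ e b < 1 then 1 else if e a < 1 ∨ e b < 1 then -1 else 0) *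
      (if e b < 1 ∧ e c < 1 then 1 else if e b < 1 ∨ e c < 1 then -1 else 0) := by
  unfold PP
  rw [hS.FG Q.H Q.hi Q.hi2 Q.nab Q.nzw, hS.FG Q.H Q.hi Q.hi2 Q.nbc Q.nzv]

lemma K9c.PPs' (hS : Sc i e) : PP i e w' v' =
    (if e a' < 1 ∧ e b' < 1 then 1 else if e a' < 1 ∨ e b' < 1 then -1 else 0) *
      (if e b' < 1 ∧ e c' < 1 then 1 else if e b' < 1 ∨ e c' < 1 then -1 else 0) := by
  unfold PP
  rw [hS.FG Q.H Q.hi Q.hi2 Q.nab' Q.nzw', hS.FG Q.H Q.hi Q.hi2 Q.nbc' Q.nzv']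

/-- the vacuum: no difference of types -/
lemma K9c.DD0 (hS : Sc i e) (h0 : e a = 0 ∧ e b = 0 ∧ e c = 0) : DD i e w v = 0 := by
  rw [Q.DDs hS, h0.1, h0.2.1, h0.2.2]
  norm_num

lemma K9c.DD0' (hS : Sc i e) (h0 : e a' = 0 ∧ e b' = 0 ∧ e c' = 0) : DD i e w' v' = 0 := by
  rw [Q.DDs' hS, h0.1, h0.2.1, h0.2.2]
  norm_num

lemma K9c.nLR' {x y : P} (hx : x = a ∨ x = b ∨ x = c) (hy : y = a' ∨ y = b' ∨ y = c') :
    x ≠ y := by
  rintro rfl
  have h1 : x ∈ ({a, b, c} : Finset P) := by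
    simp only [mem_insert, mem_singleton]
    exact hx
  have h2 : x ∈ ({a', b', c'} : Finset P) := by
    simp only [mem_insert, mem_singleton]
    exact hy
  exact disjoint_left.1 Q.nLR h1 h2

/-- one label on a site: the product of the differences vanishes -/
lemma K9c.DD1 {y : P} (hy : lev y = i) :
    DD i (Pi.single y 1 : P → ℕ) w v * DD i (Pi.single y 1 : P → ℕ) w' v' = 0 := by
  have hS := Sc_single hy 1
  by_cases h : y = a ∨ y = b ∨ y = c
  · rw [Q.DD0' hS, mul_zero]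
    refine ⟨?_, ?_, ?_⟩
    · rw [Pi.single_apply, if_neg (Q.nLR' h (Or.inl rfl)).symm]
    · rw [Pi.single_apply, if_neg (Q.nLR' h (Or.inr (Or.inl rfl))).symm]
    · rw [Pi.single_apply, if_neg (Q.nLR' h (Or.inr (Or.inr rfl))).symm]
  · rw [Q.DD0 hS, zero_mul]
    rw [not_or, not_or] at h
    refine ⟨?_, ?_, ?_⟩
    · rw [Pi.single_apply, if_neg (fun h' => h.1 h'.symm)]
    · rw [Pi.single_apply, if_neg (fun h' => h.2.1 h'.symm)]
    · rw [Pi.single_apply, if_neg (fun h' => h.2.2 h'.symm)]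

/-! ### energy zero -/

lemma tx_zero_two {x : P} (hx : x ∈ near P i) (S : Finset P) :
    tx i (0 : P → ℕ) x 2 S = tx i (0 : P → ℕ) x 1 S := by
  have hT : x ∉ Tch i (0 : P → ℕ) := by
    rw [(show Sc i (0 : P → ℕ) from fun _ _ => rfl).tch Q.H]
    exact notMem_empty x
  have hk : ∀ n, 1 ≤ n → kz i (0 : P → ℕ) x n = nz i x := by
    intro n hn
    rw [kz_eq_iff]
    intro v _
    show 0 < n
    omega
  have hf : ∀ n, 1 ≤ n → fz i (0 : P → ℕ) x n = if lev x = i + 1 then dd else xi * dd := by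
    intro n hn
    unfold fz
    rw [if_pos (hk n hn)]
  rw [tx_free hT, tx_free hT]
  rcases mem_near.1 hx with h | h
  · rw [wt_low h, wt_low h, hk 2 (by omega), hk 1 (by omega), hf 2 (by omega), hf 1 (by omega)]
  · rw [wt_upp h, wt_upp h, hk 2 (by omega), hk 1 (by omega), hf 2 (by omega), hf 1 (by omega)]

lemma tx_both {x y q : P} (hx : lev x = i + 1) (hy : lev y + 1 = i) (hq : q ∈ uc x)
    (hq' : q ∈ dc y) (hTx : x ∉ Tch i e) (hTy : y ∉ Tch i e) (h0 : e q = 0) {m n : ℕ}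
    (hm : 1 ≤ m) (hn : 1 ≤ n) (S : Finset P) : tx i e x m S * tx i e y n S = 0 := by
  rw [tx_free hTx, tx_free hTy, wt_low hx, wt_upp hy]
  have q1 : q ∈ kz i e x m := mem_kz.2 ⟨by rw [nz_low hx]; exact hq, by omega⟩
  have q2 : q ∈ kz i e y n := mem_kz.2 ⟨by rw [nz_upp hy]; exact hq', by omega⟩
  by_cases hS : q ∈ S
  · have : chi ∅ (kz i e y n) S = 0 := by
      unfold chi
      rw [if_neg]
      rintro ⟨-, h2⟩
      exact disjoint_left.1 h2 q2 hS
    rw [this]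
    ring
  · have : chi (kz i e x m) ∅ S = 0 := by
      unfold chi
      rw [if_neg]
      rintro ⟨h2, -⟩
      exact hS (h2 q1)
    rw [this]
    ring

lemma WW_two {x y q : P} (hx : lev x = i + 1) (hy : lev y + 1 = i) (hq : q ∈ uc x)
    (hq' : q ∈ dc y) (S : Finset P) :
    WW i (0 : P → ℕ) x y 2 S = WW i (0 : P → ℕ) x y 1 S := by
  have hT : ∀ z, z ∉ Tch i (0 : P → ℕ) := by
    intro z
    rw [(show Sc i (0 : P → ℕ) from fun _ _ => rfl).tch Q.H]
    exact notMem_empty z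
  unfold WW
  rw [an2, an1]
  show tx i 0 x 0 S * tx i 0 y 2 S + (tx i 0 x 1 S * tx i 0 y 1 S + tx i 0 x 2 S * tx i 0 y 0 S) =
    tx i 0 x 0 S * tx i 0 y 1 S + tx i 0 x 1 S * tx i 0 y 0 S
  rw [tx_both Q hx hy hq hq' (hT x) (hT y) rfl le_rfl le_rfl S,
    tx_zero_two Q (mem_near.2 (Or.inl hx)), tx_zero_two Q (mem_near.2 (Or.inr hy)), zero_add]

lemma K9c.J0_210 (m : ℕ) : J9 i K psi C w v w' v' (0 : P → ℕ) 2 1 m =
    J9 i K psi C w v w' v' (0 : P → ℕ) 1 1 m := by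
  unfold J9
  congr 1
  funext S
  rw [WW_two Q Q.lw Q.lv Q.hb Q.hb1]

lemma K9c.J0_120 (m : ℕ) : J9 i K psi C w v w' v' (0 : P → ℕ) 1 2 m =
    J9 i K psi C w v w' v' (0 : P → ℕ) 1 1 m := by
  unfold J9
  congr 1
  funext S
  rw [WW_two Q Q.lw' Q.lv' Q.hb' Q.hb1']

lemma K9c.L0_110 : lc (st i C).card 2 (J9 i K psi C w v w' v' (0 : P → ℕ) 1 1 0) = 0 := by
  obtain ⟨h1, h2, h3, h4, -⟩ := zero_data (C := C) (K := K) (psi := psi) Q.H Q.hi Q.hi2
  have := Q.J110 h3 h2 h4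
  rw [Q.DD0 h1 ⟨rfl, rfl, rfl⟩, zero_mul, zero_mul] at this
  exact this

lemma K9c.L0_100 : lc (st i C).card 1 (J9 i K psi C w v w' v' (0 : P → ℕ) 1 0 0) = 0 := by
  obtain ⟨h1, h2, h3, h4, -⟩ := zero_data (C := C) (K := K) (psi := psi) Q.H Q.hi Q.hi2
  have := Q.J100 h3 h2 h4
  rw [Q.DD0 h1 ⟨rfl, rfl, rfl⟩, zero_mul] at this
  exact this

lemma K9c.L0_010 : lc (st i C).card 1 (J9 i K psi C w v w' v' (0 : P → ℕ) 0 1 0) = 0 := by
  obtain ⟨h1, h2, h3, h4, -⟩ := zero_data (C := C) (K := K) (psi := psi) Q.H Q.hi Q.hi2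
  have := Q.J010 h3 h2 h4
  rw [Q.DD0' h1 ⟨rfl, rfl, rfl⟩, zero_mul] at this
  exact this

/-- one label on a star element each and one on a free near element -/
lemma K9c.Jw111 {x y : P} (hx : x = w ∨ x = v) (hy : y = w' ∨ y = v') :
    lc (st i C).card 2 (JK i K psi C 1 (Pi.single x 1 + Pi.single y 1 : P → ℕ)) =
      sg1 i x * sg1 i y * Dg i K C (nz i x ∪ nz i y) := by
  have H := Q.H
  obtain ⟨h1, h2, h3, h4, h5⟩ := zero_data (C := C) (K := K) (psi := psi) Q.H Q.hi Q.hi2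
  have hxd : x ∈ near P i ∧ x ∈ C ∧ x ∈ K ∧ (nz i x).card = 2 := by
    rcases hx with rfl | rfl
    · exact ⟨Q.nw, Q.wC, Q.wK, Q.w2⟩
    · exact ⟨Q.nv, Q.vC, Q.vK, Q.v2⟩
  have hyd : y ∈ near P i ∧ y ∈ C ∧ y ∈ K ∧ (nz i y).card = 2 := by
    rcases hy with rfl | rfl
    · exact ⟨Q.nw', Q.wC', Q.wK', Q.w2'⟩
    · exact ⟨Q.nv', Q.vC', Q.vK', Q.v2'⟩
  have hxy : y ≠ x := by
    rintro rfl
    have := Q.dLR hx hy
    rw [disjoint_self_iff_empty] at this
    rw [this] at hxd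
    simp at hxd
  have hT0 : ∀ z, z ∉ Tch i (0 : P → ℕ) := by
    intro z
    rw [h1.tch H]
    exact notMem_empty z
  obtain ⟨-, -, A0, U0, -, -⟩ := h1.val (C := C) H Q.hi Q.hi2
  have hkz : kz i (0 : P → ℕ) x 1 = nz i x := by
    rw [kz_eq_iff]
    intro z _
    show 0 < 1
    omega
  have hFx : Fx i (0 : P → ℕ) x 1 := by
    refine ⟨fun z _ => by show 0 < 1; omega, ?_⟩
    rw [A0, U0, union_empty]
    exact disjoint_empty_right _
  obtain ⟨o1, l1⟩ := val_F H Q.hir Q.hC h2 (by rw [A0]; exact disjoint_empty_left _) hxd.1 hxd.2.1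
    (hT0 x) rfl hxd.2.2.2 hFx h4
  have z1 : ((0 : P → ℕ) + Pi.single x 1) = Pi.single x 1 := zero_add _
  rw [zero_add, z1] at o1 l1
  have T1 : Tch i (Pi.single x 1 : P → ℕ) = ∅ := by
    have := Tch_add (e := (0 : P → ℕ)) H (single_far hxd.1 1)
    rw [zero_add] at this
    rw [this, h1.tch H]
  have s1 : Spt C (Pi.single x 1 : P → ℕ) := by
    have := Spt_add h2 hxd.2.1 1
    rwa [zero_add] at this
  have hAU : AL i (Pi.single x 1 : P → ℕ) ∪ AU i (Pi.single x 1 : P → ℕ) = nz i x := by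
    have := ALU_add (e := (0 : P → ℕ)) H hxd.1 rfl 1
    rw [zero_add, A0, U0, empty_union, empty_union, hkz] at this
    exact this
  have hdis : Disjoint (AL i (Pi.single x 1 : P → ℕ)) (AU i (Pi.single x 1 : P → ℕ)) := by
    rcases mem_near.1 hxd.1 with g | g
    · have := AU_low (e := (0 : P → ℕ)) H g rfl 1
      rw [zero_add, U0] at this
      rw [this]
      exact disjoint_empty_right _
    · have := AL_upp (e := (0 : P → ℕ)) H g rfl 1
      rw [zero_add, A0] at this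
      rw [this]
      exact disjoint_empty_left _
  have hsite : ∀ z, lev z = i → (Pi.single x 1 : P → ℕ) z = 0 := by
    intro z hz
    apply single_far hxd.1 1 z
    rw [mem_near]
    omega
  have hcore : IsCore i K psi (Pi.single x 1 : P → ℕ) := by
    intro z hz
    rw [Pi.single_apply, if_neg]
    rintro rfl
    exact (mem_Rst.1 hz).2.1 hxd.2.2.1
  have hR : ∀ z ∈ N0 i K C, z ∉ RK i K psi C (Pi.single x 1 : P → ℕ) →
      z ∈ dbL P i ∪ dbU P i ∧ nz i z ⊆ AL i (Pi.single x 1 : P → ℕ) ∪ AU i (Pi.single x 1) := by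
    intro z hz hn
    exfalso
    apply hn
    obtain ⟨g1, g2, g3⟩ := mem_N0.1 hz
    refine mem_RK.2 ⟨mem_Rst.2 ⟨g1, g3, ?_, ?_⟩, g2⟩
    · rw [T1]; exact notMem_empty z
    · rintro ⟨-, g⟩
      rw [T1] at g
      exact notMem_empty _ g
  have := x_one_gen (psi := psi) H Q.hi Q.hi2 Q.hM Q.hC s1 hdis (k := 1) o1 hsite hcore hR hyd.1
    hyd.2.1 hyd.2.2.1 hyd.2.2.2 (by rw [T1]; exact notMem_empty y)
    (by rw [Pi.single_apply, if_neg hxy]) (by rw [hAU]; exact (Q.dLR hx hy).symm)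
  rw [this, hAU, l1, h5]
  ring

/-- the mixed term -/
theorem K9c.L0_111 : lc (st i C).card 2 (J9 i K psi C w v w' v' (0 : P → ℕ) 1 1 1) =
    - (W4.mm i K C (nz i w ∪ nz i w') + W4.mm i K C (nz i v ∪ nz i v') -
      W4.mm i K C (nz i w ∪ nz i v') - W4.mm i K C (nz i v ∪ nz i w')) := by
  obtain ⟨h1, h2, h3, h4, h5⟩ := zero_data (C := C) (K := K) (psi := psi) Q.H Q.hi Q.hi2
  have hT : ∀ x n, Ac i (0 : P → ℕ) x n := by
    intro x n
    right
    rw [h1.tch Q.H]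
    exact notMem_empty x
  have hJ : ∀ α β α' β' m, Jw i K psi C w v w' v' (0 : P → ℕ) α β α' β' m =
      JK i K psi C m ((0 : P → ℕ) + Pi.single w α + Pi.single v β + Pi.single w' α' +
        Pi.single v' β') := by
    intro α β α' β' m
    unfold Jw
    rw [if_pos ⟨⟨hT _ _, hT _ _⟩, hT _ _, hT _ _⟩]
  rw [Q.J9_eq h3, an1, an1, an1, lc_add, lc_add, lc_add]
  simp only [hJ, Pi.single_zero, add_zero, zero_add]
  rw [Q.Jw111 (Or.inr rfl) (Or.inr rfl), Q.Jw111 (Or.inr rfl) (Or.inl rfl),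
    Q.Jw111 (Or.inl rfl) (Or.inr rfl), Q.Jw111 (Or.inl rfl) (Or.inl rfl)]
  have sw : sg1 i w = 1 := by unfold sg1; rw [if_pos Q.lw]
  have sv : sg1 i v = -1 := by unfold sg1; rw [if_neg (by have := Q.lv; omega)]
  have sw' : sg1 i w' = 1 := by unfold sg1; rw [if_pos Q.lw']
  have sv' : sg1 i v' = -1 := by unfold sg1; rw [if_neg (by have := Q.lv'; omega)]
  rw [sw, sv, sw', sv']
  unfold Dg
  rw [sum_union (Q.dLR (Or.inr rfl) (Or.inr rfl)), sum_union (Q.dLR (Or.inr rfl) (Or.inl rfl)),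
    sum_union (Q.dLR (Or.inl rfl) (Or.inr rfl)), sum_union (Q.dLR (Or.inl rfl) (Or.inl rfl))]
  ring

end

end Pool.Agent.GaussPoset.Win.Pa
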