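import Pool.Agent.W_448p_h97.PaG

/-!
MP_448cb3_co, G2, case B, window `j`: the leading coefficients of the window sum of a component with two
stars.  helper97.
-/

namespace Pool.Agent.GaussPoset.Win.Pa

set_option linter.unusedSectionVars false

open Finset W4
open Pool.Agent.GaussPoset.Win.So (IV_chi IV_Fe)
open Pool.Agent.GaussPoset.Win.SO (PN vp con on)

universe u

variable {P : Type u} [Fintype P] [PartialOrder P] [DecidableEq P] {r i : ℕ}
variable {e f : P → ℕ} {psi : P → P} {C K : Finset P} {w v w' v' a b c a' b' c' : P}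

lemma rk0 (β : ℕ) : rk 0 β = 0 := rfl
lemma rk1 (β : ℕ) : rk 1 β = 1 := rfl
lemma rk2 (β : ℕ) : rk 2 β = 1 + β := rfl

/-- the relevant energies of the stars -/
def tT (n q : ℕ) : Finset (ℕ × ℕ × ℕ) :=
  match n with
  | 1 => if q = 0 then {(1, 0, 0), (0, 1, 0)} else ∅
  | 2 => if q = 0 then {(1, 1, 0)} else ∅
  | 3 => if q = 0 then {(1, 1, 1), (2, 1, 0), (1, 2, 0)}
    else if q = 1 then {(1, 1, 0), (2, 0, 0), (0, 2, 0)}
    else if q = 2 then {(1, 0, 0), (0, 1, 0)} else ∅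
  | 4 => if q = 1 then {(2, 1, 0), (1, 2, 0)} else if q = 2 then {(1, 1, 0)} else ∅
  | 6 => if q = 2 then {(2, 2, 0)} else if q = 3 then {(2, 1, 0), (1, 2, 0)}
    else if q = 4 then {(1, 1, 0)} else ∅
  | _ => ∅

/-- the orders -/
def tk (n : ℕ) : ℕ := match n with
  | 1 => 1
  | 2 => 2
  | 3 => 2
  | 4 => 3
  | 6 => 4
  | _ => 0

lemma tT_sum (n : ℕ) : ∀ q ≤ n, ∀ x ∈ tT n q, x.1 + x.2.1 + x.2.2 = n - q := by
  have h1 : ∀ q ∈ range 2, ∀ x ∈ tT 1 q, x.1 + x.2.1 + x.2.2 = 1 - q := by decide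
  have h2 : ∀ q ∈ range 3, ∀ x ∈ tT 2 q, x.1 + x.2.1 + x.2.2 = 2 - q := by decide
  have h3 : ∀ q ∈ range 4, ∀ x ∈ tT 3 q, x.1 + x.2.1 + x.2.2 = 3 - q := by decide
  have h4 : ∀ q ∈ range 5, ∀ x ∈ tT 4 q, x.1 + x.2.1 + x.2.2 = 4 - q := by decide
  have h6 : ∀ q ∈ range 7, ∀ x ∈ tT 6 q, x.1 + x.2.1 + x.2.2 = 6 - q := by decide
  intro q hq x hx
  match n with
  | 0 => simp [tT] at hx
  | 1 => exact h1 q (mem_range.2 (by omega)) x hx
  | 2 => exact h2 q (mem_range.2 (by omega)) x hx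
  | 3 => exact h3 q (mem_range.2 (by omega)) x hx
  | 4 => exact h4 q (mem_range.2 (by omega)) x hx
  | 5 => simp [tT] at hx
  | 6 => exact h6 q (mem_range.2 (by omega)) x hx
  | k + 7 => simp [tT] at hx

/-- the test -/
def tB (n : ℕ) : Prop := ∀ q ∈ range (n + 1), ∀ n1 ∈ range (n + 1), ∀ n2 ∈ range (n + 1),
  ∀ β ∈ range 2, ∀ β' ∈ range 2, β + β' ≤ q → q + n1 + n2 ≤ n →
    (n1, n2, n - q - n1 - n2) ∉ tT n q → (q - β - β') / 2 + rk n1 β + rk n2 β' < tk n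

instance (n : ℕ) : Decidable (tB n) := by unfold tB; infer_instance

lemma tB_1 : tB 1 := by decide
lemma tB_2 : tB 2 := by decide
lemma tB_3 : tB 3 := by decide
lemma tB_4 : tB 4 := by decide
set_option maxRecDepth 100000 in
lemma tB_6 : tB 6 := by decide

lemma tB.use {n : ℕ} (h : tB n) : ∀ q n1 n2 m, q + n1 + n2 + m = n → (n1, n2, m) ∉ tT n q →
    ∀ β β', β ≤ 1 → β' ≤ 1 → β + β' ≤ q →
      (q - β - β') / 2 + rk n1 β + rk n2 β' < tk n := by
  intro q n1 n2 m hs hn β β' g1 g2 g3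
  have : m = n - q - n1 - n2 := by omega
  rw [this] at hn
  exact h q (mem_range.2 (by omega)) n1 (mem_range.2 (by omega)) n2 (mem_range.2 (by omega)) β
    (mem_range.2 (by omega)) β' (mem_range.2 (by omega)) g3 (by omega) hn

section

variable (Q : K9c r i K psi C w v w' v' a b c a' b' c')
include Q

lemma K9c.lcT {n : ℕ} (h : tB n) : lc (st i C).card (tk n) (ZC i C n) =
    ∑ q ∈ range (n + 1), ∑ e ∈ Co i K psi C q, ∑ x ∈ tT n q,
      lc (st i C).card (tk n) (J9 i K psi C w v w' v' e x.1 x.2.1 x.2.2) :=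
  Q.ZC_lc (tT n) (tT_sum n) h.use

/-! ### orders -/

theorem K9c.z0 : od (st i C).card 0 (ZC i C 0) := Q.ZC_od fun q β β' n1 n2 h1 h2 h3 h4 => by
  unfold rk; split_ifs <;> omega

theorem K9c.z1 : od (st i C).card 0 (ZC i C 1) := by
  refine od_pred (Q.ZC_od fun q β β' n1 n2 h1 h2 h3 h4 => by unfold rk; split_ifs <;> omega) ?_
  have h := Q.lcT tB_1
  rw [show tk 1 = 0 + 1 from rfl] at h
  rw [h, sum_range_succ, sum_range_one, Co_zero Q.H, sum_singleton]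
  have t0 : tT 1 0 = {(1, 0, 0), (0, 1, 0)} := by decide
  have t1 : tT 1 1 = ∅ := by decide
  rw [t0, t1, sum_pair (by decide)]
  simp only [sum_empty, sum_const_zero, add_zero]
  rw [show (0 + 1 : ℕ) = 1 from rfl, Q.L0_100, Q.L0_010, add_zero]

theorem K9c.z2 : od (st i C).card 1 (ZC i C 2) := by
  refine od_pred Q.od2 ?_
  have h := Q.lcT tB_2
  rw [show tk 2 = 1 + 1 from rfl] at h
  rw [h, sum_range_succ, sum_range_succ, sum_range_one, Co_zero Q.H, sum_singleton]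
  have t0 : tT 2 0 = {(1, 1, 0)} := by decide
  have t1 : tT 2 1 = ∅ := by decide
  have t2 : tT 2 2 = ∅ := by decide
  rw [t0, t1, t2, sum_singleton]
  simp only [sum_empty, sum_const_zero, add_zero]
  rw [show (1 + 1 : ℕ) = 2 from rfl, Q.L0_110]

/-! ### sums over the cores of energy one -/

/-- a core which is not admissible does not contribute -/
lemma K9c.bad (h : ¬ (AdmL i e ∧ AdmU i e ∧ Disjoint (AL i e) (AU i e))) (n1 n2 m : ℕ) :
    J9 i K psi C w v w' v' e n1 n2 m = 0 := by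
  unfold J9 IV
  refine sum_eq_zero fun S _ => ?_
  show xx ^ S.card * (Fe i e S * _) = 0
  rw [Fe_zero h, zero_mul, mul_zero]

lemma K9c.co_b {y : P} (hy : lev y = i) (hyC : y ∈ C) (q : ℕ) :
    (Pi.single y q : P → ℕ) ∈ Co i K psi C q := by
  refine mem_Co.2 ⟨?_, ?_, (Sc_single hy q).core Q.H⟩
  · rw [sum_eq_single y]
    · rw [Pi.single_eq_same]
    · intro x _ hx
      rw [Pi.single_eq_of_ne hx]
    · intro h
      exact absurd (mem_univ y) h
  · intro x hx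
    rw [Pi.single_apply, if_neg]
    rintro rfl
    exact hx hyC

/-- sum over the cores of energy one of a function supported on the centres of the stars -/
lemma K9c.sum1 (X : (P → ℕ) → ℤ)
    (h1 : ∀ e, ¬ (AdmL i e ∧ AdmU i e ∧ Disjoint (AL i e) (AU i e)) → X e = 0)
    (h2 : ∀ y, lev y = i → y ∈ C → y ≠ b → y ≠ b' → X (Pi.single y 1) = 0) :
    ∑ e ∈ Co i K psi C 1, X e = X (Pi.single b 1) + X (Pi.single b' 1) := by
  classical
  have hne : (Pi.single b 1 : P → ℕ) ≠ Pi.single b' 1 := by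
    intro h
    have := congrFun h b
    rw [Pi.single_eq_same, Pi.single_eq_of_ne Q.nbb] at this
    omega
  rw [← sum_pair hne]
  symm
  refine sum_subset ?_ ?_
  · intro e he
    rw [mem_insert, mem_singleton] at he
    rcases he with rfl | rfl
    · exact Q.co_b Q.lb Q.mC.2.1 1
    · exact Q.co_b Q.lb' Q.mC'.2.1 1
  · intro e he hn
    rw [mem_insert, mem_singleton, not_or] at hn
    rcases Co_one Q.H Q.hi2 he with h | ⟨y, hy, hyC, rfl⟩
    · exact h1 e h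
    · refine h2 y hy hyC ?_ ?_
      · rintro rfl
        exact hn.1 rfl
      · rintro rfl
        exact hn.2 rfl

lemma K9c.sing (y : P) (hy : lev y = i) (hyC : y ∈ C) :
    Sc i (Pi.single y 1 : P → ℕ) ∧ Spt C (Pi.single y 1 : P → ℕ) ∧
      IsCore i ∅ (ps K psi) (Pi.single y 1 : P → ℕ) ∧
      od (st i C).card 0 (tC i C (Pi.single y 1 : P → ℕ)) ∧
      lc (st i C).card 0 (tC i C (Pi.single y 1 : P → ℕ)) = 1 ∧
      (∀ x, x ∉ Tch i (Pi.single y 1 : P → ℕ)) := by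
  have hS := Sc_single hy 1
  have h := mem_Co.1 (Q.co_b hy hyC 1)
  refine ⟨hS, h.2.1, h.2.2, (hS.val Q.H Q.hi Q.hi2).2.2.2.2.1, (hS.val Q.H Q.hi Q.hi2).2.2.2.2.2,
    fun x => ?_⟩
  rw [hS.tch Q.H]
  exact notMem_empty x

/-- the products of the types at the centres -/
lemma K9c.PPb : PP i (Pi.single b 1 : P → ℕ) w v = 1 := by
  rw [Q.PPs (Sc_single Q.lb 1), Pi.single_eq_same, Pi.single_eq_of_ne Q.nab,
    Pi.single_eq_of_ne Q.nbc.symm]
  norm_num

lemma K9c.PPb' : PP i (Pi.single b' 1 : P → ℕ) w' v' = 1 := by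
  rw [Q.PPs' (Sc_single Q.lb' 1), Pi.single_eq_same, Pi.single_eq_of_ne Q.nab',
    Pi.single_eq_of_ne Q.nbc'.symm]
  norm_num

lemma K9c.DDb' : DD i (Pi.single b 1 : P → ℕ) w' v' = 0 := by
  refine Q.DD0' (Sc_single Q.lb 1) ⟨?_, ?_, ?_⟩
  · exact Pi.single_eq_of_ne (Q.nLR' (Or.inr (Or.inl rfl)) (Or.inl rfl)).symm _
  · exact Pi.single_eq_of_ne (Q.nLR' (Or.inr (Or.inl rfl)) (Or.inr (Or.inl rfl))).symm _
  · exact Pi.single_eq_of_ne (Q.nLR' (Or.inr (Or.inl rfl)) (Or.inr (Or.inr rfl))).symm _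

lemma K9c.DDb : DD i (Pi.single b' 1 : P → ℕ) w v = 0 := by
  refine Q.DD0 (Sc_single Q.lb' 1) ⟨?_, ?_, ?_⟩
  · exact Pi.single_eq_of_ne (Q.nLR' (Or.inl rfl) (Or.inr (Or.inl rfl))) _
  · exact Pi.single_eq_of_ne (Q.nLR' (Or.inr (Or.inl rfl)) (Or.inr (Or.inl rfl))) _
  · exact Pi.single_eq_of_ne (Q.nLR' (Or.inr (Or.inr rfl)) (Or.inr (Or.inl rfl))) _

/-- the star is open exactly if its centre has a label -/
lemma K9c.bt_single {y : P} (hy : lev y = i) {x z q : P} (hq : q ≠ y) :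
    bt i (Pi.single y 1 : P → ℕ) x z q = 0 := by
  unfold bt
  rw [if_neg]
  rintro ⟨h, -⟩
  rw [Pi.single_eq_of_ne hq] at h
  omega

lemma K9c.low2 {y : P} (hy : lev y = i) (hyC : y ∈ C) (hb : b ≠ y) (m : ℕ) :
    lc (st i C).card 2 (J9 i K psi C w v w' v' (Pi.single y 1 : P → ℕ) 2 0 m) = 0 := by
  have h := Q.od (Q.co_b hy hyC 1) 2 0 m
  rw [Q.bt_single hy hb] at h
  refine lc_lt ?_ h
  have := bt_le (i := i) (e := (Pi.single y 1 : P → ℕ)) w' v' b'
  rw [rk2, rk0]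
  omega

lemma K9c.low2' {y : P} (hy : lev y = i) (hyC : y ∈ C) (hb : b' ≠ y) (m : ℕ) :
    lc (st i C).card 2 (J9 i K psi C w v w' v' (Pi.single y 1 : P → ℕ) 0 2 m) = 0 := by
  have h := Q.od (Q.co_b hy hyC 1) 0 2 m
  rw [Q.bt_single hy hb] at h
  refine lc_lt ?_ h
  have := bt_le (i := i) (e := (Pi.single y 1 : P → ℕ)) w v b
  rw [rk2, rk0]
  omega

lemma K9c.low3 {y : P} (hy : lev y = i) (hyC : y ∈ C) (hb : b ≠ y) (m : ℕ) :
    lc (st i C).card 3 (J9 i K psi C w v w' v' (Pi.single y 1 : P → ℕ) 2 1 m) = 0 := by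
  have h := Q.od (Q.co_b hy hyC 1) 2 1 m
  rw [Q.bt_single hy hb] at h
  refine lc_lt ?_ h
  have := bt_le (i := i) (e := (Pi.single y 1 : P → ℕ)) w' v' b'
  rw [rk2, rk1]
  omega

lemma K9c.low3' {y : P} (hy : lev y = i) (hyC : y ∈ C) (hb : b' ≠ y) (m : ℕ) :
    lc (st i C).card 3 (J9 i K psi C w v w' v' (Pi.single y 1 : P → ℕ) 1 2 m) = 0 := by
  have h := Q.od (Q.co_b hy hyC 1) 1 2 m
  rw [Q.bt_single hy hb] at h
  refine lc_lt ?_ h
  have := bt_le (i := i) (e := (Pi.single y 1 : P → ℕ)) w v b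
  rw [rk2, rk1]
  omega

end

end Pool.Agent.GaussPoset.Win.Pa
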