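import Pool.Agent.W_448p_h97.PaH

/-!
MP_448cb3_co, G2, case B, window `j`: the values of (3,2), (4,3), (6,4) of a component with two stars.
helper97.
-/

namespace Pool.Agent.GaussPoset.Win.Pa

set_option linter.unusedSectionVars false

open Finset W4
open Pool.Agent.GaussPoset.Win.So (IV_chi IV_Fe)
open Pool.Agent.GaussPoset.Win.SO (PN vp con on)

universe u

variable {P : Type u} [Fintype P] [PartialOrder P] [DecidableEq P] {r i : ℕ}
variable {e f : P → ℕ} {psi : P → P} {C K : Finset P} {w v w' v' a b c a' b' c' : P}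

section

variable (Q : K9c r i K psi C w v w' v' a b c a' b' c')
include Q

/-- the order of a core -/
lemma K9c.odC {q k : ℕ} (he : e ∈ Co i K psi C q)
    (hk : (q - bt i e w v b - bt i e w' v' b') / 2 ≤ k) : od (st i C).card k (tC i C e) := by
  have h1 := Q.cheap he
  have h2 := SO.dvd_up (SO.cheap_dvd Q.H Q.hC (mem_Co.1 he).2.1 h1)
  exact od_mono hk h2

/-- the differences at a pendant -/
noncomputable def NN (i : ℕ) (w v p : P) : ℤ := Nx i w p - Nx i v p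

lemma K9c.DDp {p : P} (hp : p ∈ PN i C) : DD i (on (con i p)) w v = NN i w v p := by
  unfold DD NN
  rw [FG_pd Q.H Q.hi Q.hi2 Q.hC hp Q.nw Q.w2 one_ne_zero,
    FG_pd Q.H Q.hi Q.hi2 Q.hC hp Q.nv Q.v2 one_ne_zero]

lemma K9c.DDp' {p : P} (hp : p ∈ PN i C) : DD i (on (con i p)) w' v' = NN i w' v' p := by
  unfold DD NN
  rw [FG_pd Q.H Q.hi Q.hi2 Q.hC hp Q.nw' Q.w2' one_ne_zero,
    FG_pd Q.H Q.hi Q.hi2 Q.hC hp Q.nv' Q.v2' one_ne_zero]

/-- sums over the cores of energy two -/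
lemma K9c.s2 (F : (P → ℕ) → ℤ) :
    ∑ e ∈ Co i K psi C 2, F e * lc (st i C).card 1 (tC i C e) =
      ∑ p ∈ PN i C, F (on (con i p)) * vp i p := by
  rw [Q.sum2 (fun e => F e * lc (st i C).card 1 (tC i C e))]
  · refine sum_congr rfl fun p hp => ?_
    rw [(pd_val Q.H Q.hi Q.hi2 Q.hC hp).2.2.2.2.2]
  · intro e hs h _ _
    rw [cheap0_lc Q.H Q.hC hs h, mul_zero]

/-- THE VALUE (4,3) -/
theorem K9c.l43 : lc (st i C).card 3 (ZC i C 4) =
    ∑ p ∈ PN i C, NN i w v p * NN i w' v' p * vp i p := by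
  have h := Q.lcT tB_4
  rw [show tk 4 = 3 from rfl] at h
  rw [h, sum_range_succ, sum_range_succ, sum_range_succ, sum_range_succ, sum_range_one]
  have t0 : tT 4 0 = ∅ := by decide
  have t1 : tT 4 1 = {(2, 1, 0), (1, 2, 0)} := by decide
  have t2 : tT 4 2 = {(1, 1, 0)} := by decide
  have t3 : tT 4 3 = ∅ := by decide
  have t4 : tT 4 4 = ∅ := by decide
  rw [t0, t1, t2, t3, t4]
  simp only [sum_empty, sum_const_zero, add_zero, zero_add, sum_singleton]
  have e1 : ∑ e ∈ Co i K psi C 1, ∑ x ∈ ({(2, 1, 0), (1, 2, 0)} : Finset (ℕ × ℕ × ℕ)),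
      lc (st i C).card 3 (J9 i K psi C w v w' v' e x.1 x.2.1 x.2.2) = 0 := by
    have e2 : ∀ e : P → ℕ, ∑ x ∈ ({(2, 1, 0), (1, 2, 0)} : Finset (ℕ × ℕ × ℕ)),
        lc (st i C).card 3 (J9 i K psi C w v w' v' e x.1 x.2.1 x.2.2) =
        lc (st i C).card 3 (J9 i K psi C w v w' v' e 2 1 0) +
          lc (st i C).card 3 (J9 i K psi C w v w' v' e 1 2 0) := by
      intro e
      rw [sum_pair (by decide)]
    simp only [e2]
    rw [Q.sum1 (fun e => lc (st i C).card 3 (J9 i K psi C w v w' v' e 2 1 0) +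
          lc (st i C).card 3 (J9 i K psi C w v w' v' e 1 2 0))]
    · obtain ⟨c1, c2, c3, c4, c5, c6⟩ := Q.sing b Q.lb Q.mC.2.1
      obtain ⟨d1, d2, d3, d4, d5, d6⟩ := Q.sing b' Q.lb' Q.mC'.2.1
      have g1 := Q.J210 c3 c2 c4 (by rw [Pi.single_eq_same]) (c6 w) (c6 v)
      have g2 := Q.J120 d3 d2 d4 (by rw [Pi.single_eq_same]) (d6 w') (d6 v')
      rw [zero_add, Q.DDb', mul_zero, zero_mul] at g1
      rw [zero_add, Q.DDb, mul_zero, zero_mul] at g2
      rw [g1, g2, Q.low3' Q.lb Q.mC.2.1 Q.nbb.symm, Q.low3 Q.lb' Q.mC'.2.1 Q.nbb]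
      norm_num
    · intro e he
      rw [Q.bad he, Q.bad he, lc_zero]
      norm_num
    · intro y hy hyC n1 n2
      rw [Q.low3 hy hyC n1.symm, Q.low3' hy hyC n2.symm]
      norm_num
  rw [e1, zero_add]
  have e3 : ∀ e ∈ Co i K psi C 2, lc (st i C).card 3 (J9 i K psi C w v w' v' e 1 1 0) =
      DD i e w v * DD i e w' v' * lc (st i C).card 1 (tC i C e) := by
    intro e he
    exact Q.J110 (mem_Co.1 he).2.2 (mem_Co.1 he).2.1 (Q.odC he (by omega))
  rw [sum_congr rfl e3, Q.s2 (fun e => DD i e w v * DD i e w' v')]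
  refine sum_congr rfl fun p hp => ?_
  rw [Q.DDp hp, Q.DDp' hp]

/-- the order of (4,·) -/
theorem K9c.z4 (h : ∀ p ∈ PN i C, NN i w v p * NN i w' v' p = 0) :
    od (st i C).card 2 (ZC i C 4) := by
  refine od_pred Q.od4 ?_
  have h1 := Q.l43
  rw [show (2 + 1 : ℕ) = 3 from rfl, h1]
  refine sum_eq_zero fun p hp => ?_
  rw [h p hp, zero_mul]

/-- the mixed number of lower doubles -/
noncomputable def MM (i : ℕ) (K C : Finset P) (w v w' v' : P) : ℤ :=
  W4.mm i K C (nz i w ∪ nz i w') + W4.mm i K C (nz i v ∪ nz i v') -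
      W4.mm i K C (nz i w ∪ nz i v') - W4.mm i K C (nz i v ∪ nz i w')

/-- THE VALUE (3,2) -/
theorem K9c.l32 : lc (st i C).card 2 (ZC i C 3) =
    ∑ p ∈ PN i C, (NN i w v p + NN i w' v' p) * vp i p - 2 - MM i K C w v w' v' := by
  have h := Q.lcT tB_3
  rw [show tk 3 = 2 from rfl] at h
  rw [h, sum_range_succ, sum_range_succ, sum_range_succ, sum_range_one]
  have t0 : tT 3 0 = {(1, 1, 1), (2, 1, 0), (1, 2, 0)} := by decide
  have t1 : tT 3 1 = {(1, 1, 0), (2, 0, 0), (0, 2, 0)} := by decide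
  have t2 : tT 3 2 = {(1, 0, 0), (0, 1, 0)} := by decide
  have t3 : tT 3 3 = ∅ := by decide
  rw [t0, t1, t2, t3]
  simp only [sum_empty, sum_const_zero, add_zero]
  -- energy zero
  have e0 : ∑ e ∈ Co i K psi C 0, ∑ x ∈ ({(1, 1, 1), (2, 1, 0), (1, 2, 0)} : Finset (ℕ × ℕ × ℕ)),
      lc (st i C).card 2 (J9 i K psi C w v w' v' e x.1 x.2.1 x.2.2) = - MM i K C w v w' v' := by
    rw [Co_zero Q.H, sum_singleton, sum_insert (by decide), sum_pair (by decide)]
    simp only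
    rw [Q.L0_111, Q.J0_210, Q.J0_120, Q.L0_110]
    unfold MM
    ring
  -- energy one
  have e1 : ∑ e ∈ Co i K psi C 1, ∑ x ∈ ({(1, 1, 0), (2, 0, 0), (0, 2, 0)} : Finset (ℕ × ℕ × ℕ)),
      lc (st i C).card 2 (J9 i K psi C w v w' v' e x.1 x.2.1 x.2.2) = -2 := by
    have e2 : ∀ e : P → ℕ, ∑ x ∈ ({(1, 1, 0), (2, 0, 0), (0, 2, 0)} : Finset (ℕ × ℕ × ℕ)),
        lc (st i C).card 2 (J9 i K psi C w v w' v' e x.1 x.2.1 x.2.2) =
        lc (st i C).card 2 (J9 i K psi C w v w' v' e 1 1 0) +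
          (lc (st i C).card 2 (J9 i K psi C w v w' v' e 2 0 0) +
            lc (st i C).card 2 (J9 i K psi C w v w' v' e 0 2 0)) := by
      intro e
      rw [sum_insert (by decide), sum_pair (by decide)]
    simp only [e2]
    have k110 : ∀ y, lev y = i → y ∈ C →
        lc (st i C).card 2 (J9 i K psi C w v w' v' (Pi.single y 1 : P → ℕ) 1 1 0) = 0 := by
      intro y hy hyC
      obtain ⟨c1, c2, c3, c4, c5, c6⟩ := Q.sing y hy hyC
      have := Q.J110 c3 c2 c4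
      rw [zero_add, Q.DD1 hy, zero_mul] at this
      exact this
    rw [Q.sum1 (fun e => lc (st i C).card 2 (J9 i K psi C w v w' v' e 1 1 0) +
          (lc (st i C).card 2 (J9 i K psi C w v w' v' e 2 0 0) +
            lc (st i C).card 2 (J9 i K psi C w v w' v' e 0 2 0)))]
    · obtain ⟨c1, c2, c3, c4, c5, c6⟩ := Q.sing b Q.lb Q.mC.2.1
      obtain ⟨d1, d2, d3, d4, d5, d6⟩ := Q.sing b' Q.lb' Q.mC'.2.1
      have g1 := Q.J200 c3 c2 c4 (by rw [Pi.single_eq_same]) (c6 w) (c6 v)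
      have g2 := Q.J020 d3 d2 d4 (by rw [Pi.single_eq_same]) (d6 w') (d6 v')
      rw [zero_add, Q.PPb, c5] at g1
      rw [zero_add, Q.PPb', d5] at g2
      rw [g1, g2, Q.low2' Q.lb Q.mC.2.1 Q.nbb.symm, Q.low2 Q.lb' Q.mC'.2.1 Q.nbb,
        k110 b Q.lb Q.mC.2.1, k110 b' Q.lb' Q.mC'.2.1]
      norm_num
    · intro e he
      rw [Q.bad he, Q.bad he, Q.bad he, lc_zero]
      norm_num
    · intro y hy hyC n1 n2
      rw [Q.low2 hy hyC n1.symm, Q.low2' hy hyC n2.symm, k110 y hy hyC]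
      norm_num
  -- energy two
  have e3 : ∑ e ∈ Co i K psi C 2, ∑ x ∈ ({(1, 0, 0), (0, 1, 0)} : Finset (ℕ × ℕ × ℕ)),
      lc (st i C).card 2 (J9 i K psi C w v w' v' e x.1 x.2.1 x.2.2) =
      ∑ p ∈ PN i C, (NN i w v p + NN i w' v' p) * vp i p := by
    have e4 : ∀ e ∈ Co i K psi C 2, ∑ x ∈ ({(1, 0, 0), (0, 1, 0)} : Finset (ℕ × ℕ × ℕ)),
        lc (st i C).card 2 (J9 i K psi C w v w' v' e x.1 x.2.1 x.2.2) =
        (DD i e w v + DD i e w' v') * lc (st i C).card 1 (tC i C e) := by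
      intro e he
      rw [sum_pair (by decide)]
      simp only
      have g1 := Q.J100 (mem_Co.1 he).2.2 (mem_Co.1 he).2.1 (Q.odC he (show _ ≤ 1 by omega))
      have g2 := Q.J010 (mem_Co.1 he).2.2 (mem_Co.1 he).2.1 (Q.odC he (show _ ≤ 1 by omega))
      rw [show (1 + 1 : ℕ) = 2 from rfl] at g1 g2
      rw [g1, g2]
      ring
    rw [sum_congr rfl e4, Q.s2 (fun e => DD i e w v + DD i e w' v')]
    refine sum_congr rfl fun p hp => ?_
    rw [Q.DDp hp, Q.DDp' hp]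
  rw [e0, e1, e3]
  ring

end

end Pool.Agent.GaussPoset.Win.Pa
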