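import Pool.Agent.W_448p_h97.PaI

/-!
MP_448cb3_co, G2, case B, window `j`: the value (6,4) of a component with two stars.
helper97.
-/

namespace Pool.Agent.GaussPoset.Win.Pa

set_option linter.unusedSectionVars false

open Finset W4
open Pool.Agent.GaussPoset.Win.So (IV_chi IV_Fe)
open Pool.Agent.GaussPoset.Win.SO (PN vp con on)

universe u

variable {P : Type u} [Fintype P] [PartialOrder P] [DecidableEq P] {r i : ℕ}
variable {e f : P → ℕ} {psi : P → P} {C K : Finset P} {w v w' v' a b c a' b' c' : P}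

lemma two_eq {x y : P} (hxy : x ≠ y) (hx : 1 ≤ e x) (hy : 1 ≤ e y) (h : ∑ z, e z = 2) :
    e = Pi.single x 1 + Pi.single y 1 := by
  have h1 := Finset.add_sum_erase univ e (mem_univ x)
  have h2 := Finset.add_sum_erase (univ.erase x) e (mem_erase.2 ⟨hxy.symm, mem_univ y⟩)
  rw [h] at h1
  have h3 : ∑ z ∈ (univ.erase x).erase y, e z = 0 := by omega
  rw [sum_eq_zero_iff] at h3
  funext z
  rw [Pi.add_apply]
  by_cases hzx : z = x
  · rw [hzx, Pi.single_eq_same, Pi.single_eq_of_ne hxy]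
    omega
  · by_cases hzy : z = y
    · rw [hzy, Pi.single_eq_same, Pi.single_eq_of_ne hxy.symm]
      omega
    · rw [Pi.single_eq_of_ne hzx, Pi.single_eq_of_ne hzy, add_zero]
      exact h3 z (mem_erase.2 ⟨hzy, mem_erase.2 ⟨hzx, mem_univ z⟩⟩)

section

variable (Q : K9c r i K psi C w v w' v' a b c a' b' c')
include Q

lemma K9c.sym : K9c r i K psi C w' v' w v a' b' c' a b c where
  H := Q.H
  hi := Q.hi
  hi2 := Q.hi2
  hM := Q.hM
  hC := Q.hC
  nq := Q.nq
  nq' := Q.nq'
  hK := by
    intro x hx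
    rw [Q.hK x hx]
    tauto
  wC := Q.wC'
  vC := Q.vC'
  wC' := Q.wC
  vC' := Q.vC
  lw := Q.lw'
  lv := Q.lv'
  lw' := Q.lw
  lv' := Q.lv
  nww := Q.nww.symm
  nvv := Q.nvv.symm
  hb := Q.hb'
  hb1 := Q.hb1'
  hb' := Q.hb
  hb1' := Q.hb1
  nbb := Q.nbb.symm
  NQ2 := Q.NQ2
  Gd := Q.Gd
  tw := Q.tw'
  tw' := Q.tw
  uw := Q.uw'
  dv := Q.dv'
  uw' := Q.uw
  dv' := Q.dv
  nab := Q.nab'
  nbc := Q.nbc'
  nac := Q.nac'
  nab' := Q.nab
  nbc' := Q.nbc
  nac' := Q.nac
  nLR := Q.nLR.symm

/-- the cores of energy two with both centres -/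
lemma K9c.e220 : ∑ e ∈ Co i K psi C 2, lc (st i C).card 4 (J9 i K psi C w v w' v' e 2 2 0) = 1 := by
  have hcore : (Pi.single b 1 + Pi.single b' 1 : P → ℕ) ∈ Co i K psi C 2 := by
    have h1 := mem_Co.1 (Q.co_b Q.lb Q.mC.2.1 1)
    have h2 := mem_Co.1 (Q.co_b Q.lb' Q.mC'.2.1 1)
    refine mem_Co.2 ⟨?_, ?_, (Sc_add (Sc_single Q.lb 1) (Sc_single Q.lb' 1)).core Q.H⟩
    · have : ∑ x, (Pi.single b 1 + Pi.single b' 1 : P → ℕ) x =
          ∑ x, (Pi.single b 1 : P → ℕ) x + ∑ x, (Pi.single b' 1 : P → ℕ) x := by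
        rw [← sum_add_distrib]
        rfl
      rw [this, h1.1, h2.1]
    · intro x hx
      rw [Pi.add_apply, h1.2.1 x hx, h2.2.1 x hx]
  rw [sum_eq_single (Pi.single b 1 + Pi.single b' 1 : P → ℕ)]
  · have hS : Sc i (Pi.single b 1 + Pi.single b' 1 : P → ℕ) :=
      Sc_add (Sc_single Q.lb 1) (Sc_single Q.lb' 1)
    have hc := (mem_Co.1 hcore).2.2
    have hs := (mem_Co.1 hcore).2.1
    obtain ⟨-, -, -, -, o, l⟩ := hS.val (C := C) Q.H Q.hi Q.hi2
    have hT : ∀ x, x ∉ Tch i (Pi.single b 1 + Pi.single b' 1 : P → ℕ) := by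
      intro x
      rw [hS.tch Q.H]
      exact notMem_empty x
    have eb : (Pi.single b 1 + Pi.single b' 1 : P → ℕ) b = 1 := by
      rw [Pi.add_apply, Pi.single_eq_same, Pi.single_eq_of_ne Q.nbb, add_zero]
    have eb' : (Pi.single b 1 + Pi.single b' 1 : P → ℕ) b' = 1 := by
      rw [Pi.add_apply, Pi.single_eq_same, Pi.single_eq_of_ne Q.nbb.symm]
    have z : ∀ {x}, x ≠ b → x ≠ b' → (Pi.single b 1 + Pi.single b' 1 : P → ℕ) x = 0 := by
      intro x h1 h2
      rw [Pi.add_apply, Pi.single_eq_of_ne h1, Pi.single_eq_of_ne h2, add_zero]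
    have h := Q.J220 hc hs o (by rw [eb]) (hT w) (hT v) (by rw [eb']) (hT w') (hT v')
    rw [zero_add, l, Q.PPs hS, Q.PPs' hS, eb, eb',
      z Q.nab (Q.nLR' (Or.inl rfl) (Or.inr (Or.inl rfl))),
      z Q.nbc.symm (Q.nLR' (Or.inr (Or.inr rfl)) (Or.inr (Or.inl rfl))),
      z (Q.nLR' (Or.inr (Or.inl rfl)) (Or.inl rfl)).symm Q.nab',
      z (Q.nLR' (Or.inr (Or.inl rfl)) (Or.inr (Or.inr rfl))).symm Q.nbc'.symm] at h
    rw [h]
    norm_num
  · intro e he hne
    refine lc_lt ?_ (Q.od he 2 2 0)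
    rw [rk2, rk2]
    have g1 := bt_le (i := i) (e := e) w v b
    have g2 := bt_le (i := i) (e := e) w' v' b'
    by_contra hcon
    apply hne
    have h1 : bt i e w v b = 1 := by omega
    have h2 : bt i e w' v' b' = 1 := by omega
    refine two_eq Q.nbb ?_ ?_ (mem_Co.1 he).1
    · unfold bt at h1
      by_contra h
      rw [if_neg (fun h' => h h'.1)] at h1
      omega
    · unfold bt at h2
      by_contra h
      rw [if_neg (fun h' => h h'.1)] at h2
      omega
  · intro h
    exact absurd hcore h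

/-- the value of a label on the centre -/
lemma K9c.e210 {e : P → ℕ} (he : e ∈ Co i K psi C 3) :
    lc (st i C).card 4 (J9 i K psi C w v w' v' e 2 1 0) =
      if bt i e w v b = 1 then
        - PP i e w v * DD i e w' v' * lc (st i C).card 1 (tC i C e) else 0 := by
  by_cases h : bt i e w v b = 1
  · rw [if_pos h]
    have h' := h
    unfold bt at h'
    have hd : 1 ≤ e b ∧ w ∉ Tch i e ∧ v ∉ Tch i e := by
      by_contra hcon
      rw [if_neg hcon] at h'
      omega
    exact Q.J210 (mem_Co.1 he).2.2 (mem_Co.1 he).2.1 (Q.odC he (by rw [h]; omega)) hd.1 hd.2.1 hd.2.2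
  · rw [if_neg h]
    have g1 := bt_le (i := i) (e := e) w v b
    have g2 := bt_le (i := i) (e := e) w' v' b'
    refine lc_lt ?_ (Q.od he 2 1 0)
    rw [rk2, rk1]
    omega

/-- no site of the star is a site of the pendant -/
noncomputable def Nf (i : ℕ) (a b c p : P) : ℤ :=
  if Disjoint ({a, b, c} : Finset P) (sit i p) then 1 else 0

/-- the sum of the contributions with a label on the centre -/
theorem K9c.s210 (hbp : ∀ p ∈ PN i C, b ∈ sit i p → a ∈ sit i p ∨ c ∈ sit i p) :
    ∑ e ∈ Co i K psi C 3, lc (st i C).card 4 (J9 i K psi C w v w' v' e 2 1 0) =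
      - ∑ p ∈ PN i C, Nf i a b c p * NN i w' v' p * vp i p := by
  classical
  have H := Q.H
  rw [sum_congr rfl fun e he => Q.e210 he]
  rw [Q.sum3 Q.lb (fun e => if bt i e w v b = 1 then
        - PP i e w v * DD i e w' v' * lc (st i C).card 1 (tC i C e) else 0)]
  rotate_left
  · intro e hs h
    rw [cheap0_lc H Q.hC hs h, mul_zero, ite_self]
  · intro e h
    rw [if_neg]
    unfold bt
    rw [if_neg (by omega)]
    omega
  have hfil : (PN i C).filter (fun p => (p, b) ∈ I3 i C) = PN i C := by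
    rw [filter_eq_self]
    intro p hp
    exact mem_I3.2 ⟨hp, Q.mC.2.1, Or.inl Q.lb⟩
  rw [hfil, ← sum_neg_distrib]
  refine sum_congr rfl fun p hp => ?_
  have hI : (p, b) ∈ I3 i C := mem_I3.2 ⟨hp, Q.mC.2.1, Or.inl Q.lb⟩
  obtain ⟨v1, v2, v3, v4, v5, v6, v7⟩ := m3_val H Q.hir Q.hC hI
  obtain ⟨hpC, y, hcon, hyn, hnz, hcard, hlev, hd⟩ := PN_dat H hp
  -- labels
  have hsite : ∀ y, lev y = i → m3 i (p, b) y = if y = b then 1 else 0 := by
    intro y hy
    unfold m3
    rw [Pi.add_apply, Pi.single_apply]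
    show on (con i p) y + _ = _
    rw [pd_site H hp hy, zero_add]
  have la : lev a = i := nz_lev H Q.nw (by rw [Q.nzw]; simp)
  have lc' : lev c = i := nz_lev H Q.nv (by rw [Q.nzv]; simp)
  have hTc : Tch i (m3 i (p, b)) = Tch i (on (con i p)) := by
    ext z
    rw [mem_Tch, mem_Tch]
    have key : ∀ z, lev z ≠ i → m3 i (p, b) z = on (con i p) z := by
      intro z hz
      unfold m3
      rw [Pi.add_apply, Pi.single_apply, if_neg, add_zero]
      rintro rfl
      exact hz Q.lb
    constructor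
    · rintro (⟨g1, t, g2, g3⟩ | ⟨g1, t, g2, g3⟩)
      · have := lev_cov H g2
        rw [key t (by omega)] at g3
        exact Or.inl ⟨g1, t, g2, g3⟩
      · have := lev_cov H g2
        rw [key t (by omega)] at g3
        exact Or.inr ⟨g1, t, g2, g3⟩
    · rintro (⟨g1, t, g2, g3⟩ | ⟨g1, t, g2, g3⟩)
      · have := lev_cov H g2
        rw [← key t (by omega)] at g3
        exact Or.inl ⟨g1, t, g2, g3⟩
      · have := lev_cov H g2
        rw [← key t (by omega)] at g3
        exact Or.inr ⟨g1, t, g2, g3⟩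
  simp only at v4 v6
  -- the types of the elements of the other star
  have hfree : ∀ {z : P}, z ∈ near P i → (nz i z).card = 2 → b ∉ nz i z →
      FG i (m3 i (p, b)) z 1 = Nx i z p := by
    intro z hz h2 hbz
    have hlt : ∀ y ∈ nz i z, m3 i (p, b) y < 1 := by
      intro y hy
      rw [hsite y (nz_lev H hz hy), if_neg (by rintro rfl; exact hbz hy)]
      omega
    have hdis : Disjoint (nz i z) ((sit i p).erase b) ↔ Disjoint (nz i z) (sit i p) := by
      constructor
      · intro h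
        rw [disjoint_left] at h ⊢
        intro y hy hy'
        exact h hy (mem_erase.2 ⟨by rintro rfl; exact hbz hy, hy'⟩)
      · intro h
        exact disjoint_of_subset_right (erase_subset _ _) h
    unfold FG Nx
    have e1 : Fx i (m3 i (p, b)) z 1 ↔ Disjoint (nz i z) (sit i p) := by
      unfold Fx
      rw [v4, hdis]
      exact ⟨fun h => h.2, fun h => ⟨hlt, h⟩⟩
    by_cases hd' : Disjoint (nz i z) (sit i p)
    · rw [if_pos (e1.2 hd'), if_pos hd']
    · rw [if_neg (fun h => hd' (e1.1 h)), if_neg hd', if_neg]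
      rintro ⟨g1, -⟩
      rw [kz_eq_iff.2 hlt] at g1
      omega
  have hbw' : b ∉ nz i w' := by
    rw [Q.nzw', mem_insert, mem_singleton]
    rintro (h | h)
    · exact Q.nLR' (Or.inr (Or.inl rfl)) (Or.inl rfl) h
    · exact Q.nbb h
  have hbv' : b ∉ nz i v' := by
    rw [Q.nzv', mem_insert, mem_singleton]
    rintro (h | h)
    · exact Q.nbb h
    · exact Q.nLR' (Or.inr (Or.inl rfl)) (Or.inr (Or.inr rfl)) h
  have hDD : DD i (m3 i (p, b)) w' v' = NN i w' v' p := by
    unfold DD NN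
    rw [hfree Q.nw' Q.w2' hbw', hfree Q.nv' Q.v2' hbv']
  -- the types of the star itself
  have kzw : kz i (m3 i (p, b)) w 1 = {a} := by
    ext y
    rw [mem_kz, Q.nzw, mem_insert, mem_singleton, mem_singleton]
    constructor
    · rintro ⟨rfl | rfl, h⟩
      · rfl
      · rw [hsite y Q.lb, if_pos rfl] at h
        omega
    · rintro rfl
      refine ⟨Or.inl rfl, ?_⟩
      rw [hsite y la, if_neg Q.nab]
      omega
  have kzv : kz i (m3 i (p, b)) v 1 = {c} := by
    ext y
    rw [mem_kz, Q.nzv, mem_insert, mem_singleton]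
    constructor
    · rintro ⟨rfl | rfl, h⟩
      · rw [hsite y Q.lb, if_pos rfl] at h
        omega
      · rfl
    · rintro rfl
      refine ⟨Or.inr rfl, ?_⟩
      rw [hsite y lc', if_neg Q.nbc.symm]
      omega
  have FGw : FG i (m3 i (p, b)) w 1 = if a ∈ sit i p then 0 else -1 := by
    unfold FG
    rw [if_neg]
    · unfold Gx
      rw [kzw, v4, card_singleton, disjoint_singleton_left, mem_erase]
      by_cases h : a ∈ sit i p
      · rw [if_neg, if_pos h]
        rintro ⟨-, -, h'⟩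
        exact h' ⟨Q.nab, h⟩
      · rw [if_pos, if_neg h]
        exact ⟨rfl, Q.w2, fun h' => h h'.2⟩
    · rintro ⟨g, -⟩
      have := g b (by rw [Q.nzw]; simp)
      rw [hsite b Q.lb, if_pos rfl] at this
      omega
  have FGv : FG i (m3 i (p, b)) v 1 = if c ∈ sit i p then 0 else -1 := by
    unfold FG
    rw [if_neg]
    · unfold Gx
      rw [kzv, v4, card_singleton, disjoint_singleton_left, mem_erase]
      by_cases h : c ∈ sit i p
      · rw [if_neg, if_pos h]
        rintro ⟨-, -, h'⟩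
        exact h' ⟨Q.nbc.symm, h⟩
      · rw [if_pos, if_neg h]
        exact ⟨rfl, Q.v2, fun h' => h h'.2⟩
    · rintro ⟨g, -⟩
      have := g b (by rw [Q.nzv]; simp)
      rw [hsite b Q.lb, if_pos rfl] at this
      omega
  show (if bt i (m3 i (p, b)) w v b = 1 then - PP i (m3 i (p, b)) w v *
    DD i (m3 i (p, b)) w' v' * lc (st i C).card 1 (tC i C (m3 i (p, b))) else 0) =
      -(Nf i a b c p * NN i w' v' p * vp i p)
  unfold PP
  rw [FGw, FGv, hDD, v6]
  unfold Nf
  have hdabc : Disjoint ({a, b, c} : Finset P) (sit i p) ↔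
      a ∉ sit i p ∧ b ∉ sit i p ∧ c ∉ sit i p := by
    rw [disjoint_insert_left, disjoint_insert_left, disjoint_singleton_left]
  by_cases hD : Disjoint ({a, b, c} : Finset P) (sit i p)
  · rw [if_pos hD]
    obtain ⟨n1, n2, n3⟩ := hdabc.1 hD
    have hbt : bt i (m3 i (p, b)) w v b = 1 := by
      unfold bt
      rw [if_pos]
      refine ⟨?_, ?_, ?_⟩
      · rw [hsite b Q.lb, if_pos rfl]
      · rw [hTc]
        intro h
        have := pd_tch H hp h
        rw [Q.nzw] at this
        exact n2 (by rw [← this]; simp)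
      · rw [hTc]
        intro h
        have := pd_tch H hp h
        rw [Q.nzv] at this
        exact n2 (by rw [← this]; simp)
    have hbp' : b ≠ p := by
      rintro rfl
      have := Q.lb
      rcases hd with ⟨-, h, -⟩ | ⟨-, h, -⟩ <;> omega
    have hep : ep3 (sit i p) p b = 1 := by
      unfold ep3
      rw [if_neg]
      rintro (h | h)
      · exact n2 h
      · exact hbp' h
    rw [if_pos hbt, if_neg n1, if_neg n3, hep]
    ring
  · rw [if_neg hD]
    have hz : (if a ∈ sit i p then (0 : ℤ) else -1) * (if c ∈ sit i p then 0 else -1) = 0 := by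
      by_cases n1 : a ∈ sit i p
      · rw [if_pos n1, zero_mul]
      · by_cases n3 : c ∈ sit i p
        · rw [if_pos n3, mul_zero]
        · exfalso
          apply hD
          rw [hdabc]
          refine ⟨n1, fun n2 => ?_, n3⟩
          rcases hbp p hp n2 with h | h
          · exact n1 h
          · exact n3 h
    rw [hz]
    split_ifs <;> ring

end

end Pool.Agent.GaussPoset.Win.Pa
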