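import Pool.Agent.W_448p_h97.PaJ

/-!
MP_448cb3_co, G2, case B, window `j`: the value (6,4) of a component with two stars, configurations of energy four.
helper97.
-/

namespace Pool.Agent.GaussPoset.Win.Pa

set_option linter.unusedSectionVars false

open Finset W4
open Pool.Agent.GaussPoset.Win.So (IV_chi IV_Fe)
open Pool.Agent.GaussPoset.Win.SO (PN vp con on Sde TD On tL tU con_cls num_PN sit_con BL_union BU_union LowD UppD)
open Pool.Agent.GaussPoset.Win.I2 (lS uS mem_lS mem_uS)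

universe u

variable {P : Type u} [Fintype P] [PartialOrder P] [DecidableEq P] {r i : ℕ}
variable {e f : P → ℕ} {psi : P → P} {C K : Finset P} {w v w' v' a b c a' b' c' : P}

/-- the type for free sites -/
lemma FG_free {x : P} (h2 : (nz i x).card = 2) (hlt : ∀ y ∈ nz i x, e y < 1) :
    FG i e x 1 = if Disjoint (nz i x) (AL i e ∪ AU i e) then 1 else 0 := by
  unfold FG
  by_cases hd : Disjoint (nz i x) (AL i e ∪ AU i e)
  · rw [if_pos (show Fx i e x 1 from ⟨hlt, hd⟩), if_pos hd]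
  · rw [if_neg (fun h => hd h.2), if_neg hd, if_neg]
    rintro ⟨g1, -⟩
    rw [kz_eq_iff.2 hlt] at g1
    omega

/-- killed sites of a pair of pendants -/
lemma c4_AU (H : Gr P r) (hi : 1 ≤ i) (hi2 : i + 1 ≤ r) {q : P × P} (hq : q ∈ P4 i C) :
    AL i (c4 i q) ∪ AU i (c4 i q) = sit i q.1 ∪ sit i q.2 := by
  obtain ⟨h1, h2, h3⟩ := mem_P4.1 hq
  have N := num_PN H h1
  have N' := num_PN H h2
  have c1 := con_cls H N.ns
  have c2 := con_cls H N'.ns
  have hs : SO.Cls i (con i q.1 ∪ con i q.2) := by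
    constructor
    · intro x hx
      rcases mem_union.1 hx with hx | hx
      · exact c1.ns x hx
      · exact c2.ns x hx
    · intro x hx hl y hy
      rcases mem_union.1 hx with hx | hx
      · exact mem_union_left _ (c1.lo x hx hl y hy)
      · exact mem_union_right _ (c2.lo x hx hl y hy)
    · intro x hx hl y hy
      rcases mem_union.1 hx with hx | hx
      · exact mem_union_left _ (c1.up x hx hl y hy)
      · exact mem_union_right _ (c2.up x hx hl y hy)
  obtain ⟨-, -, -, -, -, -, d1, d2⟩ := SO.on_data H hi hi2 hs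
  unfold c4
  rw [d1, d2, BL_union, BU_union, ← sit_con H N.ns, ← sit_con H N'.ns]
  ext y
  simp only [mem_union]
  tauto

/-- DATA of a T-element -/
lemma T4_dat (H : Gr P r) (hir : i ≤ r) (hC : Part (i + 1) C) {z : P} (hz : z ∈ T4 i C) :
    ∃ x1 x2 s, (x1 ∈ near P i ∧ x1 ∈ C ∧ (nz i x1).card = 2) ∧
      (x2 ∈ near P i ∧ x2 ∈ C ∧ (nz i x2).card = 2) ∧ s ∈ nz i x1 ∧ s ∈ nz i x2 ∧
      (∀ y, y ∈ nz i x1 → y ∈ nz i x2 → y = s) ∧
      AL i (cA i z) ∪ AU i (cA i z) = nz i x1 ∪ nz i x2 ∧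
      AL i (cB i z) ∪ AU i (cB i z) = (nz i x1 ∪ nz i x2).erase s ∧
      (∀ y, lev y = i → cA i z y = 0) ∧
      (∀ y, lev y = i → cB i z y = if y = s then 1 else 0) := by
  rcases mem_T4.1 hz with ⟨h1, h2⟩ | ⟨h1, h2⟩
  · obtain ⟨x, x', s, T⟩ := T4_low H h1 h2
    have l1 := T.lw
    obtain ⟨l2, l3⟩ := T.lx H
    have l4 := T.site H (mem_union_left _ T.sx)
    have hzC := (mem_ZL.1 h1).1
    have hxC := hC.up hzC (show z ⋖ x by rw [← mem_uc, T.cw]; simp)
    have hxC' := hC.up hzC (show z ⋖ x' by rw [← mem_uc, T.cw]; simp)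
    have fA := cA_low H l1 T.cw
    have fB := cB_low H T
    have D := lowA H l1 T.cw fA
    have D' : UppD i (cA i z) (∅ : Finset P) ∅ ∅ := SO.upp_none H hir fun y hy => by
      rw [fA y, if_neg (by rintro rfl; omega), if_neg]
      rintro (rfl | rfl) <;> omega
    have E := lowB H T fB
    have E' : UppD i (cB i z) (∅ : Finset P) ∅ ∅ := SO.upp_none H hir fun y hy => by
      rw [fB y, if_neg]
      rw [mem_insert, mem_insert, mem_insert, mem_singleton]
      rintro (rfl | rfl | rfl | rfl) <;> omega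
    refine ⟨x, x', s, ⟨mem_near.2 (Or.inl l2), hxC, by rw [nz_low l2]; exact T.cx⟩,
      ⟨mem_near.2 (Or.inl l3), hxC', by rw [nz_low l3]; exact T.cx'⟩, ?_, ?_, ?_, ?_, ?_, ?_, ?_⟩
    · rw [nz_low l2]; exact T.sx
    · rw [nz_low l3]; exact T.sx'
    · rw [nz_low l2, nz_low l3]; exact T.only
    · rw [D.AL_eq, D'.AU_eq, union_empty, nz_low l2, nz_low l3]
    · rw [E.AL_eq, E'.AU_eq, union_empty, nz_low l2, nz_low l3]
    · intro y hy
      rw [fA y, if_neg (by rintro rfl; omega), if_neg]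
      rintro (rfl | rfl) <;> omega
    · intro y hy
      rw [fB y]
      by_cases hys : y = s
      · rw [if_pos hys, if_pos]
        simp [hys]
      · rw [if_neg hys, if_neg]
        rw [mem_insert, mem_insert, mem_insert, mem_singleton]
        rintro (rfl | rfl | rfl | rfl)
        · omega
        · omega
        · omega
        · exact hys rfl
  · obtain ⟨x, x', s, T⟩ := T4_upp H h1 h2
    have l1 := T.lw'
    obtain ⟨l2, l3⟩ := T.lx' H
    have l4 := T.site' H (mem_union_left _ T.sx)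
    have hzC := (mem_ZU.1 h1).1
    have hxC := hC.dn hzC (by omega) (show x ⋖ z by rw [← mem_dc, T.cw]; simp)
    have hxC' := hC.dn hzC (by omega) (show x' ⋖ z by rw [← mem_dc, T.cw]; simp)
    have fA := cA_upp H l1 T.cw
    have fB := cB_upp H T
    have D := uppA H hir l1 T.cw fA
    have D' : LowD i (cA i z) (∅ : Finset P) ∅ ∅ := SO.low_none H fun y hy => by
      rw [fA y, if_neg (by rintro rfl; omega), if_neg]
      rintro (rfl | rfl) <;> omega
    have E := uppB H hir T fB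
    have E' : LowD i (cB i z) (∅ : Finset P) ∅ ∅ := SO.low_none H fun y hy => by
      rw [fB y, if_neg]
      rw [mem_insert, mem_insert, mem_insert, mem_singleton]
      rintro (rfl | rfl | rfl | rfl) <;> omega
    refine ⟨x, x', s, ⟨mem_near.2 (Or.inr l2), hxC, by rw [nz_upp l2]; exact T.cx⟩,
      ⟨mem_near.2 (Or.inr l3), hxC', by rw [nz_upp l3]; exact T.cx'⟩, ?_, ?_, ?_, ?_, ?_, ?_, ?_⟩
    · rw [nz_upp l2]; exact T.sx
    · rw [nz_upp l3]; exact T.sx'
    · rw [nz_upp l2, nz_upp l3]; exact T.only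
    · rw [D.AU_eq, D'.AL_eq, empty_union, nz_upp l2, nz_upp l3]
    · rw [E.AU_eq, E'.AL_eq, empty_union, nz_upp l2, nz_upp l3]
    · intro y hy
      rw [fA y, if_neg (by rintro rfl; omega), if_neg]
      rintro (rfl | rfl) <;> omega
    · intro y hy
      rw [fB y]
      by_cases hys : y = s
      · rw [if_pos hys, if_pos]
        simp [hys]
      · rw [if_neg hys, if_neg]
        rw [mem_insert, mem_insert, mem_insert, mem_singleton]
        rintro (rfl | rfl | rfl | rfl)
        · omega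
        · omega
        · omega
        · exact hys rfl

/-- the types are the same for the two configurations of a T-element -/
lemma FG_AB (H : Gr P r) {z : P} {T : Finset P} {s : P}
    (hA : AL i (cA i z) ∪ AU i (cA i z) = T)
    (hB : AL i (cB i z) ∪ AU i (cB i z) = T.erase s)
    (gA : ∀ y, lev y = i → cA i z y = 0) (gB : ∀ y, lev y = i → cB i z y = if y = s then 1 else 0)
    {x : P} (hx : x ∈ near P i) (h2 : (nz i x).card = 2) (hs : s ∈ nz i x → nz i x ⊆ T) :
    FG i (cA i z) x 1 = FG i (cB i z) x 1 := by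
  have hltA : ∀ y ∈ nz i x, cA i z y < 1 := by
    intro y hy
    rw [gA y (nz_lev H hx hy)]
    omega
  rw [FG_free h2 hltA, hA]
  by_cases hsx : s ∈ nz i x
  · have hsub := hs hsx
    have n1 : ¬ Disjoint (nz i x) T := by
      rw [not_disjoint_iff]
      exact ⟨s, hsx, hsub hsx⟩
    rw [if_neg n1]
    unfold FG
    rw [if_neg, if_neg]
    · rintro ⟨g1, -, g3⟩
      obtain ⟨y, hy⟩ := card_eq_one.1 g1
      have hy1 : y ∈ kz i (cB i z) x 1 := by rw [hy]; exact mem_singleton_self _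
      obtain ⟨hy2, hy3⟩ := mem_kz.1 hy1
      rw [gB y (nz_lev H hx hy2)] at hy3
      have hys : y ≠ s := by
        rintro rfl
        rw [if_pos rfl] at hy3
        omega
      rw [hB] at g3
      exact disjoint_left.1 g3 hy1 (mem_erase.2 ⟨hys, hsub hy2⟩)
    · rintro ⟨g1, -⟩
      have := g1 s hsx
      rw [gB s (nz_lev H hx hsx), if_pos rfl] at this
      omega
  · have hltB : ∀ y ∈ nz i x, cB i z y < 1 := by
      intro y hy
      rw [gB y (nz_lev H hx hy), if_neg (by rintro rfl; exact hsx hy)]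
      omega
    rw [FG_free h2 hltB, hB]
    have : Disjoint (nz i x) (T.erase s) ↔ Disjoint (nz i x) T := by
      constructor
      · intro h
        rw [disjoint_left] at h ⊢
        intro y hy hy'
        exact h hy (mem_erase.2 ⟨by rintro rfl; exact hsx hy, hy'⟩)
      · intro h
        exact disjoint_of_subset_right (erase_subset _ _) h
    by_cases hd : Disjoint (nz i x) T
    · rw [if_pos hd, if_pos (this.2 hd)]
    · rw [if_neg hd, if_neg (fun h => hd (this.1 h))]

lemma J9_sym (e : P → ℕ) (n1 n2 m : ℕ) : J9 i K psi C w v w' v' e n1 n2 m =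
    J9 i K psi C w' v' w v e n2 n1 m := by
  unfold J9
  congr 1
  funext S
  ring

section

variable (Q : K9c r i K psi C w v w' v' a b c a' b' c')
include Q

theorem K9c.s120 (hbp : ∀ p ∈ PN i C, b' ∈ sit i p → a' ∈ sit i p ∨ c' ∈ sit i p) :
    ∑ e ∈ Co i K psi C 3, lc (st i C).card 4 (J9 i K psi C w v w' v' e 1 2 0) =
      - ∑ p ∈ PN i C, Nf i a' b' c' p * NN i w v p * vp i p := by
  rw [← Q.sym.s210 hbp]
  refine sum_congr rfl fun e _ => ?_
  rw [J9_sym]

/-- THE VALUE (6,4) -/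
theorem K9c.l64 (hbp : ∀ p ∈ PN i C, b ∈ sit i p → a ∈ sit i p ∨ c ∈ sit i p)
    (hbp' : ∀ p ∈ PN i C, b' ∈ sit i p → a' ∈ sit i p ∨ c' ∈ sit i p) :
    lc (st i C).card 4 (ZC i C 6) =
      ∑ e ∈ Co i K psi C 4, DD i e w v * DD i e w' v' * lc (st i C).card 2 (tC i C e) -
        ∑ p ∈ PN i C, Nf i a b c p * NN i w' v' p * vp i p -
        ∑ p ∈ PN i C, Nf i a' b' c' p * NN i w v p * vp i p + 1 := by
  have h := Q.lcT tB_6
  rw [show tk 6 = 4 from rfl] at h
  rw [h, sum_range_succ, sum_range_succ, sum_range_succ, sum_range_succ, sum_range_succ,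
    sum_range_succ, sum_range_one]
  have t0 : tT 6 0 = ∅ := by decide
  have t1 : tT 6 1 = ∅ := by decide
  have t2 : tT 6 2 = {(2, 2, 0)} := by decide
  have t3 : tT 6 3 = {(2, 1, 0), (1, 2, 0)} := by decide
  have t4 : tT 6 4 = {(1, 1, 0)} := by decide
  have t5 : tT 6 5 = ∅ := by decide
  have t6 : tT 6 6 = ∅ := by decide
  rw [t0, t1, t2, t3, t4, t5, t6]
  simp only [sum_empty, sum_const_zero, add_zero, zero_add, sum_singleton]
  have e3 : ∑ e ∈ Co i K psi C 3, ∑ x ∈ ({(2, 1, 0), (1, 2, 0)} : Finset (ℕ × ℕ × ℕ)),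
      lc (st i C).card 4 (J9 i K psi C w v w' v' e x.1 x.2.1 x.2.2) =
      - ∑ p ∈ PN i C, Nf i a b c p * NN i w' v' p * vp i p -
        ∑ p ∈ PN i C, Nf i a' b' c' p * NN i w v p * vp i p := by
    have e2 : ∀ e : P → ℕ, ∑ x ∈ ({(2, 1, 0), (1, 2, 0)} : Finset (ℕ × ℕ × ℕ)),
        lc (st i C).card 4 (J9 i K psi C w v w' v' e x.1 x.2.1 x.2.2) =
        lc (st i C).card 4 (J9 i K psi C w v w' v' e 2 1 0) +
          lc (st i C).card 4 (J9 i K psi C w v w' v' e 1 2 0) := by
      intro e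
      rw [sum_pair (by decide)]
    simp only [e2]
    rw [sum_add_distrib, Q.s210 hbp, Q.s120 hbp']
    ring
  have e4 : ∀ e ∈ Co i K psi C 4, lc (st i C).card 4 (J9 i K psi C w v w' v' e 1 1 0) =
      DD i e w v * DD i e w' v' * lc (st i C).card 2 (tC i C e) := by
    intro e he
    exact Q.J110 (mem_Co.1 he).2.2 (mem_Co.1 he).2.1 (Q.odC he (by omega))
  rw [e3, Q.e220, sum_congr rfl e4]
  ring

/-- the energy four part -/
theorem K9c.S4 (hZ : ∀ z ∈ Z4 i C, z ∈ T4 i C)
    (hS : ∀ x1 x2 s x : P, (x1 ∈ near P i ∧ x1 ∈ C ∧ (nz i x1).card = 2) →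
      (x2 ∈ near P i ∧ x2 ∈ C ∧ (nz i x2).card = 2) → s ∈ nz i x1 → s ∈ nz i x2 →
      (∀ y, y ∈ nz i x1 → y ∈ nz i x2 → y = s) → (x = w ∨ x = v ∨ x = w' ∨ x = v') →
      s ∈ nz i x → nz i x ⊆ nz i x1 ∪ nz i x2) :
    2 * ∑ e ∈ Co i K psi C 4, DD i e w v * DD i e w' v' * lc (st i C).card 2 (tC i C e) =
      ∑ q ∈ P4 i C, DD i (c4 i q) w v * DD i (c4 i q) w' v' * (vp i q.1 * vp i q.2) := by
  have H := Q.H
  rw [Q.sum4 (fun e => DD i e w v * DD i e w' v' * lc (st i C).card 2 (tC i C e))]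
  · have hZT : Z4 i C = T4 i C := by
      ext z
      exact ⟨hZ z, T4_sub⟩
    have h1 : ∑ z ∈ Z4 i C, DD i (cA i z) w v * DD i (cA i z) w' v' *
        lc (st i C).card 2 (tC i C (cA i z)) + ∑ z ∈ T4 i C, DD i (cB i z) w v *
        DD i (cB i z) w' v' * lc (st i C).card 2 (tC i C (cB i z)) = 0 := by
      rw [hZT, ← sum_add_distrib]
      refine sum_eq_zero fun z hz => ?_
      have vA : lc (st i C).card 2 (tC i C (cA i z)) = -1 := (cA_value H Q.hir Q.hC (T4_sub hz)).2
      have vB : lc (st i C).card 2 (tC i C (cB i z)) = 1 := (cB_value H Q.hir Q.hC hz).2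
      obtain ⟨x1, x2, s, d1, d2, s1, s2, hon, hA, hB, gA, gB⟩ := T4_dat H Q.hir Q.hC hz
      have key : ∀ {x : P}, (x = w ∨ x = v ∨ x = w' ∨ x = v') → x ∈ near P i →
          (nz i x).card = 2 → FG i (cA i z) x 1 = FG i (cB i z) x 1 := fun hx hn h2 =>
        FG_AB H hA hB gA gB hn h2 (hS x1 x2 s _ d1 d2 s1 s2 hon hx)
      rw [vA, vB]
      unfold DD
      rw [key (Or.inl rfl) Q.nw Q.w2, key (Or.inr (Or.inl rfl)) Q.nv Q.v2,
        key (Or.inr (Or.inr (Or.inl rfl))) Q.nw' Q.w2',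
        key (Or.inr (Or.inr (Or.inr rfl))) Q.nv' Q.v2']
      ring
    rw [h1, mul_zero, add_zero]
    refine sum_congr rfl fun q hq => ?_
    have hv : lc (st i C).card 2 (tC i C (c4 i q)) = vp i q.1 * vp i q.2 :=
      (c4_value H Q.hi Q.hi2 Q.hC hq).2
    rw [hv]
  · intro e hs h
    have h2 := SO.dvd_up (SO.cheap_dvd H Q.hC hs h)
    have h3 : lc (st i C).card 2 (tC i C e) = 0 := lc_of_od h2
    rw [h3, mul_zero]

end

end Pool.Agent.GaussPoset.Win.Pa
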