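import Pool.Agent.W_448p_h97.PaK
import Pool.Agent.W_448p6_h15.PA

/-!
MP_448cb3_co, G2, case B, window `j`: the inequality `0 <= w3 ^ 2 - 2 w6` for a component with two stars
at the ends of its path of sites.  helper97.
-/

namespace Pool.Agent.GaussPoset.Win.Pa

set_option linter.unusedSectionVars false

open Finset W4
open Pool.Agent.GaussPoset.Win.So (IV_chi IV_Fe)
open Pool.Agent.GaussPoset.Win.SO (PN vp con on con_sub)

universe u

variable {P : Type u} [Fintype P] [PartialOrder P] [DecidableEq P] {r i : ℕ}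
variable {e f : P → ℕ} {psi : P → P} {C K : Finset P} {w v w' v' : P} {x : ℕ → P} {m : ℕ}

/-- a component with two stars at the ends of the path `x 0, ..., x m` of its sites -/
structure K9x (r i : ℕ) (K : Finset P) (psi : P → P) (C : Finset P)
    (w v w' v' : P) (x : ℕ → P) (m : ℕ) : Prop extends
    K9c r i K psi C w v w' v' (x 0) (x 1) (x 2) (x m) (x (m - 1)) (x (m - 2)) where
  hm : 5 ≤ m
  inj : ∀ s t, s ≤ m → t ≤ m → x s = x t → s = t
  dbl : ∀ y ∈ C, y ∈ near P i → (nz i y).card = 2 → ∃ t, t < m ∧ nz i y = {x t, x (t + 1)}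
  zz : ∀ z ∈ Z4 i C, z ∈ T4 i C
  mid : m = 5 → ∀ p ∈ PN i C, sit i p ≠ {x 2, x 3}

/-- the pendant has the sites `x k`, `x (k + 1)` -/
noncomputable def chi' (i : ℕ) (x : ℕ → P) (k : ℕ) (p : P) : ℤ :=
  if sit i p = {x k, x (k + 1)} then 1 else 0

section

variable (Q : K9x r i K psi C w v w' v' x m)
include Q

lemma K9x.eq_iff {j k : ℕ} (hj : j ≤ m) (hk : k ≤ m) : x j = x k ↔ j = k :=
  ⟨Q.inj j k hj hk, fun h => by rw [h]⟩

lemma K9x.dj {j t : ℕ} (hj : j < m) (ht : t < m) :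
    Disjoint ({x j, x (j + 1)} : Finset P) {x t, x (t + 1)} ↔ j + 1 < t ∨ t + 1 < j := by
  rw [disjoint_insert_left, disjoint_singleton_left, mem_insert, mem_singleton, mem_insert,
    mem_singleton, Q.eq_iff (by omega) (by omega), Q.eq_iff (by omega) (by omega),
    Q.eq_iff (by omega) (by omega), Q.eq_iff (by omega) (by omega)]
  omega

lemma K9x.pair_eq {k t : ℕ} (hk : k < m) (ht : t < m) :
    ({x t, x (t + 1)} : Finset P) = {x k, x (k + 1)} ↔ t = k := by
  constructor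
  · intro h
    have h1 : x t ∈ ({x k, x (k + 1)} : Finset P) := by rw [← h]; simp
    have h2 : x (t + 1) ∈ ({x k, x (k + 1)} : Finset P) := by rw [← h]; simp
    rw [mem_insert, mem_singleton, Q.eq_iff (by omega) (by omega),
      Q.eq_iff (by omega) (by omega)] at h1 h2
    omega
  · rintro rfl
    rfl

lemma K9x.n1 : nz i w = {x 0, x (0 + 1)} := Q.nzw
lemma K9x.n2 : nz i v = {x 1, x (1 + 1)} := Q.nzv
lemma K9x.n3 : nz i w' = {x (m - 1), x (m - 1 + 1)} := by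
  have := Q.hm
  rw [Q.nzw', pair_comm, show m - 1 + 1 = m by omega]
lemma K9x.n4 : nz i v' = {x (m - 2), x (m - 2 + 1)} := by
  have := Q.hm
  rw [Q.nzv', pair_comm, show m - 2 + 1 = m - 1 by omega]

/-- the sites of a pendant -/
lemma K9x.pn {p : P} (hp : p ∈ PN i C) : ∃ t, t < m ∧ sit i p = {x t, x (t + 1)} := by
  obtain ⟨hpC, y, hcon, hyn, hnz, hcard, hlev, hd⟩ := PN_dat Q.H hp
  have hl : lev p ≠ i := by rcases hd with ⟨-, h, -⟩ | ⟨-, h, -⟩ <;> omega
  have hyC : y ∈ C := con_sub Q.H Q.hC hpC hl (by rw [hcon]; simp)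
  rw [← hnz] at hcard ⊢
  exact Q.dbl y hyC hyn hcard

lemma K9x.Nx_val {y : P} {j t : ℕ} (hj : j < m) (ht : t < m) (hy : nz i y = {x j, x (j + 1)})
    {p : P} (hp : sit i p = {x t, x (t + 1)}) :
    Nx i y p = if j + 1 < t ∨ t + 1 < j then 1 else 0 := by
  unfold Nx
  rw [hy, hp]
  by_cases h : j + 1 < t ∨ t + 1 < j
  · rw [if_pos ((Q.dj hj ht).2 h), if_pos h]
  · rw [if_neg (fun h' => h ((Q.dj hj ht).1 h')), if_neg h]

lemma K9x.chi_val {k t : ℕ} (hk : k < m) (ht : t < m) {p : P} (hp : sit i p = {x t, x (t + 1)}) :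
    chi' i x k p = if t = k then 1 else 0 := by
  unfold chi'
  rw [hp]
  by_cases h : t = k
  · rw [if_pos ((Q.pair_eq hk ht).2 h), if_pos h]
  · rw [if_neg (fun h' => h ((Q.pair_eq hk ht).1 h')), if_neg h]

lemma K9x.NL {p : P} (hp : p ∈ PN i C) : NN i w v p = chi' i x 2 p := by
  have hm := Q.hm
  obtain ⟨t, ht, hs⟩ := Q.pn hp
  unfold NN
  rw [Q.Nx_val (by omega) ht Q.n1 hs, Q.Nx_val (by omega) ht Q.n2 hs, Q.chi_val (by omega) ht hs]
  split_ifs <;> omega

lemma K9x.NR {p : P} (hp : p ∈ PN i C) : NN i w' v' p = chi' i x (m - 3) p := by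
  have hm := Q.hm
  obtain ⟨t, ht, hs⟩ := Q.pn hp
  unfold NN
  rw [Q.Nx_val (by omega) ht Q.n3 hs, Q.Nx_val (by omega) ht Q.n4 hs, Q.chi_val (by omega) ht hs]
  split_ifs <;> omega

lemma K9x.NfL {p : P} (hp : p ∈ PN i C) :
    Nf i (x 0) (x 1) (x 2) p * NN i w' v' p = if 6 ≤ m then chi' i x (m - 3) p else 0 := by
  have hm := Q.hm
  obtain ⟨t, ht, hs⟩ := Q.pn hp
  have hd : Disjoint ({x 0, x 1, x 2} : Finset P) (sit i p) ↔ 3 ≤ t := by
    rw [hs, disjoint_insert_left, disjoint_insert_left, disjoint_singleton_left]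
    simp only [mem_insert, mem_singleton]
    rw [Q.eq_iff (by omega) (by omega), Q.eq_iff (by omega) (by omega),
      Q.eq_iff (by omega) (by omega), Q.eq_iff (by omega) (by omega),
      Q.eq_iff (by omega) (by omega), Q.eq_iff (by omega) (by omega)]
    omega
  rw [Q.NR hp, Q.chi_val (by omega) ht hs]
  unfold Nf
  by_cases h : 3 ≤ t
  · rw [if_pos (hd.2 h)]
    split_ifs <;> omega
  · rw [if_neg (fun h' => h (hd.1 h'))]
    split_ifs <;> omega

lemma K9x.NfR {p : P} (hp : p ∈ PN i C) :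
    Nf i (x m) (x (m - 1)) (x (m - 2)) p * NN i w v p = if 6 ≤ m then chi' i x 2 p else 0 := by
  have hm := Q.hm
  obtain ⟨t, ht, hs⟩ := Q.pn hp
  have hd : Disjoint ({x m, x (m - 1), x (m - 2)} : Finset P) (sit i p) ↔ t + 1 < m - 2 := by
    rw [hs, disjoint_insert_left, disjoint_insert_left, disjoint_singleton_left]
    simp only [mem_insert, mem_singleton]
    rw [Q.eq_iff (by omega) (by omega), Q.eq_iff (by omega) (by omega),
      Q.eq_iff (by omega) (by omega), Q.eq_iff (by omega) (by omega),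
      Q.eq_iff (by omega) (by omega), Q.eq_iff (by omega) (by omega)]
    omega
  rw [Q.NL hp, Q.chi_val (by omega) ht hs]
  unfold Nf
  by_cases h : t + 1 < m - 2
  · rw [if_pos (hd.2 h)]
    split_ifs <;> omega
  · rw [if_neg (fun h' => h (hd.1 h'))]
    split_ifs <;> omega

/-- no pendant counts on both sides -/
lemma K9x.NN0 {p : P} (hp : p ∈ PN i C) : NN i w v p * NN i w' v' p = 0 := by
  have hm := Q.hm
  obtain ⟨t, ht, hs⟩ := Q.pn hp
  rw [Q.NL hp, Q.NR hp, Q.chi_val (by omega) ht hs, Q.chi_val (by omega) ht hs]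
  by_cases h5 : m = 5
  · have h2 : t ≠ 2 := by
      rintro rfl
      exact Q.mid h5 p hp hs
    rw [if_neg h2, zero_mul]
  · split_ifs <;> omega

lemma K9x.hbc {p : P} (hp : p ∈ PN i C) (h : x 1 ∈ sit i p) : x 0 ∈ sit i p ∨ x 2 ∈ sit i p := by
  have hm := Q.hm
  obtain ⟨t, ht, hs⟩ := Q.pn hp
  rw [hs] at h ⊢
  simp only [mem_insert, mem_singleton] at h ⊢
  rw [Q.eq_iff (by omega) (by omega), Q.eq_iff (by omega) (by omega)] at h
  rw [Q.eq_iff (by omega) (by omega), Q.eq_iff (by omega) (by omega),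
    Q.eq_iff (by omega) (by omega), Q.eq_iff (by omega) (by omega)]
  omega

lemma K9x.hbc' {p : P} (hp : p ∈ PN i C) (h : x (m - 1) ∈ sit i p) :
    x m ∈ sit i p ∨ x (m - 2) ∈ sit i p := by
  have hm := Q.hm
  obtain ⟨t, ht, hs⟩ := Q.pn hp
  rw [hs] at h ⊢
  simp only [mem_insert, mem_singleton] at h ⊢
  rw [Q.eq_iff (by omega) (by omega), Q.eq_iff (by omega) (by omega)] at h
  rw [Q.eq_iff (by omega) (by omega), Q.eq_iff (by omega) (by omega),
    Q.eq_iff (by omega) (by omega), Q.eq_iff (by omega) (by omega)]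
  omega

/-- the T-elements and the doubles of the stars -/
lemma K9x.hS {x1 x2 s y : P} (d1 : x1 ∈ near P i ∧ x1 ∈ C ∧ (nz i x1).card = 2)
    (d2 : x2 ∈ near P i ∧ x2 ∈ C ∧ (nz i x2).card = 2) (s1 : s ∈ nz i x1) (s2 : s ∈ nz i x2)
    (hon : ∀ y, y ∈ nz i x1 → y ∈ nz i x2 → y = s) (hy : y = w ∨ y = v ∨ y = w' ∨ y = v')
    (hs : s ∈ nz i y) : nz i y ⊆ nz i x1 ∪ nz i x2 := by
  have hm := Q.hm
  obtain ⟨t1, h1, e1⟩ := Q.dbl x1 d1.2.1 d1.1 d1.2.2
  obtain ⟨t2, h2, e2⟩ := Q.dbl x2 d2.2.1 d2.1 d2.2.2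
  obtain ⟨t3, h3, e3⟩ : ∃ t, t < m ∧ nz i y = {x t, x (t + 1)} := by
    rcases hy with rfl | rfl | rfl | rfl
    · exact ⟨0, by omega, Q.n1⟩
    · exact ⟨1, by omega, Q.n2⟩
    · exact ⟨m - 1, by omega, Q.n3⟩
    · exact ⟨m - 2, by omega, Q.n4⟩
  rw [e1] at s1 hon
  rw [e2] at s2 hon
  rw [e3] at hs
  rw [e1, e2, e3]
  -- the index of the common site
  obtain ⟨u, hu, rfl⟩ : ∃ u, u ≤ m ∧ s = x u := by
    rw [mem_insert, mem_singleton] at s1
    rcases s1 with h | h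
    · exact ⟨t1, by omega, h⟩
    · exact ⟨t1 + 1, by omega, h⟩
  have hne : t1 ≠ t2 := by
    rintro rfl
    have g1 := hon (x t1) (by simp) (by simp)
    have g2 := hon (x (t1 + 1)) (by simp) (by simp)
    rw [Q.eq_iff (by omega) (by omega)] at g1 g2
    omega
  simp only [mem_insert, mem_singleton] at s1 s2 hs
  rw [Q.eq_iff (by omega) (by omega), Q.eq_iff (by omega) (by omega)] at s1 s2 hs
  intro z hz
  rw [mem_insert, mem_singleton] at hz
  rw [mem_union]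
  simp only [mem_insert, mem_singleton]
  rcases hz with rfl | rfl
  · rw [Q.eq_iff (by omega) (by omega), Q.eq_iff (by omega) (by omega),
      Q.eq_iff (by omega) (by omega), Q.eq_iff (by omega) (by omega)]
    omega
  · rw [Q.eq_iff (by omega) (by omega), Q.eq_iff (by omega) (by omega),
      Q.eq_iff (by omega) (by omega), Q.eq_iff (by omega) (by omega)]
    omega

/-! ### pairs of pendants -/

lemma K9x.DDc {q : P × P} (hq : q ∈ P4 i C) {y : P} {j t s : ℕ} (hy : y ∈ near P i)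
    (h2 : (nz i y).card = 2) (hj : j < m) (ht : t < m) (hs : s < m)
    (hn : nz i y = {x j, x (j + 1)}) (h1 : sit i q.1 = {x t, x (t + 1)})
    (h1' : sit i q.2 = {x s, x (s + 1)}) : FG i (c4 i q) y 1 =
      if (j + 1 < t ∨ t + 1 < j) ∧ (j + 1 < s ∨ s + 1 < j) then 1 else 0 := by
  have hlt : ∀ z ∈ nz i y, c4 i q z < 1 := by
    intro z hz
    rw [c4_site Q.H hq (nz_lev Q.H hy hz)]
    omega
  have hiff : Disjoint (nz i y) (AL i (c4 i q) ∪ AU i (c4 i q)) ↔
      (j + 1 < t ∨ t + 1 < j) ∧ (j + 1 < s ∨ s + 1 < j) := by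
    rw [c4_AU Q.H Q.hi Q.hi2 hq, disjoint_union_right, hn, h1, h1', Q.dj hj ht, Q.dj hj hs]
  rw [FG_free h2 hlt]
  by_cases h : (j + 1 < t ∨ t + 1 < j) ∧ (j + 1 < s ∨ s + 1 < j)
  · rw [if_pos (hiff.2 h), if_pos h]
  · rw [if_neg (fun h' => h (hiff.1 h')), if_neg h]

lemma K9x.DDp4 {q : P × P} (hq : q ∈ P4 i C) :
    DD i (c4 i q) w v * DD i (c4 i q) w' v' = if 7 ≤ m then
      chi' i x 2 q.1 * chi' i x (m - 3) q.2 + chi' i x (m - 3) q.1 * chi' i x 2 q.2 else 0 := by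
  have hm := Q.hm
  obtain ⟨hp1, hp2, hd⟩ := mem_P4.1 hq
  obtain ⟨t, ht, h1⟩ := Q.pn hp1
  obtain ⟨s, hs, h2⟩ := Q.pn hp2
  rw [h1, h2, Q.dj ht hs] at hd
  unfold DD
  rw [Q.DDc hq Q.nw Q.w2 (by omega) ht hs Q.n1 h1 h2, Q.DDc hq Q.nv Q.v2 (by omega) ht hs Q.n2 h1 h2,
    Q.DDc hq Q.nw' Q.w2' (by omega) ht hs Q.n3 h1 h2,
    Q.DDc hq Q.nv' Q.v2' (by omega) ht hs Q.n4 h1 h2, Q.chi_val (by omega) ht h1,
    Q.chi_val (by omega) hs h2, Q.chi_val (by omega) ht h1, Q.chi_val (by omega) hs h2]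
  have e1 : ((if (0 + 1 < t ∨ t + 1 < 0) ∧ (0 + 1 < s ∨ s + 1 < 0) then (1 : ℤ) else 0) -
      if (1 + 1 < t ∨ t + 1 < 1) ∧ (1 + 1 < s ∨ s + 1 < 1) then 1 else 0) =
      if (t = 2 ∧ 2 < s) ∨ (s = 2 ∧ 2 < t) then 1 else 0 := by
    split_ifs <;> omega
  have e2 : ((if (m - 1 + 1 < t ∨ t + 1 < m - 1) ∧ (m - 1 + 1 < s ∨ s + 1 < m - 1) then (1 : ℤ)
      else 0) - if (m - 2 + 1 < t ∨ t + 1 < m - 2) ∧ (m - 2 + 1 < s ∨ s + 1 < m - 2) then 1 else 0) =
      if (t = m - 3 ∧ s < m - 3) ∨ (s = m - 3 ∧ t < m - 3) then 1 else 0 := by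
    split_ifs <;> omega
  rw [e1, e2]
  by_cases h7 : 7 ≤ m
  · rw [if_pos h7]
    by_cases c1 : t = 2
    · rw [if_pos c1]
      by_cases c2 : s = m - 3
      · rw [if_pos c2, if_pos (Or.inl ⟨c1, by omega⟩), if_pos (Or.inr ⟨c2, by omega⟩),
          if_neg (show ¬ t = m - 3 by omega)]
        norm_num
      · rw [if_neg c2, if_neg (show ¬ t = m - 3 by omega), if_neg (show
          ¬ ((t = m - 3 ∧ s < m - 3) ∨ (s = m - 3 ∧ t < m - 3)) by omega)]
        norm_num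
    · rw [if_neg c1]
      by_cases c2 : s = 2
      · rw [if_pos c2]
        by_cases c3 : t = m - 3
        · rw [if_pos c3, if_pos (Or.inr ⟨c2, by omega⟩), if_pos (Or.inl ⟨c3, by omega⟩)]
          norm_num
        · rw [if_neg c3, if_neg (show
            ¬ ((t = m - 3 ∧ s < m - 3) ∨ (s = m - 3 ∧ t < m - 3)) by omega)]
          norm_num
      · rw [if_neg c2, if_neg (show ¬ ((t = 2 ∧ 2 < s) ∨ (s = 2 ∧ 2 < t)) by omega)]
        norm_num
  · rw [if_neg h7]
    by_cases c1 : (t = 2 ∧ 2 < s) ∨ (s = 2 ∧ 2 < t)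
    · rw [if_neg (show ¬ ((t = m - 3 ∧ s < m - 3) ∨ (s = m - 3 ∧ t < m - 3)) by omega), mul_zero]
    · rw [if_neg c1, zero_mul]

/-- the signed number of pendants at the position `k` -/
noncomputable def dl (i : ℕ) (C : Finset P) (x : ℕ → P) (k : ℕ) : ℤ :=
  ∑ p ∈ PN i C, chi' i x k p * vp i p

theorem K9x.S4v :
    ∑ e ∈ Co i K psi C 4, DD i e w v * DD i e w' v' * lc (st i C).card 2 (tC i C e) =
      if 7 ≤ m then dl i C x 2 * dl i C x (m - 3) else 0 := by
  classical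
  have hm := Q.hm
  have h := Q.S4 Q.zz (fun x1 x2 s y d1 d2 s1 s2 hon hy hs => Q.hS d1 d2 s1 s2 hon hy hs)
  have h1 : ∀ q ∈ P4 i C, DD i (c4 i q) w v * DD i (c4 i q) w' v' * (vp i q.1 * vp i q.2) =
      if 7 ≤ m then (chi' i x 2 q.1 * vp i q.1) * (chi' i x (m - 3) q.2 * vp i q.2) +
        (chi' i x (m - 3) q.1 * vp i q.1) * (chi' i x 2 q.2 * vp i q.2) else 0 := by
    intro q hq
    rw [Q.DDp4 hq]
    split_ifs <;> ring
  rw [sum_congr rfl h1] at h
  by_cases h7 : 7 ≤ m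
  · simp only [if_pos h7] at h ⊢
    have h2 : ∑ q ∈ P4 i C, ((chi' i x 2 q.1 * vp i q.1) * (chi' i x (m - 3) q.2 * vp i q.2) +
        (chi' i x (m - 3) q.1 * vp i q.1) * (chi' i x 2 q.2 * vp i q.2)) =
        ∑ q ∈ PN i C ×ˢ PN i C, ((chi' i x 2 q.1 * vp i q.1) *
          (chi' i x (m - 3) q.2 * vp i q.2) +
        (chi' i x (m - 3) q.1 * vp i q.1) * (chi' i x 2 q.2 * vp i q.2)) := by
      refine sum_subset ?_ ?_
      · intro q hq
        obtain ⟨g1, g2, -⟩ := mem_P4.1 hq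
        exact mem_product.2 ⟨g1, g2⟩
      · intro q hq hn
        obtain ⟨g1, g2⟩ := mem_product.1 hq
        obtain ⟨t, ht, k1⟩ := Q.pn g1
        obtain ⟨s, hs, k2⟩ := Q.pn g2
        have hd : ¬ (t + 1 < s ∨ s + 1 < t) := by
          intro h'
          exact hn (mem_P4.2 ⟨g1, g2, by rw [k1, k2]; exact (Q.dj ht hs).2 h'⟩)
        rw [Q.chi_val (by omega) ht k1, Q.chi_val (by omega) hs k2, Q.chi_val (by omega) ht k1,
          Q.chi_val (by omega) hs k2]
        split_ifs <;> omega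
    rw [h2, sum_add_distrib, sum_product, sum_product] at h
    simp only [← mul_sum, ← sum_mul] at h
    unfold dl
    linarith
  · simp only [if_neg h7, sum_const_zero] at h ⊢
    omega

/-- the mixed number of lower doubles -/
theorem K9x.MMv : 0 ≤ MM i K C w v w' v' ∧ (6 ≤ m → MM i K C w v w' v' = 0) := by
  classical
  have hm := Q.hm
  have hmm : ∀ T : Finset P, W4.mm i K C T = ∑ y ∈ (N0 i K C).filter (fun y => y ∈ dbL P i),
      if nz i y ⊆ T then (1 : ℤ) else 0 := by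
    intro T
    unfold W4.mm
    rw [← Finset.sum_filter, filter_filter, sum_const, nsmul_eq_mul, mul_one]
  have key : ∀ y ∈ (N0 i K C).filter (fun y => y ∈ dbL P i),
      (if nz i y ⊆ nz i w ∪ nz i w' then (1 : ℤ) else 0) +
        (if nz i y ⊆ nz i v ∪ nz i v' then 1 else 0) -
        (if nz i y ⊆ nz i w ∪ nz i v' then 1 else 0) -
        (if nz i y ⊆ nz i v ∪ nz i w' then 1 else 0) =
      if m = 5 ∧ nz i y = {x 2, x (2 + 1)} then 1 else 0 := by
    intro y hy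
    rw [mem_filter] at hy
    obtain ⟨g1, g2, g3⟩ := mem_N0.1 hy.1
    obtain ⟨t, ht, hn⟩ := Q.dbl y g2 g1 (dbL_nz hy.2).2
    have hsub : ∀ {j k : ℕ}, j < m → k < m → (nz i y ⊆ {x j, x (j + 1)} ∪ {x k, x (k + 1)} ↔
        (t = j ∨ t = j + 1 ∨ t = k ∨ t = k + 1) ∧
        (t + 1 = j ∨ t + 1 = j + 1 ∨ t + 1 = k ∨ t + 1 = k + 1)) := by
      intro j k hj hk
      rw [hn, insert_subset_iff, singleton_subset_iff, mem_union, mem_union]
      simp only [mem_insert, mem_singleton]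
      rw [Q.eq_iff (by omega) (by omega), Q.eq_iff (by omega) (by omega),
        Q.eq_iff (by omega) (by omega), Q.eq_iff (by omega) (by omega),
        Q.eq_iff (by omega) (by omega), Q.eq_iff (by omega) (by omega),
        Q.eq_iff (by omega) (by omega), Q.eq_iff (by omega) (by omega)]
      omega
    have h5 : nz i y = {x 2, x (2 + 1)} ↔ t = 2 := by
      rw [hn]
      exact Q.pair_eq (by omega) ht
    rw [Q.n1, Q.n2, Q.n3, Q.n4]
    have q1 : nz i y ⊆ {x 0, x (0 + 1)} ∪ {x (m - 1), x (m - 1 + 1)} ↔ t = 0 ∨ t = m - 1 := by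
      rw [hsub (show 0 < m by omega) (show m - 1 < m by omega)]
      omega
    have q2 : nz i y ⊆ {x 1, x (1 + 1)} ∪ {x (m - 2), x (m - 2 + 1)} ↔
        t = 1 ∨ t = m - 2 ∨ (m = 5 ∧ t = 2) := by
      rw [hsub (show 1 < m by omega) (show m - 2 < m by omega)]
      omega
    have q3 : nz i y ⊆ {x 0, x (0 + 1)} ∪ {x (m - 2), x (m - 2 + 1)} ↔ t = 0 ∨ t = m - 2 := by
      rw [hsub (show 0 < m by omega) (show m - 2 < m by omega)]
      omega
    have q4 : nz i y ⊆ {x 1, x (1 + 1)} ∪ {x (m - 1), x (m - 1 + 1)} ↔ t = 1 ∨ t = m - 1 := by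
      rw [hsub (show 1 < m by omega) (show m - 1 < m by omega)]
      omega
    simp only [q1, q2, q3, q4, h5]
    split_ifs <;> omega
  have htot : MM i K C w v w' v' = ∑ y ∈ (N0 i K C).filter (fun y => y ∈ dbL P i),
      if m = 5 ∧ nz i y = {x 2, x (2 + 1)} then (1 : ℤ) else 0 := by
    rw [← sum_congr rfl key]
    unfold MM
    rw [hmm, hmm, hmm, hmm, sum_sub_distrib, sum_sub_distrib, sum_add_distrib]
  rw [htot]
  constructor
  · refine sum_nonneg fun y _ => ?_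
    split_ifs <;> omega
  · intro h6
    refine sum_eq_zero fun y _ => ?_
    rw [if_neg]
    rintro ⟨h, -⟩
    omega

/-- THE ORDERS -/
theorem K9x.pg : I2.PG (st i C).card (ZS i C) := by
  intro n hn
  rw [coeff_ZS]
  interval_cases n
  · exact Q.z0
  · exact Q.z1
  · exact Q.z2
  · exact Q.od3
  · exact Q.z4 fun p hp => Q.NN0 hp
  · exact Q.od5
  · exact Q.od6

/-- the value (3,2) -/
theorem K9x.w3v : I2.w3 (st i C).card (ZS i C) = dl i C x 2 + dl i C x (m - 3) - 2 -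
    MM i K C w v w' v' := by
  have h3 : I2.w3 (st i C).card (ZS i C) = lc (st i C).card 2 (ZC i C 3) := by
    unfold I2.w3 lc
    rw [coeff_ZS]
  rw [h3, Q.l32]
  have : ∀ p ∈ PN i C, (NN i w v p + NN i w' v' p) * vp i p =
      chi' i x 2 p * vp i p + chi' i x (m - 3) p * vp i p := by
    intro p hp
    rw [Q.NL hp, Q.NR hp]
    ring
  rw [sum_congr rfl this, sum_add_distrib]
  rfl

/-- the value (6,4) -/
theorem K9x.w6v : I2.w6 (st i C).card (ZS i C) =
    (if 7 ≤ m then dl i C x 2 * dl i C x (m - 3) else 0) -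
      (if 6 ≤ m then dl i C x (m - 3) else 0) - (if 6 ≤ m then dl i C x 2 else 0) + 1 := by
  have hm := Q.hm
  have h6 : I2.w6 (st i C).card (ZS i C) = lc (st i C).card 4 (ZC i C 6) := by
    unfold I2.w6 lc
    rw [coeff_ZS]
  rw [h6, Q.l64 (fun p hp => Q.hbc hp) (fun p hp => Q.hbc' hp), Q.S4v]
  have e1 : ∑ p ∈ PN i C, Nf i (x 0) (x 1) (x 2) p * NN i w' v' p * vp i p =
      if 6 ≤ m then dl i C x (m - 3) else 0 := by
    have : ∀ p ∈ PN i C, Nf i (x 0) (x 1) (x 2) p * NN i w' v' p * vp i p =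
        if 6 ≤ m then chi' i x (m - 3) p * vp i p else 0 := by
      intro p hp
      rw [Q.NfL hp]
      split_ifs <;> ring
    rw [sum_congr rfl this]
    unfold dl
    split_ifs
    · rfl
    · exact sum_const_zero
  have e2 : ∑ p ∈ PN i C, Nf i (x m) (x (m - 1)) (x (m - 2)) p * NN i w v p * vp i p =
      if 6 ≤ m then dl i C x 2 else 0 := by
    have : ∀ p ∈ PN i C, Nf i (x m) (x (m - 1)) (x (m - 2)) p * NN i w v p * vp i p =
        if 6 ≤ m then chi' i x 2 p * vp i p else 0 := by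
      intro p hp
      rw [Q.NfR hp]
      split_ifs <;> ring
    rw [sum_congr rfl this]
    unfold dl
    split_ifs
    · rfl
    · exact sum_const_zero
  rw [e1, e2]

/-- THE INEQUALITY, and its equality case -/
theorem K9x.ineq' : 0 ≤ I2.w3 (st i C).card (ZS i C) ^ 2 - 2 * I2.w6 (st i C).card (ZS i C) ∧
    (I2.w3 (st i C).card (ZS i C) ^ 2 - 2 * I2.w6 (st i C).card (ZS i C) = 0 →
      7 ≤ m ∧ dl i C x 2 = 1 ∧ dl i C x (m - 3) = 1) := by
  have hm := Q.hm
  obtain ⟨M1, M2⟩ := Q.MMv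
  rw [Q.w3v, Q.w6v]
  obtain ⟨A, hA⟩ : ∃ A, A = dl i C x 2 := ⟨_, rfl⟩
  obtain ⟨B, hB⟩ : ∃ B, B = dl i C x (m - 3) := ⟨_, rfl⟩
  rw [← hA, ← hB]
  rcases Nat.lt_or_ge m 6 with g | g
  · -- m = 5
    have g5 : m = 5 := by omega
    have hd : ∀ k, k = 2 ∨ k = m - 3 → dl i C x k = 0 := by
      intro k hk
      refine sum_eq_zero fun p hp => ?_
      have : chi' i x k p = 0 := by
        unfold chi'
        rw [if_neg]
        intro h
        have hk2 : k = 2 := by omega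
        rw [hk2] at h
        exact Q.mid g5 p hp h
      rw [this, zero_mul]
    rw [if_neg (by omega), if_neg (by omega), if_neg (by omega), hA, hB, hd 2 (Or.inl rfl),
      hd (m - 3) (Or.inr rfl)]
    constructor
    · nlinarith
    · intro h
      nlinarith
  · rw [M2 g, if_pos g, if_pos g]
    rcases Nat.lt_or_ge m 7 with g7 | g7
    · rw [if_neg (by omega)]
      constructor
      · nlinarith [sq_nonneg (A + B - 1)]
      · intro h
        nlinarith [sq_nonneg (A + B - 1)]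
    · rw [if_pos g7]
      have he : (A + B - 2 - 0) ^ 2 - 2 * (A * B - B - A + 1) = (A - 1) ^ 2 + (B - 1) ^ 2 := by
        ring
      rw [he]
      refine ⟨by positivity, fun h => ⟨g7, ?_, ?_⟩⟩
      · have : (A - 1) ^ 2 = 0 := by nlinarith [sq_nonneg (A - 1), sq_nonneg (B - 1)]
        have := pow_eq_zero_iff (two_ne_zero) |>.1 this
        omega
      · have : (B - 1) ^ 2 = 0 := by nlinarith [sq_nonneg (A - 1), sq_nonneg (B - 1)]
        have := pow_eq_zero_iff (two_ne_zero) |>.1 this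
        omega

/-- THE INEQUALITY -/
theorem K9x.ineq : 0 ≤ I2.w3 (st i C).card (ZS i C) ^ 2 - 2 * I2.w6 (st i C).card (ZS i C) ∧
    (m ≤ 6 → 0 < I2.w3 (st i C).card (ZS i C) ^ 2 - 2 * I2.w6 (st i C).card (ZS i C)) := by
  obtain ⟨h1, h2⟩ := Q.ineq'
  refine ⟨h1, fun h3 => ?_⟩
  rcases h1.lt_or_eq with h4 | h4
  · exact h4
  · have := (h2 h4.symm).1
    omega

/-- the values in the equality case -/
theorem K9x.zero (h : I2.w3 (st i C).card (ZS i C) ^ 2 - 2 * I2.w6 (st i C).card (ZS i C) = 0) :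
    I2.w3 (st i C).card (ZS i C) = 0 ∧ I2.w6 (st i C).card (ZS i C) = 0 := by
  obtain ⟨h1, h2, h3⟩ := Q.ineq'.2 h
  rw [Q.w3v, Q.w6v, h2, h3, Q.MMv.2 (by omega), if_pos h1, if_pos (by omega)]
  norm_num

end

end Pool.Agent.GaussPoset.Win.Pa
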