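import Pool.Agent.W_448p_h97.PaL
import Pool.Agent.W_448e_h97.EM

/-!
MP_448cb3_co, G2, case B, window `j`: a component with two stars of the row classification is a
component of `K9x`.  helper97.
-/

namespace Pool.Agent.GaussPoset.Win.Pa

set_option linter.unusedSectionVars false

open Finset W4
open Pool.Agent.GaussPoset.Win.So (IV_chi IV_Fe)
open Pool.Agent.GaussPoset.Win.SO (PN vp con on con_sub)
open Pool.Agent.GaussPoset.EK (Red RowB Row Pat6)
open Pool.Agent.GaussPoset.St
open Pool.Agent.GaussPoset.Wd (NJ)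

universe u

variable {P : Type u} [Fintype P] [PartialOrder P] [DecidableEq P] {r i j : ℕ}

variable {m : ℕ} {x : ℕ → P} {c : ℕ → ℤ} {β : ℤ} {t : Tops P}

variable {K : Finset P} {psi : P → P}

/-- two doubles over a pair of sites fill both sites -/
lemma paM_full (H : Gr P r) {u v : P} (h2 : dcv u v = 2) :
    ∀ y, (y ⋖ u ∨ y ⋖ v) → y ⋖ u ∧ y ⋖ v := by
  classical
  unfold dcv at h2
  have h1 : univ.filter (fun y : P => y ⋖ u ∧ y ⋖ v) ⊆ dc u := by
    intro y hy
    exact mem_dc.2 (mem_filter.1 hy).2.1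
  have h1' : univ.filter (fun y : P => y ⋖ u ∧ y ⋖ v) ⊆ dc v := by
    intro y hy
    exact mem_dc.2 (mem_filter.1 hy).2.2
  have h3 := eq_of_subset_of_card_le h1 (by rw [h2]; exact dc_card_le H u)
  have h3' := eq_of_subset_of_card_le h1' (by rw [h2]; exact dc_card_le H v)
  rintro y (h | h)
  · have : y ∈ dc u := mem_dc.2 h
    rw [← h3] at this
    exact (mem_filter.1 this).2
  · have : y ∈ dc v := mem_dc.2 h
    rw [← h3'] at this
    exact (mem_filter.1 this).2

lemma paM_uc (H : Gr P r) {u v y : P} (hne : u ≠ v) (h1 : y ⋖ u) (h2 : y ⋖ v) : uc y = {u, v} := by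
  symm
  apply eq_of_subset_of_card_le
  · intro w hw
    rw [mem_insert, mem_singleton] at hw
    rcases hw with rfl | rfl
    · exact mem_uc.2 h1
    · exact mem_uc.2 h2
  · rw [card_pair hne]
    exact uc_card_le H y

/-- two doubles -/
lemma paM_two (H : Gr P r) {u v : P} (hne : u ≠ v) (h2 : dcv u v = 2) :
    ∃ y y', y ≠ y' ∧ uc y = {u, v} ∧ uc y' = {u, v} := by
  classical
  unfold dcv at h2
  obtain ⟨y, y', h3, h4⟩ := card_eq_two.1 h2
  have hy : y ∈ univ.filter (fun y : P => y ⋖ u ∧ y ⋖ v) := by rw [h4]; simp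
  have hy' : y' ∈ univ.filter (fun y : P => y ⋖ u ∧ y ⋖ v) := by rw [h4]; simp
  rw [mem_filter] at hy hy'
  exact ⟨y, y', h3, paM_uc H hne hy.2.1 hy.2.2, paM_uc H hne hy'.2.1 hy'.2.2⟩

/-- a twin of an unmatched lower double -/
lemma paM_twin (R : Red P j K psi) (H : Gr P r) {u v : P} (hu : lev u = j) (hne : u ≠ v)
    (h1 : Df j {u, v} = 1) (h2 : dcv u v = 2) : ∃ y, y ∉ K ∧ uc y = {u, v} := by
  obtain ⟨y, y', h3, h4, h5⟩ := paM_two H hne h2
  by_contra hcon
  push Not at hcon
  have hy : y ∈ K := by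
    by_contra h
    exact hcon y h h4
  have hy' : y' ∈ K := by
    by_contra h
    exact hcon y' h h5
  have key : ∀ y, uc y = {u, v} → y ∈ dbL P j := by
    intro y h
    have h6 : y ⋖ u := by
      rw [← mem_uc, h]
      exact mem_insert_self _ _
    have := lev_cov H h6
    exact mem_dbL.2 ⟨by omega, by rw [h, card_pair hne]⟩
  have h6 : ({y, y'} : Finset P) ⊆ K ∩ CoreC_L j {u, v} := by
    intro w hw
    rw [mem_insert, mem_singleton] at hw
    rcases hw with rfl | rfl
    · exact mem_inter.2 ⟨hy, mem_CoreC_L.2 ⟨key _ h4, h4⟩⟩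
    · exact mem_inter.2 ⟨hy', mem_CoreC_L.2 ⟨key _ h5, h5⟩⟩
  have h7 := card_le_card h6
  rw [card_pair h3] at h7
  have h8 := R.nL {u, v}
  rw [h1] at h8
  have h9 : max (1 : ℤ) 0 = 1 := by norm_num
  omega

section main

variable (h : NJ P r j) (B : RowB P j t m x c β) (hp : Pat6 m c β)

include h B hp

lemma paM_ne {p q : ℕ} (hp1 : p ≤ m) (hq : q ≤ m) (hpq : p ≠ q) : x p ≠ x q := fun h2 =>
  hpq (B.row.inj p q hp1 hq h2)

lemma paM_dcv {p : ℕ} (hp1 : p + 1 ≤ m) : (dcv (x p) (x (p + 1)) : ℤ) = 1 + c p := by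
  have h1 := B.row.df p (p + 1) (by omega) hp1
  rw [if_pos rfl, Df_pair h.g.H (B.row.lev_x p (by omega))
    (paM_ne h B hp (by omega) hp1 (by omega))] at h1
  have h2 := B.ucv_x p (p + 1) (by omega) hp1
  rw [if_pos rfl] at h2
  rw [h2] at h1
  push_cast at h1
  omega

lemma paM_dcv0 : dcv (x 0) (x 1) = 2 := by
  have := hp.1
  have h1 := paM_dcv h B hp (p := 0) (by omega)
  rw [hp.2.2.1] at h1
  have h2 : (0 : ℕ) + 1 = 1 := rfl
  rw [h2] at h1
  omega

lemma paM_dcvm : dcv (x (m - 1)) (x m) = 2 := by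
  have := hp.1
  have h1 := paM_dcv h B hp (p := m - 1) (by omega)
  rw [hp.2.2.2.2.2.1, show m - 1 + 1 = m by omega] at h1
  omega

/-- the lower near elements of the component are double -/
lemma paM_dbl {y : P} (hy : lev y = j + 1) (hyC : y ∈ cext (j + 1) (topOf : P → Tops P) t) :
    (uc y).card = 2 := by
  have hm := hp.1
  have h1 := uc_card_le h.g.H y
  have hC := part_cext h.g.H (le_refl (j + 1)) h.split t
  have h0 : (uc y).card ≠ 0 := by
    intro h0
    rw [card_eq_zero] at h0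
    obtain ⟨w, hw⟩ := uc_nonempty h.g.H (x := y) (by omega)
    rw [h0] at hw
    exact notMem_empty _ hw
  by_contra h2
  obtain ⟨v, hv⟩ := card_eq_one.1 (show (uc y).card = 1 by omega)
  have hvy : v ∈ uc y := by rw [hv]; exact mem_singleton_self _
  have hl := lev_uc h.g.H hvy
  have hvC : v ∈ cext (j + 1) (topOf : P → Tops P) t := hC.up hyC (mem_uc.1 hvy)
  have hvt : topOf v = t := (mem_cext.1 hvC) v le_rfl (by omega)
  obtain ⟨q, hq, rfl⟩ := B.row.surj v (by omega) hvt
  have hcov := mem_uc.1 hvy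
  have hpen : y ∈ pen (x q) := mem_pen.2 ⟨hcov, by rw [hv, card_singleton]⟩
  by_cases h3 : 2 ≤ q ∧ q + 2 ≤ m
  · rw [B.pen0 q h3.1 h3.2] at hpen
    exact notMem_empty _ hpen
  · by_cases h4 : q ≤ 1
    · have h5 : y ⋖ x 0 ∨ y ⋖ x 1 := by
        rcases Nat.le_one_iff_eq_zero_or_eq_one.1 h4 with rfl | rfl
        · exact Or.inl hcov
        · exact Or.inr hcov
      have h6 := paM_full h.g.H (paM_dcv0 h B hp) y h5
      have h7 := paM_uc h.g.H (paM_ne h B hp (by omega) (by omega) (by omega)) h6.1 h6.2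
      rw [h7, card_pair (paM_ne h B hp (by omega) (by omega) (by omega))] at h2
      exact h2 rfl
    · have h5 : y ⋖ x (m - 1) ∨ y ⋖ x m := by
        have h8 : q = m - 1 ∨ q = m := by omega
        rcases h8 with rfl | rfl
        · exact Or.inl hcov
        · exact Or.inr hcov
      have h6 := paM_full h.g.H (paM_dcvm h B hp) y h5
      have h7 := paM_uc h.g.H (paM_ne h B hp (by omega) (by omega) (by omega)) h6.1 h6.2
      rw [h7, card_pair (paM_ne h B hp (by omega) (by omega) (by omega))] at h2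
      exact h2 rfl

lemma paM_ns_eq {y y' : P} (R : Red P j K psi) {S : Finset P} (hS : |Df j S| = 1) (hy : y ∈ K)
    (hy' : y' ∈ K) (e : ns j y = S) (e' : ns j y' = S) : y = y' := by
  have h1 := R.fib S
  rw [hS] at h1
  have h2 : (K.filter (fun x => ns j x = S)).card = 1 := by exact_mod_cast h1
  obtain ⟨w, hw⟩ := card_eq_one.1 h2
  have h3 : y ∈ K.filter (fun x => ns j x = S) := mem_filter.2 ⟨hy, e⟩
  have h4 : y' ∈ K.filter (fun x => ns j x = S) := mem_filter.2 ⟨hy', e'⟩
  rw [hw, mem_singleton] at h3 h4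
  rw [h3, h4]

/-- the union of the sites of the covers -/
lemma paM_T4 (hj : 2 ≤ j) {z : P} (hz : z ∈ Z4 j (cext (j + 1) (topOf : P → Tops P) t)) :
    z ∈ T4 j (cext (j + 1) (topOf : P → Tops P) t) := by
  classical
  have hC := part_cext h.g.H (le_refl (j + 1)) h.split t
  rw [mem_T4]
  rcases mem_Z4.1 hz with h1 | h1
  · left
    refine ⟨h1, ?_⟩
    intro y hy
    obtain ⟨h2, h3, h4⟩ := mem_ZL.1 h1
    have hl := lev_uc h.g.H hy
    exact paM_dbl h B hp (by omega) (hC.up h2 (mem_uc.1 hy))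
  · right
    refine ⟨h1, ?_⟩
    obtain ⟨h2, h3, h4⟩ := mem_ZU.1 h1
    obtain ⟨y, y', hyy, he⟩ := card_eq_two.1 (card_dc_of_dn h.g.H h3 h4)
    have hu := dn_two h.g.H h3 he
    have hy : y ⋖ z := by
      rw [← mem_dc, he]
      exact mem_insert_self _ _
    have hy' : y' ⋖ z := by
      rw [← mem_dc, he]
      exact mem_insert_of_mem (mem_singleton_self _)
    have hl := lev_cov h.g.H hy
    have hl' := lev_cov h.g.H hy'
    have g1 := h.g.good (j - 1) (by omega) y y' (by omega) (by omega) hyy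
    have g2 := StA_ucv_pos hy hy'
    have g3 : 1 ≤ (dc y ∩ dc y').card := by
      rw [g1] at g2
      unfold dcv at g2
      obtain ⟨w, hw⟩ := card_pos.1 (show 0 < _ from g2)
      rw [mem_filter] at hw
      exact card_pos.2 ⟨w, mem_inter.2 ⟨mem_dc.2 hw.2.1, mem_dc.2 hw.2.2⟩⟩
    have g4 := card_union_add_card_inter (dc y) (dc y')
    have g5 := dc_card_le h.g.H y
    have g6 := dc_card_le h.g.H y'
    rw [h4] at hu
    intro w hw
    rw [he, mem_insert, mem_singleton] at hw
    rcases hw with rfl | rfl <;> omega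

/-- the middle edge of a component with six sites has no pendant -/
lemma paM_mid (hj : 2 ≤ j) (hm : m = 5) {p : P}
    (hz : p ∈ PN j (cext (j + 1) (topOf : P → Tops P) t)) : sit j p ≠ {x 2, x 3} := by
  intro hs
  obtain ⟨hpC, y, hcon, hyn, hnz, hcard, hlev, hd⟩ := PN_dat h.g.H hz
  rcases hd with ⟨h1, h2, h3, h4, h5, h6⟩ | ⟨h1, h2, h3, h4, h5, h6⟩
  · have h7 := EK.NJ.no_mid h hj B hp hm (w := y) (by rw [← h5, hs])
    have h8 : p ∈ pen y := by
      refine mem_pen.2 ⟨?_, by rw [h4, card_singleton]⟩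
      rw [← mem_uc, h4]
      exact mem_singleton_self _
    rw [h7] at h8
    exact notMem_empty _ h8
  · rw [hs] at h5
    have h7 : x 2 ⋖ y := by
      rw [← mem_dc, ← h5]
      exact mem_insert_self _ _
    have h8 : x 3 ⋖ y := by
      rw [← mem_dc, ← h5]
      exact mem_insert_of_mem (mem_singleton_self _)
    have h9 : y ⋖ p := by
      rw [← mem_dc, h4]
      exact mem_singleton_self _
    have h10 := B.pu 2 (by omega) (by omega) y h7 h8 p h9
    rw [h4, card_singleton] at h10
    omega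

/-- every double of the component is over an edge -/
lemma paM_edge {y : P} (hyC : y ∈ cext (j + 1) (topOf : P → Tops P) t) (hy : y ∈ near P j)
    (h2 : (nz j y).card = 2) : ∃ p, p < m ∧ nz j y = {x p, x (p + 1)} := by
  rcases mem_near.1 hy with hl | hl
  · rw [nz_low hl] at h2 ⊢
    have hd : y ∈ dbL P j := mem_dbL.2 ⟨hl, h2⟩
    obtain ⟨p, h3, h4⟩ := B.dbL_edge h.g.H h.split hp hd
      (EK.kap_of_cext (mem_union_left _ hd) hyC)
    exact ⟨p, by omega, h4⟩
  · rw [nz_upp hl] at h2 ⊢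
    have hd : y ∈ dbU P j := mem_dbU.2 ⟨hl, h2⟩
    obtain ⟨p, h3, h4⟩ := B.dbU_edge h.g.H h.split hd
      (EK.kap_of_cext (mem_union_right _ hd) hyC)
    exact ⟨p, by omega, h4⟩

lemma paM_df {p : ℕ} (hp1 : p + 1 ≤ m) : Df j {x p, x (p + 1)} = c p := by
  have h1 := B.row.df p (p + 1) (by omega) hp1
  rwa [if_pos rfl] at h1

/-- a component with two stars -/
theorem exists_k9x (hj : 2 ≤ j) (R : Red P j K psi) :
    ∃ w v w' v', K9x r j K psi (cext (j + 1) (topOf : P → Tops P) t) w v w' v' x m := by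
  classical
  obtain ⟨hm, hb, c0, c1, c2, c3, c4⟩ := id hp
  have H := h.g.H
  have hC := part_cext H (le_refl (j + 1)) h.split t
  have hne : ∀ {p q : ℕ}, p ≤ m → q ≤ m → p ≠ q → x p ≠ x q := fun h1 h2 h3 =>
    paM_ne h B hp h1 h2 h3
  have hxC : ∀ p, p ≤ m → x p ∈ cext (j + 1) (topOf : P → Tops P) t := fun p hp' =>
    mem_cext_of_le h.split (by rw [B.row.lev_x p hp']; omega) (B.row.kap p hp')
  have d0 : Df j {x 0, x 1} = 1 := by rw [← c0]; exact paM_df h B hp (p := 0) (by omega)
  have d1 : Df j {x 1, x 2} = -1 := by rw [← c1]; exact paM_df h B hp (p := 1) (by omega)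
  have d2 : Df j {x (m - 2), x (m - 1)} = -1 := by
    rw [← c2]
    have := paM_df h B hp (p := m - 2) (by omega)
    rwa [show m - 2 + 1 = m - 1 by omega] at this
  have d3 : Df j {x (m - 1), x m} = 1 := by
    rw [← c3]
    have := paM_df h B hp (p := m - 1) (by omega)
    rwa [show m - 1 + 1 = m by omega] at this
  have exL : ∀ S : Finset P, Df j S = 1 → ∃ w, w ∈ K ∧ w ∈ dbL P j ∧ uc w = S := by
    intro S hS
    have h1 := R.nL S
    rw [hS] at h1
    have h2 : 0 < (K ∩ CoreC_L j S).card := by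
      have : max (1 : ℤ) 0 = 1 := by norm_num
      omega
    obtain ⟨w, hw⟩ := card_pos.1 h2
    rw [mem_inter, mem_CoreC_L] at hw
    exact ⟨w, hw.1, hw.2.1, hw.2.2⟩
  have exU : ∀ S : Finset P, Df j S = -1 → ∃ w, w ∈ K ∧ w ∈ dbU P j ∧ dc w = S := by
    intro S hS
    have h1 := R.nU S
    rw [hS] at h1
    have h2 : 0 < (K ∩ CoreC_U j S).card := by
      have : max (-(-1) : ℤ) 0 = 1 := by norm_num
      omega
    obtain ⟨w, hw⟩ := card_pos.1 h2
    rw [mem_inter, mem_CoreC_U] at hw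
    exact ⟨w, hw.1, hw.2.1, hw.2.2⟩
  obtain ⟨w, wK, wd, ew⟩ := exL _ d0
  obtain ⟨v, vK, vd, ev⟩ := exU _ d1
  obtain ⟨w', wK', wd', ew'⟩ := exL _ d3
  obtain ⟨v', vK', vd', ev'⟩ := exU _ d2
  have lw := (mem_dbL.1 wd).1
  have lw' := (mem_dbL.1 wd').1
  have lv := (mem_dbU.1 vd).1
  have lv' := (mem_dbU.1 vd').1
  have hcL : ∀ {y : P} {q : ℕ}, lev y = j + 1 → q ≤ m → x q ∈ uc y →
      y ∈ cext (j + 1) (topOf : P → Tops P) t := by
    intro y q hy hq hxy
    exact hC.dn (hxC q hq) (by rw [B.row.lev_x q hq]; omega) (mem_uc.1 hxy)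
  have hcU : ∀ {y : P} {q : ℕ}, lev y + 1 = j → q ≤ m → x q ∈ dc y →
      y ∈ cext (j + 1) (topOf : P → Tops P) t := by
    intro y q hy hq hxy
    exact hC.up (hxC q hq) (mem_dc.1 hxy)
  have tw0 := paM_twin R H (B.row.lev_x 0 (by omega)) (hne (p := 0) (q := 1) (by omega) (by omega)
    (by omega)) d0 (paM_dcv0 h B hp)
  have tw1 := paM_twin R H (B.row.lev_x (m - 1) (by omega)) (hne (p := m - 1) (q := m) (by omega)
    (by omega) (by omega)) d3 (paM_dcvm h B hp)
  have Q0 : PaQ r j K psi (cext (j + 1) (topOf : P → Tops P) t) := by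
    refine ⟨H, by omega, h.hr, R.mat, hC, ?_, ?_⟩
    · intro z _ hz y hy y' hy' h2 h2'
      by_cases he : y = y'
      · subst he
        rw [inter_self]
        exact card_pos.1 (by omega)
      · obtain ⟨q, h3, h4⟩ := EK.NJ.noQ h hj z hz y hy y' hy' he h2 h2'
        exact ⟨q, mem_inter.2 ⟨h3, h4⟩⟩
    · intro z _ hz y hy y' hy' h2 h2'
      by_cases he : y = y'
      · subst he
        rw [inter_self]
        exact card_pos.1 (by omega)
      · have l1 := lev_dc H hy
        have l2 := lev_dc H hy'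
        have g1 := h.g.good (j - 1) (by omega) y y' (by omega) (by omega) he
        have g2 := StA_ucv_pos (mem_dc.1 hy) (mem_dc.1 hy')
        rw [g1] at g2
        unfold dcv at g2
        obtain ⟨q, hq⟩ := card_pos.1 (show 0 < _ from g2)
        rw [mem_filter] at hq
        exact ⟨q, mem_inter.2 ⟨mem_dc.2 hq.2.1, mem_dc.2 hq.2.2⟩⟩
  have nsw : ns j w = {x 0, x 1} := by rw [ns_L wd, ew]
  have nsv : ns j v = {x 1, x 2} := by rw [ns_U vd, ev]
  have nsw' : ns j w' = {x (m - 1), x m} := by rw [ns_L wd', ew']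
  have nsv' : ns j v' = {x (m - 2), x (m - 1)} := by rw [ns_U vd', ev']
  have Q1 : K9 r j K psi (cext (j + 1) (topOf : P → Tops P) t) w v w' v' := by
    refine ⟨Q0, ?_, hcL lw (q := 0) (by omega) (by rw [ew]; simp),
      hcU lv (q := 1) (by omega) (by rw [ev]; simp), hcL lw' (q := m) (by omega) (by rw [ew']; simp),
      hcU lv' (q := m - 1) (by omega) (by rw [ev']; simp), lw, lv, lw', lv', ?_, ?_⟩
    · intro y hy
      constructor
      · intro hyK
        have ht := EK.kap_of_cext (R.sub hyK) hy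
        rcases B.row.ends4 R H h.split hp hyK ht with (e | e) | (e | e)
        · exact Or.inl (paM_ns_eq h B hp R (by rw [d0, abs_one]) hyK wK e nsw)
        · exact Or.inr (Or.inl (paM_ns_eq h B hp R (by rw [d1, abs_neg, abs_one]) hyK vK e nsv))
        · exact Or.inr (Or.inr (Or.inr
            (paM_ns_eq h B hp R (by rw [d2, abs_neg, abs_one]) hyK vK' e nsv')))
        · exact Or.inr (Or.inr (Or.inl (paM_ns_eq h B hp R (by rw [d3, abs_one]) hyK wK' e nsw')))
      · rintro (rfl | rfl | rfl | rfl) <;> assumption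
    · rintro rfl
      have h1 : x m ∈ uc w := by rw [ew']; simp
      rw [ew, mem_insert, mem_singleton] at h1
      rcases h1 with h1 | h1
      · exact hne (le_refl m) (by omega) (by omega) h1
      · exact hne (le_refl m) (by omega) (by omega) h1
    · rintro rfl
      have h1 : x (m - 1) ∈ dc v := by rw [ev']; simp
      rw [ev, mem_insert, mem_singleton] at h1
      rcases h1 with h1 | h1
      · exact hne (by omega) (by omega) (by omega) h1
      · exact hne (by omega) (by omega) (by omega) h1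
  have Q2 : K9b r j K psi (cext (j + 1) (topOf : P → Tops P) t) w v w' v' (x 1) (x (m - 1)) := by
    refine ⟨Q1, by rw [ew]; simp, by rw [ev]; simp, by rw [ew']; simp, by rw [ev']; simp,
      hne (by omega) (by omega) (by omega), EK.NJ.noQ h hj, fun n hn => h.g.good n (by omega),
      by rw [ew]; exact tw0, by rw [ew']; exact tw1⟩
  have Q3 : K9c r j K psi (cext (j + 1) (topOf : P → Tops P) t) w v w' v' (x 0) (x 1) (x 2)
      (x m) (x (m - 1)) (x (m - 2)) := by
    refine ⟨Q2, ew, ev, by rw [ew', pair_comm], by rw [ev', pair_comm],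
      hne (by omega) (by omega) (by omega), hne (by omega) (by omega) (by omega),
      hne (by omega) (by omega) (by omega), hne (by omega) (by omega) (by omega),
      hne (by omega) (by omega) (by omega), hne (by omega) (by omega) (by omega), ?_⟩
    rw [disjoint_left]
    intro q hq hq'
    simp only [mem_insert, mem_singleton] at hq hq'
    rcases hq with rfl | rfl | rfl <;> rcases hq' with h1 | h1 | h1 <;>
      exact hne (by omega) (by omega) (by omega) h1
  exact ⟨w, v, w', v', ⟨Q3, hm, B.row.inj, fun y hy hn h2 => paM_edge h B hp hy hn h2,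
    fun z hz => paM_T4 h B hp hj hz, fun hm5 p hpn => paM_mid h B hp hj hm5 hpn⟩⟩

end main

end Pool.Agent.GaussPoset.Win.Pa
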