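import Pool.Agent.W_448e_h97.EM
import Pool.Agent.W_448so_h63.GK

/-!
MP_448cb3_co, G2, case B, window `j`: the signs of the joins of a double and a single element.
helper97.
-/

namespace Pool.Agent.GaussPoset.EK

set_option linter.unusedSectionVars false

open Finset Win St Polynomial Wd

universe u

variable {P : Type u} [Fintype P] [PartialOrder P] [DecidableEq P] {r i j : ℕ}

variable {ι : Type*} [DecidableEq ι] {κ : P → ι} {a : ι}

variable {m : ℕ} {x : ℕ → P} {c : ℕ → ℤ} {β : ℤ} {t : Tops P}

variable {K : Finset P} {psi : P → P} {T T1 T2 : Finset P}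

/-! ### coefficients -/

lemma paN_coeff {ι' : Type*} [DecidableEq ι'] (f : ι' → ℤ) (I : Finset ι')
    (h : ∀ s ∈ I, 0 ≤ f s) : ∀ n, 0 ≤ (∏ s ∈ I, (1 + C (f s) * X) : ℤ[X]).coeff n := by
  induction I using Finset.induction_on with
  | empty =>
    intro n
    rw [prod_empty, coeff_one]
    split_ifs <;> norm_num
  | insert s I hs ih =>
    have h1 := ih (fun s hs => h s (mem_insert_of_mem hs))
    have h2 := h s (mem_insert_self _ _)
    intro n
    rw [prod_insert hs, add_mul, one_mul, coeff_add, mul_assoc, coeff_C_mul]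
    have h3 := h1 n
    rcases n with _ | n
    · rw [coeff_X_mul_zero, mul_zero, add_zero]
      exact h3
    · rw [coeff_X_mul]
      have h4 := mul_nonneg h2 (h1 n)
      linarith

/-- all the numbers of families are nonnegative if all the stars are -/
theorem HS.nonneg (h : HS r i K psi) (hs : ∀ k ∈ K, 0 ≤ sst i K T (star i K k)) (n : ℕ) :
    0 ≤ Ek i K T n := by
  classical
  rw [Ek_coeff, h.prod T]
  refine paN_coeff _ _ ?_ n
  intro s hs'
  obtain ⟨k, hk, rfl⟩ := mem_image.1 hs'
  exact hs k hk

/-- an unmatched element with a positive defect is lower -/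
lemma Red.sgn_pos (R : Red P i K psi) {k : P} (hk : k ∈ K) (h : 0 < Df i (ns i k)) :
    sgn i k = 1 := by
  rcases mem_union.1 (R.sub hk) with h1 | h1
  · exact sgn_low h1
  · exfalso
    have h2 : k ∈ K ∩ CoreC_U i (ns i k) :=
      mem_inter.2 ⟨hk, mem_CoreC_U.2 ⟨h1, (ns_U h1).symm⟩⟩
    have h3 := card_pos.2 ⟨k, h2⟩
    have h4 := R.nU (ns i k)
    omega

/-- a class with only lower elements which avoid `T` -/
lemma Red.ss_pos {ι' : Type*} [DecidableEq ι'] {lam : P → ι'} (R : Red P i K psi) {b : ι'}
    (h : ∀ k ∈ K, lam k = b → Disjoint (ns i k) T → 0 < Df i (ns i k)) :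
    0 ≤ ss (ns i) (sgn i) lam K T b := by
  classical
  unfold ss
  refine sum_nonneg (fun k hk => ?_)
  rw [mem_filter] at hk
  rw [R.sgn_pos hk.1 (h k hk.1 hk.2.1 hk.2.2)]
  norm_num

/-- restriction of `T` to the component -/
lemma paN_sa_union (H : Gr P r) (hκ : Split (i + 1) κ) (hK : K ⊆ dbL P i ∪ dbU P i)
    (hT : ∀ v ∈ T2, κ v ≠ a) : sa i κ K (T1 ∪ T2) a = sa i κ K T1 a := by
  classical
  rw [sa_eq, sa_eq]
  refine sum_congr ?_ (fun _ _ => rfl)
  refine filter_congr (fun x hx => ?_)
  rw [disjoint_union_right]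
  constructor
  · exact fun h => ⟨h.1, h.2.1⟩
  · rintro ⟨h1, h2⟩
    refine ⟨h1, h2, ?_⟩
    rw [disjoint_left]
    intro v hv hv2
    exact hT v hv2 ((kap_ns H hκ (hK hx) hv).trans h1)

/-- the star of an element of a small component is the whole component -/
lemma Red.sst_small (R : Red P i K psi) (h : HS r i K psi) (hκ : Split (i + 1) κ)
    (hs : Small i κ a) {k : P} (hk : k ∈ K) (hka : κ k = a) :
    sst i K T (star i K k) = sa i κ K T a := by
  classical
  rw [sst_eq, sa_eq]
  refine sum_congr ?_ (fun _ _ => rfl)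
  refine filter_congr (fun x hx => ?_)
  rw [h.star_eq hx hk]
  constructor
  · rintro ⟨h1, h2⟩
    exact ⟨(star_comp h.H hκ R.sub hx hk h1).trans hka, h2⟩
  · rintro ⟨h1, h2⟩
    exact ⟨R.same_of_small h.H h.hi hκ hs hx hk h1 hka, h2⟩

/-- a star which does not meet `T` -/
lemma HS.sst_zero (h : HS r i K psi) {k : P} (hk : k ∈ K)
    (hd : ∀ x ∈ K, ¬ Disjoint (ns i x) (ns i k) → Disjoint (ns i x) T) :
    sst i K T (star i K k) = 0 := by
  unfold sst
  refine ss_zero ?_ (h.zero _)
  intro x hx hxk
  exact hd x hx ((h.star_eq hx hk).1 hxk)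

/-! ### the single element -/

/-- the value over the site of a single element is nonnegative in case B -/
theorem NJ.sa_single (h : NJ P r j) (hj : 2 ≤ j) (R : Red P j K psi) {v : P} (hl : lev v = j + 1)
    (h1 : (uc v).card = 1) : 0 ≤ sa j (topOf : P → Tops P) K (uc v) (topOf v) := by
  classical
  obtain ⟨s, hs⟩ := card_eq_one.1 h1
  have hsv : s ∈ uc v := by rw [hs]; exact mem_singleton_self _
  have hls := lev_uc h.g.H hsv
  have hts : topOf v = topOf s := h.split (mem_uc.1 hsv) (by omega)
  rw [hs, hts]
  obtain ⟨m, x, c, β, B⟩ := NJ.rowB h hj (topOf s)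
  obtain ⟨q, hq, rfl⟩ := B.row.surj s (by omega) rfl
  rcases Nat.eq_zero_or_pos m with rfl | hm
  · -- one site only
    have h2 : sa j (topOf : P → Tops P) K {x q} (topOf (x q)) = 0 := by
      rw [sa_eq, filter_false_of_mem, sum_empty]
      rintro k hk ⟨h3, h4⟩
      obtain ⟨w, hw⟩ := ns_ne (R.sub hk)
      have h5 := kap_ns' h.g.H h.split (R.sub hk) hw
      obtain ⟨p, hp, rfl⟩ := B.row.surj w h5.2 (h5.1.trans h3)
      have hpq : p = q := by omega
      subst hpq
      rw [disjoint_left] at h4
      exact h4 hw (mem_singleton_self _)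
    exact h2.ge
  · have hu : ∃ u, x q ⋖ u ∧ (dc u).card = 2 := by
      have key : ∀ p, p + 1 ≤ m → ∃ u, x p ⋖ u ∧ x (p + 1) ⋖ u ∧ (dc u).card = 2 := by
        intro p hp
        have h2 := B.ucv_x p (p + 1) (by omega) hp
        rw [if_pos rfl] at h2
        unfold ucv at h2
        obtain ⟨u, hu⟩ := card_pos.1 (show 0 < _ by rw [h2]; exact one_pos)
        rw [mem_filter] at hu
        refine ⟨u, hu.2.1, hu.2.2, ?_⟩
        have hne : x p ≠ x (p + 1) := fun h3 => by
          have := B.row.inj p (p + 1) (by omega) hp h3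
          omega
        have h3 : ({x p, x (p + 1)} : Finset P) ⊆ dc u := by
          intro w hw
          rw [mem_insert, mem_singleton] at hw
          rcases hw with rfl | rfl
          · exact mem_dc.2 hu.2.1
          · exact mem_dc.2 hu.2.2
        have h4 := card_le_card h3
        rw [card_pair hne] at h4
        have h5 := dc_card_le h.g.H u
        omega
      by_cases h2 : q + 1 ≤ m
      · obtain ⟨u, h3, h4, h5⟩ := key q h2
        exact ⟨u, h3, h5⟩
      · obtain ⟨u, h3, h4, h5⟩ := key (q - 1) (by omega)
        rw [show q - 1 + 1 = q by omega] at h4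
        exact ⟨u, h4, h5⟩
    obtain ⟨u, hu1, hu2⟩ := hu
    exact sa_single_nonneg h.g.H (by have := h.hr; omega) h.split R.mat R.sub (by omega)
      (mem_dc.2 (mem_uc.1 hsv)) h1 (mem_uc.2 hu1) hu2

/-! ### the double element -/

section two

variable (W : Row i κ a m x c β) (R : Red P i K psi) (H : Gr P r) (hκ : Split (i + 1) κ)
  (hp : Pat6 m c β)

include W R H hκ hp

/-- the stars of a component with two stars have nonnegative value over an edge -/
lemma Row.sst_nonneg (h : HS r i K psi) {p : ℕ} (hpm : p + 1 ≤ m)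
    (hT1 : ({x p, x (p + 1)} : Finset P) ⊆ T) (hT2 : ∀ v ∈ T, κ v = a → v = x p ∨ v = x (p + 1))
    {k : P} (hk : k ∈ K) (hka : κ k = a) : 0 ≤ sst i K T (star i K k) := by
  obtain ⟨hm, h2, c0, c1, c2, c3, c4⟩ := id hp
  have hin : ∀ {s t : ℕ}, s ≤ m → t ≤ m → (x s = x t ↔ s = t) := fun hs ht =>
    ⟨W.inj _ _ hs ht, fun h => by rw [h]⟩
  have hd : ∀ k' ∈ K, κ k' = a → (Disjoint (ns i k') T ↔ Disjoint (ns i k') {x p, x (p + 1)}) := by
    intro k' hk' hka'
    constructor
    · intro h3
      exact Disjoint.mono_right hT1 h3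
    · intro h3
      rw [disjoint_left] at h3 ⊢
      intro v hv hvT
      refine h3 hv ?_
      rw [mem_insert, mem_singleton]
      exact hT2 v hvT ((kap_ns H hκ (R.sub hk') hv).trans hka')
  have hcomp : ∀ k' ∈ K, star i K k' = star i K k → κ k' = a := by
    intro k' hk' h3
    exact (star_comp H hκ R.sub hk' hk ((h.star_eq hk' hk).1 h3)).trans hka
  have d0 : Df i {x 0, x 1} = 1 := by
    rw [W.df 0 1 (by omega) (by omega), if_pos rfl, c0]
  have d3 : Df i {x (m - 1), x m} = 1 := by
    rw [W.df (m - 1) m (by omega) (by omega), if_pos (by omega), c3]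
  by_cases hside : x 1 ∈ ns i k
  · -- left star
    by_cases hp2 : p ≤ 2
    · unfold sst
      refine R.ss_pos ?_
      intro k' hk' h3 h4
      have hka' := hcomp k' hk' h3
      rw [hd k' hk' hka'] at h4
      rcases W.ends4 R H hκ hp hk' hka' with (e | e) | (e | e)
      · rw [e, d0]
        norm_num
      · exfalso
        rw [e, disjoint_left] at h4
        simp only [mem_insert, mem_singleton] at h4
        rcases Nat.eq_zero_or_pos p with h5 | h5
        · subst h5
          exact h4 (a := x 1) (Or.inl rfl) (Or.inr rfl)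
        · have h6 : p = 1 ∨ p = 2 := by omega
          rcases h6 with rfl | rfl
          · exact h4 (a := x 1) (Or.inl rfl) (Or.inl rfl)
          · exact h4 (a := x 2) (Or.inr rfl) (Or.inl rfl)
      · exfalso
        have h5 := (h.star_eq hk' hk).1 h3
        rcases W.ends4 R H hκ hp hk hka with e' | e'
        · obtain ⟨v, hv, hv'⟩ := not_disjoint_iff.1 h5
          obtain ⟨q, hq, rfl⟩ := W.surj v (kap_ns' H hκ (R.sub hk) hv').2
            ((kap_ns' H hκ (R.sub hk) hv').1.trans hka)
          have f1 := W.left_site hm e' hq hv'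
          have f2 := W.right_site hm (Or.inl e) hq hv
          omega
        · have f2 := W.right_site hm e' (by omega) hside
          omega
      · exfalso
        have h5 := (h.star_eq hk' hk).1 h3
        rcases W.ends4 R H hκ hp hk hka with e' | e'
        · obtain ⟨v, hv, hv'⟩ := not_disjoint_iff.1 h5
          obtain ⟨q, hq, rfl⟩ := W.surj v (kap_ns' H hκ (R.sub hk) hv').2
            ((kap_ns' H hκ (R.sub hk) hv').1.trans hka)
          have f1 := W.left_site hm e' hq hv'
          have f2 := W.right_site hm (Or.inr e) hq hv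
          omega
        · have f2 := W.right_site hm e' (by omega) hside
          omega
    · refine (h.sst_zero hk ?_).ge
      intro k' hk' h3
      have hka' := (star_comp H hκ R.sub hk' hk h3).trans hka
      rw [hd k' hk' hka', disjoint_left]
      intro v hv hv'
      have hq : v = x p ∨ v = x (p + 1) := by
        rw [mem_insert, mem_singleton] at hv'
        exact hv'
      rcases W.ends4 R H hκ hp hk' hka' with e | e
      · rcases hq with rfl | rfl
        · have := W.left_site hm e (by omega) hv
          omega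
        · have := W.left_site hm e (by omega) hv
          omega
      · obtain ⟨v', hv1, hv2⟩ := not_disjoint_iff.1 h3
        obtain ⟨q, hq, rfl⟩ := W.surj v' (kap_ns' H hκ (R.sub hk) hv2).2
          ((kap_ns' H hκ (R.sub hk) hv2).1.trans hka)
        have f2 := W.right_site hm e hq hv1
        rcases W.ends4 R H hκ hp hk hka with e' | e'
        · have f1 := W.left_site hm e' hq hv2
          omega
        · have f1 := W.right_site hm e' (by omega) hside
          omega
  · -- right star
    have he : ns i k = {x (m - 2), x (m - 1)} ∨ ns i k = {x (m - 1), x m} := by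
      rcases W.ends4 R H hκ hp hk hka with (e | e) | e
      · exact absurd (by rw [e]; simp) hside
      · exact absurd (by rw [e]; simp) hside
      · exact e
    by_cases hp2 : m ≤ p + 3
    · unfold sst
      refine R.ss_pos ?_
      intro k' hk' h3 h4
      have hka' := hcomp k' hk' h3
      rw [hd k' hk' hka'] at h4
      have h5 := (h.star_eq hk' hk).1 h3
      rcases W.ends4 R H hκ hp hk' hka' with e | (e | e)
      · exfalso
        obtain ⟨v, hv, hv'⟩ := not_disjoint_iff.1 h5
        obtain ⟨q, hq, rfl⟩ := W.surj v (kap_ns' H hκ (R.sub hk) hv').2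
          ((kap_ns' H hκ (R.sub hk) hv').1.trans hka)
        have f1 := W.left_site hm e hq hv
        have f2 := W.right_site hm he hq hv'
        omega
      · exfalso
        rw [e, disjoint_left] at h4
        simp only [mem_insert, mem_singleton] at h4
        have h6 : p = m - 3 ∨ p = m - 2 ∨ p = m - 1 := by omega
        rcases h6 with h6 | h6 | h6
        · exact h4 (a := x (m - 2)) (Or.inl rfl) (Or.inr (by rw [h6, show m - 3 + 1 = m - 2 by omega]))
        · exact h4 (a := x (m - 2)) (Or.inl rfl) (Or.inl (by rw [h6]))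
        · exact h4 (a := x (m - 1)) (Or.inr rfl) (Or.inl (by rw [h6]))
      · rw [e, d3]
        norm_num
    · refine (h.sst_zero hk ?_).ge
      intro k' hk' h3
      have hka' := (star_comp H hκ R.sub hk' hk h3).trans hka
      rw [hd k' hk' hka', disjoint_left]
      intro v hv hv'
      have hq : v = x p ∨ v = x (p + 1) := by
        rw [mem_insert, mem_singleton] at hv'
        exact hv'
      rcases W.ends4 R H hκ hp hk' hka' with e | e
      · obtain ⟨v', hv1, hv2⟩ := not_disjoint_iff.1 h3
        obtain ⟨q, hq, rfl⟩ := W.surj v' (kap_ns' H hκ (R.sub hk) hv2).2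
          ((kap_ns' H hκ (R.sub hk) hv2).1.trans hka)
        have f1 := W.left_site hm e hq hv1
        have f2 := W.right_site hm he hq hv2
        omega
      · rcases hq with rfl | rfl
        · have := W.right_site hm e (by omega) hv
          omega
        · have := W.right_site hm e (by omega) hv
          omega

end two

end Pool.Agent.GaussPoset.EK
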