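import Pool.Agent.W_448p_h97.PaM
import Pool.Agent.W_448p_h97.PaN

/-!
MP_448cb3_co, G2, case B, window `j`: the values of the joins of a double and a single element.
helper97.
-/

namespace Pool.Agent.GaussPoset.EK

set_option linter.unusedSectionVars false

open Finset Win St Polynomial Wd

universe u

variable {P : Type u} [Fintype P] [PartialOrder P] [DecidableEq P] {r i j : ℕ}

variable {ι : Type*} [DecidableEq ι] {κ : P → ι} {a : ι}

variable {m : ℕ} {x : ℕ → P} {c : ℕ → ℤ} {β : ℤ} {t : Tops P}

variable {K : Finset P} {psi : P → P} {T T1 T2 : Finset P}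

/-- the sites of a lower double of a row -/
lemma RowB.dbL_pair (B : RowB P j t m x c β) (H : Gr P r) (hκ : Split (j + 1) (topOf : P → Tops P))
    {y : P} (hy : y ∈ dbL P j) (hyt : topOf y = t) :
    ∃ p q, p < q ∧ q ≤ m ∧ uc y = {x p, x q} ∧
      ((q = p + 1 ∧ 0 ≤ c p) ∨ (q ≠ p + 1 ∧ p = 0 ∧ q = m ∧ 1 ≤ β)) := by
  have hyD : y ∈ dbL P j ∪ dbU P j := mem_union_left _ hy
  obtain ⟨u, v, huv, hns⟩ := card_eq_two.1 (mem_dbL.1 hy).2
  have hu : u ∈ uc y := by rw [hns]; exact mem_insert_self _ _
  have hv : v ∈ uc y := by rw [hns]; exact mem_insert_of_mem (mem_singleton_self _)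
  have hu' : u ∈ ns j y := by rw [ns_L hy]; exact hu
  have hv' : v ∈ ns j y := by rw [ns_L hy]; exact hv
  obtain ⟨p, hp1, rfl⟩ := B.row.surj u (kap_ns' H hκ hyD hu').2 ((kap_ns' H hκ hyD hu').1.trans hyt)
  obtain ⟨q, hq1, rfl⟩ := B.row.surj v (kap_ns' H hκ hyD hv').2 ((kap_ns' H hκ hyD hv').1.trans hyt)
  have hpq : p ≠ q := by
    rintro rfl
    exact huv rfl
  have key : ∀ p q, p < q → q ≤ m → x p ∈ uc y → x q ∈ uc y →
      ((q = p + 1 ∧ 0 ≤ c p) ∨ (q ≠ p + 1 ∧ p = 0 ∧ q = m ∧ 1 ≤ β)) := by
    intro p q hpq hq hpy hqy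
    have h1 := B.row.df p q hpq hq
    have hne' : x p ≠ x q := fun h2 => by
      have := B.row.inj p q (by omega) hq h2
      omega
    rw [Df_pair H (B.row.lev_x p (by omega)) hne'] at h1
    have h2 := B.ucv_x p q hpq hq
    have h3 := StA_dcv_pos (mem_uc.1 hpy) (mem_uc.1 hqy)
    by_cases h4 : q = p + 1
    · rw [if_pos h4] at h1 h2
      rw [h2] at h1
      push_cast at h1
      exact Or.inl ⟨h4, by omega⟩
    · rw [if_neg h4] at h1 h2
      rw [h2] at h1
      by_cases h5 : p = 0 ∧ q = m
      · rw [if_pos h5] at h1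
        push_cast at h1
        exact Or.inr ⟨h4, h5.1, h5.2, by omega⟩
      · rw [if_neg h5] at h1
        push_cast at h1
        omega
  rcases Nat.lt_or_ge p q with h1 | h1
  · exact ⟨p, q, h1, hq1, hns, key p q h1 hq1 hu hv⟩
  · exact ⟨q, p, by omega, hp1, by rw [hns, pair_comm], key q p (by omega) hp1 hv hu⟩

/-- all the unmatched elements of the component avoid `T` -/
lemma Red.sa_zero (R : Red P i K psi) (H : Gr P r) (hi : i ≤ r) (hκ : Split (i + 1) κ)
    (h : ∀ k ∈ K, κ k = a → Disjoint (ns i k) T) : sa i κ K T a = 0 :=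
  ss_zero h (sum_K H hi hκ R.mat R.sub a)

/-- no unmatched element of the component avoids `T` -/
lemma paO_sa_none (h : ∀ k ∈ K, κ k = a → ¬ Disjoint (ns i k) T) : sa i κ K T a = 0 := by
  classical
  rw [sa_eq, filter_false_of_mem, sum_empty]
  rintro k hk ⟨h3, h4⟩
  exact h k hk h3 h4

/-- the exceptional double over the last edge of a rotated row -/
def BadR (P : Type u) [Fintype P] [PartialOrder P] [DecidableEq P] (j : ℕ) (y : P) : Prop :=
  ∃ (m : ℕ) (x : ℕ → P) (c : ℕ → ℤ) (β : ℤ), RowB P j (topOf y) m x c β ∧ 3 ≤ m ∧ β = 1 ∧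
    ((c 0 = -1 ∧ (∀ k, 1 ≤ k → k < m → c k = 0) ∧ uc y = {x (m - 1), x m}) ∨
      (c (m - 1) = -1 ∧ (∀ k, k + 1 < m → c k = 0) ∧ uc y = {x 0, x 1}))

/-- the value of a double in case B -/
theorem RowB.sa_double (h : NJ P r j) (R : Red P j K psi) (B : RowB P j t m x c β)
    (hp6 : ¬ Pat6 m c β) {y : P} (hy : y ∈ dbL P j) (hyt : topOf y = t) (hbad : ¬ BadR P j y) :
    0 ≤ sa j (topOf : P → Tops P) K (uc y) t := by
  have H := h.g.H
  have hjr : j ≤ r := by have := h.hr; omega
  obtain ⟨p, q, hpq, hq, he, hc⟩ := B.dbL_pair H h.split hy hyt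
  have W := B.row
  have hinj : ∀ {s t : ℕ}, s ≤ m → t ≤ m → x s = x t → s = t := fun hs ht hst => W.inj _ _ hs ht hst
  rw [he]
  by_cases hm : m ≤ 2
  · -- three sites
    refine (paO_sa_none ?_).ge
    intro k hk hkt hd
    obtain ⟨p', q', h1, h2, h3, -⟩ := W.pair R H h.split hk hkt
    rw [h3, disjoint_left] at hd
    simp only [mem_insert, mem_singleton] at hd
    have h4 : p' = p ∨ p' = q ∨ q' = p ∨ q' = q := by omega
    rcases h4 with rfl | rfl | rfl | rfl
    · exact hd (a := x p') (Or.inl rfl) (Or.inl rfl)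
    · exact hd (a := x p') (Or.inl rfl) (Or.inr rfl)
    · exact hd (a := x q') (Or.inr rfl) (Or.inl rfl)
    · exact hd (a := x q') (Or.inr rfl) (Or.inr rfl)
  rcases B.pat with ⟨h1, h2⟩ | ⟨h1, h2, h3, h4⟩ | ⟨h1, h2, h3, h4⟩ | ⟨h1, h2, h3, h4, h5⟩ |
    ⟨h1, h2, h3, h4, h5⟩ | h1 | ⟨h1, h2, h3, h4⟩ | h1
  · -- natural
    refine (paO_sa_none ?_).ge
    intro k hk hkt hd
    obtain ⟨p', q', f1, f2, f3, f4⟩ := W.pair R H h.split hk hkt
    rcases f4 with ⟨f5, f6⟩ | ⟨_, _, _, f5⟩
    · exact f6 (h2 p' (by omega))
    · exact f5 h1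
  · -- rotated, left
    have hK : ∀ k ∈ K, topOf k = t → ns j k = {x 0, x 1} ∨ ns j k = {x 0, x m} := by
      intro k hk hkt
      obtain ⟨p', q', f1, f2, f3, f4⟩ := W.pair R H h.split hk hkt
      rcases f4 with ⟨f5, f6⟩ | ⟨f5, f6, _, _⟩
      · left
        have : p' = 0 := by
          by_contra h7
          exact f6 (h4 p' (by omega) (by omega))
        subst this
        rw [f3, f5]
      · right
        rw [f3, f5, f6]
    rcases hc with ⟨g1, g2⟩ | ⟨_, g1, g2, _⟩
    · subst g1
      have hp0 : 1 ≤ p := by
        by_contra h7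
        have : p = 0 := by omega
        subst this
        omega
      by_cases hp1 : p = 1
      · subst hp1
        unfold sa
        refine R.ss_pos ?_
        intro k hk hkt hd
        rcases hK k hk hkt with e | e
        · exfalso
          rw [e, disjoint_left] at hd
          simp only [mem_insert, mem_singleton] at hd
          exact hd (a := x 1) (Or.inr rfl) (Or.inl rfl)
        · rw [e, W.df 0 m (by omega) le_rfl, if_neg (by omega), if_pos ⟨rfl, rfl⟩, h2]
          norm_num
      · by_cases hpm : p + 1 = m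
        · exfalso
          apply hbad
          refine ⟨m, x, c, β, by rw [hyt]; exact B, by omega, h2, Or.inl ⟨h3, h4, ?_⟩⟩
          rw [he, hpm, show m - 1 = p by omega]
        · refine (R.sa_zero H hjr h.split ?_).ge
          intro k hk hkt
          rw [disjoint_left]
          intro v hv hv'
          rw [mem_insert, mem_singleton] at hv'
          rcases hK k hk hkt with e | e <;> rw [e, mem_insert, mem_singleton] at hv <;>
            rcases hv with rfl | rfl <;> rcases hv' with h8 | h8 <;>
            (have := hinj (by omega) (by omega) h8; omega)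
    · refine (paO_sa_none ?_).ge
      intro k hk hkt hd
      subst g1
      rw [disjoint_left] at hd
      simp only [mem_insert, mem_singleton] at hd
      rcases hK k hk hkt with e | e
      · exact hd (a := x 0) (by rw [e]; simp) (Or.inl rfl)
      · exact hd (a := x 0) (by rw [e]; simp) (Or.inl rfl)
  · -- rotated, right
    have hK : ∀ k ∈ K, topOf k = t → ns j k = {x (m - 1), x m} ∨ ns j k = {x 0, x m} := by
      intro k hk hkt
      obtain ⟨p', q', f1, f2, f3, f4⟩ := W.pair R H h.split hk hkt
      rcases f4 with ⟨f5, f6⟩ | ⟨f5, f6, _, _⟩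
      · left
        have : p' = m - 1 := by
          by_contra h7
          exact f6 (h4 p' (by omega))
        rw [f3, f5, this, show m - 1 + 1 = m by omega]
      · right
        rw [f3, f5, f6]
    rcases hc with ⟨g1, g2⟩ | ⟨_, g1, g2, _⟩
    · subst g1
      have hp0 : p + 1 < m := by
        by_contra h7
        have : p = m - 1 := by omega
        rw [this] at g2
        omega
      by_cases hp1 : p = m - 2
      · unfold sa
        refine R.ss_pos ?_
        intro k hk hkt hd
        rcases hK k hk hkt with e | e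
        · exfalso
          rw [e, disjoint_left] at hd
          simp only [mem_insert, mem_singleton] at hd
          exact hd (a := x (m - 1)) (Or.inl rfl) (Or.inr (by rw [show m - 1 = p + 1 by omega]))
        · rw [e, W.df 0 m (by omega) le_rfl, if_neg (by omega), if_pos ⟨rfl, rfl⟩, h2]
          norm_num
      · by_cases hpm : p = 0
        · exfalso
          apply hbad
          subst hpm
          exact ⟨m, x, c, β, by rw [hyt]; exact B, by omega, h2, Or.inr ⟨h3, h4, he⟩⟩
        · refine (R.sa_zero H hjr h.split ?_).ge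
          intro k hk hkt
          rw [disjoint_left]
          intro v hv hv'
          rw [mem_insert, mem_singleton] at hv'
          rcases hK k hk hkt with e | e <;> rw [e, mem_insert, mem_singleton] at hv <;>
            rcases hv with rfl | rfl <;> rcases hv' with h8 | h8 <;>
            (have := hinj (by omega) (by omega) h8; omega)
    · refine (paO_sa_none ?_).ge
      intro k hk hkt hd
      subst g2
      rw [disjoint_left] at hd
      simp only [mem_insert, mem_singleton] at hd
      rcases hK k hk hkt with e | e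
      · exact hd (a := x q) (by rw [e]; simp) (Or.inr rfl)
      · exact hd (a := x q) (by rw [e]; simp) (Or.inr rfl)
  · -- doubled, left
    rcases hc with ⟨g1, g2⟩ | ⟨_, _, _, g1⟩
    · subst g1
      have hK : ∀ k ∈ K, topOf k = t → ns j k = {x 0, x 1} ∨ ns j k = {x 1, x 2} := by
        intro k hk hkt
        obtain ⟨p', q', f1, f2, f3, f4⟩ := W.pair R H h.split hk hkt
        rcases f4 with ⟨f5, f6⟩ | ⟨_, _, _, f6⟩
        · have h7 : p' = 0 ∨ p' = 1 := by
            by_contra h7
            exact f6 (h5 p' (by omega) (by omega))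
          rcases h7 with h7 | h7
          · left
            rw [f3, f5, h7]
          · right
            rw [f3, f5, h7]
        · exact absurd h2 f6
      by_cases hp2 : p ≤ 2
      · unfold sa
        refine R.ss_pos ?_
        intro k hk hkt hd
        rcases hK k hk hkt with e | e
        · rw [e, W.df 0 1 (by omega) (by omega), if_pos rfl, h3]
          norm_num
        · exfalso
          rw [e, disjoint_left] at hd
          simp only [mem_insert, mem_singleton] at hd
          have h7 : p = 0 ∨ p = 1 ∨ p = 2 := by omega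
          rcases h7 with rfl | rfl | rfl
          · exact hd (a := x 1) (Or.inl rfl) (Or.inr rfl)
          · exact hd (a := x 1) (Or.inl rfl) (Or.inl rfl)
          · exact hd (a := x 2) (Or.inr rfl) (Or.inl rfl)
      · refine (R.sa_zero H hjr h.split ?_).ge
        intro k hk hkt
        rw [disjoint_left]
        intro v hv hv'
        rw [mem_insert, mem_singleton] at hv'
        rcases hK k hk hkt with e | e <;> rw [e, mem_insert, mem_singleton] at hv <;>
          rcases hv with rfl | rfl <;> rcases hv' with h8 | h8 <;>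
          (have := hinj (by omega) (by omega) h8; omega)
    · omega
  · -- doubled, right
    rcases hc with ⟨g1, g2⟩ | ⟨_, _, _, g1⟩
    · subst g1
      have hK : ∀ k ∈ K, topOf k = t → ns j k = {x (m - 1), x m} ∨ ns j k = {x (m - 2), x (m - 1)} := by
        intro k hk hkt
        obtain ⟨p', q', f1, f2, f3, f4⟩ := W.pair R H h.split hk hkt
        rcases f4 with ⟨f5, f6⟩ | ⟨_, _, _, f6⟩
        · have h7 : p' = m - 1 ∨ p' = m - 2 := by
            by_contra h7
            exact f6 (h5 p' (by omega))
          rcases h7 with h7 | h7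
          · left
            rw [f3, f5, h7, show m - 1 + 1 = m by omega]
          · right
            rw [f3, f5, h7, show m - 2 + 1 = m - 1 by omega]
        · exact absurd h2 f6
      by_cases hp2 : m ≤ p + 3
      · unfold sa
        refine R.ss_pos ?_
        intro k hk hkt hd
        rcases hK k hk hkt with e | e
        · rw [e, W.df (m - 1) m (by omega) (by omega), if_pos (by omega), h3]
          norm_num
        · exfalso
          rw [e, disjoint_left] at hd
          simp only [mem_insert, mem_singleton] at hd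
          have h6 : p = m - 3 ∨ p = m - 2 ∨ p = m - 1 := by omega
          rcases h6 with h6 | h6 | h6
          · exact hd (a := x (m - 2)) (Or.inl rfl)
              (Or.inr (by rw [h6, show m - 3 + 1 = m - 2 by omega]))
          · exact hd (a := x (m - 2)) (Or.inl rfl) (Or.inl (by rw [h6]))
          · exact hd (a := x (m - 1)) (Or.inr rfl) (Or.inl (by rw [h6]))
      · refine (R.sa_zero H hjr h.split ?_).ge
        intro k hk hkt
        rw [disjoint_left]
        intro v hv hv'
        rw [mem_insert, mem_singleton] at hv'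
        rcases hK k hk hkt with e | e <;> rw [e, mem_insert, mem_singleton] at hv <;>
          rcases hv with rfl | rfl <;> rcases hv' with h8 | h8 <;>
          (have := hinj (by omega) (by omega) h8; omega)
    · omega
  · exact absurd h1 hp6
  · omega
  · exact (B.not8 h1).elim

/-! ### joins -/

section join

variable (h : NJ P r j) (R : Red P j K psi) {z y v : P}
  (S : K2.SD j (topOf : P → Tops P) z y v)

include h S

lemma paO_ky : ∀ s ∈ uc y, topOf s = topOf y := by
  intro s hs
  exact (h.split (mem_uc.1 hs) (by have := S.ly h.g.H; omega)).symm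

lemma paO_kv : ∀ s ∈ uc v, topOf s = topOf v := by
  intro s hs
  exact (h.split (mem_uc.1 hs) (by have := S.lv' h.g.H; omega)).symm

lemma paO_y : y ∈ dbL P j := mem_dbL.2 ⟨S.ly h.g.H, S.cy⟩

include R

lemma paO_meet {k : P} (hk : k ∈ K) (hd : ¬ Disjoint (ns j k) (uc y ∪ uc v)) :
    topOf k = topOf y ∨ topOf k = topOf v := by
  obtain ⟨s, hs, hs'⟩ := not_disjoint_iff.1 hd
  have h1 := kap_ns h.g.H h.split (R.sub hk) hs
  rcases mem_union.1 hs' with h2 | h2
  · exact Or.inl (h1.symm.trans (paO_ky h S s h2))
  · exact Or.inr (h1.symm.trans (paO_kv h S s h2))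

lemma paO_sa_y : sa j (topOf : P → Tops P) K (uc y ∪ uc v) (topOf y) =
    sa j (topOf : P → Tops P) K (uc y) (topOf y) :=
  paN_sa_union h.g.H h.split R.sub (fun s hs h1 => S.hk (h1.symm.trans (paO_kv h S s hs)))

lemma paO_sa_v : sa j (topOf : P → Tops P) K (uc y ∪ uc v) (topOf v) =
    sa j (topOf : P → Tops P) K (uc v) (topOf v) := by
  rw [union_comm]
  exact paN_sa_union h.g.H h.split R.sub (fun s hs h1 => S.hk ((paO_ky h S s hs).symm.trans h1))

/-- the values of a join of two small components -/
theorem NJ.join_small (hj : 2 ≤ j) (hy : Small j (topOf : P → Tops P) (topOf y))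
    (hv : Small j (topOf : P → Tops P) (topOf v)) :
    Ek j K (K2.Tz z) 2 = sa j (topOf : P → Tops P) K (uc y) (topOf y) *
      sa j (topOf : P → Tops P) K (uc v) (topOf v) ∧ ∀ n, 3 ≤ n → Ek j K (K2.Tz z) n = 0 := by
  have hS := (NJ.HT h hj R).hs
  have key : ∀ {a : Tops P} {k k' : P}, Small j (topOf : P → Tops P) a → k ∈ K → k' ∈ K →
      topOf k = a → topOf k' = a → star j K k = star j K k' := by
    intro a k k' hs hk hk' e e'
    exact (hS.star_eq hk hk').2 (R.same_of_small h.g.H hS.hi h.split hs hk hk' e e')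
  rw [S.Tz]
  by_cases ey : ∃ k ∈ K, topOf k = topOf y
  · obtain ⟨ky, hky, ty⟩ := ey
    by_cases ev : ∃ k ∈ K, topOf k = topOf v
    · obtain ⟨kv, hkv, tv⟩ := ev
      have hne : star j K ky ≠ star j K kv := by
        intro he
        have h1 := star_comp h.g.H h.split R.sub hky hkv ((hS.star_eq hky hkv).1 he)
        exact S.hk (ty.symm.trans (h1.trans tv))
      have h2 := hS.two (T := uc y ∪ uc v) hne (by
        intro k hk hd
        rcases paO_meet h R S hk hd with e | e
        · exact Or.inl (key hy hk hky e ty)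
        · exact Or.inr (key hv hk hkv e tv))
      rw [R.sst_small hS h.split hy hky ty, R.sst_small hS h.split hv hkv tv, paO_sa_y h R S,
        paO_sa_v h R S] at h2
      exact ⟨h2.2.2.1, h2.2.2.2⟩
    · push Not at ev
      have h1 : sa j (topOf : P → Tops P) K (uc v) (topOf v) = 0 :=
        paO_sa_none (fun k hk e => (ev k hk e).elim)
      have h2 := hS.one (T := uc y ∪ uc v) (s := star j K ky) (by
        intro k hk hd
        rcases paO_meet h R S hk hd with e | e
        · exact key hy hk hky e ty
        · exact (ev k hk e).elim)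
      rw [h1, mul_zero]
      exact ⟨h2.2.2 2 le_rfl, fun n hn => h2.2.2 n (by omega)⟩
  · push Not at ey
    have h1 : sa j (topOf : P → Tops P) K (uc y) (topOf y) = 0 :=
      paO_sa_none (fun k hk e => (ey k hk e).elim)
    rw [h1, zero_mul]
    by_cases ev : ∃ k ∈ K, topOf k = topOf v
    · obtain ⟨kv, hkv, tv⟩ := ev
      have h2 := hS.one (T := uc y ∪ uc v) (s := star j K kv) (by
        intro k hk hd
        rcases paO_meet h R S hk hd with e | e
        · exact (ey k hk e).elim
        · exact key hv hk hkv e tv)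
      exact ⟨h2.2.2 2 le_rfl, fun n hn => h2.2.2 n (by omega)⟩
    · push Not at ev
      have h2 := hS.none (T := uc y ∪ uc v) (by
        intro k hk
        by_contra hd
        rcases paO_meet h R S hk hd with e | e
        · exact ey k hk e
        · exact ev k hk e)
      exact ⟨h2.2 2 (by norm_num), fun n hn => h2.2 n (by omega)⟩

/-- the component of the single element is small -/
lemma NJ.join_v (hj : 2 ≤ j) : Small j (topOf : P → Tops P) (topOf v) := by
  obtain ⟨m, x, c, β, B⟩ := NJ.rowB h hj (topOf v)
  rcases B.small h.g.H h.split with h1 | h1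
  · exact h1
  · exfalso
    have h2 := Win.Pa.paM_dbl h B h1 (S.lv' h.g.H)
      (mem_cext_of_le h.split (by have := S.lv' h.g.H; omega) rfl)
    have h3 := S.cv
    omega

/-- a join of a double of a component with two stars -/
theorem NJ.join_six (hj : 2 ≤ j) {m : ℕ} {x : ℕ → P} {c : ℕ → ℤ} {β : ℤ}
    (B : RowB P j (topOf y) m x c β) (hp : Pat6 m c β) : ∀ n, 0 ≤ Ek j K (K2.Tz z) n := by
  have hS := (NJ.HT h hj R).hs
  have hvs := NJ.join_v h R S hj
  obtain ⟨p, hp1, he⟩ := B.dbL_edge h.g.H h.split hp (paO_y h S) rfl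
  rw [S.Tz]
  refine hS.nonneg ?_
  intro k hk
  by_cases h1 : topOf k = topOf y
  · refine B.row.sst_nonneg R h.g.H h.split hp hS hp1 ?_ ?_ hk h1
    · rw [← he]
      exact subset_union_left
    · intro s hs hst
      rcases mem_union.1 hs with h2 | h2
      · rw [he, mem_insert, mem_singleton] at h2
        exact h2
      · exact (S.hk (hst.symm.trans (paO_kv h S s h2))).elim
  · by_cases h2 : topOf k = topOf v
    · rw [R.sst_small hS h.split hvs hk h2, paO_sa_v h R S]
      exact NJ.sa_single h hj R (S.lv' h.g.H) S.cv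
    · refine (hS.sst_zero hk ?_).ge
      intro k' hk' hd
      have h3 := star_comp h.g.H h.split R.sub hk' hk hd
      by_contra h4
      rcases paO_meet h R S hk' h4 with e | e
      · exact h1 (h3.symm.trans e)
      · exact h2 (h3.symm.trans e)

/-- THE SIGN OF A JOIN -/
theorem NJ.join_nonneg (hj : 2 ≤ j)
    (hbad : BadR P j y → sa j (topOf : P → Tops P) K (uc v) (topOf v) = 0) :
    ∀ n, 2 ≤ n → 0 ≤ Ek j K (K2.Tz z) n := by
  obtain ⟨m, x, c, β, B⟩ := NJ.rowB h hj (topOf y)
  by_cases hp : Pat6 m c β
  · exact fun n _ => NJ.join_six h R S hj B hp n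
  · have hy : Small j (topOf : P → Tops P) (topOf y) :=
      (B.small h.g.H h.split).resolve_right hp
    obtain ⟨h2, h3⟩ := NJ.join_small h R S hj hy (NJ.join_v h R S hj)
    have h4 := NJ.sa_single h hj R (S.lv' h.g.H) S.cv
    intro n hn
    rcases Nat.lt_or_ge n 3 with h5 | h5
    · have : n = 2 := by omega
      subst this
      rw [h2]
      by_cases h6 : BadR P j y
      · rw [hbad h6, mul_zero]
      · exact mul_nonneg (B.sa_double h R hp (paO_y h S) rfl h6) h4
    · exact (h3 n h5).ge

/-- the weight of a join -/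
theorem NJ.join_one (hj : 2 ≤ j) (hbad : ¬ BadR P j y) : 0 ≤ Ek j K (K2.Tz z) 1 := by
  obtain ⟨m, x, c, β, B⟩ := NJ.rowB h hj (topOf y)
  by_cases hp : Pat6 m c β
  · exact NJ.join_six h R S hj B hp 1
  · have hS := (NJ.HT h hj R).hs
    rw [S.Tz]
    have hy : Small j (topOf : P → Tops P) (topOf y) :=
      (B.small h.g.H h.split).resolve_right hp
    have hvs := NJ.join_v h R S hj
    refine hS.nonneg ?_ 1
    intro k hk
    by_cases h1 : topOf k = topOf y
    · rw [R.sst_small hS h.split hy hk h1, paO_sa_y h R S]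
      exact B.sa_double h R hp (paO_y h S) rfl hbad
    · by_cases h2 : topOf k = topOf v
      · rw [R.sst_small hS h.split hvs hk h2, paO_sa_v h R S]
        exact NJ.sa_single h hj R (S.lv' h.g.H) S.cv
      · refine (hS.sst_zero hk ?_).ge
        intro k' hk' hd
        have h3 := star_comp h.g.H h.split R.sub hk' hk hd
        by_contra h4
        rcases paO_meet h R S hk' h4 with e | e
        · exact h1 (h3.symm.trans e)
        · exact h2 (h3.symm.trans e)

end join

end Pool.Agent.GaussPoset.EK
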