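import Pool.Agent.W_448p_h97.PaL
import Pool.Agent.W_448w4_h10.LC

/-!
MP_448cb3_co, G2, case B, window `j`: the contributions of a star and their orders
(the statements of `W_448w4_h10` for a star in a larger set `K` of unmatched doubles, the same proofs:
written by a script from the files of helper10).  helper97.
-/

namespace Pool.Agent.GaussPoset.Win.Pb

set_option linter.unusedSectionVars false

open Finset W4
open Pool.Agent.GaussPoset.Win.So (IV IV_chi IV_Fe)
open Pool.Agent.GaussPoset.Win.SO (Sde Pen TD On kS tL tU sde_low sde_up kS_sum cheap_of)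
open Pool.Agent.GaussPoset.Win.I2 (kd gu kl kn kr so cc fr KK KD lS uS mem_lS mem_uS kd_dc kd_uc gu_uc
  gu_dc adm_low adm_up KD_low KD_up fr_low fr_up)

universe u

variable {P : Type u} [Fintype P] [PartialOrder P] [DecidableEq P] {r i : ℕ}
variable {e f : P → ℕ} {psi : P → P} {C K : Finset P} {w v : P}

/-- a component with at least two unmatched doubles, a lower one and an upper one -/
structure K5w (r i : ℕ) (K : Finset P) (psi : P → P) (C : Finset P) (w v : P) : Prop where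
  H : Gr P r
  hi : 1 ≤ i
  hi2 : i + 1 ≤ r
  hM : Mat P i K psi
  hC : Part (i + 1) C
  wC : w ∈ C
  vC : v ∈ C
  wK : w ∈ K
  vK : v ∈ K
  lw0 : lev w = i + 1
  lv0 : lev v + 1 = i
  nq : ∀ z ∈ C, lev z = i + 2 → ∀ x ∈ uc z, ∀ x' ∈ uc z, (uc x).card = 2 → (uc x').card = 2 →
    (uc x ∩ uc x').Nonempty
  nq' : ∀ z ∈ C, lev z + 2 = i → ∀ x ∈ dc z, ∀ x' ∈ dc z, (dc x).card = 2 → (dc x').card = 2 →
    (dc x ∩ dc x').Nonempty

lemma K5w.part (Q : K5w r i K psi C w v) : Part i C :=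
  ⟨fun h1 h2 => Q.hC.up h1 h2, fun h1 h2 h3 => Q.hC.dn h1 (by omega) h3⟩

lemma K5w.hir (Q : K5w r i K psi C w v) : i ≤ r := by have := Q.hi2; omega

lemma K5w.ne (Q : K5w r i K psi C w v) : w ≠ v := by
  have := Q.lw0
  have := Q.lv0
  rintro rfl
  omega

lemma K5w.nw (Q : K5w r i K psi C w v) : w ∈ near P i := mem_near.2 (Or.inl Q.lw0)

lemma K5w.nv (Q : K5w r i K psi C w v) : v ∈ near P i := mem_near.2 (Or.inr Q.lv0)

lemma Fe_add2 (Q : K5w r i K psi C w v) {a b : ℕ} (ha : Ac i e w a) (hb : Ac i e v b)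
    (hw : w ∉ Tch i e → e w = 0) (hv : v ∉ Tch i e → e v = 0) (S : Finset P) :
    Fe i (e + Pi.single w a + Pi.single v b) S =
      Fe i e S * (wt i e w a S * wt i e v b S) := by
  have hir := Q.hir
  have h1 : Fe i (e + Pi.single w a) S = Fe i e S * wt i e w a S := by
    rcases ha with h | h
    · rw [h, Pi.single_zero, add_zero, wt_zero Q.H hir Q.nw, mul_one]
    · exact Fe_add1 Q.H hir Q.nw h (hw h) a S
  have hT : Tch i (e + Pi.single w a) = Tch i e := Tch_add Q.H (single_far Q.nw a)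
  have hwt : wt i (e + Pi.single w a) v b S = wt i e v b S := by
    refine So.wt_congr Q.H (fun y hy => ?_) Q.nv _ _
    rw [Pi.add_apply, single_far Q.nw a y, add_zero]
    rw [mem_near]
    omega
  rcases hb with h | h
  · rw [h, Pi.single_zero, add_zero, wt_zero Q.H hir Q.nv, mul_one]
    exact h1
  · rw [Fe_add1 Q.H hir Q.nv (by rw [hT]; exact h) (by
      rw [Pi.add_apply, hv h, Pi.single_apply, if_neg Q.ne.symm, add_zero]) b S, h1, hwt, mul_assoc]

lemma JK_add2 (Q : K5w r i K psi C w v) {a b : ℕ} (ha : Ac i e w a) (hb : Ac i e v b)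
    (hw : w ∉ Tch i e → e w = 0) (hv : v ∉ Tch i e → e v = 0) (m : ℕ) :
    JK i K psi C m (e + Pi.single w a + Pi.single v b) = IV (st i C) (fun S =>
      Fe i e S * (wt i e w a S * (wt i e v b S * GK i K psi C e m S))) := by
  unfold JK
  congr 1
  funext S
  rw [Fe_add2 Q ha hb hw hv, add_assoc e, GK_add Q.H]
  · ring
  · intro x hx
    rw [Pi.add_apply, single_far Q.nw _ x hx, single_far Q.nv _ x hx]

lemma core_wv (Q : K5w r i K psi C w v) (hc : IsCore i ∅ (ps K psi) e) :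
    (w ∉ Tch i e → e w = 0) ∧ (v ∉ Tch i e → e v = 0) :=
  ⟨fun h => hc w (mem_RK.1 (mem_RK_ps.2 (Or.inr ⟨Q.wK, Q.nw, Q.wC, h⟩))).1,
    fun h => hc v (mem_RK.1 (mem_RK_ps.2 (Or.inr ⟨Q.vK, Q.nv, Q.vC, h⟩))).1⟩


/-- the abstract configuration of a core -/
theorem K5w.cf (Q : K5w r i K psi C w v) (hc : IsCore i ∅ (ps K psi) e) (hs : Spt C e)
    (hA : AdmL i e) (hB : AdmU i e) (hd : Disjoint (AL i e) (AU i e)) :
    Cf uc dc (tL (P := P) i) (tU i) (lv P i) (lS P i) (uS P i) e where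
  s1 := sde_low Q.H i
  s2 := sde_up Q.H (by have := Q.hi2; omega)
  d1 := by
    rw [disjoint_left]
    intro x hx hx'
    rw [mem_lS] at hx
    rw [mem_lv] at hx'
    omega
  d2 := by
    rw [disjoint_left]
    intro x hx hx'
    rw [mem_uS] at hx
    rw [mem_lv] at hx'
    omega
  d3 := by
    rw [disjoint_left]
    intro x hx hx'
    rw [mem_lS] at hx
    rw [mem_uS] at hx'
    omega
  adm1 := adm_low hA
  adm2 := adm_up hB
  dis := by rw [KD_low, KD_up]; exact hd
  core1 := by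
    classical
    intro x hx ht he
    rw [mem_lS] at hx
    unfold tL at ht
    have hl : lev x = i + 1 := by omega
    have hn : x ∈ near P i := mem_near.2 (Or.inl hl)
    rcases core_nearK hc hn (notMem_empty x) he with h | ⟨h1, h2⟩
    · left
      rw [mem_Tch] at h
      rcases h with ⟨-, z, hz, hz'⟩ | ⟨h3, -⟩
      · exact ⟨z, mem_dc.2 hz, hz'⟩
      · omega
    · by_cases hxK : x ∈ K
      · left
        unfold ps at h2
        rw [if_pos hxK, mem_Tch] at h2
        rcases h2 with ⟨-, z, hz, hz'⟩ | ⟨h3, -⟩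
        · exact ⟨z, mem_dc.2 hz, hz'⟩
        · omega
      right
      unfold ps at h2
      rw [if_neg hxK] at h2
      have hd : x ∈ dbL P i := by
        rcases mem_union.1 h1 with h1 | h1
        · exact h1
        · rw [mem_dbU] at h1; omega
      obtain ⟨g1, g2⟩ := Q.hM.low x hd hxK
      rw [mem_dbL] at hd
      rw [mem_dbU] at g1
      refine ⟨psi x, mem_uS.2 (by omega), by unfold tU; omega, g2, hd.2, ?_⟩
      rw [mem_Tch] at h2
      rcases h2 with ⟨h3, -⟩ | ⟨-, z, hz, hz'⟩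
      · omega
      · exact ⟨z, mem_uc.2 hz, hz'⟩
  core2 := by
    classical
    intro x hx ht he
    rw [mem_uS] at hx
    unfold tU at ht
    have hl : lev x + 1 = i := by omega
    have hn : x ∈ near P i := mem_near.2 (Or.inr hl)
    rcases core_nearK hc hn (notMem_empty x) he with h | ⟨h1, h2⟩
    · left
      rw [mem_Tch] at h
      rcases h with ⟨h3, -⟩ | ⟨-, z, hz, hz'⟩
      · omega
      · exact ⟨z, mem_uc.2 hz, hz'⟩
    · by_cases hxK : x ∈ K
      · left
        unfold ps at h2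
        rw [if_pos hxK, mem_Tch] at h2
        rcases h2 with ⟨h3, -⟩ | ⟨-, z, hz, hz'⟩
        · omega
        · exact ⟨z, mem_uc.2 hz, hz'⟩
      right
      unfold ps at h2
      rw [if_neg hxK] at h2
      have hd : x ∈ dbU P i := by
        rcases mem_union.1 h1 with h1 | h1
        · rw [mem_dbL] at h1; omega
        · exact h1
      obtain ⟨g1, g2⟩ := Q.hM.upp x hd hxK
      rw [mem_dbU] at hd
      rw [mem_dbL] at g1
      refine ⟨psi x, mem_lS.2 (by omega), by unfold tL; omega, g2, hd.2, ?_⟩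
      rw [mem_Tch] at h2
      rcases h2 with ⟨-, z, hz, hz'⟩ | ⟨h3, -⟩
      · exact ⟨z, mem_dc.2 hz, hz'⟩
      · omega

/-- CLASSIFICATION -/
theorem K5w.cls (Q : K5w r i K psi C w v) (hc : IsCore i ∅ (ps K psi) e) (hs : Spt C e)
    (hE : ∑ x, e x ≤ 4) : Cheap 1 i e ∨ (Cheap 2 i e ∧ L4 i e) := by
  by_cases hA : AdmL i e
  swap
  · exact Or.inl (Or.inl hA)
  by_cases hB : AdmU i e
  swap
  · exact Or.inl (Or.inr (Or.inl hB))
  by_cases hd : Disjoint (AL i e) (AU i e)
  swap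
  · exact Or.inl (Or.inr (Or.inr (Or.inl hd)))
  have nq1 : NQ uc (tL (P := P) i) (lS P i) e := by
    intro w hw ht he x hx x' hx' h1 h2
    rw [mem_lS] at hw
    unfold tL at ht
    exact Q.nq w (mem_of_pos hs he) (by omega) x hx x' hx' h1 h2
  have nq2 : NQ dc (tU (P := P) i) (uS P i) e := by
    intro w hw ht he x hx x' hx' h1 h2
    rw [mem_uS] at hw
    unfold tU at ht
    exact Q.nq' w (mem_of_pos hs he) (by omega) x hx x' hx' h1 h2
  rcases (Q.cf hc hs hA hB hd).classify hE nq1 nq2 with h | ⟨h1, h2⟩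
  · exact Or.inl (cheap_of (by exact_mod_cast h))
  · exact Or.inr ⟨cheap_of (by exact_mod_cast h1), h2⟩

/-- CLASSIFICATION, energy at most two -/
theorem K5w.cls2 (Q : K5w r i K psi C w v) (hc : IsCore i ∅ (ps K psi) e) (hs : Spt C e)
    (hE : ∑ x, e x ≤ 2) : Cheap 0 i e ∨ (Cheap 1 i e ∧ L2 i e) := by
  by_cases hA : AdmL i e
  swap
  · exact Or.inl (Or.inl hA)
  by_cases hB : AdmU i e
  swap
  · exact Or.inl (Or.inr (Or.inl hB))
  by_cases hd : Disjoint (AL i e) (AU i e)
  swap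
  · exact Or.inl (Or.inr (Or.inr (Or.inl hd)))
  rcases (Q.cf hc hs hA hB hd).low2 hE with h | ⟨h1, h2⟩
  · exact Or.inl (SO.cheap_of (by exact_mod_cast h))
  · exact Or.inr ⟨SO.cheap_of (by exact_mod_cast h1), h2⟩

theorem K5w.cheap0 (Q : K5w r i K psi C w v) (hc : IsCore i ∅ (ps K psi) e) (hs : Spt C e)
    (hE : ∑ x, e x < 2) : Cheap 0 i e := by
  rcases Q.cls2 hc hs hE.le with h | ⟨-, h⟩
  · exact h
  · have := h.energy Q.H
    omega

theorem K5w.cheap1 (Q : K5w r i K psi C w v) (hc : IsCore i ∅ (ps K psi) e) (hs : Spt C e)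
    (hE : ∑ x, e x < 4) : Cheap 1 i e := by
  rcases Q.cls hc hs hE.le with h | ⟨-, h⟩
  · exact h
  · have := h.energy Q.H
    omega

theorem K5w.cheap2 (Q : K5w r i K psi C w v) (hc : IsCore i ∅ (ps K psi) e) (hs : Spt C e)
    (hE : ∑ x, e x ≤ 4) : Cheap 2 i e := by
  rcases Q.cls hc hs hE with h | ⟨h, -⟩
  · exact Cheap.mono (by omega) h
  · exact h

/-! ### orders -/

/-- ORDER of a contribution -/
theorem K5w.Jx_od (Q : K5w r i K psi C w v) (hc : IsCore i ∅ (ps K psi) e) {k : ℕ}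
    (hk : Cheap k i e) (a b m : ℕ) :
    od (st i C).card (k + ind a + ind b) (Jx i K psi C w v e a b m) := by
  unfold Jx
  split_ifs with h
  · obtain ⟨hw, hv⟩ := core_wv Q hc
    rw [JK_add2 Q h.1 h.2 hw hv]
    apply od_of_Rk
    have h1 := Rk_mul (Rk_of_cheap hk) (Rk_mul (Rk_wt (e := e) Q.H Q.hi Q.hi2 Q.nw a)
      (Rk_mul (Rk_wt (e := e) Q.H Q.hi Q.hi2 Q.nv b) (GK_Rk Q.H Q.hi Q.hi2 Q.hM Q.hC e m)))
    rw [add_zero, ← add_assoc] at h1
    exact h1
  · exact od_zero _ _

/-- both labels positive and a common site without label: nothing -/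
theorem K5w.Jx_both (Q : K5w r i K psi C w v) (hc : IsCore i ∅ (ps K psi) e) {q : P}
    (hq : q ∈ uc w) (hq' : q ∈ dc v) (h0 : e q = 0) {a b : ℕ} (ha : a ≠ 0) (hb : b ≠ 0)
    (m : ℕ) : Jx i K psi C w v e a b m = 0 := by
  unfold Jx
  split_ifs with h
  · obtain ⟨hw, hv⟩ := core_wv Q hc
    rw [JK_add2 Q h.1 h.2 hw hv]
    unfold IV
    refine sum_eq_zero fun S _ => ?_
    have h1 : wt i e w a S * (wt i e v b S * GK i K psi C e m S) = 0 := by
      rw [wt_low Q.lw0, wt_upp Q.lv0]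
      have q1 : q ∈ kz i e w a := mem_kz.2 ⟨by rw [nz_low Q.lw0]; exact hq, by omega⟩
      have q2 : q ∈ kz i e v b := mem_kz.2 ⟨by rw [nz_upp Q.lv0]; exact hq', by omega⟩
      by_cases hS : q ∈ S
      · have : chi ∅ (kz i e v b) S = 0 := by
          unfold chi
          rw [if_neg]
          rintro ⟨-, h2⟩
          exact disjoint_left.1 h2 q2 hS
        rw [this]
        ring
      · have : chi (kz i e w a) ∅ S = 0 := by
          unfold chi
          rw [if_neg]
          rintro ⟨h2, -⟩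
          exact hS (h2 q1)
        rw [this]
        ring
    show xx ^ S.card * (Fe i e S * (wt i e w a S * (wt i e v b S * GK i K psi C e m S))) = 0
    rw [h1, mul_zero, mul_zero]
  · rfl


end Pool.Agent.GaussPoset.Win.Pb
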