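import Pool.Agent.W_448p_h97.PbA

/-!
MP_448cb3_co, G2, case B, window `j`: leading coefficients of the contributions with one label
(the statements of `W_448w4_h10` for a star in a larger set `K` of unmatched doubles, the same proofs:
written by a script from the files of helper10).  helper97.
-/

namespace Pool.Agent.GaussPoset.Win.Pb

set_option linter.unusedSectionVars false

open Finset W4
open Pool.Agent.GaussPoset.Win.So (IV IV_chi IV_Fe)


universe u

variable {P : Type u} [Fintype P] [PartialOrder P] [DecidableEq P] {r i : ℕ}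
variable {e f : P → ℕ} {psi : P → P} {C K : Finset P} {w v : P}

section

variable (Q : K5w r i K psi C w v)
include Q

lemma K5w.lc_J (hc : IsCore i ∅ (ps K psi) e) {k l a b : ℕ} (hk : Cheap k i e)
    (hl : k + ind a + ind b < l) (m : ℕ) :
    lc (st i C).card l (Jx i K psi C w v e a b m) = 0 :=
  lc_lt hl (Q.Jx_od hc hk a b m)

lemma K5w.Jx0 (hc : IsCore i ∅ (ps K psi) e) (hs : Spt C e) :
    Jx i K psi C w v e 0 0 0 = tC i C e := by
  unfold Jx
  rw [if_pos ⟨Or.inl rfl, Or.inl rfl⟩, Pi.single_zero, Pi.single_zero, add_zero, add_zero,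
    JK_zero Q.H Q.hir Q.part hs]

lemma K5w.Jx_zero (hc : IsCore i ∅ (ps K psi) e)
    (h : ¬ (AdmL i e ∧ AdmU i e ∧ Disjoint (AL i e) (AU i e))) (a b m : ℕ) :
    Jx i K psi C w v e a b m = 0 := by
  unfold Jx
  split_ifs with h1
  · obtain ⟨hw, hv⟩ := core_wv Q hc
    rw [JK_add2 Q h1.1 h1.2 hw hv]
    unfold IV
    refine sum_eq_zero fun S _ => ?_
    show xx ^ S.card * (Fe i e S * _) = 0
    rw [Fe_zero h, zero_mul, mul_zero]
  · rfl

/-- a touched unmatched double: no type -/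
lemma K5w.FG_touch {x : P} (hx : x ∈ near P i) (h2 : (nz i x).card = 2)
    (hadm : AdmL i e ∧ AdmU i e) (hT : x ∈ Tch i e) {a : ℕ}
    (hz : a = 1 ∨ ∀ y, lev y = i → e y = 0) : FG i e x a = 0 := by
  have hpos : 0 < e x := by
    by_contra h
    rw [mem_Tch] at hT
    rcases hT with ⟨h1, z, hz, hz'⟩ | ⟨h1, z, hz, hz'⟩
    · refine hadm.1 x (by omega) ⟨⟨z, hz, by omega⟩, ?_⟩
      obtain ⟨y, hy⟩ := uc_nonempty Q.H (x := x) (by omega)
      exact ⟨y, mem_uc.1 hy, by omega⟩
    · refine hadm.2 x (by omega) ⟨⟨z, hz, by omega⟩, ?_⟩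
      obtain ⟨y, hy⟩ := dc_nonempty Q.H (x := x) (by have := Q.hi2; omega)
      exact ⟨y, mem_dc.1 hy, by omega⟩
  -- a site with label zero is killed
  have key : ∀ y ∈ nz i x, e y = 0 → y ∈ AL i e ∪ AU i e := by
    intro y hy hy0
    have hl := nz_lev Q.H hx hy
    rw [mem_union, NormD_mem_AL, NormD_mem_AU]
    rcases mem_near.1 hx with h | h
    · rw [nz_low h] at hy
      exact Or.inl ⟨hl, x, mem_uc.1 hy, by omega⟩
    · rw [nz_upp h] at hy
      exact Or.inr ⟨hl, x, mem_dc.1 hy, by omega⟩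
  unfold FG
  rw [if_neg, if_neg]
  · rintro ⟨g1, g2, g3⟩
    obtain ⟨y, hy⟩ := card_eq_one.1 g1
    have hy1 : y ∈ kz i e x a := by rw [hy]; exact mem_singleton_self _
    obtain ⟨hy2, hy3⟩ := mem_kz.1 hy1
    have hy0 : e y = 0 := by
      rcases hz with h | h
      · omega
      · exact h y (nz_lev Q.H hx hy2)
    exact disjoint_left.1 g3 hy1 (key y hy2 hy0)
  · rintro ⟨g1, g2⟩
    obtain ⟨y, hy⟩ : (nz i x).Nonempty := by rw [← card_pos]; omega
    have hy0 : e y = 0 := by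
      rcases hz with h | h
      · have := g1 y hy
        omega
      · exact h y (nz_lev Q.H hx hy)
    exact disjoint_left.1 g2 hy (key y hy hy0)

/-- VALUE with a label on `w` -/
theorem K5w.val_w (hc : IsCore i ∅ (ps K psi) e) (hs : Spt C e) (h2 : (nz i w).card = 2)
    {k a : ℕ} (ha : a ≠ 0) (hz : a = 1 ∨ ∀ y, lev y = i → e y = 0)
    (ho : od (st i C).card k (tC i C e)) :
    lc (st i C).card (k + 1) (Jx i K psi C w v e a 0 0) =
      FG i e w a * lc (st i C).card k (tC i C e) := by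
  by_cases hadm : AdmL i e ∧ AdmU i e ∧ Disjoint (AL i e) (AU i e)
  swap
  · rw [Q.Jx_zero hc hadm, lc_zero, W4.tC_zero hadm, lc_zero, mul_zero]
  by_cases hT : w ∈ Tch i e
  · rw [Q.FG_touch Q.nw h2 ⟨hadm.1, hadm.2.1⟩ hT hz, zero_mul]
    unfold Jx
    rw [if_neg, lc_zero]
    rintro ⟨h | h, -⟩
    · exact ha h
    · exact h hT
  · have h0 : e w = 0 := (core_wv Q hc).1 hT
    have h1 : Jx i K psi C w v e a 0 0 = tC i C (e + Pi.single w a) := by
      unfold Jx
      rw [if_pos ⟨Or.inr hT, Or.inl rfl⟩, Pi.single_zero, add_zero, JK_zero Q.H Q.hir Q.part]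
      intro y hy
      rw [Pi.add_apply, hs y hy, Pi.single_apply, if_neg, add_zero]
      rintro rfl
      exact hy Q.wC
    rw [h1]
    have sg : sg1 i w = 1 := by unfold sg1; rw [if_pos Q.lw0]
    unfold FG
    by_cases hF : Fx i e w a
    · rw [if_pos hF, (val_F Q.H Q.hir Q.hC hs hadm.2.2 Q.nw Q.wC hT h0 h2 hF ho).2, sg]
    · rw [if_neg hF]
      by_cases hG : Gx i e w a
      · rw [if_pos hG, (val_G Q.H Q.hir Q.hC hs hadm.2.2 Q.nw Q.wC hT h0 hG ho).2, sg]
      · rw [if_neg hG, zero_mul]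
        exact lc_of_od (val_N Q.H Q.hir Q.hC hs hadm.2.2 Q.nw Q.wC hT h0 (by omega)
          (fun _ => hF) hG ho)

/-- VALUE with a label on `v` -/
theorem K5w.val_v (hc : IsCore i ∅ (ps K psi) e) (hs : Spt C e) (h2 : (nz i v).card = 2)
    {k a : ℕ} (ha : a ≠ 0) (hz : a = 1 ∨ ∀ y, lev y = i → e y = 0)
    (ho : od (st i C).card k (tC i C e)) :
    lc (st i C).card (k + 1) (Jx i K psi C w v e 0 a 0) =
      - FG i e v a * lc (st i C).card k (tC i C e) := by
  by_cases hadm : AdmL i e ∧ AdmU i e ∧ Disjoint (AL i e) (AU i e)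
  swap
  · rw [Q.Jx_zero hc hadm, lc_zero, W4.tC_zero hadm, lc_zero, mul_zero]
  by_cases hT : v ∈ Tch i e
  · rw [Q.FG_touch Q.nv h2 ⟨hadm.1, hadm.2.1⟩ hT hz, neg_zero, zero_mul]
    unfold Jx
    rw [if_neg, lc_zero]
    rintro ⟨-, h | h⟩
    · exact ha h
    · exact h hT
  · have h0 : e v = 0 := (core_wv Q hc).2 hT
    have h1 : Jx i K psi C w v e 0 a 0 = tC i C (e + Pi.single v a) := by
      unfold Jx
      rw [if_pos ⟨Or.inl rfl, Or.inr hT⟩, Pi.single_zero, add_zero, JK_zero Q.H Q.hir Q.part]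
      intro y hy
      rw [Pi.add_apply, hs y hy, Pi.single_apply, if_neg, add_zero]
      rintro rfl
      exact hy Q.vC
    rw [h1]
    have hl : ¬ lev v = i + 1 := by have := Q.lv0; omega
    have sg : sg1 i v = -1 := by unfold sg1; rw [if_neg hl]
    unfold FG
    by_cases hF : Fx i e v a
    · rw [if_pos hF, (val_F Q.H Q.hir Q.hC hs hadm.2.2 Q.nv Q.vC hT h0 h2 hF ho).2, sg]
    · rw [if_neg hF]
      by_cases hG : Gx i e v a
      · rw [if_pos hG, (val_G Q.H Q.hir Q.hC hs hadm.2.2 Q.nv Q.vC hT h0 hG ho).2, sg]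
      · rw [if_neg hG, neg_zero, zero_mul]
        exact lc_of_od (val_N Q.H Q.hir Q.hC hs hadm.2.2 Q.nv Q.vC hT h0 (by omega)
          (fun _ => hF) hG ho)

end

end Pool.Agent.GaussPoset.Win.Pb
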