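import Pool.Agent.W_448p_h97.PbB

/-!
MP_448cb3_co, G2, case B, window `j`: sums over the natural cores of energy two to four
(the statements of `W_448w4_h10` for a star in a larger set `K` of unmatched doubles, the same proofs:
written by a script from the files of helper10).  helper97.
-/

namespace Pool.Agent.GaussPoset.Win.Pb

set_option linter.unusedSectionVars false

open Finset W4
open Pool.Agent.GaussPoset.Win.So (IV IV_chi IV_Fe)
open Pool.Agent.GaussPoset.Win.SO (Sde Pen TD On kS tL tU LowD UppD val_gen sde_low sde_up PN vp mem_PN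
  num_PN NumG con mem_con self_con con_two_low con_two_upp con_cls con_disj on con_sub on_inj sit_PD
  sit_PU con_PD con_PU PD_data PU_data vp_PD vp_PU sit_ne nL nU BL BU mem_nL mem_nU cheap_of)
open Pool.Agent.GaussPoset.Win.I2 (lS uS mem_lS mem_uS)
open Pool.Agent.GaussPoset.Win.SO (cheap_coeff)

universe u

variable {P : Type u} [Fintype P] [PartialOrder P] [DecidableEq P] {r i : ℕ}
variable {e f : P → ℕ} {psi : P → P} {C K : Finset P} {w v : P}

section

variable (Q : K5w r i K psi C w v)
include Q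

/-- CLASSIFICATION, energy three -/
theorem K5w.cls3 (hc : IsCore i ∅ (ps K psi) e) (hs : Spt C e) (hE : ∑ x, e x = 3) :
    Cheap 0 i e ∨ ((∃ q ∈ I3 i C, m3 i q = e) ∨ ∃ z ∈ Z4 i C, mz i z = e) := by
  by_cases hA : AdmL i e
  swap
  · exact Or.inl (Or.inl hA)
  by_cases hB : AdmU i e
  swap
  · exact Or.inl (Or.inr (Or.inl hB))
  by_cases hd : Disjoint (AL i e) (AU i e)
  swap
  · exact Or.inl (Or.inr (Or.inr (Or.inl hd)))
  have nq1 : NQ uc (tL (P := P) i) (lS P i) e := by
    intro w hw ht he x hx x' hx' h1 h2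
    rw [mem_lS] at hw
    unfold tL at ht
    exact Q.nq w (mem_of_pos hs he) (by omega) x hx x' hx' h1 h2
  have nq2 : NQ dc (tU (P := P) i) (uS P i) e := by
    intro w hw ht he x hx x' hx' h1 h2
    rw [mem_uS] at hw
    unfold tU at ht
    exact Q.nq' w (mem_of_pos hs he) (by omega) x hx x' hx' h1 h2
  rcases (Q.cf hc hs hA hB hd).low3 hE nq1 nq2 with h | ⟨-, h⟩
  · exact Or.inl (cheap_of (by exact_mod_cast h))
  · right
    rcases h with h | h | h | h
    · exact Or.inl (Q3_index Q.H hs h)
    · exact Or.inl (Q3_index' Q.H hs h)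
    · exact Or.inr (T3_index Q.H hs h)
    · exact Or.inr (T3_index' Q.H hs h)
/-- SUMS over the cores of energy three -/
theorem K5w.sum3 (X : (P → ℕ) → ℤ)
    (hX : ∀ e, Spt C e → Cheap 0 i e → X e = 0) :
    2 * ∑ e ∈ Co i K psi C 3, X e = ∑ q ∈ I3 i C, c3 i C q * X (m3 i q) +
      2 * ∑ z ∈ Z4 i C, X (mz i z) := by
  classical
  have H := Q.H
  have hir := Q.hir
  have sub1 : (I3 i C).image (m3 i) ∪ (Z4 i C).image (mz i) ⊆ Co i K psi C 3 := by
    intro e he
    rw [mem_union, mem_image, mem_image] at he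
    rcases he with ⟨q, hq, rfl⟩ | ⟨z, hz, rfl⟩
    · exact mem_Co.2 ⟨m3_sum H hq, (m3_val H hir Q.hC hq).2.2.2.2.2.2, m3_core H hq⟩
    · have := mz_val H hir Q.hC hz
      exact mem_Co.2 ⟨this.2.2.2.2.2.2.2.1, this.2.2.2.2.2.2.1, mz_core H hz⟩
  have h1 : ∑ e ∈ Co i K psi C 3, X e =
      ∑ e ∈ (I3 i C).image (m3 i) ∪ (Z4 i C).image (mz i), X e := by
    symm
    refine sum_subset sub1 ?_
    intro e he hne
    obtain ⟨g1, g2, g3⟩ := mem_Co.1 he
    rcases Q.cls3 g3 g2 g1 with h | h
    · exact hX e g2 h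
    · exfalso
      apply hne
      rw [mem_union, mem_image, mem_image]
      exact h
  have hdis : Disjoint ((I3 i C).image (m3 i)) ((Z4 i C).image (mz i)) := by
    rw [disjoint_left]
    intro e he he'
    rw [mem_image] at he he'
    obtain ⟨q, hq, rfl⟩ := he
    obtain ⟨z, hz, h⟩ := he'
    exact m3_ne_mz H hq hz h.symm
  rw [h1, sum_union hdis, mul_add]
  congr 1
  · have h2 : ∑ q ∈ I3 i C, c3 i C q * X (m3 i q) =
        ∑ e ∈ (I3 i C).image (m3 i), ∑ q ∈ (I3 i C).filter (fun q => m3 i q = e),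
          c3 i C q * X (m3 i q) :=
      (Finset.sum_fiberwise_of_maps_to (fun q hq => mem_image_of_mem _ hq) _).symm
    rw [h2, mul_sum]
    refine sum_congr rfl fun e he => ?_
    rw [mem_image] at he
    obtain ⟨q, hq, rfl⟩ := he
    by_cases hsib : q.2 ∈ PN i C ∧ q.2 ≠ q.1
    · obtain ⟨s1, s2⟩ := m3_swap H hq hsib.1 hsib.2
      have h3 : (I3 i C).filter (fun q' => m3 i q' = m3 i q) = {q, q.swap} := by
        ext q'
        rw [mem_filter, mem_insert, mem_singleton]
        constructor
        · rintro ⟨h3, h4⟩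
          rcases m3_fib H hq h3 h4 with h | ⟨h, -⟩
          · exact Or.inl h
          · exact Or.inr h
        · rintro (rfl | rfl)
          · exact ⟨hq, rfl⟩
          · exact ⟨s1, s2⟩
      have hne : q ≠ q.swap := by
        intro h
        exact hsib.2 (congrArg Prod.snd h)
      rw [h3, sum_pair hne, s2]
      have c1 : c3 i C q = 1 := by unfold c3; rw [if_pos hsib]
      have c2 : c3 i C q.swap = 1 := by
        unfold c3
        rw [if_pos]
        exact ⟨(mem_I3.1 hq).1, hsib.2.symm⟩
      rw [c1, c2]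
      ring
    · have h3 : (I3 i C).filter (fun q' => m3 i q' = m3 i q) = {q} := by
        ext q'
        rw [mem_filter, mem_singleton]
        constructor
        · rintro ⟨h3, h4⟩
          rcases m3_fib H hq h3 h4 with h | ⟨-, h⟩
          · exact h
          · exact absurd h hsib
        · rintro rfl
          exact ⟨hq, rfl⟩
      have c1 : c3 i C q = 2 := by unfold c3; rw [if_neg hsib]
      rw [h3, sum_singleton, c1]
  · rw [sum_image (fun a ha b hb h => mz_inj H ha hb h)]

/-- SUMS over the cores of energy two -/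
theorem K5w.sum2 (X : (P → ℕ) → ℤ)
    (hX : ∀ e, Spt C e → Cheap 0 i e → IsCore i ∅ (ps K psi) e → ∑ x, e x = 2 → X e = 0) :
    ∑ e ∈ Co i K psi C 2, X e = ∑ p ∈ PN i C, X (on (con i p)) := by
  classical
  have H := Q.H
  have h1 : ∑ e ∈ Co i K psi C 2, X e = ∑ e ∈ (PN i C).image (fun p => on (con i p)), X e := by
    symm
    refine sum_subset ?_ ?_
    · intro e he
      rw [mem_image] at he
      obtain ⟨p, hp, rfl⟩ := he
      exact mem_Co.2 ⟨(c2_value H Q.hi Q.hi2 Q.hC hp).1, c2_spt H Q.hC hp, c2_core H hp⟩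
    · intro e he hne
      obtain ⟨g1, g2, g3⟩ := mem_Co.1 he
      rcases Q.cls2 g3 g2 g1.le with h | ⟨-, h⟩
      · exact hX e g2 h g3 g1
      · exfalso
        apply hne
        rw [mem_image]
        exact L2_index H g2 h
  rw [h1, sum_image (fun a ha b hb h => c2_inj H ha hb h)]

end

/-- THE NATURAL CORES OF ENERGY FOUR -/
theorem K5w.sum4 (Q : K5w r i K psi C w v) (hb : 1 ≤ (st i C).card) :
    2 * ∑ e ∈ Co i K psi C 4, lc (st i C).card 2 (tC i C e) =
      ∑ q ∈ P4 i C, vp i q.1 * vp i q.2 - 2 * ((Z4 i C).card - (T4 i C).card : ℤ) := by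
  classical
  have H := Q.H
  have hir := Q.hir
  have h1 : ∑ e ∈ Co i K psi C 4, lc (st i C).card 2 (tC i C e) =
      ∑ e ∈ (P4 i C).image (c4 i) ∪ ((Z4 i C).image (cA i) ∪ (T4 i C).image (cB i)),
        lc (st i C).card 2 (tC i C e) := by
    symm
    refine sum_subset ?_ ?_
    · intro e he
      simp only [mem_union, mem_image] at he
      rcases he with ⟨q, hq, rfl⟩ | ⟨z, hz, rfl⟩ | ⟨z, hz, rfl⟩
      · have hv := c4_value H Q.hi Q.hi2 Q.hC hq
        exact mem_Co.2 ⟨hv.1, c4_spt H Q.hC hq, c4_core H hq⟩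
      · have hv := cA_value H hir Q.hC hz
        exact mem_Co.2 ⟨hv.1, cA_spt H Q.hC hz, cA_core H hz⟩
      · have hv := cB_value H hir Q.hC hz
        exact mem_Co.2 ⟨hv.1, cB_spt H Q.hC hz, cB_core H hz⟩
    · intro e he hne
      obtain ⟨g1, g2, g3⟩ := mem_Co.1 he
      rcases Q.cls g3 g2 g1.le with h | ⟨-, h⟩
      · exact cheap_coeff H Q.hC g2 h hb
      · exfalso
        apply hne
        simp only [mem_union, mem_image]
        rcases h with h | h | h | h | h | h | h
        · exact Or.inl (PP_index H g2 h)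
        · exact Or.inl (PP_index' H g2 h)
        · exact Or.inl (PQ_index H g2 h)
        · exact Or.inr (Or.inl (A4_index H g2 h))
        · exact Or.inr (Or.inl (A4_index' H g2 h))
        · exact Or.inr (Or.inr (B4_index H g2 h))
        · exact Or.inr (Or.inr (B4_index' H g2 h))
  rw [h1, sum_union, sum_union]
  rotate_left
  · rw [disjoint_left]
    intro e he he'
    rw [mem_image] at he he'
    obtain ⟨z, hz, rfl⟩ := he
    obtain ⟨z', hz', h⟩ := he'
    have h2 := cA_two (i := i) z
    rw [← h] at h2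
    have h3 := on_le_one (con i z' ∪ cS i z') z
    unfold cB at h2
    omega
  · rw [disjoint_union_right]
    constructor
    · rw [disjoint_left]
      intro e he he'
      rw [mem_image] at he he'
      obtain ⟨q, hq, rfl⟩ := he
      obtain ⟨z, hz, h⟩ := he'
      have h2 := cA_two (i := i) z
      rw [h] at h2
      have h3 := on_le_one (con i q.1 ∪ con i q.2) z
      unfold c4 at h2
      omega
    · rw [disjoint_left]
      intro e he he'
      rw [mem_image] at he he'
      obtain ⟨q, hq, rfl⟩ := he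
      obtain ⟨z, hz, h⟩ := he'
      obtain ⟨v, hv, hv2⟩ := cB_site H hz
      rw [h, c4_site H hq hv] at hv2
      omega
  have e1 := c4_sum H Q.hi Q.hi2 Q.hC
  have e2 : ∑ e ∈ (Z4 i C).image (cA i), lc (st i C).card 2 (tC i C e) =
      - ((Z4 i C).card : ℤ) := by
    have hv : ∀ z ∈ Z4 i C, lc (st i C).card 2 (tC i C (cA i z)) = -1 :=
      fun z hz => (cA_value H hir Q.hC hz).2
    rw [sum_image (fun a _ b _ h => cA_inj h), sum_congr rfl hv, sum_const]
    simp
  have e3 : ∑ e ∈ (T4 i C).image (cB i), lc (st i C).card 2 (tC i C e) =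
      ((T4 i C).card : ℤ) := by
    have hv : ∀ z ∈ T4 i C, lc (st i C).card 2 (tC i C (cB i z)) = 1 :=
      fun z hz => (cB_value H hir Q.hC hz).2
    rw [sum_image (fun a ha b hb h => cB_inj H ha hb h), sum_congr rfl hv, sum_const]
    simp
  rw [e2, e3]
  have e4 : ∑ e ∈ (P4 i C).image (c4 i), lc (st i C).card 2 (tC i C e) =
      ∑ e ∈ (P4 i C).image (c4 i), PowerSeries.coeff (st i C).card (dd ^ 2 * tC i C e : A) := rfl
  rw [e4]
  linarith

end Pool.Agent.GaussPoset.Win.Pb
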