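import Pool.Agent.W_448p_h97.PbC

/-!
MP_448cb3_co, G2, case B, window `j`: pendants and a label of the star; both labels
(the statements of `W_448w4_h10` for a star in a larger set `K` of unmatched doubles, the same proofs:
written by a script from the files of helper10).  helper97.
-/

namespace Pool.Agent.GaussPoset.Win.Pb

set_option linter.unusedSectionVars false

open Finset W4
open Pool.Agent.GaussPoset.Win.So (IV IV_chi IV_Fe)
open Pool.Agent.GaussPoset.Win.SO (Sde Pen TD On kS tL tU LowD UppD val_gen sde_low sde_up PN vp mem_PN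
  num_PN NumG con mem_con self_con con_two_low con_two_upp con_cls con_disj on con_sub on_inj sit_PD
  sit_PU con_PD con_PU PD_data PU_data vp_PD vp_PU sit_ne nL nU BL BU mem_nL mem_nU cheap_of)
open Pool.Agent.GaussPoset.Win.I2 (lS uS mem_lS mem_uS)

universe u

variable {P : Type u} [Fintype P] [PartialOrder P] [DecidableEq P] {r i : ℕ}
variable {e f : P → ℕ} {psi : P → P} {C K : Finset P} {w v : P}

section

variable (Q : K5w r i K psi C w v)
include Q

/-- not of type F: no order two -/
lemma K5w.pd_N_w {p : P} (hp : p ∈ PN i C) (h2 : (nz i w).card = 2)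
    (hd : ¬ Disjoint (nz i w) (sit i p)) (m : ℕ) :
    lc (st i C).card 2 (Jx i K psi C w v (on (con i p)) 1 0 m) = 0 := by
  have H := Q.H
  obtain ⟨v1, v2, v3, v4, v5, v6⟩ := pd_val H Q.hi Q.hi2 Q.hC hp
  have hs := c2_spt H Q.hC hp
  have hc : IsCore i ∅ (ps K psi) (on (con i p)) := c2_core H hp
  have hk : Cheap 1 i (on (con i p)) :=
    Q.cheap1 hc hs (by rw [(c2_value H Q.hi Q.hi2 Q.hC hp).1]; omega)
  unfold Jx
  split_ifs with h
  · obtain ⟨hw, hv⟩ := core_wv Q hc
    rw [JK_add2 Q h.1 h.2 hw hv]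
    have hall : ∀ y ∈ nz i w, on (con i p) y < 1 := by
      intro y hy
      rw [pd_site H hp (nz_lev H Q.nw hy)]
      omega
    have hR := Rk_N H Q.nw (e := on (con i p)) (a := 1) (by omega) (fun _ hF => by
      have := hF.2
      rw [v4] at this
      exact hd this) (fun hG => by
      have := hG.1
      rw [kz_eq_iff.2 hall] at this
      omega) hk
    have h1 := Rk_mul hR (Rk_mul (Rk_wt (e := on (con i p)) Q.H Q.hi Q.hi2 Q.nv 0)
      (GK_Rk Q.H Q.hi Q.hi2 Q.hM Q.hC (on (con i p)) m))
    rw [ind_zero, add_zero, add_zero] at h1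
    have h3 : od (st i C).card 1 (IV (st i C) (fun S => Fe i (on (con i p)) S *
        (wt i (on (con i p)) w 1 S * (wt i (on (con i p)) v 0 S *
          GK i K psi C (on (con i p)) m S)))) := by
      apply od_of_Rk
      refine Rk_congr (fun S _ => ?_) h1
      ring
    exact lc_of_od h3
  · exact lc_zero _ _

lemma K5w.pd_N_v {p : P} (hp : p ∈ PN i C) (h2 : (nz i v).card = 2)
    (hd : ¬ Disjoint (nz i v) (sit i p)) (m : ℕ) :
    lc (st i C).card 2 (Jx i K psi C w v (on (con i p)) 0 1 m) = 0 := by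
  have H := Q.H
  obtain ⟨v1, v2, v3, v4, v5, v6⟩ := pd_val H Q.hi Q.hi2 Q.hC hp
  have hs := c2_spt H Q.hC hp
  have hc : IsCore i ∅ (ps K psi) (on (con i p)) := c2_core H hp
  have hk : Cheap 1 i (on (con i p)) :=
    Q.cheap1 hc hs (by rw [(c2_value H Q.hi Q.hi2 Q.hC hp).1]; omega)
  unfold Jx
  split_ifs with h
  · obtain ⟨hw, hv⟩ := core_wv Q hc
    rw [JK_add2 Q h.1 h.2 hw hv]
    have hall : ∀ y ∈ nz i v, on (con i p) y < 1 := by
      intro y hy
      rw [pd_site H hp (nz_lev H Q.nv hy)]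
      omega
    have hR := Rk_N H Q.nv (e := on (con i p)) (a := 1) (by omega) (fun _ hF => by
      have := hF.2
      rw [v4] at this
      exact hd this) (fun hG => by
      have := hG.1
      rw [kz_eq_iff.2 hall] at this
      omega) hk
    have h1 := Rk_mul hR (Rk_mul (Rk_wt (e := on (con i p)) Q.H Q.hi Q.hi2 Q.nw 0)
      (GK_Rk Q.H Q.hi Q.hi2 Q.hM Q.hC (on (con i p)) m))
    rw [ind_zero, add_zero, add_zero] at h1
    have h3 : od (st i C).card 1 (IV (st i C) (fun S => Fe i (on (con i p)) S *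
        (wt i (on (con i p)) w 0 S * (wt i (on (con i p)) v 1 S *
          GK i K psi C (on (con i p)) m S)))) := by
      apply od_of_Rk
      refine Rk_congr (fun S _ => ?_) h1
      ring
    exact lc_of_od h3
  · exact lc_zero _ _

/-- CONTRIBUTION of a core of energy two -/
theorem K5w.L2_val (hw2 : (nz i w).card = 2) (hv2 : (nz i v).card = 2) {q : P} (hq : q ∈ uc w)
    (hq' : q ∈ dc v) {p : P} (hp : p ∈ PN i C) :
    lc (st i C).card 2 (Jx i K psi C w v (on (con i p)) 0 1 1) +
      lc (st i C).card 2 (Jx i K psi C w v (on (con i p)) 0 2 0) +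
      lc (st i C).card 2 (Jx i K psi C w v (on (con i p)) 1 0 1) +
      lc (st i C).card 2 (Jx i K psi C w v (on (con i p)) 2 0 0) +
      lc (st i C).card 2 (Jx i K psi C w v (on (con i p)) 1 1 0) =
    vp i p * (Nx i w p * (1 + Dg i K C (sit i p ∪ nz i w)) -
      Nx i v p * (1 + Dg i K C (sit i p ∪ nz i v))) := by
  have H := Q.H
  obtain ⟨v1, v2, v3, v4, v5, v6⟩ := pd_val H Q.hi Q.hi2 Q.hC hp
  have hs := c2_spt H Q.hC hp
  have hc : IsCore i ∅ (ps K psi) (on (con i p)) := c2_core H hp
  have hsite : ∀ y, lev y = i → on (con i p) y = 0 := fun y hy => pd_site H hp hy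
  have lq : lev q = i := by
    have := lev_uc H hq
    have := Q.lw0
    omega
  have t1 := Q.val_w hc hs hw2 (two_ne_zero) (Or.inr hsite) v5
  have t2 := Q.val_v hc hs hv2 (two_ne_zero) (Or.inr hsite) v5
  rw [FG_pd H Q.hi Q.hi2 Q.hC hp Q.nw hw2 two_ne_zero, v6] at t1
  rw [FG_pd H Q.hi Q.hi2 Q.hC hp Q.nv hv2 two_ne_zero, v6] at t2
  have t3 : lc (st i C).card 2 (Jx i K psi C w v (on (con i p)) 1 1 0) = 0 := by
    rw [Q.Jx_both hc hq hq' (hsite q lq) one_ne_zero one_ne_zero, lc_zero]
  have t4 : lc (st i C).card 2 (Jx i K psi C w v (on (con i p)) 1 0 1) =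
      Nx i w p * (Dg i K C (sit i p ∪ nz i w) * vp i p) := by
    unfold Nx
    by_cases hd : Disjoint (nz i w) (sit i p)
    · have hT : w ∉ Tch i (on (con i p)) := by
        intro h
        have h5 := pd_tch H hp h
        rw [h5, disjoint_self] at hd
        have := (PN_dat H hp).2.choose_spec.2.2.2.1
        rw [hd] at this
        simp at this
      have h0 := (core_wv Q hc).1 hT
      rw [if_pos hd, one_mul]
      unfold Jx
      rw [if_pos ⟨Or.inr hT, Or.inl rfl⟩, Pi.single_zero, add_zero,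
        x_one H Q.hi Q.hi2 Q.hM Q.hC hp Q.nw Q.wC Q.wK hw2 hT h0 hd]
      unfold sg1
      rw [if_pos Q.lw0, one_mul]
    · rw [if_neg hd, zero_mul]
      exact Q.pd_N_w hp hw2 hd 1
  have t5 : lc (st i C).card 2 (Jx i K psi C w v (on (con i p)) 0 1 1) =
      - Nx i v p * (Dg i K C (sit i p ∪ nz i v) * vp i p) := by
    unfold Nx
    by_cases hd : Disjoint (nz i v) (sit i p)
    · have hT : v ∉ Tch i (on (con i p)) := by
        intro h
        have h5 := pd_tch H hp h
        rw [h5, disjoint_self] at hd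
        have := (PN_dat H hp).2.choose_spec.2.2.2.1
        rw [hd] at this
        simp at this
      have h0 := (core_wv Q hc).2 hT
      rw [if_pos hd]
      unfold Jx
      rw [if_pos ⟨Or.inl rfl, Or.inr hT⟩, Pi.single_zero, add_zero,
        x_one H Q.hi Q.hi2 Q.hM Q.hC hp Q.nv Q.vC Q.vK hv2 hT h0 hd]
      unfold sg1
      rw [if_neg (by have := Q.lv0; omega)]
      ring
    · rw [if_neg hd, neg_zero, zero_mul]
      exact Q.pd_N_v hp hv2 hd 1
  rw [t3, t4, t5]
  have t1' : lc (st i C).card 2 (Jx i K psi C w v (on (con i p)) 2 0 0) = Nx i w p * vp i p := t1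
  have t2' : lc (st i C).card 2 (Jx i K psi C w v (on (con i p)) 0 2 0) =
    - Nx i v p * vp i p := t2
  rw [t1', t2']
  ring

end

section

variable (Q : K5w r i K psi C w v) {p q s : P} (hw : uc w = {p, q}) (hv : dc v = {q, s})
  (hpq : p ≠ q) (hqs : q ≠ s) (hps : p ≠ s)
include Q hw hv hpq hqs hps

lemma K5w.lpq : lev p = i ∧ lev q = i ∧ lev s = i := by
  have h1 := lev_uc Q.H (x := w) (v := p) (by rw [hw]; simp)
  have h2 := lev_uc Q.H (x := w) (v := q) (by rw [hw]; simp)
  have h3 := lev_dc Q.H (x := v) (v := s) (by rw [hv]; simp)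
  have := Q.lw0
  have := Q.lv0
  omega

lemma K5w.nzw : nz i w = {p, q} := by rw [nz_low Q.lw0, hw]

lemma K5w.nzv : nz i v = {q, s} := by rw [nz_upp Q.lv0, hv]

lemma K5w.memC : p ∈ C ∧ q ∈ C ∧ s ∈ C := by
  refine ⟨Q.hC.up Q.wC (mem_uc.1 (by rw [hw]; simp)), Q.hC.up Q.wC (mem_uc.1 (by rw [hw]; simp)),
    Q.hC.dn Q.vC (by have := Q.lv0; omega) (mem_dc.1 (by rw [hv]; simp))⟩

/-- after a label one on `w`: the configuration -/
lemma K5w.step_w (hS : Sc i e) (hs : Spt C e) (hq : 1 ≤ e q) {a : ℕ} :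
    Spt C (e + Pi.single w a) ∧ w ∉ Tch i e ∧ e w = 0 ∧ v ∉ Tch i (e + Pi.single w a) ∧
      (e + Pi.single w a : P → ℕ) v = 0 ∧ AL i (e + Pi.single w a) = kz i e w a ∧
      AU i (e + Pi.single w a) = ∅ ∧ (∀ b, kz i (e + Pi.single w a) v b = kz i e v b) := by
  obtain ⟨l1, l2, l3⟩ := Q.lpq hw hv hpq hqs hps
  obtain ⟨-, -, h1, h2, -, -⟩ := hS.val (C := C) Q.H Q.hi Q.hi2
  have hw0 : e w = 0 := hS w (by have := Q.lw0; omega)
  have hv0 : e v = 0 := hS v (by have := Q.lv0; omega)
  refine ⟨?_, ?_, hw0, ?_, ?_, ?_, ?_, ?_⟩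
  · intro y hy
    rw [Pi.add_apply, hs y hy, Pi.single_apply, if_neg, add_zero]
    rintro rfl
    exact hy Q.wC
  · rw [hS.tch Q.H]; exact notMem_empty w
  · rw [Tch_add Q.H (single_far Q.nw a), hS.tch Q.H]; exact notMem_empty v
  · rw [Pi.add_apply, hv0, Pi.single_apply, if_neg Q.ne.symm, add_zero]
  · rw [AL_low Q.H Q.lw0 hw0, h1, empty_union]
  · rw [AU_low Q.H Q.lw0 hw0, h2]
  · intro b
    exact kz_add Q.H Q.nw Q.nv

/-- label one on `w` and on `v`, labels on the sites -/
theorem K5w.both_11 (hS : Sc i e) (hs : Spt C e) (hq : 1 ≤ e q) :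
    od (st i C).card 2 (tC i C (e + Pi.single w 1 + Pi.single v 1)) ∧
    lc (st i C).card 2 (tC i C (e + Pi.single w 1 + Pi.single v 1)) =
      if e p = 0 ∧ e s = 0 then -1 else 0 := by
  have H := Q.H
  have hir := Q.hir
  obtain ⟨l1, l2, l3⟩ := Q.lpq hw hv hpq hqs hps
  obtain ⟨-, -, h1, h2, o0, c0⟩ := hS.val (C := C) Q.H Q.hi Q.hi2
  obtain ⟨s1, s2, s3, s4, s5, s6, s7, s8⟩ := Q.step_w hw hv hpq hqs hps hS hs hq (a := 1)
  have nw := Q.nzw hw hv hpq hqs hps
  have nv := Q.nzv hw hv hpq hqs hps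
  have kw : kz i e w 1 = if e p = 0 then {p} else ∅ := by
    ext y
    rw [mem_kz, nw, mem_insert, mem_singleton]
    split_ifs with h
    · rw [mem_singleton]
      constructor
      · rintro ⟨rfl | rfl, g⟩
        · rfl
        · omega
      · rintro rfl
        exact ⟨Or.inl rfl, by omega⟩
    · constructor
      · rintro ⟨rfl | rfl, g⟩ <;> omega
      · intro g
        exact absurd g (notMem_empty y)
  have kv : kz i e v 1 = if e s = 0 then {s} else ∅ := by
    ext y
    rw [mem_kz, nv, mem_insert, mem_singleton]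
    split_ifs with h
    · rw [mem_singleton]
      constructor
      · rintro ⟨rfl | rfl, g⟩
        · omega
        · rfl
      · rintro rfl
        exact ⟨Or.inr rfl, by omega⟩
    · constructor
      · rintro ⟨rfl | rfl, g⟩ <;> omega
      · intro g
        exact absurd g (notMem_empty y)
  have cw2 : (nz i w).card = 2 := by rw [nw, card_pair hpq]
  have cv2 : (nz i v).card = 2 := by rw [nv, card_pair hqs]
  have hdis : Disjoint (AL i e) (AU i e) := by rw [h1]; exact disjoint_empty_left _
  have hdis1 : Disjoint (AL i (e + Pi.single w 1)) (AU i (e + Pi.single w 1)) := by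
    rw [s7]; exact disjoint_empty_right _
  have sgw : sg1 i w = 1 := by unfold sg1; rw [if_pos Q.lw0]
  have sgv : sg1 i v = -1 := by unfold sg1; rw [if_neg (by have := Q.lv0; omega)]
  by_cases hp0 : e p = 0
  · rw [if_pos hp0] at kw
    have hG : Gx i e w 1 := ⟨by rw [kw, card_singleton], cw2, by
      rw [h1, h2, union_empty]; exact disjoint_empty_right _⟩
    obtain ⟨o1, c1⟩ := val_G H hir Q.hC hs hdis Q.nw Q.wC s2 s3 hG o0
    rw [sgw, c0] at c1
    by_cases hs0 : e s = 0
    · rw [if_pos hs0] at kv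
      have hG2 : Gx i (e + Pi.single w 1) v 1 := by
        refine ⟨by rw [s8, kv, card_singleton], cv2, ?_⟩
        rw [s8, kv, s6, s7, kw, union_empty, disjoint_singleton]
        exact hps.symm
      obtain ⟨o2, c2⟩ := val_G H hir Q.hC s1 hdis1 Q.nv Q.vC s4 s5 hG2 o1
      refine ⟨o2, ?_⟩
      rw [if_pos ⟨hp0, hs0⟩, c2, c1, sgv]
      norm_num
    · rw [if_neg hs0] at kv
      have o2 := val_N H hir Q.hC s1 hdis1 Q.nv Q.vC s4 s5 (a := 1) (by omega)
        (fun _ hF => by
          have := kz_eq_iff.2 hF.1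
          rw [s8, kv] at this
          rw [← this] at cv2
          simp at cv2)
        (fun hG => by
          have := hG.1
          rw [s8, kv] at this
          simp at this) o1
      refine ⟨od_succ o2, ?_⟩
      rw [if_neg (fun h => hs0 h.2)]
      exact lc_of_od o2
  · rw [if_neg hp0] at kw
    have o1 := val_N H hir Q.hC hs hdis Q.nw Q.wC s2 s3 (a := 1) (by omega)
        (fun _ hF => by
          have := kz_eq_iff.2 hF.1
          rw [kw] at this
          rw [← this] at cw2
          simp at cw2)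
        (fun hG => by
          have := hG.1
          rw [kw] at this
          simp at this) o0
    rw [if_neg (fun h => hp0 h.1)]
    have o2 : od (st i C).card 1 (tC i C (e + Pi.single w 1 + Pi.single v 1)) := by
      by_cases hs0 : e s = 0
      · rw [if_pos hs0] at kv
        have hG2 : Gx i (e + Pi.single w 1) v 1 := by
          refine ⟨by rw [s8, kv, card_singleton], cv2, ?_⟩
          rw [s8, kv, s6, s7, kw, union_empty]
          exact disjoint_empty_right _
        exact (val_G H hir Q.hC s1 hdis1 Q.nv Q.vC s4 s5 hG2 o1).1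
      · rw [if_neg hs0] at kv
        exact od_succ (val_N H hir Q.hC s1 hdis1 Q.nv Q.vC s4 s5 (a := 1) (by omega)
          (fun _ hF => by
            have := kz_eq_iff.2 hF.1
            rw [s8, kv] at this
            rw [← this] at cv2
            simp at cv2)
          (fun hG => by
            have := hG.1
            rw [s8, kv] at this
            simp at this) o1)
    exact ⟨od_succ o2, lc_of_od o2⟩

end

end Pool.Agent.GaussPoset.Win.Pb
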