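import Pool.Agent.W_448p_h97.PbD

/-!
MP_448cb3_co, G2, case B, window `j`: both labels of the star positive
(the statements of `W_448w4_h10` for a star in a larger set `K` of unmatched doubles, the same proofs:
written by a script from the files of helper10).  helper97.
-/

namespace Pool.Agent.GaussPoset.Win.Pb

set_option linter.unusedSectionVars false

open Finset W4
open Pool.Agent.GaussPoset.Win.So (IV IV_chi IV_Fe)
open Pool.Agent.GaussPoset.Win.SO (LowD UppD val_gen PN vp con on)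

universe u

variable {P : Type u} [Fintype P] [PartialOrder P] [DecidableEq P] {r i : ℕ}
variable {e f : P → ℕ} {psi : P → P} {C K : Finset P} {w v : P}

section

variable (Q : K5w r i K psi C w v) {p q s : P} (hw : uc w = {p, q}) (hv : dc v = {q, s})
  (hpq : p ≠ q) (hqs : q ≠ s) (hps : p ≠ s)
include Q hw hv hpq hqs hps

/-- `Jx` of a configuration with labels on the sites -/
lemma K5w.Jx_Sc (hS : Sc i e) (a b m : ℕ) :
    Jx i K psi C w v e a b m = JK i K psi C m (e + Pi.single w a + Pi.single v b) := by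
  unfold Jx
  rw [if_pos]
  refine ⟨Or.inr ?_, Or.inr ?_⟩
  · rw [hS.tch Q.H]; exact notMem_empty w
  · rw [hS.tch Q.H]; exact notMem_empty v

lemma K5w.spt2 (hs : Spt C e) (a b : ℕ) : Spt C (e + Pi.single w a + Pi.single v b) := by
  intro y hy
  have h1 : y ≠ w := by
    rintro rfl
    exact hy Q.wC
  have h2 : y ≠ v := by
    rintro rfl
    exact hy Q.vC
  rw [Pi.add_apply, Pi.add_apply, hs y hy, Pi.single_apply, Pi.single_apply, if_neg h1, if_neg h2,
    add_zero, add_zero]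

/-- `Jx` with no free label, labels on the sites -/
lemma K5w.Jx_Sc0 (hS : Sc i e) (hs : Spt C e) (a b : ℕ) :
    Jx i K psi C w v e a b 0 = tC i C (e + Pi.single w a + Pi.single v b) := by
  rw [Q.Jx_Sc hw hv hpq hqs hps hS, JK_zero Q.H Q.hir Q.part
    (Q.spt2 hw hv hpq hqs hps hs a b)]

/-- the configuration with label one at the common site -/
lemma K5w.sgl : Sc i (Pi.single q 1 : P → ℕ) ∧ Spt C (Pi.single q 1 : P → ℕ) ∧
    (Pi.single q 1 : P → ℕ) q = 1 ∧ (Pi.single q 1 : P → ℕ) p = 0 ∧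
    (Pi.single q 1 : P → ℕ) s = 0 ∧ ∀ y, (Pi.single q 1 : P → ℕ) y < 2 := by
  obtain ⟨l1, l2, l3⟩ := Q.lpq hw hv hpq hqs hps
  obtain ⟨m1, m2, m3⟩ := Q.memC hw hv hpq hqs hps
  refine ⟨?_, ?_, by simp, ?_, ?_, ?_⟩
  · intro x hx
    rw [Pi.single_apply, if_neg]
    rintro rfl
    exact hx l2
  · intro x hx
    rw [Pi.single_apply, if_neg]
    rintro rfl
    exact hx m2
  · rw [Pi.single_apply, if_neg hpq]
  · rw [Pi.single_apply, if_neg hqs.symm]
  · intro y
    rw [Pi.single_apply]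
    split_ifs <;> omega

/-- label one on `w`, two on `v` -/
theorem K5w.both_12 :
    od (st i C).card 2 (Jx i K psi C w v (Pi.single q 1) 1 2 0) ∧
    lc (st i C).card 2 (Jx i K psi C w v (Pi.single q 1) 1 2 0) = 1 := by
  have H := Q.H
  have hir := Q.hir
  obtain ⟨l1, l2, l3⟩ := Q.lpq hw hv hpq hqs hps
  obtain ⟨hS, hs, eq1, ep, es, e2⟩ := Q.sgl hw hv hpq hqs hps
  obtain ⟨e, he⟩ : ∃ e : P → ℕ, e = Pi.single q 1 := ⟨_, rfl⟩
  rw [← he] at hS hs eq1 ep es e2 ⊢
  rw [Q.Jx_Sc0 hw hv hpq hqs hps hS hs]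
  obtain ⟨-, -, h1, h2, o0, c0⟩ := hS.val (C := C) Q.H Q.hi Q.hi2
  obtain ⟨s1, s2, s3, s4, s5, s6, s7, s8⟩ := Q.step_w hw hv hpq hqs hps hS hs (by omega) (a := 1)
  have nw := Q.nzw hw hv hpq hqs hps
  have nv := Q.nzv hw hv hpq hqs hps
  have kw : kz i e w 1 = {p} := by
    ext y
    rw [mem_kz, nw, mem_insert, mem_singleton, mem_singleton]
    constructor
    · rintro ⟨rfl | rfl, g⟩
      · rfl
      · omega
    · rintro rfl
      exact ⟨Or.inl rfl, by omega⟩
  have cw2 : (nz i w).card = 2 := by rw [nw, card_pair hpq]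
  have cv2 : (nz i v).card = 2 := by rw [nv, card_pair hqs]
  have hdis : Disjoint (AL i e) (AU i e) := by rw [h1]; exact disjoint_empty_left _
  have hdis1 : Disjoint (AL i (e + Pi.single w 1)) (AU i (e + Pi.single w 1)) := by
    rw [s7]; exact disjoint_empty_right _
  have sgw : sg1 i w = 1 := by unfold sg1; rw [if_pos Q.lw0]
  have sgv : sg1 i v = -1 := by unfold sg1; rw [if_neg (by have := Q.lv0; omega)]
  have hG : Gx i e w 1 := ⟨by rw [kw, card_singleton], cw2, by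
    rw [h1, h2, union_empty]; exact disjoint_empty_right _⟩
  obtain ⟨o1, c1⟩ := val_G H hir Q.hC hs hdis Q.nw Q.wC s2 s3 hG o0
  rw [sgw, c0] at c1
  have hF : Fx i (e + Pi.single w 1) v 2 := by
    refine ⟨?_, ?_⟩
    · rw [← kz_eq_iff, s8, kz_eq_iff]
      intro y _
      exact e2 y
    · rw [s6, s7, kw, union_empty, nv, disjoint_singleton_right, mem_insert, mem_singleton]
      rintro (h | h)
      · exact hpq h
      · exact hps h
  obtain ⟨o2, c2⟩ := val_F H hir Q.hC s1 hdis1 Q.nv Q.vC s4 s5 cv2 hF o1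
  refine ⟨o2, ?_⟩
  rw [c2, c1, sgv]
  norm_num

/-- label two on `w`, one on `v` -/
theorem K5w.both_21 :
    od (st i C).card 2 (Jx i K psi C w v (Pi.single q 1) 2 1 0) ∧
    lc (st i C).card 2 (Jx i K psi C w v (Pi.single q 1) 2 1 0) = 1 := by
  have H := Q.H
  have hir := Q.hir
  obtain ⟨l1, l2, l3⟩ := Q.lpq hw hv hpq hqs hps
  obtain ⟨hS, hs, eq1, ep, es, e2⟩ := Q.sgl hw hv hpq hqs hps
  obtain ⟨e, he⟩ : ∃ e : P → ℕ, e = Pi.single q 1 := ⟨_, rfl⟩
  rw [← he] at hS hs eq1 ep es e2 ⊢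
  rw [Q.Jx_Sc0 hw hv hpq hqs hps hS hs]
  obtain ⟨-, -, h1, h2, o0, c0⟩ := hS.val (C := C) Q.H Q.hi Q.hi2
  obtain ⟨s1, s2, s3, s4, s5, s6, s7, s8⟩ := Q.step_w hw hv hpq hqs hps hS hs (by omega) (a := 2)
  have nw := Q.nzw hw hv hpq hqs hps
  have nv := Q.nzv hw hv hpq hqs hps
  have kv : kz i e v 1 = {s} := by
    ext y
    rw [mem_kz, nv, mem_insert, mem_singleton]
    constructor
    · rintro ⟨rfl | rfl, g⟩
      · omega
      · rfl
    · rintro rfl
      exact ⟨Or.inr rfl, by omega⟩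
  have kw : kz i e w 2 = {p, q} := by
    rw [← nw, kz_eq_iff]
    intro y _
    exact e2 y
  have cw2 : (nz i w).card = 2 := by rw [nw, card_pair hpq]
  have cv2 : (nz i v).card = 2 := by rw [nv, card_pair hqs]
  have hdis : Disjoint (AL i e) (AU i e) := by rw [h1]; exact disjoint_empty_left _
  have hdis1 : Disjoint (AL i (e + Pi.single w 2)) (AU i (e + Pi.single w 2)) := by
    rw [s7]; exact disjoint_empty_right _
  have sgw : sg1 i w = 1 := by unfold sg1; rw [if_pos Q.lw0]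
  have sgv : sg1 i v = -1 := by unfold sg1; rw [if_neg (by have := Q.lv0; omega)]
  have hF : Fx i e w 2 := ⟨fun y _ => e2 y, by
    rw [h1, h2, union_empty]; exact disjoint_empty_right _⟩
  obtain ⟨o1, c1⟩ := val_F H hir Q.hC hs hdis Q.nw Q.wC s2 s3 cw2 hF o0
  rw [sgw, c0] at c1
  have hG : Gx i (e + Pi.single w 2) v 1 := by
    refine ⟨by rw [s8, kv, card_singleton], cv2, ?_⟩
    rw [s8, kv, s6, s7, kw, union_empty, disjoint_singleton_left, mem_insert, mem_singleton]
    rintro (h | h)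
    · exact hps h.symm
    · exact hqs h.symm
  obtain ⟨o2, c2⟩ := val_G H hir Q.hC s1 hdis1 Q.nv Q.vC s4 s5 hG o1
  refine ⟨o2, ?_⟩
  rw [c2, c1, sgv]
  norm_num

/-- label one on `w`, `v` and a free near element -/
theorem K5w.both_111 :
    lc (st i C).card 2 (Jx i K psi C w v (Pi.single q 1) 1 1 1) =
      -(Vc i K C + dg i K C p + dg i K C s + 2 * dg i K C q - 2 * W4.mm i K C {p, q}
        - 2 * W4.mm i K C {q, s} - W4.mm i K C {p, s}) := by
  have H := Q.H
  have hir := Q.hir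
  obtain ⟨l1, l2, l3⟩ := Q.lpq hw hv hpq hqs hps
  obtain ⟨hS, hs, eq1, ep, es, e2⟩ := Q.sgl hw hv hpq hqs hps
  have ez : ∀ y, y ≠ q → (Pi.single q 1 : P → ℕ) y = 0 := by
    intro y hy
    rw [Pi.single_apply, if_neg hy]
  obtain ⟨e, he⟩ : ∃ e : P → ℕ, e = Pi.single q 1 := ⟨_, rfl⟩
  rw [← he] at hS hs eq1 ep es e2 ez ⊢
  rw [Q.Jx_Sc hw hv hpq hqs hps hS]
  obtain ⟨o2, c2⟩ := Q.both_11 hw hv hpq hqs hps hS hs (by omega)
  rw [if_pos ⟨ep, es⟩] at c2
  obtain ⟨-, -, h1, h2, -, -⟩ := hS.val (C := C) Q.H Q.hi Q.hi2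
  obtain ⟨s1, s2, s3, s4, s5, s6, s7, s8⟩ := Q.step_w hw hv hpq hqs hps hS hs (by omega) (a := 1)
  have nw := Q.nzw hw hv hpq hqs hps
  have nv := Q.nzv hw hv hpq hqs hps
  have kw : kz i e w 1 = {p} := by
    ext y
    rw [mem_kz, nw, mem_insert, mem_singleton, mem_singleton]
    constructor
    · rintro ⟨rfl | rfl, g⟩
      · rfl
      · omega
    · rintro rfl
      exact ⟨Or.inl rfl, by omega⟩
  have kv : kz i e v 1 = {s} := by
    ext y
    rw [mem_kz, nv, mem_insert, mem_singleton]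
    constructor
    · rintro ⟨rfl | rfl, g⟩
      · omega
      · rfl
    · rintro rfl
      exact ⟨Or.inr rfl, by omega⟩
  have aL : AL i (e + Pi.single w 1 + Pi.single v 1) = {p} := by
    rw [AL_upp H Q.lv0 s5, s6, kw]
  have aU : AU i (e + Pi.single w 1 + Pi.single v 1) = {s} := by
    rw [AU_upp H Q.lv0 s5, s7, s8, kv, empty_union]
  have hRK : RK i K psi C (e + Pi.single w 1 + Pi.single v 1) = RK i K psi C e := by
    rw [RK_add H (single_far Q.nv 1), RK_add H (single_far Q.nw 1)]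
  have hval : ∀ y, y ≠ w → y ≠ v → (e + Pi.single w 1 + Pi.single v 1 : P → ℕ) y = e y := by
    intro y h h'
    rw [Pi.add_apply, Pi.add_apply, Pi.single_apply, Pi.single_apply, if_neg h, if_neg h',
      add_zero, add_zero]
  have hlev : ∀ y, lev y = i → y ≠ w ∧ y ≠ v := by
    intro y hy
    have := Q.lw0
    have := Q.lv0
    constructor
    · rintro rfl; omega
    · rintro rfl; omega
  have hz0 : ∀ y ∈ RK i K psi C (e + Pi.single w 1 + Pi.single v 1),
      (e + Pi.single w 1 + Pi.single v 1 : P → ℕ) y = 0 := by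
    intro y hy
    rw [hRK] at hy
    have hyw : y ≠ w := by
      rintro rfl
      exact notMem_RK Q.wK hy
    have hyv : y ≠ v := by
      rintro rfl
      exact notMem_RK Q.vK hy
    rw [hval y hyw hyv]
    have := mem_near.1 (mem_Rst.1 (mem_RK.1 hy).1).1
    exact hS y (by omega)
  have hd : Disjoint (AL i (e + Pi.single w 1 + Pi.single v 1))
      (AU i (e + Pi.single w 1 + Pi.single v 1)) := by
    rw [aL, aU, disjoint_singleton]
    exact hps
  rw [JK_one H Q.hi Q.hi2 Q.hM Q.hC (Q.spt2 hw hv hpq hqs hps hs 1 1) hz0 hd o2,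
    om_pqs H Q.hi Q.hi2 Q.hM Q.hC hpq hps hqs, c2]
  · ring
  · obtain ⟨g1, g2⟩ := hlev q l2
    rw [hval q g1 g2]
    omega
  · intro y hy hyq
    obtain ⟨g1, g2⟩ := hlev y hy
    rw [hval y g1 g2]
    exact ez y hyq
  · rw [aL, aU]
    rfl
  · exact l2
  · rw [hRK]
    exact hS.RK H

end

end Pool.Agent.GaussPoset.Win.Pb
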