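import Pool.Agent.W_448p_h97.PbE

/-!
MP_448cb3_co, G2, case B, window `j`: cores with a label at the centre of the star
(the statements of `W_448w4_h10` for a star in a larger set `K` of unmatched doubles, the same proofs:
written by a script from the files of helper10).  helper97.
-/

namespace Pool.Agent.GaussPoset.Win.Pb

set_option linter.unusedSectionVars false

open Finset W4
open Pool.Agent.GaussPoset.Win.So (IV IV_chi IV_Fe)
open Pool.Agent.GaussPoset.Win.SO (LowD UppD val_gen PN vp con on)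

universe u

variable {P : Type u} [Fintype P] [PartialOrder P] [DecidableEq P] {r i : ℕ}
variable {e f : P → ℕ} {psi : P → P} {C K : Finset P} {w v : P}

section

variable (Q : K5w r i K psi C w v) {p q s : P} (hw : uc w = {p, q}) (hv : dc v = {q, s})
  (hpq : p ≠ q) (hqs : q ≠ s) (hps : p ≠ s)
include Q hw hv hpq hqs hps

lemma K5w.Co1_sum (X : (P → ℕ) → ℤ) (hX : ∀ e ∈ Co i K psi C 1, e q = 0 → X e = 0) :
    ∑ e ∈ Co i K psi C 1, X e = X (Pi.single q 1) := by
  obtain ⟨hS, hs, eq1, ep, es, e2⟩ := Q.sgl hw hv hpq hqs hps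
  refine sum_eq_single _ ?_ ?_
  · intro e he hne
    apply hX e he
    obtain ⟨h1, h2, h3⟩ := mem_Co.1 he
    by_contra h0
    exact hne (W4.sum_one h1 (by omega))
  · intro h
    exfalso
    apply h
    refine mem_Co.2 ⟨?_, hs, hS.core Q.H⟩
    rw [sum_pi_single' q 1 univ]
    simp

/-- `S1` of the fourth coefficient -/
theorem K5w.S1_4 : ∑ e ∈ Co i K psi C 1, (lc (st i C).card 2 (Jx i K psi C w v e 1 1 1) +
      lc (st i C).card 2 (Jx i K psi C w v e 1 2 0) +
      lc (st i C).card 2 (Jx i K psi C w v e 2 1 0)) =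
    2 - (Vc i K C + dg i K C p + dg i K C s + 2 * dg i K C q - 2 * W4.mm i K C {p, q}
        - 2 * W4.mm i K C {q, s} - W4.mm i K C {p, s}) := by
  rw [Q.Co1_sum hw hv hpq hqs hps (fun e => (lc (st i C).card 2 (Jx i K psi C w v e 1 1 1) +
      lc (st i C).card 2 (Jx i K psi C w v e 1 2 0) +
      lc (st i C).card 2 (Jx i K psi C w v e 2 1 0)))]
  · show lc (st i C).card 2 (Jx i K psi C w v (Pi.single q 1) 1 1 1) +
      lc (st i C).card 2 (Jx i K psi C w v (Pi.single q 1) 1 2 0) +
      lc (st i C).card 2 (Jx i K psi C w v (Pi.single q 1) 2 1 0) = _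
    rw [Q.both_111 hw hv hpq hqs hps, (Q.both_12 hw hv hpq hqs hps).2,
      (Q.both_21 hw hv hpq hqs hps).2]
    ring
  · intro e he h0
    obtain ⟨h1, h2, h3⟩ := mem_Co.1 he
    have hq : q ∈ uc w := by rw [hw]; simp
    have hq' : q ∈ dc v := by rw [hv]; simp
    show lc (st i C).card 2 (Jx i K psi C w v e 1 1 1) +
      lc (st i C).card 2 (Jx i K psi C w v e 1 2 0) +
      lc (st i C).card 2 (Jx i K psi C w v e 2 1 0) = 0
    rw [Q.Jx_both h3 hq hq' h0 one_ne_zero one_ne_zero,
      Q.Jx_both h3 hq hq' h0 one_ne_zero two_ne_zero,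
      Q.Jx_both h3 hq hq' h0 two_ne_zero one_ne_zero, lc_zero]
    norm_num

/-- `S1` of the third coefficient -/
theorem K5w.S1_3 : ∑ e ∈ Co i K psi C 1, lc (st i C).card 2 (Jx i K psi C w v e 1 1 0) = -1 := by
  rw [Q.Co1_sum hw hv hpq hqs hps (fun e => lc (st i C).card 2 (Jx i K psi C w v e 1 1 0))]
  · show lc (st i C).card 2 (Jx i K psi C w v (Pi.single q 1) 1 1 0) = _
    obtain ⟨hS, hs, eq1, ep, es, e2⟩ := Q.sgl hw hv hpq hqs hps
    rw [Q.Jx_Sc0 hw hv hpq hqs hps hS hs, (Q.both_11 hw hv hpq hqs hps hS hs (by omega)).2,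
      if_pos ⟨ep, es⟩]
  · intro e he h0
    obtain ⟨h1, h2, h3⟩ := mem_Co.1 he
    have hq : q ∈ uc w := by rw [hw]; simp
    have hq' : q ∈ dc v := by rw [hv]; simp
    show lc (st i C).card 2 (Jx i K psi C w v e 1 1 0) = 0
    rw [Q.Jx_both h3 hq hq' h0 one_ne_zero one_ne_zero, lc_zero]

/-- a core of energy two with a label at the common site: labels on the sites, or zero -/
lemma K5w.Co2_cases (he : e ∈ Co i K psi C 2) (hq : 0 < e q) :
    (∃ f ∈ st i C, e = Pi.single q 1 + Pi.single f 1) ∨ ∀ a b m, Jx i K psi C w v e a b m = 0 := by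
  obtain ⟨l1, l2, l3⟩ := Q.lpq hw hv hpq hqs hps
  obtain ⟨h1, h2, h3⟩ := mem_Co.1 he
  obtain ⟨f, hf⟩ := W4.sum_two h1 hq
  have hef : 0 < e f := by
    rw [hf, Pi.add_apply, Pi.single_eq_same]
    omega
  have hfC : f ∈ C := by
    by_contra h
    rw [h2 f h] at hef
    omega
  have ez : ∀ y, y ≠ q → y ≠ f → e y = 0 := by
    intro y hy hy'
    rw [hf, Pi.add_apply, Pi.single_eq_of_ne hy, Pi.single_eq_of_ne hy', add_zero]
  by_cases hlf : lev f = i
  · exact Or.inl ⟨f, mem_st.2 ⟨hfC, hlf⟩, hf⟩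
  right
  by_cases hlow : i + 2 ≤ lev f
  · refine Q.Jx_zero h3 fun h => W4.far_low Q.H hlow hef ?_ h.1
    intro y hy
    have := lev_uc Q.H hy
    refine ez y ?_ ?_
    · rintro rfl; omega
    · rintro rfl; omega
  by_cases hupp : lev f + 2 ≤ i
  · refine Q.Jx_zero h3 fun h => W4.far_upp Q.H Q.hir hupp hef ?_ h.2.1
    intro y hy
    have := lev_dc Q.H hy
    refine ez y ?_ ?_
    · rintro rfl; omega
    · rintro rfl; omega
  exfalso
  have hn : f ∈ near P i := mem_near.2 (by omega)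
  have ht : Tch i e = ∅ := by
    rw [eq_empty_iff_forall_notMem]
    intro x hx
    rw [mem_Tch] at hx
    rcases hx with ⟨g1, z, hz, hz'⟩ | ⟨g1, z, hz, hz'⟩
    · have hl := lev_cov Q.H hz
      have : e z = 0 := by
        refine ez z ?_ ?_
        · rintro rfl; omega
        · rintro rfl; omega
      omega
    · have hl := lev_cov Q.H hz
      have : e z = 0 := by
        refine ez z ?_ ?_
        · rintro rfl; omega
        · rintro rfl; omega
      omega
  have : e f = 0 := by
    refine h3 f (mem_Rst.2 ⟨hn, notMem_empty f, ?_, ?_⟩)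
    · rw [ht]; exact notMem_empty f
    · rintro ⟨-, g⟩
      rw [ht] at g
      exact notMem_empty _ g
  omega

/-- `S2` of the fourth coefficient, both doubles -/
theorem K5w.S2_both : ∑ e ∈ Co i K psi C 2, lc (st i C).card 2 (Jx i K psi C w v e 1 1 0) =
    2 - ((st i C).card : ℤ) := by
  classical
  obtain ⟨l1, l2, l3⟩ := Q.lpq hw hv hpq hqs hps
  obtain ⟨m1, m2, m3⟩ := Q.memC hw hv hpq hqs hps
  have key : ∀ f ∈ st i C, Sc i (Pi.single q 1 + Pi.single f 1 : P → ℕ) ∧
      Spt C (Pi.single q 1 + Pi.single f 1 : P → ℕ) ∧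
      ∑ x, (Pi.single q 1 + Pi.single f 1 : P → ℕ) x = 2 := by
    intro f hf
    obtain ⟨f1, f2⟩ := mem_st.1 hf
    refine ⟨?_, ?_, ?_⟩
    · intro x hx
      have g1 : x ≠ q := by rintro rfl; exact hx l2
      have g2 : x ≠ f := by rintro rfl; exact hx f2
      rw [Pi.add_apply, Pi.single_eq_of_ne g1, Pi.single_eq_of_ne g2, add_zero]
    · intro x hx
      have g1 : x ≠ q := by rintro rfl; exact hx m2
      have g2 : x ≠ f := by rintro rfl; exact hx f1
      rw [Pi.add_apply, Pi.single_eq_of_ne g1, Pi.single_eq_of_ne g2, add_zero]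
    · simp only [Pi.add_apply]
      rw [sum_add_distrib, sum_pi_single' q 1 univ, sum_pi_single' f 1 univ]
      simp
  have inj : ∀ f ∈ st i C, ∀ f' ∈ st i C,
      (Pi.single q 1 + Pi.single f 1 : P → ℕ) = Pi.single q 1 + Pi.single f' 1 → f = f' := by
    intro f _ f' _ h
    have h' : (Pi.single f 1 : P → ℕ) = Pi.single f' 1 := add_left_cancel h
    by_contra hne
    have := congrFun h' f
    rw [Pi.single_eq_same, Pi.single_eq_of_ne hne] at this
    exact one_ne_zero this
  have e1 : ∑ e ∈ Co i K psi C 2, lc (st i C).card 2 (Jx i K psi C w v e 1 1 0) =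
      ∑ e ∈ (st i C).image (fun f => (Pi.single q 1 + Pi.single f 1 : P → ℕ)),
        lc (st i C).card 2 (Jx i K psi C w v e 1 1 0) := by
    symm
    refine sum_subset ?_ ?_
    · intro e he
      rw [mem_image] at he
      obtain ⟨f, hf, rfl⟩ := he
      obtain ⟨k1, k2, k3⟩ := key f hf
      exact mem_Co.2 ⟨k3, k2, k1.core Q.H⟩
    · intro e he hne
      by_cases hq0 : e q = 0
      · rw [Q.Jx_both (mem_Co.1 he).2.2 (by rw [hw]; simp) (by rw [hv]; simp) hq0 one_ne_zero
          one_ne_zero, lc_zero]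
      · rcases Q.Co2_cases hw hv hpq hqs hps he (by omega) with ⟨f, hf, rfl⟩ | h
        · exact absurd (mem_image.2 ⟨f, hf, rfl⟩) hne
        · rw [h, lc_zero]
  rw [e1, sum_image inj]
  have e2 : ∀ f ∈ st i C, lc (st i C).card 2
      (Jx i K psi C w v (Pi.single q 1 + Pi.single f 1 : P → ℕ) 1 1 0) =
      if f ∉ ({p, s} : Finset P) then -1 else 0 := by
    intro f hf
    obtain ⟨k1, k2, -⟩ := key f hf
    have hq1 : 1 ≤ (Pi.single q 1 + Pi.single f 1 : P → ℕ) q := by
      rw [Pi.add_apply, Pi.single_eq_same]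
      omega
    rw [Q.Jx_Sc0 hw hv hpq hqs hps k1 k2, (Q.both_11 hw hv hpq hqs hps k1 k2 hq1).2]
    refine if_congr ?_ rfl rfl
    rw [Pi.add_apply, Pi.add_apply, Pi.single_eq_of_ne hpq, Pi.single_eq_of_ne hqs.symm, zero_add,
      zero_add, Pi.single_apply, Pi.single_apply, mem_insert, mem_singleton]
    constructor
    · rintro ⟨g1, g2⟩ (h | h)
      · rw [if_pos h.symm] at g1
        exact one_ne_zero g1
      · rw [if_pos h.symm] at g2
        exact one_ne_zero g2
    · intro h
      push Not at h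
      exact ⟨if_neg h.1.symm, if_neg h.2.symm⟩
  rw [sum_congr rfl e2, ← sum_filter, sum_const, nsmul_eq_mul]
  have e3 : (st i C).filter (fun f => f ∉ ({p, s} : Finset P)) = st i C \ {p, s} := by
    ext f
    rw [mem_filter, mem_sdiff]
  have sub : ({p, s} : Finset P) ⊆ st i C := by
    intro y hy
    rw [mem_insert, mem_singleton] at hy
    rcases hy with rfl | rfl
    · exact mem_st.2 ⟨m1, l1⟩
    · exact mem_st.2 ⟨m3, l3⟩
  have e4 := card_sdiff_add_card_eq_card sub
  rw [card_pair hps] at e4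
  rw [e3]
  have : ((st i C \ {p, s}).card : ℤ) + 2 = (st i C).card := by exact_mod_cast e4
  linarith

end

end Pool.Agent.GaussPoset.Win.Pb
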