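import Pool.Agent.W_448p_h97.PbF

/-!
MP_448cb3_co, G2, case B, window `j`: the sums over the cores of energy one to three
(the statements of `W_448w4_h10` for a star in a larger set `K` of unmatched doubles, the same proofs:
written by a script from the files of helper10).  helper97.
-/

namespace Pool.Agent.GaussPoset.Win.Pb

set_option linter.unusedSectionVars false

open Finset W4
open Pool.Agent.GaussPoset.Win.So (IV IV_chi IV_Fe)
open Pool.Agent.GaussPoset.Win.SO (LowD UppD val_gen PN vp con on con_two_low con_two_upp con_sub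
  mem_PN)


universe u

variable {P : Type u} [Fintype P] [PartialOrder P] [DecidableEq P] {r i : ℕ}
variable {e f : P → ℕ} {psi : P → P} {C K : Finset P} {w v : P}

section

variable (Q : K5w r i K psi C w v)
include Q

/-- THE CORES OF ENERGY THREE -/
theorem K5w.S3 (hw2 : (nz i w).card = 2) (hv2 : (nz i v).card = 2) :
    2 * ∑ e ∈ Co i K psi C 3, (lc (st i C).card 2 (Jx i K psi C w v e 0 1 0) +
      lc (st i C).card 2 (Jx i K psi C w v e 1 0 0)) =
    ∑ z ∈ PN i C, vp i z * ((2 * ((st i C).card - 8) + ch i C z) * (Nx i w z - Nx i v z) +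
      2 * (Mx i w z - Mx i v z)) + 2 * ∑ z ∈ Z4 i C, tz i z * (Nx i w z - Nx i v z) := by
  have H := Q.H
  have hir := Q.hir
  obtain ⟨X, hX⟩ : ∃ X : (P → ℕ) → ℤ, X = fun e =>
      (FG i e w 1 - FG i e v 1) * lc (st i C).card 1 (tC i C e) := ⟨_, rfl⟩
  have h1 : ∑ e ∈ Co i K psi C 3, (lc (st i C).card 2 (Jx i K psi C w v e 0 1 0) +
      lc (st i C).card 2 (Jx i K psi C w v e 1 0 0)) = ∑ e ∈ Co i K psi C 3, X e := by
    refine sum_congr rfl fun e he => ?_
    obtain ⟨g1, g2, g3⟩ := mem_Co.1 he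
    have ho : od (st i C).card 1 (tC i C e) := by
      have := Q.Jx_od g3 (Q.cheap1 g3 g2 (by omega)) 0 0 0
      rw [Q.Jx0 g3 g2, ind_zero] at this
      exact this
    rw [Q.val_v g3 g2 hv2 one_ne_zero (Or.inl rfl) ho,
      Q.val_w g3 g2 hw2 one_ne_zero (Or.inl rfl) ho, hX]
    ring
  rw [h1, Q.sum3 X]
  · have h2 : ∑ q ∈ I3 i C, c3 i C q * X (m3 i q) = ∑ z ∈ PN i C,
        vp i z * ((2 * ((st i C).card - 8) + ch i C z) * (Nx i w z - Nx i v z) +
      2 * (Mx i w z - Mx i v z)) := by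
      rw [I3_sum H Q.hC]
      refine sum_congr rfl fun z hz => ?_
      obtain ⟨f1, -, -⟩ := fib_eq H Q.hC hz
      have hI : ∀ g, g ∈ st i C ∪ (con i z ∪ Ch i C z) → (z, g) ∈ I3 i C := by
        intro g hg
        rw [← f1, mem_Fb] at hg
        exact mem_I3.2 ⟨hz, hg.1, hg.2⟩
      have hv : ∀ g, (z, g) ∈ I3 i C → c3 i C (z, g) * X (m3 i (z, g)) =
          vp i z * (c3 i C (z, g) * (ep3 (sit i z) z g * FG i (m3 i (z, g)) w 1)) -
          vp i z * (c3 i C (z, g) * (ep3 (sit i z) z g * FG i (m3 i (z, g)) v 1)) := by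
        intro g hg
        have := (m3_val H hir Q.hC hg).2.2.2.2.2.1
        simp only at this
        rw [hX]
        simp only
        rw [this]
        ring
      rw [sum_congr rfl fun g hg => hv g (hI g (mem_union_left _ hg)),
        sum_congr rfl fun g hg => hv g (hI g (mem_union_right _ (mem_union_left _ hg))),
        sum_congr rfl fun g hg => hv g (hI g (mem_union_right _ (mem_union_right _ hg))),
        sum_sub_distrib, sum_sub_distrib, sum_sub_distrib, ← mul_sum, ← mul_sum, ← mul_sum,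
        ← mul_sum, ← mul_sum, ← mul_sum]
      have a1 := W4.fib_sum H hir Q.hC hz Q.nw Q.wC hw2
      have a2 := W4.fib_sum H hir Q.hC hz Q.nv Q.vC hv2
      linear_combination vp i z * a1 - vp i z * a2
    have h3 : ∑ z ∈ Z4 i C, X (mz i z) = ∑ z ∈ Z4 i C, tz i z * (Nx i w z - Nx i v z) := by
      refine sum_congr rfl fun z hz => ?_
      rw [hX]
      simp only
      rw [FG_mz H hir Q.hC hz Q.nw hw2, FG_mz H hir Q.hC hz Q.nv hv2,
        (mz_val H hir Q.hC hz).2.2.2.2.2.1]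
      ring
    rw [h2, h3]
  · intro e hs h
    rw [hX]
    simp only
    rw [cheap0_lc H Q.hC hs h, mul_zero]

end

section

variable (Q : K5w r i K psi C w v) {p q s : P} (hw : uc w = {p, q}) (hv : dc v = {q, s})
  (hpq : p ≠ q) (hqs : q ≠ s) (hps : p ≠ s)
include Q hw hv hpq hqs hps

lemma K5w.cards : (nz i w).card = 2 ∧ (nz i v).card = 2 ∧ q ∈ uc w ∧ q ∈ dc v := by
  refine ⟨?_, ?_, by rw [hw]; simp, by rw [hv]; simp⟩
  · rw [Q.nzw hw hv hpq hqs hps, card_pair hpq]
  · rw [Q.nzv hw hv hpq hqs hps, card_pair hqs]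

/-- THE CORES OF ENERGY TWO, fourth coefficient -/
theorem K5w.S2_4 : ∑ e ∈ Co i K psi C 2, (lc (st i C).card 2 (Jx i K psi C w v e 0 1 1) +
      lc (st i C).card 2 (Jx i K psi C w v e 0 2 0) +
      lc (st i C).card 2 (Jx i K psi C w v e 1 0 1) +
      lc (st i C).card 2 (Jx i K psi C w v e 2 0 0) +
      lc (st i C).card 2 (Jx i K psi C w v e 1 1 0)) =
    ∑ z ∈ PN i C, vp i z * (Nx i w z * (1 + Dg i K C (sit i z ∪ nz i w)) -
      Nx i v z * (1 + Dg i K C (sit i z ∪ nz i v))) + (2 - ((st i C).card : ℤ)) := by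
  obtain ⟨hw2, hv2, hq, hq'⟩ := Q.cards hw hv hpq hqs hps
  obtain ⟨l1, l2, l3⟩ := Q.lpq hw hv hpq hqs hps
  rw [sum_add_distrib, Q.S2_both hw hv hpq hqs hps]
  congr 1
  rw [Q.sum2 (fun e => lc (st i C).card 2 (Jx i K psi C w v e 0 1 1) +
      lc (st i C).card 2 (Jx i K psi C w v e 0 2 0) +
      lc (st i C).card 2 (Jx i K psi C w v e 1 0 1) +
      lc (st i C).card 2 (Jx i K psi C w v e 2 0 0))]
  · refine sum_congr rfl fun z hz => ?_
    rw [← Q.L2_val hw2 hv2 hq hq' hz]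
    have h0 : Jx i K psi C w v (on (con i z)) 1 1 0 = 0 :=
      Q.Jx_both (c2_core Q.H hz) hq hq' (pd_site Q.H hz l2) one_ne_zero one_ne_zero 0
    rw [h0, lc_zero, add_zero]
  · intro e _ h hc _
    show lc (st i C).card 2 (Jx i K psi C w v e 0 1 1) +
      lc (st i C).card 2 (Jx i K psi C w v e 0 2 0) +
      lc (st i C).card 2 (Jx i K psi C w v e 1 0 1) +
      lc (st i C).card 2 (Jx i K psi C w v e 2 0 0) = 0
    rw [Q.lc_J hc h (by simp [ind]), Q.lc_J hc h (by simp [ind]), Q.lc_J hc h (by simp [ind]),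
      Q.lc_J hc h (by simp [ind])]
    norm_num
/-- the empty core: configurations with one label -/
lemma K5w.zero_vals : lc (st i C).card 1 (Jx i K psi C w v 0 0 1 0) = -1 ∧
    lc (st i C).card 1 (Jx i K psi C w v 0 1 0 0) = 1 ∧
    lc (st i C).card 1 (Jx i K psi C w v 0 0 2 0) = -1 ∧
    lc (st i C).card 1 (Jx i K psi C w v 0 2 0 0) = 1 ∧
    lc (st i C).card 1 (Jx i K psi C w v 0 1 0 1) = Dg i K C {p, q} ∧
    lc (st i C).card 1 (Jx i K psi C w v 0 0 1 1) = - Dg i K C {q, s} := by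
  obtain ⟨hw2, hv2, hq, hq'⟩ := Q.cards hw hv hpq hqs hps
  have nw := Q.nzw hw hv hpq hqs hps
  have nv := Q.nzv hw hv hpq hqs hps
  have hS : Sc i (0 : P → ℕ) := fun x _ => rfl
  have hs : Spt C (0 : P → ℕ) := fun x _ => rfl
  obtain ⟨-, -, h1, h2, o0, c0⟩ := hS.val (C := C) Q.H Q.hi Q.hi2
  have hc : IsCore i ∅ (ps K psi) (0 : P → ℕ) := hS.core Q.H
  have hc' : IsCore i K psi (0 : P → ℕ) := hS.core Q.H
  have hz : ∀ y, lev y = i → (0 : P → ℕ) y = 0 := fun y _ => rfl
  have fw : ∀ a, a ≠ 0 → FG i (0 : P → ℕ) w a = 1 := by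
    intro a ha
    rw [hS.FG Q.H Q.hi Q.hi2 hpq nw, if_pos]
    simp only [Pi.zero_apply]
    omega
  have fv : ∀ a, a ≠ 0 → FG i (0 : P → ℕ) v a = 1 := by
    intro a ha
    rw [hS.FG Q.H Q.hi Q.hi2 hqs nv, if_pos]
    simp only [Pi.zero_apply]
    omega
  have hd0 : Disjoint (AL i (0 : P → ℕ)) (AU i (0 : P → ℕ)) := by
    rw [h1]; exact disjoint_empty_left _
  have hR : ∀ y ∈ N0 i K C, y ∉ RK i K psi C (0 : P → ℕ) → y ∈ dbL P i ∪ dbU P i ∧
      nz i y ⊆ AL i (0 : P → ℕ) ∪ AU i (0 : P → ℕ) := by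
    intro y hy h
    exact absurd (hS.RK Q.H hy) h
  have ht : ∀ x : P, x ∉ Tch i (0 : P → ℕ) := by
    intro x
    rw [hS.tch Q.H]
    exact notMem_empty x
  refine ⟨?_, ?_, ?_, ?_, ?_, ?_⟩
  · rw [Q.val_v hc hs hv2 one_ne_zero (Or.inl rfl) o0, c0, fv 1 one_ne_zero]
    norm_num
  · rw [Q.val_w hc hs hw2 one_ne_zero (Or.inl rfl) o0, c0, fw 1 one_ne_zero]
    norm_num
  · rw [Q.val_v hc hs hv2 two_ne_zero (Or.inr hz) o0, c0, fv 2 two_ne_zero]
    norm_num
  · rw [Q.val_w hc hs hw2 two_ne_zero (Or.inr hz) o0, c0, fw 2 two_ne_zero]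
    norm_num
  · rw [Q.Jx_Sc hw hv hpq hqs hps hS, Pi.single_zero, add_zero,
      x_one_gen Q.H Q.hi Q.hi2 Q.hM Q.hC hs hd0 o0 hz hc' hR Q.nw Q.wC Q.wK hw2 (ht w) rfl
        (by rw [h1, h2, union_empty]; exact disjoint_empty_right _), h1, h2, c0, nw]
    have : sg1 i w = 1 := by unfold sg1; rw [if_pos Q.lw0]
    rw [this, empty_union, empty_union]
    ring
  · rw [Q.Jx_Sc hw hv hpq hqs hps hS, Pi.single_zero, add_zero,
      x_one_gen Q.H Q.hi Q.hi2 Q.hM Q.hC hs hd0 o0 hz hc' hR Q.nv Q.vC Q.vK hv2 (ht v) rfl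
        (by rw [h1, h2, union_empty]; exact disjoint_empty_right _), h1, h2, c0, nv]
    have : sg1 i v = -1 := by unfold sg1; rw [if_neg (by have := Q.lv0; omega)]
    rw [this, empty_union, empty_union]
    ring
/-- a core of energy one: a label at a site, or zero -/
lemma K5w.Co1_cases (he : e ∈ Co i K psi C 1) :
    (∃ f ∈ st i C, e = Pi.single f 1) ∨ ∀ a b m, Jx i K psi C w v e a b m = 0 := by
  obtain ⟨h1, h2, h3⟩ := mem_Co.1 he
  have hf : ∃ f, 0 < e f := by
    by_contra hc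
    push Not at hc
    have : ∑ x, e x = 0 := sum_eq_zero fun x _ => by have := hc x; omega
    omega
  obtain ⟨f, hef⟩ := hf
  have hf := W4.sum_one h1 hef
  have hfC : f ∈ C := by
    by_contra h
    rw [h2 f h] at hef
    omega
  have ez : ∀ y, y ≠ f → e y = 0 := by
    intro y hy
    rw [hf, Pi.single_eq_of_ne hy]
  by_cases hlf : lev f = i
  · exact Or.inl ⟨f, mem_st.2 ⟨hfC, hlf⟩, hf⟩
  right
  by_cases hlow : i + 2 ≤ lev f
  · refine Q.Jx_zero h3 fun h => W4.far_low Q.H hlow hef ?_ h.1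
    intro y hy
    have := lev_uc Q.H hy
    refine ez y ?_
    rintro rfl; omega
  by_cases hupp : lev f + 2 ≤ i
  · refine Q.Jx_zero h3 fun h => W4.far_upp Q.H Q.hir hupp hef ?_ h.2.1
    intro y hy
    have := lev_dc Q.H hy
    refine ez y ?_
    rintro rfl; omega
  exfalso
  have hn : f ∈ near P i := mem_near.2 (by omega)
  have ht : Tch i e = ∅ := by
    rw [eq_empty_iff_forall_notMem]
    intro x hx
    rw [mem_Tch] at hx
    rcases hx with ⟨g1, z, hz, hz'⟩ | ⟨g1, z, hz, hz'⟩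
    · have hl := lev_cov Q.H hz
      have : e z = 0 := by
        refine ez z ?_
        rintro rfl; omega
      omega
    · have hl := lev_cov Q.H hz
      have : e z = 0 := by
        refine ez z ?_
        rintro rfl; omega
      omega
  have : e f = 0 := by
    refine h3 f (mem_Rst.2 ⟨hn, notMem_empty f, ?_, ?_⟩)
    · rw [ht]; exact notMem_empty f
    · rintro ⟨-, g⟩
      rw [ht] at g
      exact notMem_empty _ g
  omega

/-- the cores of energy one, second coefficient -/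
lemma K5w.S1_2 : ∑ e ∈ Co i K psi C 1, (lc (st i C).card 1 (Jx i K psi C w v e 0 1 0) +
      lc (st i C).card 1 (Jx i K psi C w v e 1 0 0)) = 0 := by
  classical
  obtain ⟨l1, l2, l3⟩ := Q.lpq hw hv hpq hqs hps
  obtain ⟨m1, m2, m3⟩ := Q.memC hw hv hpq hqs hps
  obtain ⟨hw2, hv2, hq, hq'⟩ := Q.cards hw hv hpq hqs hps
  have nw := Q.nzw hw hv hpq hqs hps
  have nv := Q.nzv hw hv hpq hqs hps
  have key : ∀ f ∈ st i C, Sc i (Pi.single f 1 : P → ℕ) ∧ Spt C (Pi.single f 1 : P → ℕ) ∧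
      ∑ x, (Pi.single f 1 : P → ℕ) x = 1 := by
    intro f hf
    obtain ⟨f1, f2⟩ := mem_st.1 hf
    refine ⟨?_, ?_, ?_⟩
    · intro x hx
      have g2 : x ≠ f := by rintro rfl; exact hx f2
      rw [Pi.single_eq_of_ne g2]
    · intro x hx
      have g2 : x ≠ f := by rintro rfl; exact hx f1
      rw [Pi.single_eq_of_ne g2]
    · rw [sum_pi_single' f 1 univ]
      simp
  have inj : ∀ f ∈ st i C, ∀ f' ∈ st i C,
      (Pi.single f 1 : P → ℕ) = Pi.single f' 1 → f = f' := by
    intro f _ f' _ h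
    by_contra hne
    have := congrFun h f
    rw [Pi.single_eq_same, Pi.single_eq_of_ne hne] at this
    exact one_ne_zero this
  have e1 : ∑ e ∈ Co i K psi C 1, (lc (st i C).card 1 (Jx i K psi C w v e 0 1 0) +
      lc (st i C).card 1 (Jx i K psi C w v e 1 0 0)) =
      ∑ e ∈ (st i C).image (fun f => (Pi.single f 1 : P → ℕ)),
        (lc (st i C).card 1 (Jx i K psi C w v e 0 1 0) +
      lc (st i C).card 1 (Jx i K psi C w v e 1 0 0)) := by
    symm
    refine sum_subset ?_ ?_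
    · intro e he
      rw [mem_image] at he
      obtain ⟨f, hf, rfl⟩ := he
      obtain ⟨k1, k2, k3⟩ := key f hf
      exact mem_Co.2 ⟨k3, k2, k1.core Q.H⟩
    · intro e he hne
      rcases Q.Co1_cases hw hv hpq hqs hps he with ⟨f, hf, rfl⟩ | h
      · exact absurd (mem_image.2 ⟨f, hf, rfl⟩) hne
      · rw [h, h, lc_zero]
        norm_num
  rw [e1, sum_image inj]
  have e2 : ∀ f ∈ st i C, lc (st i C).card 1 (Jx i K psi C w v (Pi.single f 1) 0 1 0) +
      lc (st i C).card 1 (Jx i K psi C w v (Pi.single f 1) 1 0 0) =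
      2 * (if f ∈ ({q, s} : Finset P) then 1 else 0) -
        2 * (if f ∈ ({p, q} : Finset P) then 1 else 0) := by
    intro f hf
    obtain ⟨k1, k2, -⟩ := key f hf
    obtain ⟨-, -, -, -, o0, c0⟩ := k1.val (C := C) Q.H Q.hi Q.hi2
    have hc : IsCore i ∅ (ps K psi) (Pi.single f 1 : P → ℕ) := k1.core Q.H
    rw [Q.val_v hc k2 hv2 one_ne_zero (Or.inl rfl) o0,
      Q.val_w hc k2 hw2 one_ne_zero (Or.inl rfl) o0, c0,
      k1.FG Q.H Q.hi Q.hi2 hpq nw, k1.FG Q.H Q.hi Q.hi2 hqs nv]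
    simp only [Pi.single_apply, mem_insert, mem_singleton]
    by_cases h1 : f = p
    · subst h1
      simp [hpq, hpq.symm, hps, hps.symm]
    · by_cases h2 : f = q
      · subst h2
        simp [hpq, hpq.symm, hqs, hqs.symm]
      · by_cases h3 : f = s
        · subst h3
          simp [hqs, hqs.symm, hps, hps.symm]
        · simp [h1, h2, h3, Ne.symm h1, Ne.symm h2, Ne.symm h3]
  rw [sum_congr rfl e2, sum_sub_distrib, ← mul_sum, ← mul_sum, ← sum_filter, ← sum_filter,
    sum_const, sum_const]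
  have e3 : ∀ a b : P, a ≠ b → a ∈ st i C → b ∈ st i C →
      ((st i C).filter (fun f => f ∈ ({a, b} : Finset P))).card = 2 := by
    intro a b hab ha hb
    have : (st i C).filter (fun f => f ∈ ({a, b} : Finset P)) = {a, b} := by
      ext y
      rw [mem_filter]
      constructor
      · exact fun h => h.2
      · intro h
        refine ⟨?_, h⟩
        rw [mem_insert, mem_singleton] at h
        rcases h with rfl | rfl <;> assumption
    rw [this, card_pair hab]
  rw [e3 q s hqs (mem_st.2 ⟨m2, l2⟩) (mem_st.2 ⟨m3, l3⟩),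
    e3 p q hpq (mem_st.2 ⟨m1, l1⟩) (mem_st.2 ⟨m2, l2⟩)]
  ring

end

end Pool.Agent.GaussPoset.Win.Pb
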