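import Pool.Agent.W_448p_h97.PbG

/-!
MP_448cb3_co, G2, case B, window `j`: the values of the window sums over the labels of one star
(the statements of `W_448w4_h10` for a star in a larger set `K` of unmatched doubles, the same proofs:
written by a script from the files of helper10).  helper97.
-/

namespace Pool.Agent.GaussPoset.Win.Pb

set_option linter.unusedSectionVars false

open Finset W4
open Pool.Agent.GaussPoset.Win.So (IV IV_chi IV_Fe)
open Pool.Agent.GaussPoset.Win.SO (LowD UppD val_gen PN vp con on)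

universe u

variable {P : Type u} [Fintype P] [PartialOrder P] [DecidableEq P] {r i : ℕ}
variable {e f : P → ℕ} {psi : P → P} {C K : Finset P} {w v : P}

/-- the window sum over the labels of one star only -/
noncomputable def ZW (i : ℕ) (K : Finset P) (psi : P → P) (C : Finset P) (w v : P) (n : ℕ) : A :=
  ∑ q ∈ range (n + 1), ∑ e ∈ Co i K psi C q,
    ∑ p ∈ antidiagonal (n - q), ∑ t ∈ antidiagonal p.2, Jx i K psi C w v e p.1 t.1 t.2

section

variable (Q : K5w r i K psi C w v)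
include Q

lemma K5w.ZC_split (n : ℕ) : ZW i K psi C w v n = ∑ q ∈ range (n + 1), ∑ e ∈ Co i K psi C q,
      ∑ p ∈ antidiagonal (n - q), ∑ t ∈ antidiagonal p.2,
        Jx i K psi C w v e p.1 t.1 t.2 := rfl

/-- the general form -/
lemma K5w.lc_ZC (n l : ℕ) : lc (st i C).card l (ZW i K psi C w v n) =
    ∑ q ∈ range (n + 1), ∑ e ∈ Co i K psi C q,
      ∑ p ∈ antidiagonal (n - q), ∑ t ∈ antidiagonal p.2,
        lc (st i C).card l (Jx i K psi C w v e p.1 t.1 t.2) := by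
  rw [Q.ZC_split n, lc_sum]
  refine sum_congr rfl fun q _ => ?_
  rw [lc_sum]
  refine sum_congr rfl fun e _ => ?_
  rw [lc_sum]
  refine sum_congr rfl fun p _ => ?_
  rw [lc_sum]

/-- the orders -/
theorem K5w.od_ZC {n l : ℕ} (h : ∀ q, q ≤ n → ∀ e ∈ Co i K psi C q,
      ∀ p ∈ antidiagonal (n - q), ∀ t ∈ antidiagonal p.2,
        od (st i C).card l (Jx i K psi C w v e p.1 t.1 t.2)) :
    od (st i C).card l (ZW i K psi C w v n) := by
  rw [Q.ZC_split n]
  exact od_sum fun q hq => od_sum fun e he => od_sum fun p hp => od_sum fun t ht =>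
    h q (by rw [mem_range] at hq; omega) e he p hp t ht

variable {q : P} (hq : q ∈ uc w) (hq' : q ∈ dc v)
include hq hq'

/-- THE ENERGY FOUR -/
theorem K5w.lc4 : lc (st i C).card 2 (ZW i K psi C w v 4) =
    ∑ e ∈ Co i K psi C 4, lc (st i C).card 2 (tC i C e) +
    ∑ e ∈ Co i K psi C 3, (lc (st i C).card 2 (Jx i K psi C w v e 0 1 0) +
      lc (st i C).card 2 (Jx i K psi C w v e 1 0 0)) +
    ∑ e ∈ Co i K psi C 2, (lc (st i C).card 2 (Jx i K psi C w v e 0 1 1) +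
      lc (st i C).card 2 (Jx i K psi C w v e 0 2 0) +
      lc (st i C).card 2 (Jx i K psi C w v e 1 0 1) +
      lc (st i C).card 2 (Jx i K psi C w v e 2 0 0) +
      lc (st i C).card 2 (Jx i K psi C w v e 1 1 0)) +
    ∑ e ∈ Co i K psi C 1, (lc (st i C).card 2 (Jx i K psi C w v e 1 1 1) +
      lc (st i C).card 2 (Jx i K psi C w v e 1 2 0) +
      lc (st i C).card 2 (Jx i K psi C w v e 2 1 0)) := by
  rw [Q.lc_ZC, sum_range_succ, sum_range_succ, sum_range_succ, sum_range_succ, sum_range_one]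
  have h0 : ∑ e ∈ Co i K psi C 0, ∑ p ∈ antidiagonal (4 - 0), ∑ t ∈ antidiagonal p.2,
        lc (st i C).card 2 (Jx i K psi C w v e p.1 t.1 t.2) = 0 := by
    refine sum_eq_zero fun e he => sum_eq_zero fun p _ => sum_eq_zero fun t _ => ?_
    obtain ⟨h1, h2, h3⟩ := mem_Co.1 he
    have hk := Q.cheap0 h3 h2 (by omega)
    have h0 : e q = 0 := by
      rw [sum_eq_zero_iff] at h1
      exact h1 q (mem_univ q)
    by_cases ha : p.1 = 0
    · refine Q.lc_J h3 hk ?_ _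
      rw [ha, ind_zero]
      unfold ind
      split_ifs <;> omega
    by_cases hb : t.1 = 0
    · refine Q.lc_J h3 hk ?_ _
      rw [hb, ind_zero]
      unfold ind
      split_ifs <;> omega
    rw [Q.Jx_both h3 hq hq' h0 ha hb, lc_zero]
  have h1 : ∀ e ∈ Co i K psi C 1, ∑ p ∈ antidiagonal (4 - 1), ∑ t ∈ antidiagonal p.2,
        lc (st i C).card 2 (Jx i K psi C w v e p.1 t.1 t.2) =
      (lc (st i C).card 2 (Jx i K psi C w v e 1 1 1) +
      lc (st i C).card 2 (Jx i K psi C w v e 1 2 0) +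
      lc (st i C).card 2 (Jx i K psi C w v e 2 1 0)) := by
    intro e he
    obtain ⟨h1, h2, h3⟩ := mem_Co.1 he
    have hk := Q.cheap0 h3 h2 (by omega)
    have hz : ∀ a b m : ℕ, a = 0 ∨ b = 0 →
        lc (st i C).card 2 (Jx i K psi C w v e a b m) = 0 := by
      intro a b m hab
      refine Q.lc_J h3 hk ?_ _
      rcases hab with h | h
      · rw [h, ind_zero]; unfold ind; split_ifs <;> omega
      · rw [h, ind_zero]; unfold ind; split_ifs <;> omega
    rw [show 4 - 1 = 3 from rfl,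
      anti3 (fun a b m => lc (st i C).card 2 (Jx i K psi C w v e a b m))]
    rw [hz 0 0 3 (Or.inl rfl), hz 0 1 2 (Or.inl rfl), hz 0 2 1 (Or.inl rfl),
      hz 0 3 0 (Or.inl rfl), hz 1 0 2 (Or.inr rfl), hz 2 0 1 (Or.inr rfl),
      hz 3 0 0 (Or.inr rfl)]
    ring
  have h2 : ∀ e ∈ Co i K psi C 2, ∑ p ∈ antidiagonal (4 - 2), ∑ t ∈ antidiagonal p.2,
        lc (st i C).card 2 (Jx i K psi C w v e p.1 t.1 t.2) =
      (lc (st i C).card 2 (Jx i K psi C w v e 0 1 1) +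
      lc (st i C).card 2 (Jx i K psi C w v e 0 2 0) +
      lc (st i C).card 2 (Jx i K psi C w v e 1 0 1) +
      lc (st i C).card 2 (Jx i K psi C w v e 2 0 0) +
      lc (st i C).card 2 (Jx i K psi C w v e 1 1 0)) := by
    intro e he
    obtain ⟨h1, h2, h3⟩ := mem_Co.1 he
    have hk := Q.cheap1 h3 h2 (by omega)
    rw [show 4 - 2 = 2 from rfl,
      anti2 (fun a b m => lc (st i C).card 2 (Jx i K psi C w v e a b m))]
    rw [Q.lc_J h3 hk (a := 0) (b := 0) (by rw [ind_zero]; omega) 2]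
    ring
  have h3 : ∀ e ∈ Co i K psi C 3, ∑ p ∈ antidiagonal (4 - 3), ∑ t ∈ antidiagonal p.2,
        lc (st i C).card 2 (Jx i K psi C w v e p.1 t.1 t.2) =
      (lc (st i C).card 2 (Jx i K psi C w v e 0 1 0) +
      lc (st i C).card 2 (Jx i K psi C w v e 1 0 0)) := by
    intro e he
    obtain ⟨h1, h2, h3⟩ := mem_Co.1 he
    have hk := Q.cheap1 h3 h2 (by omega)
    rw [show 4 - 3 = 1 from rfl,
      anti1 (fun a b m => lc (st i C).card 2 (Jx i K psi C w v e a b m))]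
    rw [Q.lc_J h3 hk (a := 0) (b := 0) (by rw [ind_zero]; omega) 1]
    ring
  have h4 : ∀ e ∈ Co i K psi C 4, ∑ p ∈ antidiagonal (4 - 4), ∑ t ∈ antidiagonal p.2,
        lc (st i C).card 2 (Jx i K psi C w v e p.1 t.1 t.2) =
      lc (st i C).card 2 (tC i C e) := by
    intro e he
    obtain ⟨h1, h2, h3⟩ := mem_Co.1 he
    rw [show 4 - 4 = 0 from rfl,
      anti0 (fun a b m => lc (st i C).card 2 (Jx i K psi C w v e a b m)), Q.Jx0 h3 h2]
  rw [h0, sum_congr rfl h1, sum_congr rfl h2, sum_congr rfl h3, sum_congr rfl h4]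
  ring

/-- THE ENERGY THREE -/
theorem K5w.lc3 : lc (st i C).card 2 (ZW i K psi C w v 3) =
    ∑ e ∈ Co i K psi C 2, (lc (st i C).card 2 (Jx i K psi C w v e 0 1 0) +
      lc (st i C).card 2 (Jx i K psi C w v e 1 0 0)) +
    ∑ e ∈ Co i K psi C 1, lc (st i C).card 2 (Jx i K psi C w v e 1 1 0) := by
  rw [Q.lc_ZC, sum_range_succ, sum_range_succ, sum_range_succ, sum_range_one]
  have h0 : ∑ e ∈ Co i K psi C 0, ∑ p ∈ antidiagonal (3 - 0), ∑ t ∈ antidiagonal p.2,
        lc (st i C).card 2 (Jx i K psi C w v e p.1 t.1 t.2) = 0 := by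
    refine sum_eq_zero fun e he => sum_eq_zero fun p _ => sum_eq_zero fun t _ => ?_
    obtain ⟨h1, h2, h3⟩ := mem_Co.1 he
    have hk := Q.cheap0 h3 h2 (by omega)
    have h0 : e q = 0 := by
      rw [sum_eq_zero_iff] at h1
      exact h1 q (mem_univ q)
    by_cases ha : p.1 = 0
    · refine Q.lc_J h3 hk ?_ _
      rw [ha, ind_zero]
      unfold ind
      split_ifs <;> omega
    by_cases hb : t.1 = 0
    · refine Q.lc_J h3 hk ?_ _
      rw [hb, ind_zero]
      unfold ind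
      split_ifs <;> omega
    rw [Q.Jx_both h3 hq hq' h0 ha hb, lc_zero]
  have h1 : ∀ e ∈ Co i K psi C 1, ∑ p ∈ antidiagonal (3 - 1), ∑ t ∈ antidiagonal p.2,
        lc (st i C).card 2 (Jx i K psi C w v e p.1 t.1 t.2) =
      lc (st i C).card 2 (Jx i K psi C w v e 1 1 0) := by
    intro e he
    obtain ⟨h1, h2, h3⟩ := mem_Co.1 he
    have hk := Q.cheap0 h3 h2 (by omega)
    have hz : ∀ a b m : ℕ, a = 0 ∨ b = 0 →
        lc (st i C).card 2 (Jx i K psi C w v e a b m) = 0 := by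
      intro a b m hab
      refine Q.lc_J h3 hk ?_ _
      rcases hab with h | h
      · rw [h, ind_zero]; unfold ind; split_ifs <;> omega
      · rw [h, ind_zero]; unfold ind; split_ifs <;> omega
    rw [show 3 - 1 = 2 from rfl,
      anti2 (fun a b m => lc (st i C).card 2 (Jx i K psi C w v e a b m))]
    rw [hz 0 0 2 (Or.inl rfl), hz 0 1 1 (Or.inl rfl), hz 0 2 0 (Or.inl rfl),
      hz 1 0 1 (Or.inr rfl), hz 2 0 0 (Or.inr rfl)]
    ring
  have h2 : ∀ e ∈ Co i K psi C 2, ∑ p ∈ antidiagonal (3 - 2), ∑ t ∈ antidiagonal p.2,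
        lc (st i C).card 2 (Jx i K psi C w v e p.1 t.1 t.2) =
      (lc (st i C).card 2 (Jx i K psi C w v e 0 1 0) +
      lc (st i C).card 2 (Jx i K psi C w v e 1 0 0)) := by
    intro e he
    obtain ⟨h1, h2, h3⟩ := mem_Co.1 he
    have hk := Q.cheap1 h3 h2 (by omega)
    rw [show 3 - 2 = 1 from rfl,
      anti1 (fun a b m => lc (st i C).card 2 (Jx i K psi C w v e a b m))]
    rw [Q.lc_J h3 hk (a := 0) (b := 0) (by rw [ind_zero]; omega) 1]
    ring
  have h3 : ∑ e ∈ Co i K psi C 3, ∑ p ∈ antidiagonal (3 - 3), ∑ t ∈ antidiagonal p.2,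
        lc (st i C).card 2 (Jx i K psi C w v e p.1 t.1 t.2) = 0 := by
    refine sum_eq_zero fun e he => ?_
    obtain ⟨h1, h2, h3⟩ := mem_Co.1 he
    rw [show 3 - 3 = 0 from rfl,
      anti0 (fun a b m => lc (st i C).card 2 (Jx i K psi C w v e a b m))]
    exact Q.lc_J h3 (Q.cheap1 h3 h2 (by omega)) (by rw [ind_zero]; omega) 0
  rw [h0, sum_congr rfl h1, sum_congr rfl h2, h3]
  ring

/-- THE ENERGY TWO -/
theorem K5w.lc2 : lc (st i C).card 1 (ZW i K psi C w v 2) =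
    ∑ e ∈ Co i K psi C 2, lc (st i C).card 1 (tC i C e) +
    ∑ e ∈ Co i K psi C 1, (lc (st i C).card 1 (Jx i K psi C w v e 0 1 0) +
      lc (st i C).card 1 (Jx i K psi C w v e 1 0 0)) +
    ∑ e ∈ Co i K psi C 0, (lc (st i C).card 1 (Jx i K psi C w v e 0 1 1) +
      lc (st i C).card 1 (Jx i K psi C w v e 0 2 0) +
      lc (st i C).card 1 (Jx i K psi C w v e 1 0 1) +
      lc (st i C).card 1 (Jx i K psi C w v e 2 0 0)) := by
  rw [Q.lc_ZC, sum_range_succ, sum_range_succ, sum_range_one]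
  have h0 : ∀ e ∈ Co i K psi C 0, ∑ p ∈ antidiagonal (2 - 0), ∑ t ∈ antidiagonal p.2,
        lc (st i C).card 1 (Jx i K psi C w v e p.1 t.1 t.2) =
      (lc (st i C).card 1 (Jx i K psi C w v e 0 1 1) +
      lc (st i C).card 1 (Jx i K psi C w v e 0 2 0) +
      lc (st i C).card 1 (Jx i K psi C w v e 1 0 1) +
      lc (st i C).card 1 (Jx i K psi C w v e 2 0 0)) := by
    intro e he
    obtain ⟨h1, h2, h3⟩ := mem_Co.1 he
    have hk := Q.cheap0 h3 h2 (by omega)
    have h0 : e q = 0 := by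
      rw [sum_eq_zero_iff] at h1
      exact h1 q (mem_univ q)
    rw [show 2 - 0 = 2 from rfl,
      anti2 (fun a b m => lc (st i C).card 1 (Jx i K psi C w v e a b m))]
    rw [Q.lc_J h3 hk (a := 0) (b := 0) (by rw [ind_zero]; omega) 2,
      Q.Jx_both h3 hq hq' h0 one_ne_zero one_ne_zero 0, lc_zero]
    ring
  have h1 : ∀ e ∈ Co i K psi C 1, ∑ p ∈ antidiagonal (2 - 1), ∑ t ∈ antidiagonal p.2,
        lc (st i C).card 1 (Jx i K psi C w v e p.1 t.1 t.2) =
      (lc (st i C).card 1 (Jx i K psi C w v e 0 1 0) +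
      lc (st i C).card 1 (Jx i K psi C w v e 1 0 0)) := by
    intro e he
    obtain ⟨h1, h2, h3⟩ := mem_Co.1 he
    have hk := Q.cheap0 h3 h2 (by omega)
    rw [show 2 - 1 = 1 from rfl,
      anti1 (fun a b m => lc (st i C).card 1 (Jx i K psi C w v e a b m))]
    rw [Q.lc_J h3 hk (a := 0) (b := 0) (by rw [ind_zero]; omega) 1]
    ring
  have h2 : ∀ e ∈ Co i K psi C 2, ∑ p ∈ antidiagonal (2 - 2), ∑ t ∈ antidiagonal p.2,
        lc (st i C).card 1 (Jx i K psi C w v e p.1 t.1 t.2) =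
      lc (st i C).card 1 (tC i C e) := by
    intro e he
    obtain ⟨h1, h2, h3⟩ := mem_Co.1 he
    rw [show 2 - 2 = 0 from rfl,
      anti0 (fun a b m => lc (st i C).card 1 (Jx i K psi C w v e a b m)), Q.Jx0 h3 h2]
  rw [sum_congr rfl h0, sum_congr rfl h1, sum_congr rfl h2]
  ring

/-- THE ENERGY ONE -/
theorem K5w.lc1 : lc (st i C).card 1 (ZW i K psi C w v 1) =
    ∑ e ∈ Co i K psi C 0, (lc (st i C).card 1 (Jx i K psi C w v e 0 1 0) +
      lc (st i C).card 1 (Jx i K psi C w v e 1 0 0)) := by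
  rw [Q.lc_ZC, sum_range_succ, sum_range_one]
  have h0 : ∀ e ∈ Co i K psi C 0, ∑ p ∈ antidiagonal (1 - 0), ∑ t ∈ antidiagonal p.2,
        lc (st i C).card 1 (Jx i K psi C w v e p.1 t.1 t.2) =
      (lc (st i C).card 1 (Jx i K psi C w v e 0 1 0) +
      lc (st i C).card 1 (Jx i K psi C w v e 1 0 0)) := by
    intro e he
    obtain ⟨h1, h2, h3⟩ := mem_Co.1 he
    have hk := Q.cheap0 h3 h2 (by omega)
    rw [show 1 - 0 = 1 from rfl,
      anti1 (fun a b m => lc (st i C).card 1 (Jx i K psi C w v e a b m))]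
    rw [Q.lc_J h3 hk (a := 0) (b := 0) (by rw [ind_zero]; omega) 1]
    ring
  have h1 : ∑ e ∈ Co i K psi C 1, ∑ p ∈ antidiagonal (1 - 1), ∑ t ∈ antidiagonal p.2,
        lc (st i C).card 1 (Jx i K psi C w v e p.1 t.1 t.2) = 0 := by
    refine sum_eq_zero fun e he => ?_
    obtain ⟨h1, h2, h3⟩ := mem_Co.1 he
    rw [show 1 - 1 = 0 from rfl,
      anti0 (fun a b m => lc (st i C).card 1 (Jx i K psi C w v e a b m))]
    exact Q.lc_J h3 (Q.cheap0 h3 h2 (by omega)) (by rw [ind_zero]; omega) 0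
  rw [sum_congr rfl h0, h1, add_zero]

end

section

variable (Q : K5w r i K psi C w v) {p q s : P} (hw : uc w = {p, q}) (hv : dc v = {q, s})
  (hpq : p ≠ q) (hqs : q ≠ s) (hps : p ≠ s)
include Q hw hv hpq hqs hps

/-- THE FOURTH COEFFICIENT -/
theorem K5w.be4_raw (hb : 1 ≤ (st i C).card) : 2 * lc (st i C).card 2 (ZW i K psi C w v 4) =
    (∑ q ∈ P4 i C, vp i q.1 * vp i q.2 - 2 * ((Z4 i C).card - (T4 i C).card : ℤ)) +
    (∑ z ∈ PN i C, vp i z * ((2 * ((st i C).card - 8) + ch i C z) * (Nx i w z - Nx i v z) +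
      2 * (Mx i w z - Mx i v z)) + 2 * ∑ z ∈ Z4 i C, tz i z * (Nx i w z - Nx i v z)) +
    2 * (∑ z ∈ PN i C, vp i z * (Nx i w z * (1 + Dg i K C (sit i z ∪ nz i w)) -
      Nx i v z * (1 + Dg i K C (sit i z ∪ nz i v))) + (2 - ((st i C).card : ℤ))) +
    2 * (2 - (Vc i K C + dg i K C p + dg i K C s + 2 * dg i K C q - 2 * W4.mm i K C {p, q}
        - 2 * W4.mm i K C {q, s} - W4.mm i K C {p, s})) := by
  obtain ⟨hw2, hv2, hq, hq'⟩ := Q.cards hw hv hpq hqs hps
  rw [Q.lc4 hq hq', Q.S2_4 hw hv hpq hqs hps, Q.S1_4 hw hv hpq hqs hps]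
  linear_combination Q.sum4 hb + Q.S3 hw2 hv2

/-- THE THIRD COEFFICIENT -/
theorem K5w.be3_raw : lc (st i C).card 2 (ZW i K psi C w v 3) =
    ∑ z ∈ PN i C, vp i z * (Nx i w z - Nx i v z) - 1 := by
  obtain ⟨hw2, hv2, hq, hq'⟩ := Q.cards hw hv hpq hqs hps
  rw [Q.lc3 hq hq', Q.S1_3 hw hv hpq hqs hps,
    Q.sum2 (fun e => lc (st i C).card 2 (Jx i K psi C w v e 0 1 0) +
      lc (st i C).card 2 (Jx i K psi C w v e 1 0 0))]
  · have : ∀ z ∈ PN i C, lc (st i C).card 2 (Jx i K psi C w v (on (con i z)) 0 1 0) +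
      lc (st i C).card 2 (Jx i K psi C w v (on (con i z)) 1 0 0) =
        vp i z * (Nx i w z - Nx i v z) := by
      intro z hz
      obtain ⟨-, -, -, -, v5, v6⟩ := pd_val Q.H Q.hi Q.hi2 Q.hC hz
      have hc : IsCore i ∅ (ps K psi) (on (con i z)) := c2_core Q.H hz
      have hs := c2_spt Q.H Q.hC hz
      rw [Q.val_v hc hs hv2 one_ne_zero (Or.inl rfl) v5,
        Q.val_w hc hs hw2 one_ne_zero (Or.inl rfl) v5, v6,
        FG_pd Q.H Q.hi Q.hi2 Q.hC hz Q.nw hw2 one_ne_zero,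
        FG_pd Q.H Q.hi Q.hi2 Q.hC hz Q.nv hv2 one_ne_zero]
      ring
    rw [sum_congr rfl this]
    ring
  · intro e _ h hc _
    show lc (st i C).card 2 (Jx i K psi C w v e 0 1 0) +
      lc (st i C).card 2 (Jx i K psi C w v e 1 0 0) = 0
    rw [Q.lc_J hc h (by simp [ind]), Q.lc_J hc h (by simp [ind])]
    norm_num

/-- THE FIRST COEFFICIENT -/
theorem K5w.al1_raw : lc (st i C).card 1 (ZW i K psi C w v 1) = 0 := by
  obtain ⟨hw2, hv2, hq, hq'⟩ := Q.cards hw hv hpq hqs hps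
  obtain ⟨z1, z2, -, -, -, -⟩ := Q.zero_vals hw hv hpq hqs hps
  rw [Q.lc1 hq hq', Co_zero Q.H, sum_singleton, z1, z2]
  norm_num

/-- THE SECOND COEFFICIENT -/
theorem K5w.al2_raw : lc (st i C).card 1 (ZW i K psi C w v 2) =
    ∑ z ∈ PN i C, vp i z + (dg i K C p - dg i K C s - W4.mm i K C {p, q} + W4.mm i K C {q, s}) := by
  obtain ⟨hw2, hv2, hq, hq'⟩ := Q.cards hw hv hpq hqs hps
  obtain ⟨-, -, z3, z4, z5, z6⟩ := Q.zero_vals hw hv hpq hqs hps
  have e1 : ∑ e ∈ Co i K psi C 2, lc (st i C).card 1 (tC i C e) = ∑ z ∈ PN i C, vp i z := by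
    rw [Q.sum2 (fun e => lc (st i C).card 1 (tC i C e))]
    · exact sum_congr rfl fun z hz => (pd_val Q.H Q.hi Q.hi2 Q.hC hz).2.2.2.2.2
    · intro e hs h _ _
      exact cheap0_lc Q.H Q.hC hs h
  rw [Q.lc2 hq hq', e1, Q.S1_2 hw hv hpq hqs hps, Co_zero Q.H, sum_singleton, z3, z4, z5, z6]
  unfold Dg
  rw [sum_pair hpq, sum_pair hqs]
  ring

end

end Pool.Agent.GaussPoset.Win.Pb
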