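import Pool.Agent.W_448p_h97.PbH

/-!
MP_448cb3_co, G2, case B, window `j`: the window sum of a component with two stars in terms of the window
sums of the single stars.  helper97.
-/

namespace Pool.Agent.GaussPoset.Win.Pb

set_option linter.unusedSectionVars false

open Finset W4 Pa
open Pool.Agent.GaussPoset.Win.So (IV IV_chi IV_Fe)

universe u

variable {P : Type u} [Fintype P] [PartialOrder P] [DecidableEq P] {r i : ℕ}
variable {e f : P → ℕ} {psi : P → P} {C K : Finset P} {w v w' v' : P}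

/-! ### sums over antidiagonals -/

lemma an_assoc {M : Type*} [AddCommMonoid M] (N : ℕ) (F : ℕ → ℕ → ℕ → M) :
    ∑ p ∈ antidiagonal N, ∑ s ∈ antidiagonal p.1, F s.1 s.2 p.2 =
      ∑ p ∈ antidiagonal N, ∑ t ∈ antidiagonal p.2, F p.1 t.1 t.2 := by
  rw [Finset.sum_sigma', Finset.sum_sigma']
  refine Finset.sum_nbij'
    (fun x => (⟨(x.2.1, x.2.2 + x.1.2), (x.2.2, x.1.2)⟩ : (_ : ℕ × ℕ) × ℕ × ℕ))
    (fun x => (⟨(x.1.1 + x.2.1, x.2.2), (x.1.1, x.2.1)⟩ : (_ : ℕ × ℕ) × ℕ × ℕ)) ?_ ?_ ?_ ?_ ?_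
  · rintro ⟨⟨a, b⟩, ⟨c, d⟩⟩ h
    simp only [mem_sigma, HasAntidiagonal.mem_antidiagonal] at h ⊢
    exact ⟨by omega, trivial⟩
  · rintro ⟨⟨a, b⟩, ⟨c, d⟩⟩ h
    simp only [mem_sigma, HasAntidiagonal.mem_antidiagonal] at h ⊢
    exact ⟨by omega, trivial⟩
  · rintro ⟨⟨a, b⟩, ⟨c, d⟩⟩ h
    simp only [mem_sigma, HasAntidiagonal.mem_antidiagonal] at h
    obtain ⟨h1, h2⟩ := h
    subst h2
    rfl
  · rintro ⟨⟨a, b⟩, ⟨c, d⟩⟩ h
    simp only [mem_sigma, HasAntidiagonal.mem_antidiagonal] at h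
    obtain ⟨h1, h2⟩ := h
    subst h2
    rfl
  · rintro ⟨⟨a, b⟩, ⟨c, d⟩⟩ h
    rfl

lemma an_zero {M : Type*} [AddCommMonoid M] (N : ℕ) (F : ℕ → ℕ → M) :
    ∑ p ∈ antidiagonal N, F p.1 p.2 =
      F 0 N + ∑ p ∈ antidiagonal N, if p.1 ≠ 0 then F p.1 p.2 else 0 := by
  have h : (0, N) ∈ antidiagonal N := by rw [HasAntidiagonal.mem_antidiagonal]; omega
  rw [← add_sum_erase _ _ h, ← add_sum_erase _ (fun p => if p.1 ≠ 0 then F p.1 p.2 else 0) h,
    if_neg (by simp), zero_add]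
  congr 1
  refine sum_congr rfl fun p hp => ?_
  rw [mem_erase, HasAntidiagonal.mem_antidiagonal] at hp
  rw [if_pos]
  intro h0
  apply hp.1
  ext <;> simp <;> omega

/-- splitting of a triple sum -/
lemma tri_split (N : ℕ) (F : ℕ → ℕ → ℕ → A) :
    ∑ p ∈ antidiagonal N, ∑ t ∈ antidiagonal p.2, F p.1 t.1 t.2 =
      ∑ p ∈ antidiagonal N, F p.1 0 p.2 + ∑ t ∈ antidiagonal N, F 0 t.1 t.2 - F 0 0 N +
      ∑ p ∈ antidiagonal N, ∑ t ∈ antidiagonal p.2,
        if p.1 ≠ 0 ∧ t.1 ≠ 0 then F p.1 t.1 t.2 else 0 := by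
  have h1 : ∀ p ∈ antidiagonal N, ∑ t ∈ antidiagonal p.2, F p.1 t.1 t.2 =
      F p.1 0 p.2 + ∑ t ∈ antidiagonal p.2, if t.1 ≠ 0 then F p.1 t.1 t.2 else 0 :=
    fun p _ => an_zero p.2 (fun a b => F p.1 a b)
  rw [sum_congr rfl h1, sum_add_distrib,
    an_zero N (fun a b => ∑ t ∈ antidiagonal b, if t.1 ≠ 0 then F a t.1 t.2 else 0),
    an_zero N (fun a b => F 0 a b)]
  have h2 : ∀ p ∈ antidiagonal N, (if p.1 ≠ 0 then
      ∑ t ∈ antidiagonal p.2, (if t.1 ≠ 0 then F p.1 t.1 t.2 else 0) else 0) =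
      ∑ t ∈ antidiagonal p.2, if p.1 ≠ 0 ∧ t.1 ≠ 0 then F p.1 t.1 t.2 else 0 := by
    intro p _
    by_cases h : p.1 ≠ 0
    · rw [if_pos h]
      refine sum_congr rfl fun t _ => ?_
      by_cases h' : t.1 ≠ 0
      · rw [if_pos h', if_pos ⟨h, h'⟩]
      · rw [if_neg h', if_neg (fun h3 => h' h3.2)]
    · rw [if_neg h]
      symm
      refine sum_eq_zero fun t _ => ?_
      rw [if_neg (fun h3 => h h3.1)]
  rw [sum_congr rfl h2]
  ring

/-! ### the single stars -/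

lemma tx0 (H : Gr P r) (hir : i ≤ r) {x : P} (hx : x ∈ near P i) (S : Finset P) :
    tx i e x 0 S = 1 := by
  by_cases h : x ∈ Tch i e
  · rw [tx_tch h, if_pos rfl]
  · rw [tx_free h, wt_zero H hir hx]

lemma WW0 (H : Gr P r) (hir : i ≤ r) {x y : P} (hx : x ∈ near P i) (hy : y ∈ near P i)
    (S : Finset P) : WW i e x y 0 S = 1 := by
  unfold WW
  rw [an0 (fun p => tx i e x p.1 S * tx i e y p.2 S), tx0 H hir hx, tx0 H hir hy, mul_one]

section

variable (Q : K9 r i K psi C w v w' v')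
include Q

/-- the first star -/
lemma k5L : K5w r i K psi C w v :=
  ⟨Q.H, Q.hi, Q.hi2, Q.hM, Q.hC, Q.wC, Q.vC, Q.wK, Q.vK, Q.lw, Q.lv, Q.nq, Q.nq'⟩

/-- the second star -/
lemma k5R : K5w r i K psi C w' v' :=
  ⟨Q.H, Q.hi, Q.hi2, Q.hM, Q.hC, Q.wC', Q.vC', Q.wK', Q.vK', Q.lw', Q.lv', Q.nq, Q.nq'⟩

/-- no label on the second star -/
theorem J9_left (hc : IsCore i ∅ (ps K psi) e) (n m : ℕ) :
    J9 i K psi C w v w' v' e n 0 m = ∑ s ∈ antidiagonal n, Jx i K psi C w v e s.1 s.2 m := by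
  classical
  have Q5 := k5L Q
  obtain ⟨hw, hv⟩ := core_wv Q5 hc
  have h1 : ∀ s ∈ antidiagonal n, Jx i K psi C w v e s.1 s.2 m =
      IV (st i C) (fun S => Fe i e S * (tx i e w s.1 S * (tx i e v s.2 S * GK i K psi C e m S))) := by
    intro s _
    unfold Jx
    by_cases hac : Ac i e w s.1 ∧ Ac i e v s.2
    · rw [if_pos hac, JK_add2 Q5 hac.1 hac.2 hw hv]
      congr 1
      funext S
      have a1 : tx i e w s.1 S = wt i e w s.1 S := by
        rcases hac.1 with h | h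
        · rw [h, tx0 Q.H Q.hir Q.nw, wt_zero Q.H Q.hir Q.nw]
        · exact tx_free h _ _
      have a2 : tx i e v s.2 S = wt i e v s.2 S := by
        rcases hac.2 with h | h
        · rw [h, tx0 Q.H Q.hir Q.nv, wt_zero Q.H Q.hir Q.nv]
        · exact tx_free h _ _
      rw [a1, a2]
    · rw [if_neg hac]
      have h2 : (fun S => Fe i e S * (tx i e w s.1 S * (tx i e v s.2 S * GK i K psi C e m S))) =
          fun _ => (0 : A) := by
        funext S
        by_cases hw2 : Ac i e w s.1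
        · have hv2 : ¬ Ac i e v s.2 := fun h => hac ⟨hw2, h⟩
          unfold Ac at hv2
          push Not at hv2
          rw [tx_tch hv2.2, if_neg hv2.1]
          ring
        · unfold Ac at hw2
          push Not at hw2
          rw [tx_tch hw2.2, if_neg hw2.1]
          ring
      rw [h2]
      unfold IV
      exact (sum_eq_zero fun S _ => mul_zero _).symm
  rw [sum_congr rfl h1]
  unfold J9
  refine Eq.trans ?_ (W4.IV_sum _ (fun (s : ℕ × ℕ) S => Fe i e S * (tx i e w s.1 S *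
    (tx i e v s.2 S * GK i K psi C e m S))))
  congr 1
  funext S
  rw [WW0 Q.H Q.hir Q.nw' Q.nv', one_mul]
  unfold WW
  rw [sum_mul, mul_sum]
  exact sum_congr rfl fun s _ => by ring

/-- no label on the first star -/
theorem J9_right (hc : IsCore i ∅ (ps K psi) e) (n m : ℕ) :
    J9 i K psi C w v w' v' e 0 n m = ∑ s ∈ antidiagonal n, Jx i K psi C w' v' e s.1 s.2 m := by
  have Q' : K9 r i K psi C w' v' w v :=
    { toPaQ := Q.toPaQ
      hK := fun x hx => by rw [Q.hK x hx]; tauto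
      wC := Q.wC'
      vC := Q.vC'
      wC' := Q.wC
      vC' := Q.vC
      lw := Q.lw'
      lv := Q.lv'
      lw' := Q.lw
      lv' := Q.lv
      nww := Q.nww.symm
      nvv := Q.nvv.symm }
  rw [J9_sym, J9_left Q' hc]

end

/-- the terms without labels on the stars -/
noncomputable def Z00 (i : ℕ) (K : Finset P) (psi : P → P) (C : Finset P) (w v w' v' : P) (n : ℕ) :
    A := ∑ q ∈ range (n + 1), ∑ e ∈ Co i K psi C q, J9 i K psi C w v w' v' e 0 0 (n - q)

open Classical in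
/-- the terms with labels on both stars -/
noncomputable def ZLR (i : ℕ) (K : Finset P) (psi : P → P) (C : Finset P) (w v w' v' : P) (n : ℕ) :
    A := ∑ q ∈ range (n + 1), ∑ e ∈ Co i K psi C q,
      ∑ p ∈ antidiagonal (n - q), ∑ t ∈ antidiagonal p.2,
        if p.1 ≠ 0 ∧ t.1 ≠ 0 then J9 i K psi C w v w' v' e p.1 t.1 t.2 else 0

/-- THE WINDOW SUM of a component with two stars -/
theorem ZC_two (Q : K9 r i K psi C w v w' v') (n : ℕ) :
    ZC i C n = ZW i K psi C w v n + ZW i K psi C w' v' n - Z00 i K psi C w v w' v' n +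
      ZLR i K psi C w v w' v' n := by
  rw [Q.ZC_split n]
  unfold ZW Z00 ZLR
  rw [← sum_add_distrib, ← sum_sub_distrib, ← sum_add_distrib]
  refine sum_congr rfl fun q _ => ?_
  rw [← sum_add_distrib, ← sum_sub_distrib, ← sum_add_distrib]
  refine sum_congr rfl fun e he => ?_
  obtain ⟨-, -, hc⟩ := mem_Co.1 he
  rw [tri_split (n - q) (fun a b c => J9 i K psi C w v w' v' e a b c)]
  congr 1
  · congr 1
    congr 1
    · rw [← an_assoc (n - q) (fun a b c => Jx i K psi C w v e a b c)]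
      exact sum_congr rfl fun p _ => J9_left Q hc p.1 p.2
    · rw [← an_assoc (n - q) (fun a b c => Jx i K psi C w' v' e a b c)]
      exact sum_congr rfl fun p _ => J9_right Q hc p.1 p.2

end Pool.Agent.GaussPoset.Win.Pb
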