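import Pool.Agent.W_448p_h97.PbI

/-!
MP_448cb3_co, G2, case B, window `j`: sums over the subsets of the sites of functions with disjoint
supports; the isolated star.  helper97.
-/

namespace Pool.Agent.GaussPoset.Win.Pb

set_option linter.unusedSectionVars false

open Finset W4 Pa
open Pool.Agent.GaussPoset.Win.So (IV IV_chi IV_Fe)

universe u

variable {P : Type u} [Fintype P] [PartialOrder P] [DecidableEq P] {r i : ℕ}
variable {e f : P → ℕ} {psi : P → P} {C K : Finset P} {w v w' v' : P}

/-- the function depends only on the elements of `U` -/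
def Dp (U : Finset P) (g : Finset P → A) : Prop :=
  ∀ S S' : Finset P, (∀ y ∈ U, y ∈ S ↔ y ∈ S') → g S = g S'

lemma Dp.mono {U U' : Finset P} {g : Finset P → A} (h : Dp U g) (hU : U ⊆ U') : Dp U' g :=
  fun S S' hS => h S S' fun y hy => hS y (hU hy)

lemma Dp.mul {U U' : Finset P} {g g' : Finset P → A} (h : Dp U g) (h' : Dp U' g') :
    Dp (U ∪ U') (fun S => g S * g' S) := by
  intro S S' hS
  show g S * g' S = g S' * g' S'
  rw [h S S' fun y hy => hS y (mem_union_left _ hy), h' S S' fun y hy => hS y (mem_union_right _ hy)]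

lemma Dp.mul' {U : Finset P} {g g' : Finset P → A} (h : Dp U g) (h' : Dp U g') :
    Dp U (fun S => g S * g' S) := by
  have := h.mul h'
  rwa [union_self] at this

lemma Dp_const (U : Finset P) (c : A) : Dp U (fun _ => c) := fun _ _ _ => rfl

lemma Dp_sum {ι : Type*} {U : Finset P} (s : Finset ι) {g : ι → Finset P → A}
    (h : ∀ t ∈ s, Dp U (g t)) : Dp U (fun S => ∑ t ∈ s, g t S) :=
  fun S S' hS => sum_congr rfl fun t ht => h t ht S S' hS

lemma Dp_prod {ι : Type*} {U : Finset P} (s : Finset ι) {g : ι → Finset P → A}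
    (h : ∀ t ∈ s, Dp U (g t)) : Dp U (fun S => ∏ t ∈ s, g t S) :=
  fun S S' hS => prod_congr rfl fun t ht => h t ht S S' hS

lemma Dp_chi (B D : Finset P) : Dp (B ∪ D) (chi B D) := by
  intro S S' hS
  have h1 : B ⊆ S ↔ B ⊆ S' := by
    constructor
    · intro h y hy
      exact (hS y (mem_union_left _ hy)).1 (h hy)
    · intro h y hy
      exact (hS y (mem_union_left _ hy)).2 (h hy)
  have h2 : Disjoint D S ↔ Disjoint D S' := by
    rw [disjoint_left, disjoint_left]
    constructor
    · intro h y hy hy'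
      exact h hy ((hS y (mem_union_right _ hy)).2 hy')
    · intro h y hy hy'
      exact h hy ((hS y (mem_union_right _ hy)).1 hy')
  unfold chi
  simp only [h1, h2]

lemma Dp_wt {x : P} (hx : x ∈ near P i) (a : ℕ) : Dp (nz i x) (wt i e x a) := by
  have hk : kz i e x a ⊆ nz i x := kz_sub
  rcases mem_near.1 hx with h | h
  · intro S S' hS
    rw [wt_low h, wt_low h, (Dp_chi (kz i e x a) ∅) S S' fun y hy => hS y (hk (by simpa using hy))]
  · intro S S' hS
    rw [wt_upp h, wt_upp h, (Dp_chi ∅ (kz i e x a)) S S' fun y hy => hS y (hk (by simpa using hy))]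

lemma Dp_tx {x : P} (hx : x ∈ near P i) (a : ℕ) : Dp (nz i x) (tx i e x a) := by
  by_cases hT : x ∈ Tch i e
  · intro S S' _
    rw [tx_tch hT, tx_tch hT]
  · intro S S' hS
    rw [tx_free hT, tx_free hT]
    exact Dp_wt hx a S S' hS

lemma Dp_WW {x y : P} (hx : x ∈ near P i) (hy : y ∈ near P i) (n : ℕ) :
    Dp (nz i x ∪ nz i y) (WW i e x y n) :=
  Dp_sum _ fun p _ => (Dp_tx hx p.1).mul (Dp_tx hy p.2)

lemma Dp_Fe (i : ℕ) (e : P → ℕ) : Dp (AL i e ∪ AU i e) (Fe i e) := by
  intro S S' hS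
  unfold Fe
  rw [Dp_chi (AL i e) (AU i e) S S' hS]

/-! ### disjoint supports -/

lemma IV_parts {V U U' : Finset P} {g h : Finset P → A} (hg : Dp U g) (hh : Dp U' h)
    (hd : Disjoint U U') : IV V (fun S => g S * h S) = IV (V ∩ U) g * IV (V \ U) h := by
  classical
  unfold IV
  rw [sum_mul_sum, ← sum_product']
  refine (Finset.sum_nbij' (fun p => p.1 ∪ p.2) (fun S => (S ∩ U, S \ U)) ?_ ?_ ?_ ?_ ?_).symm
  · rintro ⟨S1, S2⟩ hS
    rw [mem_product, mem_powerset, mem_powerset] at hS
    rw [mem_powerset]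
    exact union_subset (hS.1.trans inter_subset_left) (hS.2.trans sdiff_subset)
  · intro S hS
    rw [mem_powerset] at hS
    rw [mem_product, mem_powerset, mem_powerset]
    exact ⟨inter_subset_inter_right hS, sdiff_subset_sdiff hS le_rfl⟩
  · rintro ⟨S1, S2⟩ hS
    rw [mem_product, mem_powerset, mem_powerset] at hS
    obtain ⟨h1, h2⟩ := hS
    have h1' : ∀ y ∈ S1, y ∈ U := fun y hy => (mem_inter.1 (h1 hy)).2
    have h2' : ∀ y ∈ S2, y ∉ U := fun y hy => (mem_sdiff.1 (h2 hy)).2
    refine Prod.ext ?_ ?_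
    · ext y
      simp only [mem_inter, mem_union]
      constructor
      · rintro ⟨h3 | h3, h4⟩
        · exact h3
        · exact absurd h4 (h2' y h3)
      · exact fun h3 => ⟨Or.inl h3, h1' y h3⟩
    · ext y
      simp only [mem_sdiff, mem_union]
      constructor
      · rintro ⟨h3 | h3, h4⟩
        · exact absurd (h1' y h3) h4
        · exact h3
      · exact fun h3 => ⟨Or.inr h3, h2' y h3⟩
  · intro S _
    show S ∩ U ∪ S \ U = S
    rw [union_comm, sdiff_union_inter]
  · rintro ⟨S1, S2⟩ hS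
    rw [mem_product, mem_powerset, mem_powerset] at hS
    obtain ⟨h1, h2⟩ := hS
    have h1' : ∀ y ∈ S1, y ∈ U := fun y hy => (mem_inter.1 (h1 hy)).2
    have h2' : ∀ y ∈ S2, y ∉ U := fun y hy => (mem_sdiff.1 (h2 hy)).2
    have hdis : Disjoint S1 S2 := disjoint_left.2 fun y hy hy' => h2' y hy' (h1' y hy)
    have a1 : g (S1 ∪ S2) = g S1 := by
      refine hg _ _ fun y hy => ?_
      rw [mem_union]
      constructor
      · rintro (h | h)
        · exact h
        · exact absurd hy (h2' y h)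
      · exact Or.inl
    have a2 : h (S1 ∪ S2) = h S2 := by
      refine hh _ _ fun y hy => ?_
      rw [mem_union]
      constructor
      · rintro (h | h)
        · exact absurd hy (disjoint_left.1 hd (h1' y h))
        · exact h
      · exact Or.inr
    show xx ^ S1.card * g S1 * (xx ^ S2.card * h S2) =
      xx ^ (S1 ∪ S2).card * (g (S1 ∪ S2) * h (S1 ∪ S2))
    rw [a1, a2, card_union_of_disjoint hdis, pow_add]
    ring

lemma IV_one (V : Finset P) : IV V (fun _ => (1 : A)) = dd ^ V.card := by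
  have h := IV_chi (V := V) (B := ∅) (C := ∅) (empty_subset _) (empty_subset _)
  have h2 : chi (∅ : Finset P) ∅ = fun _ => (1 : A) := by
    funext S
    unfold chi
    rw [if_pos ⟨empty_subset _, disjoint_empty_left _⟩]
  rw [h2] at h
  rw [h]
  simp

/-- functions with disjoint supports -/
theorem IV_prod {V U U' : Finset P} {g h : Finset P → A} (hg : Dp U g) (hh : Dp U' h)
    (hd : Disjoint U U') : dd ^ V.card * IV V (fun S => g S * h S) = IV V g * IV V h := by
  have h1 := IV_parts (V := V) hg hh hd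
  have h2 := IV_parts (V := V) hg (Dp_const U' 1) hd
  have h3 := IV_parts (V := V) (Dp_const U 1) hh hd
  have h4 := IV_parts (V := V) (Dp_const U 1) (Dp_const U' 1) hd
  simp only [mul_one, one_mul] at h2 h3 h4
  rw [← IV_one V, h1, h2, h3, h4]
  ring

/-- orders and coefficients of a product -/
lemma prod_lc {b k l : ℕ} {X Y Z : A} (h : dd ^ b * X = Y * Z) (hY : od b k Y) (hZ : od b l Z) :
    od b (k + l) X ∧ lc b (k + l) X = lc b k Y * lc b l Z := by
  unfold od lc at *
  obtain ⟨Y', hY'⟩ := hY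
  obtain ⟨Z', hZ'⟩ := hZ
  have hX : dd ^ (k + l) * X = dd ^ b * (Y' * Z') := by
    have h1 : dd ^ b * (dd ^ (k + l) * X) = dd ^ b * (dd ^ b * (Y' * Z')) := by
      calc dd ^ b * (dd ^ (k + l) * X) = dd ^ k * dd ^ l * (dd ^ b * X) := by ring
        _ = (dd ^ k * Y) * (dd ^ l * Z) := by rw [h]; ring
        _ = dd ^ b * (dd ^ b * (Y' * Z')) := by rw [hY', hZ']; ring
    have hne : (dd : A) ^ b ≠ 0 := by
      unfold dd
      exact pow_ne_zero _ PowerSeries.X_ne_zero
    exact mul_left_cancel₀ hne h1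
  refine ⟨⟨_, hX⟩, ?_⟩
  rw [hX, hY', hZ']
  unfold dd
  rw [PowerSeries.coeff_X_pow_mul', PowerSeries.coeff_X_pow_mul', PowerSeries.coeff_X_pow_mul',
    if_pos le_rfl, if_pos le_rfl, if_pos le_rfl, Nat.sub_self]
  simp

/-! ### the isolated star -/

/-- the function of a star whose sites have no labels -/
noncomputable def IW (i : ℕ) (x y : P) (S : Finset P) : A :=
  dd * chi (nz i x) ∅ S + xi * dd * chi ∅ (nz i y) S

lemma Dp_IW (x y : P) : Dp (nz i x ∪ nz i y) (IW i x y) := by
  intro S S' hS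
  unfold IW
  rw [Dp_chi (nz i x) ∅ S S' fun z hz => hS z (mem_union_left _ (by simpa using hz)),
    Dp_chi ∅ (nz i y) S S' fun z hz => hS z (mem_union_right _ (by simpa using hz))]

lemma tx_iso (H : Gr P r) (hir : i ≤ r) {x : P} (hx : x ∈ near P i) (hT : x ∉ Tch i e)
    (h0 : ∀ z ∈ nz i x, e z = 0) {n : ℕ} (hn : n ≠ 0) (S : Finset P) : tx i e x n S =
      if lev x = i + 1 then dd * chi (nz i x) ∅ S else xi * dd * chi ∅ (nz i x) S := by
  have hk : kz i e x n = nz i x := by
    rw [kz_eq_iff]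
    intro z hz
    rw [h0 z hz]
    omega
  rw [tx_free hT]
  rcases mem_near.1 hx with h | h
  · rw [wt_low h, if_pos h, hk]
    unfold fz
    rw [if_pos hk, if_pos h]
  · rw [wt_upp h, if_neg (by omega), hk]
    unfold fz
    rw [if_pos hk, if_neg (by omega)]

lemma WW_iso (H : Gr P r) (hir : i ≤ r) {x y q : P} (hx : lev x = i + 1) (hy : lev y + 1 = i)
    (hq : q ∈ uc x) (hq' : q ∈ dc y) (hTx : x ∉ Tch i e) (hTy : y ∉ Tch i e)
    (h0 : ∀ z ∈ nz i x ∪ nz i y, e z = 0) {n : ℕ} (hn : n ≠ 0) (S : Finset P) :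
    WW i e x y n S = IW i x y S := by
  have hnx : x ∈ near P i := mem_near.2 (Or.inl hx)
  have hny : y ∈ near P i := mem_near.2 (Or.inr hy)
  have hqz : q ∈ nz i x := by rw [nz_low hx]; exact hq
  have hqz' : q ∈ nz i y := by rw [nz_upp hy]; exact hq'
  have heq : e q = 0 := h0 q (mem_union_left _ hqz)
  unfold WW
  have h1 : ∑ p ∈ antidiagonal n, tx i e x p.1 S * tx i e y p.2 S =
      ∑ p ∈ ({(0, n), (n, 0)} : Finset (ℕ × ℕ)), tx i e x p.1 S * tx i e y p.2 S := by
    symm
    refine sum_subset ?_ ?_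
    · intro p hp
      rw [mem_insert, mem_singleton] at hp
      rw [HasAntidiagonal.mem_antidiagonal]
      rcases hp with rfl | rfl <;> simp
    · rintro ⟨a, b⟩ hp hne
      rw [HasAntidiagonal.mem_antidiagonal] at hp
      rw [mem_insert, mem_singleton, not_or] at hne
      simp only at hp
      have ha : a ≠ 0 := by
        rintro rfl
        apply hne.1
        rw [Prod.mk.injEq]
        exact ⟨rfl, by omega⟩
      have hb : b ≠ 0 := by
        rintro rfl
        apply hne.2
        rw [Prod.mk.injEq]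
        exact ⟨by omega, rfl⟩
      have q1 : q ∈ kz i e x a := mem_kz.2 ⟨hqz, by omega⟩
      have q2 : q ∈ kz i e y b := mem_kz.2 ⟨hqz', by omega⟩
      show tx i e x a S * tx i e y b S = 0
      rw [tx_free hTx, tx_free hTy, wt_low hx, wt_upp hy]
      by_cases hS : q ∈ S
      · have : chi ∅ (kz i e y b) S = 0 := by
          unfold chi
          rw [if_neg]
          rintro ⟨-, h2⟩
          exact disjoint_left.1 h2 q2 hS
        rw [this]
        ring
      · have : chi (kz i e x a) ∅ S = 0 := by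
          unfold chi
          rw [if_neg]
          rintro ⟨h2, -⟩
          exact hS (h2 q1)
        rw [this]
        ring
  rw [h1, sum_pair (by rw [Ne, Prod.mk.injEq]; omega)]
  show tx i e x 0 S * tx i e y n S + tx i e x n S * tx i e y 0 S = _
  rw [tx0 H hir hnx, tx0 H hir hny, tx_iso H hir hnx hTx (fun z hz => h0 z (mem_union_left _ hz)) hn,
    tx_iso H hir hny hTy (fun z hz => h0 z (mem_union_right _ hz)) hn, if_pos hx, if_neg (by omega)]
  unfold IW
  ring

/-- the isolated star has no deficits -/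
lemma IW_od {x y : P} (hx : (nz i x).card = 2) (hy : (nz i y).card = 2) (sx : nz i x ⊆ st i C)
    (sy : nz i y ⊆ st i C) : od (st i C).card 0 (IV (st i C) (IW i x y)) := by
  have h1 := IV_chi (V := st i C) (B := nz i x) (C := ∅) sx (empty_subset _)
  have h2 := IV_chi (V := st i C) (B := ∅) (C := nz i y) (empty_subset _) sy
  rw [if_pos (disjoint_empty_right _), hx, card_empty] at h1
  rw [if_pos (disjoint_empty_left _), hy, card_empty] at h2
  have hb : 2 ≤ (st i C).card := by rw [← hx]; exact card_le_card sx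
  have h3 : IV (st i C) (IW i x y) = dd * IV (st i C) (chi (nz i x) ∅) +
      xi * dd * IV (st i C) (chi ∅ (nz i y)) := by
    unfold IV IW
    rw [mul_sum, mul_sum, ← sum_add_distrib]
    exact sum_congr rfl fun S _ => by ring
  have hdv : (dd : A) ∣ xx ^ 2 + xi := by
    have hxi : xi * xx = 1 := by rw [mul_comm]; exact xx_mul_xi
    refine ⟨xi * (xx ^ 2 - xx + 1), ?_⟩
    have hdd : (dd : A) = xx + 1 := by unfold xx; ring
    rw [hdd]
    calc xx ^ 2 + xi = (xi * xx) * xx ^ 2 + xi := by rw [hxi, one_mul]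
      _ = (xx + 1) * (xi * (xx ^ 2 - xx + 1)) := by ring
  unfold od
  rw [pow_zero, one_mul, h3, h1, h2]
  obtain ⟨Y, hY⟩ := hdv
  refine ⟨Y, ?_⟩
  obtain ⟨b, hb'⟩ : ∃ b, (st i C).card = b + 2 := ⟨_, (Nat.sub_add_cancel hb).symm⟩
  rw [hb']
  have e1 : b + 2 - 2 - 0 = b := by omega
  have e2 : b + 2 - 0 - 2 = b := by omega
  rw [e1, e2]
  calc dd * (xx ^ 2 * dd ^ b) + xi * dd * (xx ^ 0 * dd ^ b) = dd ^ (b + 1) * (xx ^ 2 + xi) := by ring
    _ = dd ^ (b + 2) * Y := by rw [hY]; ring

end Pool.Agent.GaussPoset.Win.Pb
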