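import Pool.Agent.W_448p_h97.PbJ

/-!
MP_448cb3_co, G2, case B, window `j`: splitting of the labellings of the free near elements by their sites.
helper97.
-/

namespace Pool.Agent.GaussPoset.Win.Pb

set_option linter.unusedSectionVars false

open Finset W4 Pa
open Pool.Agent.GaussPoset.Win.So (IV IV_chi IV_Fe)
open Pool.Agent.GaussPoset.Win.SO (LowD UppD)

universe u

variable {P : Type u} [Fintype P] [PartialOrder P] [DecidableEq P] {r i : ℕ}
variable {e f : P → ℕ} {psi : P → P} {C K : Finset P} {w v w' v' : P}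

/-- only labels on the sites: the configuration has the constant function one -/
lemma Sc_Fe (H : Gr P r) (hi : 1 ≤ i) (hi2 : i + 1 ≤ r) (h : Sc i e) (S : Finset P) :
    Fe i e S = 1 := by
  have hir : i ≤ r := by omega
  have D : LowD i e (∅ : Finset P) ∅ ∅ := SO.low_none H fun z hz => h z (by omega)
  have D' : UppD i e (∅ : Finset P) ∅ ∅ := SO.upp_none H hir fun z hz => h z (by omega)
  have e1 := D.AL_eq
  have e2 := D'.AU_eq
  unfold Fe cw
  rw [e1, e2, if_pos ⟨D.adm, D'.adm⟩, D.aL_eq, D'.aU_eq, D.pL_eq, D'.pU_eq]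
  unfold chi
  rw [if_pos ⟨empty_subset _, disjoint_empty_left _⟩]
  simp

/-- the sum over the labellings of a set of near elements -/
noncomputable def GS (i : ℕ) (e : P → ℕ) (T : Finset P) (m : ℕ) (S : Finset P) : A :=
  ∑ l ∈ T.piAntidiag m, ∏ x ∈ T, wt i e x (l x) S

lemma GS_coeff (T : Finset P) (m : ℕ) (S : Finset P) :
    GS i e T m S = PowerSeries.coeff m (GF (fun x a => wt i e x a S) T) := by
  unfold GS GF
  rw [PowerSeries.coeff_mk]

lemma GS_union {T T' : Finset P} (h : Disjoint T T') (m : ℕ) (S : Finset P) :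
    GS i e (T ∪ T') m S = ∑ p ∈ antidiagonal m, GS i e T p.1 S * GS i e T' p.2 S := by
  rw [GS_coeff, GF_prod, prod_union h, ← GF_prod, ← GF_prod, PowerSeries.coeff_mul]
  exact sum_congr rfl fun p _ => by rw [GS_coeff, GS_coeff]

lemma GS_zero (H : Gr P r) (hir : i ≤ r) {T : Finset P} (hT : T ⊆ near P i) (S : Finset P) :
    GS i e T 0 S = 1 := by
  unfold GS
  rw [Finset.piAntidiag_zero, Finset.sum_singleton]
  refine Finset.prod_eq_one fun x hx => ?_
  show wt i e x ((0 : P → ℕ) x) S = 1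
  rw [Pi.zero_apply]
  exact wt_zero H hir (hT hx) e S

lemma GS_Dp {T U : Finset P} (hT : T ⊆ near P i) (hU : ∀ x ∈ T, nz i x ⊆ U) (m : ℕ) :
    Dp U (GS i e T m) :=
  Dp_sum _ fun l _ => Dp_prod _ fun x hx => (Dp_wt (hT hx) (l x)).mono (hU x hx)

lemma wt_loc {x : P} (hx : x ∈ near P i) (h : ∀ z ∈ nz i x, e z = f z) (a : ℕ) (S : Finset P) :
    wt i e x a S = wt i f x a S := by
  have hk : kz i e x a = kz i f x a := by
    ext z
    rw [mem_kz, mem_kz]
    constructor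
    · rintro ⟨h1, h2⟩
      exact ⟨h1, by rw [← h z h1]; exact h2⟩
    · rintro ⟨h1, h2⟩
      exact ⟨h1, by rw [h z h1]; exact h2⟩
  have hf : fz i e x a = fz i f x a := by
    unfold fz
    rw [hk]
  rcases mem_near.1 hx with h1 | h1
  · rw [wt_low h1, wt_low h1, hk, hf]
  · rw [wt_upp h1, wt_upp h1, hk, hf]

lemma GS_loc {T U : Finset P} (hT : T ⊆ near P i) (hU : ∀ x ∈ T, nz i x ⊆ U)
    (h : ∀ z ∈ U, e z = f z) (m : ℕ) (S : Finset P) : GS i e T m S = GS i f T m S := by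
  unfold GS
  exact sum_congr rfl fun l _ => prod_congr rfl fun x hx =>
    wt_loc (hT hx) (fun z hz => h z (hU x hx hz)) _ _

/-- the matched element has the same sites -/
lemma psi_nz (hM : Mat P i K psi) {x : P} (hxK : x ∉ K) (hd : x ∈ dbL P i ∪ dbU P i) :
    nz i (psi x) = nz i x := by
  rcases mem_union.1 hd with h | h
  · obtain ⟨h1, h2⟩ := hM.low x h hxK
    rw [nz_low (mem_dbL.1 h).1, nz_upp (mem_dbU.1 h1).1, h2]
  · obtain ⟨h1, h2⟩ := hM.upp x h hxK
    rw [nz_upp (mem_dbU.1 h).1, nz_low (mem_dbL.1 h1).1, h2]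

open Classical in
/-- the free near elements with a property of their sites -/
noncomputable def RP (i : ℕ) (K : Finset P) (psi : P → P) (C : Finset P) (e : P → ℕ)
    (p : Finset P → Prop) : Finset P := (RK i K psi C e).filter (fun x => p (nz i x))

lemma mem_RP {p : Finset P → Prop} {x : P} :
    x ∈ RP i K psi C e p ↔ x ∈ RK i K psi C e ∧ p (nz i x) := by
  classical
  unfold RP
  rw [mem_filter]

lemma RP_near (p : Finset P → Prop) : RP i K psi C e p ⊆ near P i :=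
  fun _ hx => RK_near (mem_RP.1 hx).1

lemma GS_RP (H : Gr P r) (hi : 1 ≤ i) (hi2 : i + 1 ≤ r) (hM : Mat P i K psi)
    (hC : Part (i + 1) C) (p : Finset P → Prop) (m : ℕ) :
    Rk (lv P i) 0 (GS i e (RP i K psi C e p) m) := by
  refine rest_prod H hi hi2 hM e _ (RP_near p)
    (fun x hx => (mem_Rst.1 (mem_RK.1 (mem_RP.1 hx).1).1).2.1) (fun x hx hd => ?_) m
  rw [mem_RP, mem_RK] at hx
  rw [mem_RP, mem_RK]
  have hxK := (mem_Rst.1 hx.1.1).2.1
  exact ⟨⟨psi_RstK hM hx.1.1 hd, psi_memK H hM hC hd hxK hx.1.2⟩, by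
    rw [psi_nz hM hxK hd]; exact hx.2⟩

/-- splitting of the labellings by a property of the sites -/
lemma GK_RP (p : Finset P → Prop) (m : ℕ) (S : Finset P) :
    GK i K psi C e m S = ∑ t ∈ antidiagonal m,
      GS i e (RP i K psi C e p) t.1 S * GS i e (RP i K psi C e fun N => ¬ p N) t.2 S := by
  classical
  have h1 : RK i K psi C e = RP i K psi C e p ∪ RP i K psi C e fun N => ¬ p N := by
    ext x
    rw [mem_union, mem_RP, mem_RP]
    tauto
  rw [← GS_union]
  · rw [← h1]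
    rfl
  · rw [disjoint_left]
    intro x hx hx'
    exact (mem_RP.1 hx').2 (mem_RP.1 hx).2

lemma GS_RP2 (p q : Finset P → Prop) (m : ℕ) (S : Finset P) :
    GS i e (RP i K psi C e p) m S = ∑ t ∈ antidiagonal m,
      GS i e (RP i K psi C e fun N => p N ∧ q N) t.1 S *
        GS i e (RP i K psi C e fun N => p N ∧ ¬ q N) t.2 S := by
  classical
  have h1 : RP i K psi C e p = (RP i K psi C e fun N => p N ∧ q N) ∪
      RP i K psi C e fun N => p N ∧ ¬ q N := by
    ext x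
    rw [mem_union, mem_RP, mem_RP, mem_RP]
    tauto
  rw [← GS_union]
  · rw [← h1]
  · rw [disjoint_left]
    intro x hx hx'
    exact (mem_RP.1 hx').2.2 (mem_RP.1 hx).2.2

/-! ### the data of two stars which do not meet -/

/-- the two stars and the near elements which meet them have disjoint sites -/
structure Sep (i : ℕ) (C : Finset P) (w v w' v' : P) (U U' : Finset P) : Prop where
  sL : nz i w ∪ nz i v ⊆ U
  sR : nz i w' ∪ nz i v' ⊆ U'
  hL : ∀ y ∈ near P i, y ∈ C → ¬ Disjoint (nz i y) (nz i w ∪ nz i v) → nz i y ⊆ U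
  hR : ∀ y ∈ near P i, y ∈ C → ¬ Disjoint (nz i y) (nz i w' ∪ nz i v') → nz i y ⊆ U'
  hd : Disjoint U U'

lemma Sep.sym {U U' : Finset P} (h : Sep i C w v w' v' U U') : Sep i C w' v' w v U' U :=
  ⟨h.sR, h.sL, h.hR, h.hL, h.hd.symm⟩

section

variable {a b c a' b' c' : P} (Q : K9c r i K psi C w v w' v' a b c a' b' c')
include Q

lemma stR : nz i w' ⊆ st i C ∧ nz i v' ⊆ st i C := by
  constructor
  · intro z hz
    exact mem_st.2 ⟨Q.part.up Q.wC' (mem_uc.1 (by rw [nz_low Q.lw'] at hz; exact hz)),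
      nz_lev Q.H Q.nw' hz⟩
  · intro z hz
    exact mem_st.2 ⟨Q.hC.dn Q.vC' (by have := Q.lv'; omega)
      (mem_dc.1 (by rw [nz_upp Q.lv'] at hz; exact hz)), nz_lev Q.H Q.nv' hz⟩

/-- THE ISOLATED RIGHT STAR: product formula -/
theorem iso_R {U : Finset P} {G : Finset P → A} (hT : w' ∉ Tch i e ∧ v' ∉ Tch i e)
    (h0 : ∀ z ∈ nz i w' ∪ nz i v', e z = 0) {n1 n2 : ℕ} (hn : n2 ≠ 0) (hG : Dp U G)
    (hU : Disjoint U (nz i w' ∪ nz i v')) (hF : Disjoint (AL i e ∪ AU i e) (nz i w' ∪ nz i v'))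
    (hd : Disjoint (nz i w ∪ nz i v) (nz i w' ∪ nz i v')) :
    dd ^ (st i C).card * IV (st i C) (fun S => Fe i e S * (WW i e w v n1 S *
      (WW i e w' v' n2 S * G S))) =
      IV (st i C) (fun S => Fe i e S * (WW i e w v n1 S * G S)) * IV (st i C) (IW i w' v') := by
  have h1 : (fun S => Fe i e S * (WW i e w v n1 S * (WW i e w' v' n2 S * G S))) =
      fun S => (Fe i e S * (WW i e w v n1 S * G S)) * IW i w' v' S := by
    funext S
    rw [WW_iso Q.H Q.hir Q.lw' Q.lv' Q.hb' Q.hb1' hT.1 hT.2 h0 hn]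
    ring
  rw [h1]
  refine IV_prod (U := (AL i e ∪ AU i e) ∪ ((nz i w ∪ nz i v) ∪ U)) (U' := nz i w' ∪ nz i v')
    ((Dp_Fe i e).mul ((Dp_WW Q.nw Q.nv n1).mul hG)) (Dp_IW w' v') ?_
  exact disjoint_union_left.2 ⟨hF, disjoint_union_left.2 ⟨hd, hU⟩⟩

/-- THE ISOLATED LEFT STAR: product formula -/
theorem iso_L {U : Finset P} {G : Finset P → A} (hT : w ∉ Tch i e ∧ v ∉ Tch i e)
    (h0 : ∀ z ∈ nz i w ∪ nz i v, e z = 0) {n1 n2 : ℕ} (hn : n1 ≠ 0) (hG : Dp U G)
    (hU : Disjoint U (nz i w ∪ nz i v)) (hF : Disjoint (AL i e ∪ AU i e) (nz i w ∪ nz i v))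
    (hd : Disjoint (nz i w ∪ nz i v) (nz i w' ∪ nz i v')) :
    dd ^ (st i C).card * IV (st i C) (fun S => Fe i e S * (WW i e w v n1 S *
      (WW i e w' v' n2 S * G S))) =
      IV (st i C) (IW i w v) * IV (st i C) (fun S => Fe i e S * (WW i e w' v' n2 S * G S)) := by
  have h1 : (fun S => Fe i e S * (WW i e w v n1 S * (WW i e w' v' n2 S * G S))) =
      fun S => IW i w v S * (Fe i e S * (WW i e w' v' n2 S * G S)) := by
    funext S
    rw [WW_iso Q.H Q.hir Q.lw Q.lv Q.hb Q.hb1 hT.1 hT.2 h0 hn]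
    ring
  rw [h1]
  refine IV_prod (U := nz i w ∪ nz i v) (U' := (AL i e ∪ AU i e) ∪ ((nz i w' ∪ nz i v') ∪ U))
    (Dp_IW w v) ((Dp_Fe i e).mul ((Dp_WW Q.nw' Q.nv' n2).mul hG)) ?_
  exact disjoint_union_right.2 ⟨hF.symm, disjoint_union_right.2 ⟨hd, hU.symm⟩⟩

end

end Pool.Agent.GaussPoset.Win.Pb
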