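import Pool.Agent.W_448p_h97.PbK

/-!
MP_448cb3_co, G2, case B, window `j`: configurations with labels on the sites and on both stars.
helper97.
-/

namespace Pool.Agent.GaussPoset.Win.Pb

set_option linter.unusedSectionVars false

open Finset W4 Pa
open Pool.Agent.GaussPoset.Win.So (IV IV_chi IV_Fe)
open Pool.Agent.GaussPoset.Win.SO (LowD UppD)

universe u

variable {P : Type u} [Fintype P] [PartialOrder P] [DecidableEq P] {r i : ℕ}
variable {e f : P → ℕ} {psi : P → P} {C K : Finset P} {w v w' v' : P}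

lemma IV_add2 {V : Finset P} (g h : Finset P → A) :
    IV V (fun S => g S + h S) = IV V g + IV V h := by
  unfold IV
  rw [← sum_add_distrib]
  exact sum_congr rfl fun S _ => by ring

/-- a property of the sites: they meet `L` -/
def mt (L : Finset P) : Finset P → Prop := fun N => ¬ Disjoint N L

/-- the leading coefficient of a star with one attached near element -/
noncomputable def qq (i : ℕ) (K : Finset P) (psi : P → P) (C : Finset P) (w v : P) : ℤ :=
  lc (st i C).card 1 (IV (st i C) (fun S => IW i w v S *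
    GS i (0 : P → ℕ) (RP i K psi C 0 (mt (nz i w ∪ nz i v))) 1 S))

/-- the order zero coefficient of the isolated star -/
noncomputable def oo (i : ℕ) (C : Finset P) (w v : P) : ℤ :=
  lc (st i C).card 0 (IV (st i C) (IW i w v))

lemma GS_off {T L : Finset P} (H : Gr P r) (hT : T ⊆ near P i) (h : ∀ x ∈ T, Disjoint (nz i x) L)
    (m : ℕ) : Dp (lv P i \ L) (GS i e T m) := by
  refine GS_Dp hT (fun x hx z hz => ?_) m
  rw [mem_sdiff, mem_lv]
  exact ⟨nz_lev H (hT hx) hz, fun h' => disjoint_left.1 (h x hx) hz h'⟩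

section

variable {a b c a' b' c' : P} (Q : K9c r i K psi C w v w' v' a b c a' b' c')
include Q

lemma cheapS (hS : Sc i e) : Cheap 0 i e := by
  obtain ⟨-, -, h1, h2, -⟩ := hS.val (C := C) Q.H Q.hi Q.hi2
  right; right; right
  rw [h1, h2]
  simp

lemma tchS (hS : Sc i e) (x : P) : x ∉ Tch i e := by
  rw [hS.tch Q.H]
  exact notMem_empty x

lemma AS (hS : Sc i e) : AL i e ∪ AU i e = ∅ := by
  obtain ⟨-, -, h1, h2, -⟩ := hS.val (C := C) Q.H Q.hi Q.hi2
  rw [h1, h2, union_empty]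

lemma dLR' : Disjoint (nz i w ∪ nz i v) (nz i w' ∪ nz i v') := by
  rw [Q.nzw, Q.nzv, Q.nzw', Q.nzv']
  have h := Q.nLR
  refine disjoint_of_subset_left ?_ (disjoint_of_subset_right ?_ h)
  · intro x hx
    simp only [mem_union, mem_insert, mem_singleton] at hx ⊢
    tauto
  · intro x hx
    simp only [mem_union, mem_insert, mem_singleton] at hx ⊢
    tauto

/-- the order of a configuration with labels on the left star -/
lemma odL {k : ℕ} (hk : Cheap k i e) {G : Finset P → A} (hG : Rk (lv P i) 0 G) (n : ℕ) :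
    od (st i C).card (k + rk n (bt i e w v b))
      (IV (st i C) (fun S => Fe i e S * (WW i e w v n S * G S))) := by
  apply od_of_Rk
  have h1 := Rk_mul (Rk_of_cheap hk) (Rk_mul (Rk_WW (e := e) Q.H Q.hi Q.hi2 Q.lw Q.lv Q.hb Q.hb1 n) hG)
  rw [add_zero] at h1
  exact h1

/-- the order of a configuration with labels on the right star -/
lemma odR {k : ℕ} (hk : Cheap k i e) {G : Finset P → A} (hG : Rk (lv P i) 0 G) (n : ℕ) :
    od (st i C).card (k + rk n (bt i e w' v' b'))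
      (IV (st i C) (fun S => Fe i e S * (WW i e w' v' n S * G S))) := by
  apply od_of_Rk
  have h1 := Rk_mul (Rk_of_cheap hk)
    (Rk_mul (Rk_WW (e := e) Q.H Q.hi Q.hi2 Q.lw' Q.lv' Q.hb' Q.hb1' n) hG)
  rw [add_zero] at h1
  exact h1

lemma IWR_od : od (st i C).card 0 (IV (st i C) (IW i w' v')) :=
  IW_od Q.w2' Q.v2' (stR Q).1 (stR Q).2

lemma IWL_od : od (st i C).card 0 (IV (st i C) (IW i w v)) :=
  IW_od Q.w2 Q.v2 (stR Q.sym).1 (stR Q.sym).2

lemma rk_le_one (n : ℕ) : rk n 0 ≤ 1 := by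
  unfold rk
  split_ifs <;> omega

lemma bt_zero {x y q : P} (h : e q = 0) : bt i e x y q = 0 := by
  unfold bt
  rw [if_neg]
  omega

lemma memL : a ∈ nz i w ∪ nz i v ∧ b ∈ nz i w ∪ nz i v ∧ c ∈ nz i w ∪ nz i v := by
  rw [Q.nzw, Q.nzv]
  simp

lemma memR : a' ∈ nz i w' ∪ nz i v' ∧ b' ∈ nz i w' ∪ nz i v' ∧ c' ∈ nz i w' ∪ nz i v' := by
  rw [Q.nzw', Q.nzv']
  simp

/-- the right star is isolated: the additional factor lives off the right star -/
lemma partR (hS : Sc i e) (h0 : ∀ z ∈ nz i w' ∪ nz i v', e z = 0) {n1 n2 : ℕ} (hn : n2 ≠ 0)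
    {G : Finset P → A} (hG : Dp (lv P i \ (nz i w' ∪ nz i v')) G) (hR : Rk (lv P i) 0 G) :
    od (st i C).card (rk n1 (bt i e w v b)) (IV (st i C) (fun S => Fe i e S * (WW i e w v n1 S *
      (WW i e w' v' n2 S * G S)))) ∧
    lc (st i C).card (rk n1 (bt i e w v b)) (IV (st i C) (fun S => Fe i e S * (WW i e w v n1 S *
      (WW i e w' v' n2 S * G S)))) =
      lc (st i C).card (rk n1 (bt i e w v b))
        (IV (st i C) (fun S => Fe i e S * (WW i e w v n1 S * G S))) * oo i C w' v' := by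
  have h1 := iso_R Q ⟨tchS Q hS w', tchS Q hS v'⟩ h0 (n1 := n1) hn hG sdiff_disjoint
    (by rw [AS Q hS]; exact disjoint_empty_left _) (dLR' Q)
  have h2 := odL Q (cheapS Q hS) hR n1
  rw [zero_add] at h2
  have h3 := prod_lc h1 h2 (IWR_od Q)
  rw [add_zero] at h3
  exact h3

/-- the left star is isolated -/
lemma partL (hS : Sc i e) (h0 : ∀ z ∈ nz i w ∪ nz i v, e z = 0) {n1 n2 : ℕ} (hn : n1 ≠ 0)
    {G : Finset P → A} (hG : Dp (lv P i \ (nz i w ∪ nz i v)) G) (hR : Rk (lv P i) 0 G) :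
    od (st i C).card (rk n2 (bt i e w' v' b')) (IV (st i C) (fun S => Fe i e S *
      (WW i e w v n1 S * (WW i e w' v' n2 S * G S)))) ∧
    lc (st i C).card (rk n2 (bt i e w' v' b')) (IV (st i C) (fun S => Fe i e S *
      (WW i e w v n1 S * (WW i e w' v' n2 S * G S)))) =
      oo i C w v * lc (st i C).card (rk n2 (bt i e w' v' b'))
        (IV (st i C) (fun S => Fe i e S * (WW i e w' v' n2 S * G S))) := by
  have h1 := iso_L Q ⟨tchS Q hS w, tchS Q hS v⟩ h0 (n2 := n2) hn hG sdiff_disjoint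
    (by rw [AS Q hS]; exact disjoint_empty_left _) (dLR' Q)
  have h2 := odR Q (cheapS Q hS) hR n2
  rw [zero_add] at h2
  have h3 := prod_lc h1 (IWL_od Q) h2
  rw [zero_add] at h3
  exact h3

lemma Dp_one (U : Finset P) : Dp U (fun _ => (1 : A)) := Dp_const U 1

/-- energy on both stars and nothing on the free elements -/
lemma J9_m0 (e : P → ℕ) (n1 n2 : ℕ) : J9 i K psi C w v w' v' e n1 n2 0 =
    IV (st i C) (fun S => Fe i e S * (WW i e w v n1 S * (WW i e w' v' n2 S * 1))) := by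
  unfold J9
  congr 1
  funext S
  rw [GK_zero Q.H Q.hir]

lemma J9_m0L (e : P → ℕ) (n1 : ℕ) : J9 i K psi C w v w' v' e n1 0 0 =
    IV (st i C) (fun S => Fe i e S * (WW i e w v n1 S * 1)) := by
  unfold J9
  congr 1
  funext S
  rw [GK_zero Q.H Q.hir, WW0 Q.H Q.hir Q.nw' Q.nv']
  ring

lemma J9_m0R (e : P → ℕ) (n2 : ℕ) : J9 i K psi C w v w' v' e 0 n2 0 =
    IV (st i C) (fun S => Fe i e S * (WW i e w' v' n2 S * 1)) := by
  unfold J9
  congr 1
  funext S
  rw [GK_zero Q.H Q.hir, WW0 Q.H Q.hir Q.nw Q.nv]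
  ring

/-- SITES: labels on both stars, the right star is isolated -/
theorem J_iso_R (hS : Sc i e) (h0 : ∀ z ∈ nz i w' ∪ nz i v', e z = 0) (n1 : ℕ) {n2 : ℕ}
    (hn : n2 ≠ 0) : od (st i C).card (rk n1 (bt i e w v b)) (J9 i K psi C w v w' v' e n1 n2 0) ∧
    lc (st i C).card (rk n1 (bt i e w v b)) (J9 i K psi C w v w' v' e n1 n2 0) =
      lc (st i C).card (rk n1 (bt i e w v b)) (J9 i K psi C w v w' v' e n1 0 0) * oo i C w' v' := by
  rw [J9_m0 Q, J9_m0L Q]
  exact partR Q hS h0 hn (Dp_const _ 1) (Rk_const _ 0 1)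

/-- SITES: labels on both stars, the left star is isolated -/
theorem J_iso_L (hS : Sc i e) (h0 : ∀ z ∈ nz i w ∪ nz i v, e z = 0) (n2 : ℕ) {n1 : ℕ}
    (hn : n1 ≠ 0) : od (st i C).card (rk n2 (bt i e w' v' b')) (J9 i K psi C w v w' v' e n1 n2 0) ∧
    lc (st i C).card (rk n2 (bt i e w' v' b')) (J9 i K psi C w v w' v' e n1 n2 0) =
      oo i C w v * lc (st i C).card (rk n2 (bt i e w' v' b'))
        (J9 i K psi C w v w' v' e 0 n2 0) := by
  rw [J9_m0 Q, J9_m0R Q]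
  exact partL Q hS h0 hn (Dp_const _ 1) (Rk_const _ 0 1)

/-! ### one label on the free elements -/

/-- splitting by the right star -/
lemma J9_m1 (e : P → ℕ) (n1 n2 : ℕ) : J9 i K psi C w v w' v' e n1 n2 1 =
    IV (st i C) (fun S => Fe i e S * (WW i e w v n1 S * (WW i e w' v' n2 S *
      GS i e (RP i K psi C e fun N => ¬ mt (nz i w' ∪ nz i v') N) 1 S))) +
    IV (st i C) (fun S => Fe i e S * (WW i e w v n1 S * (WW i e w' v' n2 S *
      GS i e (RP i K psi C e (mt (nz i w' ∪ nz i v'))) 1 S))) := by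
  rw [← IV_add2]
  unfold J9
  congr 1
  funext S
  rw [GK_RP (mt (nz i w' ∪ nz i v')), an1 (fun t : ℕ × ℕ =>
    GS i e (RP i K psi C e (mt (nz i w' ∪ nz i v'))) t.1 S *
    GS i e (RP i K psi C e fun N => ¬ mt (nz i w' ∪ nz i v') N) t.2 S)]
  show _ * (_ * (_ * (GS i e (RP i K psi C e (mt (nz i w' ∪ nz i v'))) 0 S *
    GS i e (RP i K psi C e fun N => ¬ mt (nz i w' ∪ nz i v') N) 1 S +
    GS i e (RP i K psi C e (mt (nz i w' ∪ nz i v'))) 1 S *
    GS i e (RP i K psi C e fun N => ¬ mt (nz i w' ∪ nz i v') N) 0 S))) = _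
  rw [GS_zero Q.H Q.hir (RP_near _), GS_zero Q.H Q.hir (RP_near _)]
  ring

/-- the elements off the right star -/
lemma offR (e : P → ℕ) (m : ℕ) : Dp (lv P i \ (nz i w' ∪ nz i v'))
    (GS i e (RP i K psi C e fun N => ¬ mt (nz i w' ∪ nz i v') N) m) :=
  GS_off Q.H (RP_near _) (fun x hx => by
    have := (mem_RP.1 hx).2
    unfold mt at this
    rwa [not_not] at this) m

variable {U U' : Finset P} (D : Sep i C w v w' v' U U')
include D

/-- the elements at the right star are off the left star -/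
lemma atR (e : P → ℕ) (m : ℕ) : Dp (lv P i \ (nz i w ∪ nz i v))
    (GS i e (RP i K psi C e (mt (nz i w' ∪ nz i v'))) m) := by
  refine GS_off Q.H (RP_near _) (fun x hx => ?_) m
  have h1 := mem_RP.1 hx
  exact disjoint_of_subset_left (D.hR x (RK_near h1.1) (mem_RK.1 h1.1).2 h1.2)
    (disjoint_of_subset_right D.sL D.hd.symm)

/-- no labels at the stars: one label on the free elements does not help -/
theorem J_m1_zero (hS : Sc i e) (h0 : ∀ z ∈ nz i w ∪ nz i v, e z = 0)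
    (h0' : ∀ z ∈ nz i w' ∪ nz i v', e z = 0) {n1 n2 : ℕ} (hn1 : n1 ≠ 0) (hn2 : n2 ≠ 0) :
    lc (st i C).card 2 (J9 i K psi C w v w' v' e n1 n2 1) = 0 := by
  rw [J9_m1 Q, lc_add]
  have h1 := (partR Q hS h0' (n1 := n1) hn2 (offR Q e 1)
    (GS_RP Q.H Q.hi Q.hi2 Q.hM Q.hC _ 1)).1
  have h2 := (partL Q hS h0 (n2 := n2) hn1 (atR Q D e 1)
    (GS_RP Q.H Q.hi Q.hi2 Q.hM Q.hC _ 1)).1
  rw [bt_zero Q (h0 b (memL Q).2.1)] at h1
  rw [bt_zero Q (h0' b' (memR Q).2.1)] at h2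
  have := rk_le_one Q n1
  have := rk_le_one Q n2
  rw [lc_lt (by omega) h1, lc_lt (by omega) h2, add_zero]

/-- the right star with one attached near element; labels at the left star only -/
theorem J_m1_R (hS : Sc i e) (hs : Spt C e) (h0' : ∀ z ∈ U', e z = 0) :
    lc (st i C).card 2 (J9 i K psi C w v w' v' e 1 1 1) = DD i e w v * qq i K psi C w' v' := by
  have h0'' : ∀ z ∈ nz i w' ∪ nz i v', e z = 0 := fun z hz => h0' z (D.sR hz)
  rw [J9_m1 Q, lc_add]
  have h1 := (partR Q hS h0'' (n1 := 1) one_ne_zero (offR Q e 1)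
    (GS_RP Q.H Q.hi Q.hi2 Q.hM Q.hC _ 1)).1
  rw [show rk 1 (bt i e w v b) = 1 from rfl] at h1
  rw [lc_lt (by omega) h1, zero_add]
  have hT : RP i K psi C e (mt (nz i w' ∪ nz i v')) = RP i K psi C 0 (mt (nz i w' ∪ nz i v')) := by
    unfold RP RK Rst
    rw [hS.tch Q.H, (show Sc i (0 : P → ℕ) from fun _ _ => rfl).tch Q.H]
  have hU : ∀ x ∈ RP i K psi C (0 : P → ℕ) (mt (nz i w' ∪ nz i v')), nz i x ⊆ U' := by
    intro x hx
    have h1 := mem_RP.1 hx
    exact D.hR x (RK_near h1.1) (mem_RK.1 h1.1).2 h1.2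
  have h2 : (fun S => Fe i e S * (WW i e w v 1 S * (WW i e w' v' 1 S *
      GS i e (RP i K psi C e (mt (nz i w' ∪ nz i v'))) 1 S))) =
      fun S => (Fe i e S * (WW i e w v 1 S * 1)) * (IW i w' v' S *
        GS i (0 : P → ℕ) (RP i K psi C 0 (mt (nz i w' ∪ nz i v'))) 1 S) := by
    funext S
    rw [WW_iso Q.H Q.hir Q.lw' Q.lv' Q.hb' Q.hb1' (tchS Q hS w') (tchS Q hS v') h0'' one_ne_zero, hT,
      GS_loc (f := (0 : P → ℕ)) (RP_near _) hU (fun z hz => h0' z hz)]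
    ring
  have h3 := IV_prod (V := st i C) (U := nz i w ∪ nz i v) (U' := U')
    (g := fun S => Fe i e S * (WW i e w v 1 S * 1))
    (h := fun S => IW i w' v' S *
        GS i (0 : P → ℕ) (RP i K psi C 0 (mt (nz i w' ∪ nz i v'))) 1 S)
    (by
      intro S S' hSS
      show Fe i e S * (WW i e w v 1 S * 1) = Fe i e S' * (WW i e w v 1 S' * 1)
      rw [Sc_Fe Q.H Q.hi Q.hi2 hS, Sc_Fe Q.H Q.hi Q.hi2 hS, Dp_WW Q.nw Q.nv 1 S S' hSS])
    (((Dp_IW w' v').mono D.sR).mul' (GS_Dp (RP_near _) hU 1))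
    (disjoint_of_subset_left D.sL D.hd)
  have h4 := odL Q (cheapS Q hS) (Rk_const _ 0 1) 1 (e := e)
  rw [zero_add, show rk 1 (bt i e w v b) = 1 from rfl] at h4
  have h5 : od (st i C).card 1 (IV (st i C) (fun S => IW i w' v' S *
        GS i (0 : P → ℕ) (RP i K psi C 0 (mt (nz i w' ∪ nz i v'))) 1 S)) := by
    have hS0 : Sc i (0 : P → ℕ) := fun _ _ => rfl
    have h6 := odR Q (cheapS Q hS0)
      (GS_RP Q.H Q.hi Q.hi2 Q.hM Q.hC (e := (0 : P → ℕ)) (mt (nz i w' ∪ nz i v')) 1) 1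
    rw [zero_add, show rk 1 (bt i (0 : P → ℕ) w' v' b') = 1 from rfl] at h6
    have h7 : (fun S => Fe i (0 : P → ℕ) S * (WW i (0 : P → ℕ) w' v' 1 S *
        GS i (0 : P → ℕ) (RP i K psi C 0 (mt (nz i w' ∪ nz i v'))) 1 S)) = fun S => IW i w' v' S *
        GS i (0 : P → ℕ) (RP i K psi C 0 (mt (nz i w' ∪ nz i v'))) 1 S := by
      funext S
      rw [Sc_Fe Q.H Q.hi Q.hi2 hS0, WW_iso Q.H Q.hir Q.lw' Q.lv' Q.hb' Q.hb1' (tchS Q hS0 w')
        (tchS Q hS0 v') (fun _ _ => rfl) one_ne_zero, one_mul]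
    rw [h7] at h6
    exact h6
  rw [h2]
  have h6 := (prod_lc h3 h4 h5).2
  rw [show 1 + 1 = 2 from rfl] at h6
  rw [h6]
  unfold qq
  congr 1
  have h7 := Q.J100 (hS.core Q.H) hs (k := 0) (hS.val Q.H Q.hi Q.hi2).2.2.2.2.1
  rw [(hS.val (C := C) Q.H Q.hi Q.hi2).2.2.2.2.2, mul_one, J9_m0L Q] at h7
  exact h7

/-- the order of the right star with one attached near element -/
lemma qqR_od : od (st i C).card 1 (IV (st i C) (fun S => IW i w' v' S *
    GS i (0 : P → ℕ) (RP i K psi C 0 (mt (nz i w' ∪ nz i v'))) 1 S)) := by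
  have hS0 : Sc i (0 : P → ℕ) := fun _ _ => rfl
  have h6 := odR Q (cheapS Q hS0)
    (GS_RP Q.H Q.hi Q.hi2 Q.hM Q.hC (e := (0 : P → ℕ)) (mt (nz i w' ∪ nz i v')) 1) 1
  rw [zero_add, show rk 1 (bt i (0 : P → ℕ) w' v' b') = 1 from rfl] at h6
  have h7 : (fun S => Fe i (0 : P → ℕ) S * (WW i (0 : P → ℕ) w' v' 1 S *
      GS i (0 : P → ℕ) (RP i K psi C 0 (mt (nz i w' ∪ nz i v'))) 1 S)) = fun S => IW i w' v' S *
      GS i (0 : P → ℕ) (RP i K psi C 0 (mt (nz i w' ∪ nz i v'))) 1 S := by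
    funext S
    rw [Sc_Fe Q.H Q.hi Q.hi2 hS0, WW_iso Q.H Q.hir Q.lw' Q.lv' Q.hb' Q.hb1' (tchS Q hS0 w')
      (tchS Q hS0 v') (fun _ _ => rfl) one_ne_zero, one_mul]
  rw [h7] at h6
  exact h6

end

end Pool.Agent.GaussPoset.Win.Pb
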