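import Pool.Agent.W_448p_h97.PbL

/-!
MP_448cb3_co, G2, case B, window `j`: the empty core with labels on both stars and on the free elements.
helper97.
-/

namespace Pool.Agent.GaussPoset.Win.Pb

set_option linter.unusedSectionVars false

open Finset W4 Pa
open Pool.Agent.GaussPoset.Win.So (IV IV_chi IV_Fe)
open Pool.Agent.GaussPoset.Win.SO (LowD UppD)

universe u

variable {P : Type u} [Fintype P] [PartialOrder P] [DecidableEq P] {r i : ℕ}
variable {e f : P → ℕ} {psi : P → P} {C K : Finset P} {w v w' v' : P}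

section

variable {a b c a' b' c' : P} (Q : K9c r i K psi C w v w' v' a b c a' b' c')
include Q

/-- the value of the configurations of energy two of the right star alone -/
theorem L0_011 : lc (st i C).card 1 (J9 i K psi C w v w' v' (0 : P → ℕ) 0 1 1) =
    qq i K psi C w' v' := by
  have hS0 : Sc i (0 : P → ℕ) := fun _ _ => rfl
  have h1 : J9 i K psi C w v w' v' (0 : P → ℕ) 0 1 1 =
      IV (st i C) (fun S => IW i w' v' S *
        GS i (0 : P → ℕ) (RP i K psi C 0 fun N => ¬ mt (nz i w' ∪ nz i v') N) 1 S) +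
      IV (st i C) (fun S => IW i w' v' S *
        GS i (0 : P → ℕ) (RP i K psi C 0 (mt (nz i w' ∪ nz i v'))) 1 S) := by
    rw [J9_m1 Q]
    congr 1
    · congr 1
      funext S
      rw [Sc_Fe Q.H Q.hi Q.hi2 hS0, WW0 Q.H Q.hir Q.nw Q.nv, WW_iso Q.H Q.hir Q.lw' Q.lv' Q.hb' Q.hb1'
        (tchS Q hS0 w') (tchS Q hS0 v') (fun _ _ => rfl) one_ne_zero]
      ring
    · congr 1
      funext S
      rw [Sc_Fe Q.H Q.hi Q.hi2 hS0, WW0 Q.H Q.hir Q.nw Q.nv, WW_iso Q.H Q.hir Q.lw' Q.lv' Q.hb' Q.hb1'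
        (tchS Q hS0 w') (tchS Q hS0 v') (fun _ _ => rfl) one_ne_zero]
      ring
  rw [h1, lc_add]
  have h2 := IV_prod (V := st i C) (Dp_IW w' v') (offR Q (0 : P → ℕ) 1) disjoint_sdiff
  have h3 : od (st i C).card 0 (IV (st i C)
      (GS i (0 : P → ℕ) (RP i K psi C 0 fun N => ¬ mt (nz i w' ∪ nz i v') N) 1)) :=
    od_of_Rk (GS_RP Q.H Q.hi Q.hi2 Q.hM Q.hC _ 1)
  have h4 := (prod_lc h2 (IWR_od Q) h3).1
  rw [lc_lt (by omega) h4, zero_add]
  rfl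

variable {U U' : Finset P} (D : Sep i C w v w' v' U U')
include D

/-- energy two on the free elements -/
theorem L0_112 : lc (st i C).card 2 (J9 i K psi C w v w' v' (0 : P → ℕ) 1 1 2) =
    qq i K psi C w v * qq i K psi C w' v' := by
  have hS0 : Sc i (0 : P → ℕ) := fun _ _ => rfl
  obtain ⟨pL, hpL⟩ : ∃ pL, pL = mt (nz i w ∪ nz i v) := ⟨_, rfl⟩
  obtain ⟨pR, hpR⟩ : ∃ pR, pR = mt (nz i w' ∪ nz i v') := ⟨_, rfl⟩
  have hset : (RP i K psi C (0 : P → ℕ) fun N => ¬ pR N ∧ pL N) = RP i K psi C (0 : P → ℕ) pL := by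
    ext x
    rw [mem_RP, mem_RP]
    constructor
    · rintro ⟨h1, -, h2⟩
      exact ⟨h1, h2⟩
    · rintro ⟨h1, h2⟩
      refine ⟨h1, ?_, h2⟩
      rw [hpR]
      unfold mt
      rw [not_not]
      rw [hpL] at h2
      exact disjoint_of_subset_left (D.hL x (RK_near h1) (mem_RK.1 h1).2 h2)
        (disjoint_of_subset_right D.sR D.hd)
  have g0 : ∀ (p : Finset P → Prop) (S : Finset P),
      GS i (0 : P → ℕ) (RP i K psi C (0 : P → ℕ) p) 0 S = 1 :=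
    fun p S => GS_zero Q.H Q.hir (RP_near p) S
  have h1 : J9 i K psi C w v w' v' (0 : P → ℕ) 1 1 2 =
      IV (st i C) (fun S => Fe i (0 : P → ℕ) S * (WW i (0 : P → ℕ) w v 1 S *
        (WW i (0 : P → ℕ) w' v' 1 S * GS i (0 : P → ℕ) (RP i K psi C 0 fun N => ¬ pR N) 2 S))) +
      (IV (st i C) (fun S => Fe i (0 : P → ℕ) S * (WW i (0 : P → ℕ) w v 1 S *
        (WW i (0 : P → ℕ) w' v' 1 S * GS i (0 : P → ℕ) (RP i K psi C 0 pR) 2 S))) +
      (IV (st i C) (fun S => Fe i (0 : P → ℕ) S * (WW i (0 : P → ℕ) w v 1 S *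
        (WW i (0 : P → ℕ) w' v' 1 S * (GS i (0 : P → ℕ) (RP i K psi C 0 pR) 1 S *
          GS i (0 : P → ℕ) (RP i K psi C 0 fun N => ¬ pR N ∧ ¬ pL N) 1 S)))) +
      IV (st i C) (fun S => (IW i w v S * GS i (0 : P → ℕ) (RP i K psi C 0 pL) 1 S) *
        (IW i w' v' S * GS i (0 : P → ℕ) (RP i K psi C 0 pR) 1 S)))) := by
    rw [← IV_add2, ← IV_add2, ← IV_add2]
    unfold J9
    congr 1
    funext S
    have e1 := GK_RP (i := i) (K := K) (psi := psi) (C := C) (e := (0 : P → ℕ)) pR 2 S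
    rw [an2 (fun t : ℕ × ℕ => GS i 0 (RP i K psi C 0 pR) t.1 S *
      GS i 0 (RP i K psi C 0 fun N => ¬ pR N) t.2 S)] at e1
    have e2 := GS_RP2 (i := i) (K := K) (psi := psi) (C := C) (e := (0 : P → ℕ))
      (fun N => ¬ pR N) pL 1 S
    rw [an1 (fun t : ℕ × ℕ => GS i 0 (RP i K psi C 0 fun N => ¬ pR N ∧ pL N) t.1 S *
      GS i 0 (RP i K psi C 0 fun N => ¬ pR N ∧ ¬ pL N) t.2 S), hset] at e2
    simp only [g0] at e1 e2
    rw [e1, e2, Sc_Fe Q.H Q.hi Q.hi2 hS0, WW_iso Q.H Q.hir Q.lw' Q.lv' Q.hb' Q.hb1'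
        (tchS Q hS0 w') (tchS Q hS0 v') (fun _ _ => rfl) one_ne_zero,
        WW_iso Q.H Q.hir Q.lw Q.lv Q.hb Q.hb1
        (tchS Q hS0 w) (tchS Q hS0 v) (fun _ _ => rfl) one_ne_zero]
    ring
  have z1 := (partR Q hS0 (fun _ _ => rfl) (n1 := 1) one_ne_zero (offR Q (0 : P → ℕ) 2)
    (GS_RP Q.H Q.hi Q.hi2 Q.hM Q.hC _ 2)).1
  have z2 := (partL Q hS0 (fun _ _ => rfl) (n2 := 1) one_ne_zero (atR Q D (0 : P → ℕ) 2)
    (GS_RP Q.H Q.hi Q.hi2 Q.hM Q.hC _ 2)).1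
  have z3 := (partL Q hS0 (fun _ _ => rfl) (n2 := 1) one_ne_zero
    ((atR Q D (0 : P → ℕ) 1).mul' (g' := GS i (0 : P → ℕ)
      (RP i K psi C 0 fun N => ¬ mt (nz i w' ∪ nz i v') N ∧ ¬ mt (nz i w ∪ nz i v) N) 1)
      (GS_off Q.H (RP_near _) (fun x hx => by
        have := (mem_RP.1 hx).2.2
        unfold mt at this
        rwa [not_not] at this) 1))
    (Rk_mul (GS_RP Q.H Q.hi Q.hi2 Q.hM Q.hC _ 1) (GS_RP Q.H Q.hi Q.hi2 Q.hM Q.hC _ 1))).1
  rw [← hpR] at z1 z2 z3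
  rw [← hpL] at z3
  rw [show rk 1 (bt i (0 : P → ℕ) w v b) = 1 from rfl] at z1
  rw [show rk 1 (bt i (0 : P → ℕ) w' v' b') = 1 from rfl] at z2 z3
  have hU : ∀ x ∈ RP i K psi C (0 : P → ℕ) pL, nz i x ⊆ U := by
    intro x hx
    have h1 := mem_RP.1 hx
    rw [hpL] at h1
    exact D.hL x (RK_near h1.1) (mem_RK.1 h1.1).2 h1.2
  have hU' : ∀ x ∈ RP i K psi C (0 : P → ℕ) pR, nz i x ⊆ U' := by
    intro x hx
    have h1 := mem_RP.1 hx
    rw [hpR] at h1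
    exact D.hR x (RK_near h1.1) (mem_RK.1 h1.1).2 h1.2
  have z4 := IV_prod (V := st i C)
    (((Dp_IW w v).mono D.sL).mul' (GS_Dp (e := (0 : P → ℕ)) (RP_near _) hU 1))
    (((Dp_IW w' v').mono D.sR).mul' (GS_Dp (e := (0 : P → ℕ)) (RP_near _) hU' 1)) D.hd
  have oL := qqR_od Q.sym D.sym
  have oR := qqR_od Q D
  rw [← hpL] at oL
  rw [← hpR] at oR
  have z5 := (prod_lc z4 oL oR).2
  rw [show 1 + 1 = 2 from rfl] at z5
  rw [h1, lc_add, lc_add, lc_add, lc_lt (by omega) z1, lc_lt (by omega) z2, lc_lt (by omega) z3,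
    z5, zero_add, zero_add, zero_add]
  unfold qq
  rw [← hpL, ← hpR]

/-- the empty core, nothing on the free elements -/
theorem L0_m0 {n1 n2 : ℕ} (hn2 : n2 ≠ 0) :
    lc (st i C).card 2 (J9 i K psi C w v w' v' (0 : P → ℕ) n1 n2 0) = 0 := by
  have hS0 : Sc i (0 : P → ℕ) := fun _ _ => rfl
  have h := (J_iso_R Q hS0 (fun _ _ => rfl) n1 hn2).1
  rw [bt_zero Q rfl] at h
  exact lc_lt (by have := rk_le_one Q n1; omega) h

/-- the empty core, one label on the free elements -/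
theorem L0_m1 {n1 n2 : ℕ} (hn1 : n1 ≠ 0) (hn2 : n2 ≠ 0) :
    lc (st i C).card 2 (J9 i K psi C w v w' v' (0 : P → ℕ) n1 n2 1) = 0 :=
  J_m1_zero Q D (fun _ _ => rfl) (fun _ _ => rfl) (fun _ _ => rfl) hn1 hn2

end

end Pool.Agent.GaussPoset.Win.Pb
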