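import Pool.Agent.W_448p_h97.PbM

/-!
MP_448cb3_co, G2, case B, window `j`: natural cores of energy one and two with labels on both stars.
helper97.
-/

namespace Pool.Agent.GaussPoset.Win.Pb

set_option linter.unusedSectionVars false

open Finset W4 Pa
open Pool.Agent.GaussPoset.Win.So (IV IV_chi IV_Fe)
open Pool.Agent.GaussPoset.Win.SO (PN vp con on)

universe u

variable {P : Type u} [Fintype P] [PartialOrder P] [DecidableEq P] {r i : ℕ}
variable {e f : P → ℕ} {psi : P → P} {C K : Finset P} {w v w' v' : P}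

section

variable {a b c a' b' c' : P} (Q : K9c r i K psi C w v w' v' a b c a' b' c')
include Q

/-! ### energy one -/

/-- the sums over the cores of energy one -/
lemma Co1_st (X : (P → ℕ) → ℤ)
    (h1 : ∀ e, ¬ (AdmL i e ∧ AdmU i e ∧ Disjoint (AL i e) (AU i e)) → X e = 0) :
    ∑ e ∈ Co i K psi C 1, X e = ∑ y ∈ st i C, X (Pi.single y 1) := by
  classical
  have inj : ∀ f ∈ st i C, ∀ f' ∈ st i C,
      (Pi.single f 1 : P → ℕ) = Pi.single f' 1 → f = f' := by
    intro f _ f' _ h
    by_contra hne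
    have := congrFun h f
    rw [Pi.single_eq_same, Pi.single_eq_of_ne hne] at this
    exact one_ne_zero this
  rw [← sum_image (s := st i C) (g := fun y => (Pi.single y 1 : P → ℕ)) (f := X) inj]
  symm
  refine sum_subset ?_ ?_
  · intro e he
    rw [mem_image] at he
    obtain ⟨y, hy, rfl⟩ := he
    obtain ⟨h1, h2⟩ := mem_st.1 hy
    exact Q.co_b h2 h1 1
  · intro e he hn
    rcases Co_one Q.H Q.hi2 he with h | ⟨y, hy, hyC, rfl⟩
    · exact h1 e h
    · exact absurd (mem_image.2 ⟨y, mem_st.2 ⟨hyC, hy⟩, rfl⟩) hn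

/-- the sum of the differences of a star over the sites -/
lemma DD_sum : ∑ y ∈ st i C, DD i (Pi.single y 1 : P → ℕ) w v = 0 := by
  classical
  have hsub : ({a, b, c} : Finset P) ⊆ st i C := by
    intro y hy
    have h1 := memL Q
    have h2 := stR Q.sym
    rw [mem_insert, mem_insert, mem_singleton] at hy
    have : y ∈ nz i w ∪ nz i v := by
      rcases hy with rfl | rfl | rfl
      · exact h1.1
      · exact h1.2.1
      · exact h1.2.2
    rcases mem_union.1 this with h | h
    · exact h2.1 h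
    · exact h2.2 h
  rw [← sum_subset hsub]
  · have hb : b ∉ ({c} : Finset P) := by rw [mem_singleton]; exact Q.nbc
    have ha : a ∉ ({b, c} : Finset P) := by
      rw [mem_insert, mem_singleton, not_or]; exact ⟨Q.nab, Q.nac⟩
    rw [sum_insert ha, sum_insert hb, sum_singleton]
    have hl := Q.lb
    have la : lev a = i := nz_lev Q.H Q.nw (by rw [Q.nzw]; simp)
    have lc' : lev c = i := nz_lev Q.H Q.nv (by rw [Q.nzv]; simp)
    rw [Q.DDs (Sc_single la 1), Q.DDs (Sc_single hl 1), Q.DDs (Sc_single lc' 1)]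
    simp only [Pi.single_apply, Q.nab, Q.nab.symm, Q.nbc, Q.nbc.symm, Q.nac, Q.nac.symm, if_true,
      if_false]
    norm_num
  · intro y hy hn
    rw [mem_insert, mem_insert, mem_singleton, not_or, not_or] at hn
    refine Q.DD0 (Sc_single (mem_st.1 hy).2 1) ⟨?_, ?_, ?_⟩
    · rw [Pi.single_eq_of_ne (Ne.symm hn.1)]
    · rw [Pi.single_eq_of_ne (Ne.symm hn.2.1)]
    · rw [Pi.single_eq_of_ne (Ne.symm hn.2.2)]

/-- ENERGY ONE, two on the left star, one on the right star -/
theorem S1_210 : ∑ e ∈ Co i K psi C 1, lc (st i C).card 2 (J9 i K psi C w v w' v' e 2 1 0) =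
    - oo i C w' v' := by
  rw [Q.sum1 (fun e => lc (st i C).card 2 (J9 i K psi C w v w' v' e 2 1 0))
    (fun e h => by
      show lc (st i C).card 2 (J9 i K psi C w v w' v' e 2 1 0) = 0
      rw [Q.bad h, lc_zero])]
  · have hb := Q.sing b Q.lb Q.mC.2.1
    have hb' := Q.sing b' Q.lb' Q.mC'.2.1
    have n1 := memL Q
    have n1' := memR Q
    have hd := dLR' Q
    -- the centre of the left star
    have e1 : lc (st i C).card 2 (J9 i K psi C w v w' v' (Pi.single b 1 : P → ℕ) 2 1 0) =
        - oo i C w' v' := by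
      have h0 : ∀ z ∈ nz i w' ∪ nz i v', (Pi.single b 1 : P → ℕ) z = 0 := by
        intro z hz
        rw [Pi.single_apply, if_neg]
        rintro rfl
        exact disjoint_left.1 hd n1.2.1 hz
      have h := (J_iso_R Q hb.1 h0 2 one_ne_zero).2
      have hbt : bt i (Pi.single b 1 : P → ℕ) w v b = 1 := by
        unfold bt
        rw [if_pos]
        refine ⟨?_, tchS Q hb.1 w, tchS Q hb.1 v⟩
        rw [Pi.single_eq_same]
      rw [hbt, show rk 2 1 = 2 from rfl] at h
      rw [h]
      have h2 := Q.J200 hb.2.2.1 hb.2.1 (k := 0) hb.2.2.2.1 (by rw [Pi.single_eq_same])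
        (tchS Q hb.1 w) (tchS Q hb.1 v)
      rw [zero_add, hb.2.2.2.2.1, Q.PPb] at h2
      rw [h2]
      ring
    have e2 : lc (st i C).card 2 (J9 i K psi C w v w' v' (Pi.single b' 1 : P → ℕ) 2 1 0) = 0 := by
      have h0 : ∀ z ∈ nz i w ∪ nz i v, (Pi.single b' 1 : P → ℕ) z = 0 := by
        intro z hz
        rw [Pi.single_apply, if_neg]
        rintro rfl
        exact disjoint_left.1 hd hz n1'.2.1
      have h := (J_iso_L Q hb'.1 h0 1 two_ne_zero).1
      rw [show rk 1 (bt i (Pi.single b' 1 : P → ℕ) w' v' b') = 1 from rfl] at h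
      exact lc_lt (by omega) h
    show lc (st i C).card 2 (J9 i K psi C w v w' v' (Pi.single b 1 : P → ℕ) 2 1 0) +
      lc (st i C).card 2 (J9 i K psi C w v w' v' (Pi.single b' 1 : P → ℕ) 2 1 0) = _
    rw [e1, e2, add_zero]
  · intro y hy hyC hyb hyb'
    have hs := Q.sing y hy hyC
    have hd := dLR' Q
    show lc (st i C).card 2 (J9 i K psi C w v w' v' (Pi.single y 1 : P → ℕ) 2 1 0) = 0
    by_cases hR : y ∈ nz i w' ∪ nz i v'
    · have h0 : ∀ z ∈ nz i w ∪ nz i v, (Pi.single y 1 : P → ℕ) z = 0 := by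
        intro z hz
        rw [Pi.single_apply, if_neg]
        rintro rfl
        exact disjoint_left.1 hd hz hR
      have h := (J_iso_L Q hs.1 h0 1 two_ne_zero).1
      rw [show rk 1 (bt i (Pi.single y 1 : P → ℕ) w' v' b') = 1 from rfl] at h
      exact lc_lt (by omega) h
    · have h0 : ∀ z ∈ nz i w' ∪ nz i v', (Pi.single y 1 : P → ℕ) z = 0 := by
        intro z hz
        rw [Pi.single_apply, if_neg]
        rintro rfl
        exact hR hz
      have h := (J_iso_R Q hs.1 h0 2 one_ne_zero).1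
      rw [bt_zero Q (show (Pi.single y 1 : P → ℕ) b = 0 by
        rw [Pi.single_eq_of_ne (Ne.symm hyb)])] at h
      exact lc_lt (by rw [show rk 2 0 = 1 from rfl]; omega) h

variable {U U' : Finset P} (D : Sep i C w v w' v' U U')
include D

/-- ENERGY ONE, one on each star and one on the free elements -/
theorem S1_111 : ∑ e ∈ Co i K psi C 1, lc (st i C).card 2 (J9 i K psi C w v w' v' e 1 1 1) = 0 := by
  rw [Co1_st Q (fun e => lc (st i C).card 2 (J9 i K psi C w v w' v' e 1 1 1))
    (fun e h => by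
      show lc (st i C).card 2 (J9 i K psi C w v w' v' e 1 1 1) = 0
      rw [Q.bad h, lc_zero])]
  have key : ∀ y ∈ st i C,
      lc (st i C).card 2 (J9 i K psi C w v w' v' (Pi.single y 1 : P → ℕ) 1 1 1) =
      DD i (Pi.single y 1 : P → ℕ) w v * qq i K psi C w' v' +
        DD i (Pi.single y 1 : P → ℕ) w' v' * qq i K psi C w v := by
    intro y hy
    obtain ⟨hyC, hyl⟩ := mem_st.1 hy
    have hs := Q.sing y hyl hyC
    have n1 := memL Q
    have n1' := memR Q
    by_cases hL : y ∈ nz i w ∪ nz i v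
    · have h0 : ∀ z ∈ U', (Pi.single y 1 : P → ℕ) z = 0 := by
        intro z hz
        rw [Pi.single_apply, if_neg]
        rintro rfl
        exact disjoint_left.1 D.hd (D.sL hL) hz
      have h1 := J_m1_R Q D hs.1 hs.2.1 h0
      rw [h1, Q.DD0' hs.1 ⟨h0 _ (D.sR n1'.1), h0 _ (D.sR n1'.2.1), h0 _ (D.sR n1'.2.2)⟩,
        zero_mul, add_zero]
    by_cases hR : y ∈ nz i w' ∪ nz i v'
    · have h0 : ∀ z ∈ U, (Pi.single y 1 : P → ℕ) z = 0 := by
        intro z hz
        rw [Pi.single_apply, if_neg]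
        rintro rfl
        exact disjoint_left.1 D.hd hz (D.sR hR)
      have h1 := J_m1_R Q.sym D.sym hs.1 hs.2.1 h0
      rw [J9_sym, h1, Q.DD0 hs.1 ⟨h0 _ (D.sL n1.1), h0 _ (D.sL n1.2.1), h0 _ (D.sL n1.2.2)⟩,
        zero_mul, zero_add]
    · have h0 : ∀ z ∈ nz i w ∪ nz i v, (Pi.single y 1 : P → ℕ) z = 0 := by
        intro z hz
        rw [Pi.single_apply, if_neg]
        rintro rfl
        exact hL hz
      have h0' : ∀ z ∈ nz i w' ∪ nz i v', (Pi.single y 1 : P → ℕ) z = 0 := by
        intro z hz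
        rw [Pi.single_apply, if_neg]
        rintro rfl
        exact hR hz
      rw [J_m1_zero Q D hs.1 h0 h0' one_ne_zero one_ne_zero,
        Q.DD0 hs.1 ⟨h0 _ n1.1, h0 _ n1.2.1, h0 _ n1.2.2⟩,
        Q.DD0' hs.1 ⟨h0' _ n1'.1, h0' _ n1'.2.1, h0' _ n1'.2.2⟩]
      ring
  rw [sum_congr rfl key, sum_add_distrib, ← sum_mul, ← sum_mul, DD_sum Q, DD_sum Q.sym]
  ring

end

end Pool.Agent.GaussPoset.Win.Pb
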