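import Pool.Agent.W_448p_h97.PbN

/-!
MP_448cb3_co, G2, case B, window `j`: natural cores of energy two with one label on each star.  helper97.
-/

namespace Pool.Agent.GaussPoset.Win.Pb

set_option linter.unusedSectionVars false

open Finset W4 Pa
open Pool.Agent.GaussPoset.Win.So (IV IV_chi IV_Fe)
open Pool.Agent.GaussPoset.Win.SO (PN vp con on)

universe u

variable {P : Type u} [Fintype P] [PartialOrder P] [DecidableEq P] {r i : ℕ}
variable {e f : P → ℕ} {psi : P → P} {C K : Finset P} {w v w' v' : P}

/-- the element meets the sites `L` -/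
def NL (i : ℕ) (L : Finset P) (f : P) : Prop := f ∈ L ∨ (f ∈ near P i ∧ ¬ Disjoint (nz i f) L)

lemma FG_one {x : P} {L : Finset P} (H : Gr P r) (hL : ∀ z ∈ L, lev z = i) (hx : nz i x ⊆ L)
    (h : ∀ f, NL i L f → e f = 0) : FG i e x 1 = 1 := by
  classical
  unfold FG
  rw [if_pos]
  refine ⟨fun z hz => ?_, ?_⟩
  · rw [h z (Or.inl (hx hz))]
    omega
  · rw [disjoint_left]
    intro z hz hz'
    have h0 : e z = 0 := h z (Or.inl (hx hz))
    rw [mem_union] at hz'
    rcases hz' with h1 | h1
    · unfold AL at h1
      rw [mem_filter] at h1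
      obtain ⟨y, hy, hy'⟩ := h1.2
      have hl := lev_cov H hy
      have hly := hL z (hx hz)
      have hn : y ∈ near P i := mem_near.2 (Or.inl (by omega))
      have : e y = 0 := by
        refine h y (Or.inr ⟨hn, fun hd => ?_⟩)
        refine disjoint_left.1 hd ?_ (hx hz)
        rw [nz_low (by omega)]
        exact mem_uc.2 hy
      omega
    · unfold AU at h1
      rw [mem_filter] at h1
      obtain ⟨y, hy, hy'⟩ := h1.2
      have hl := lev_cov H hy
      have hly := hL z (hx hz)
      have hn : y ∈ near P i := mem_near.2 (Or.inr (by omega))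
      have : e y = 0 := by
        refine h y (Or.inr ⟨hn, fun hd => ?_⟩)
        refine disjoint_left.1 hd ?_ (hx hz)
        rw [nz_upp (by omega)]
        exact mem_dc.2 hy
      omega

section

variable {a b c a' b' c' : P} (Q : K9c r i K psi C w v w' v' a b c a' b' c')
include Q

lemma lvL {z : P} (hz : z ∈ nz i w ∪ nz i v) : lev z = i := by
  rcases mem_union.1 hz with h | h
  · exact nz_lev Q.H Q.nw h
  · exact nz_lev Q.H Q.nv h

lemma DD_L {L : Finset P} (hL : L = nz i w ∪ nz i v) (h : ∀ f, NL i L f → e f = 0) :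
    DD i e w v = 0 := by
  have h1 : ∀ z ∈ L, lev z = i := fun z hz => lvL Q (by rw [← hL]; exact hz)
  unfold DD
  rw [FG_one Q.H h1 (by rw [hL]; exact subset_union_left) h,
    FG_one Q.H h1 (by rw [hL]; exact subset_union_right) h, sub_self]

/-- a label at the left star and one at the right star: two sites -/
lemma two_sites {U U' : Finset P} (D : Sep i C w v w' v' U U') (he : e ∈ Co i K psi C 2)
    (hL : DD i e w v ≠ 0) (hR : DD i e w' v' ≠ 0) : ∃ y ∈ nz i w ∪ nz i v,
      ∃ y' ∈ nz i w' ∪ nz i v', e = Pi.single y 1 + Pi.single y' 1 := by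
  classical
  obtain ⟨hE, hs, hc⟩ := mem_Co.1 he
  obtain ⟨f, hf, hef⟩ : ∃ f, NL i (nz i w ∪ nz i v) f ∧ e f ≠ 0 := by
    by_contra hcon
    push Not at hcon
    exact hL (DD_L Q rfl hcon)
  obtain ⟨f', hf', hef'⟩ : ∃ f, NL i (nz i w' ∪ nz i v') f ∧ e f ≠ 0 := by
    by_contra hcon
    push Not at hcon
    exact hR (DD_L Q.sym rfl hcon)
  have hfC : f ∈ C := by
    by_contra h
    exact hef (hs f h)
  have hfC' : f' ∈ C := by
    by_contra h
    exact hef' (hs f' h)
  have lf : lev f = i ∨ f ∈ near P i := by
    rcases hf with h | h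
    · exact Or.inl (lvL Q h)
    · exact Or.inr h.1
  have lf' : lev f' = i ∨ f' ∈ near P i := by
    rcases hf' with h | h
    · exact Or.inl (lvL Q.sym h)
    · exact Or.inr h.1
  have hne : f ≠ f' := by
    rintro rfl
    rcases hf with h | h
    · rcases hf' with h' | h'
      · exact disjoint_left.1 D.hd (D.sL h) (D.sR h')
      · have := lvL Q h
        have := mem_near.1 h'.1
        omega
    · rcases hf' with h' | h'
      · have := lvL Q.sym h'
        have := mem_near.1 h.1
        omega
      · have h1 := D.hL f h.1 hfC h.2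
        have h2 := D.hR f h.1 hfC h'.2
        apply h.2
        rw [disjoint_left]
        intro z hz _
        exact disjoint_left.1 D.hd (h1 hz) (h2 hz)
  have heq := two_eq hne (by omega) (by omega) hE
  have hT : ∀ x, x ∉ Tch i e := by
    intro x hx
    rw [mem_Tch] at hx
    have key : ∀ z, 0 < e z → lev z = i ∨ z ∈ near P i := by
      intro z hz
      rw [heq, Pi.add_apply] at hz
      by_cases h1 : z = f
      · rw [h1]; exact lf
      · by_cases h2 : z = f'
        · rw [h2]; exact lf'
        · rw [Pi.single_eq_of_ne h1, Pi.single_eq_of_ne h2] at hz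
          omega
    rcases hx with ⟨h1, z, hz, hz'⟩ | ⟨h1, z, hz, hz'⟩
    · have hl := lev_cov Q.H hz
      rcases key z hz' with h | h
      · omega
      · have := mem_near.1 h
        omega
    · have hl := lev_cov Q.H hz
      rcases key z hz' with h | h
      · omega
      · have := mem_near.1 h
        omega
  have hcore : ∀ x ∈ near P i, e x = 0 := fun x hx =>
    hc x (mem_Rst.2 ⟨hx, notMem_empty x, hT x, fun h => hT _ h.2⟩)
  refine ⟨f, ?_, f', ?_, heq⟩
  · rcases hf with h | h
    · exact h
    · exact absurd (hcore f h.1) hef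
  · rcases hf' with h | h
    · exact h
    · exact absurd (hcore f' h.1) hef'

end

end Pool.Agent.GaussPoset.Win.Pb
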