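import Pool.Agent.W_448p_h97.PbO

/-!
MP_448cb3_co, G2, case B, window `j`: the sum over the natural cores of energy two with one label on each
star.  helper97.
-/

namespace Pool.Agent.GaussPoset.Win.Pb

set_option linter.unusedSectionVars false

open Finset W4 Pa
open Pool.Agent.GaussPoset.Win.So (IV IV_chi IV_Fe)
open Pool.Agent.GaussPoset.Win.SO (PN vp con on con_sub)

universe u

variable {P : Type u} [Fintype P] [PartialOrder P] [DecidableEq P] {r i : ℕ}
variable {e f : P → ℕ} {psi : P → P} {C K : Finset P} {w v w' v' : P}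

section

variable {a b c a' b' c' : P} (Q : K9c r i K psi C w v w' v' a b c a' b' c')
include Q

lemma DD_sum3 : ∑ y ∈ nz i w ∪ nz i v, DD i (Pi.single y 1 : P → ℕ) w v = 0 := by
  have h2 := stR Q.sym
  rw [← DD_sum Q]
  refine sum_subset (union_subset h2.1 h2.2) fun y hy hn => ?_
  have h1 := memL Q
  refine Q.DD0 (Sc_single (mem_st.1 hy).2 1) ⟨?_, ?_, ?_⟩
  · rw [Pi.single_eq_of_ne]
    rintro rfl
    exact hn h1.1
  · rw [Pi.single_eq_of_ne]
    rintro rfl
    exact hn h1.2.1
  · rw [Pi.single_eq_of_ne]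
    rintro rfl
    exact hn h1.2.2

lemma DD_two {y y' : P} (hy : lev y = i) (hy' : y' ∈ nz i w' ∪ nz i v') :
    DD i (Pi.single y 1 + Pi.single y' 1 : P → ℕ) w v = DD i (Pi.single y 1 : P → ℕ) w v := by
  have h1 := memL Q
  have hd := dLR' Q
  have l' := lvL Q.sym hy'
  have hz : ∀ z ∈ nz i w ∪ nz i v, (Pi.single y 1 + Pi.single y' 1 : P → ℕ) z =
      (Pi.single y 1 : P → ℕ) z := by
    intro z hz
    rw [Pi.add_apply, Pi.single_eq_of_ne (M := fun _ => ℕ) (i := y') (i' := z), add_zero]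
    rintro rfl
    exact disjoint_left.1 hd hz hy'
  rw [Q.DDs (Sc_add (Sc_single hy 1) (Sc_single l' 1)), Q.DDs (Sc_single hy 1), hz a h1.1,
    hz b h1.2.1, hz c h1.2.2]

/-- the value of a pendant away from the right star -/
lemma pend_R {p : P} (hp : p ∈ PN i C) (hd : Disjoint (sit i p) (nz i w' ∪ nz i v')) :
    lc (st i C).card 2 (J9 i K psi C w v w' v' (on (con i p)) 1 1 0) =
      vp i p * NN i w v p * oo i C w' v' := by
  obtain ⟨-, -, -, hA, ho, hv⟩ := pd_val Q.H Q.hi Q.hi2 Q.hC hp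
  have hc : IsCore i ∅ (ps K psi) (on (con i p)) := c2_core Q.H hp
  have hs := c2_spt Q.H Q.hC hp
  have hE := (c2_value Q.H Q.hi Q.hi2 Q.hC hp).1
  have hch : Cheap 1 i (on (con i p)) := (k5L Q.toK9).cheap1 hc hs (by omega)
  have hne : (nz i w').Nonempty ∧ (nz i v').Nonempty := by
    constructor
    · rw [← card_pos, Q.w2']; omega
    · rw [← card_pos, Q.v2']; omega
  have hT : w' ∉ Tch i (on (con i p)) ∧ v' ∉ Tch i (on (con i p)) := by
    constructor
    · intro h
      have h1 := pd_tch Q.H hp h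
      obtain ⟨z, hz⟩ := hne.1
      exact disjoint_left.1 hd (by rw [← h1]; exact hz) (mem_union_left _ hz)
    · intro h
      have h1 := pd_tch Q.H hp h
      obtain ⟨z, hz⟩ := hne.2
      exact disjoint_left.1 hd (by rw [← h1]; exact hz) (mem_union_right _ hz)
  have h0 : ∀ z ∈ nz i w' ∪ nz i v', on (con i p) z = 0 := fun z hz =>
    pd_site Q.H hp (lvL Q.sym hz)
  have h1 := iso_R Q hT h0 (n1 := 1) one_ne_zero (Dp_const ∅ 1) (disjoint_empty_left _)
    (by rw [hA]; exact hd) (dLR' Q)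
  rw [← J9_m0 Q, ← J9_m0L Q] at h1
  have h2 := odL Q hch (Rk_const (lv P i) 0 1) 1
  rw [show rk 1 (bt i (on (con i p)) w v b) = 1 from rfl, ← J9_m0L Q] at h2
  have h3 := (prod_lc h1 h2 (IWR_od Q)).2
  rw [add_zero, show 1 + 1 = 2 from rfl] at h3
  rw [h3]
  have h4 := Q.J100 hc hs ho
  rw [show 1 + 1 = 2 from rfl, hv, Q.DDp hp] at h4
  rw [h4]
  unfold oo
  ring

lemma NN_zero {p : P} (hd : Disjoint (sit i p) (nz i w' ∪ nz i v')) : NN i w' v' p = 0 := by
  unfold NN Nx
  rw [if_pos (disjoint_of_subset_left subset_union_left hd.symm),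
    if_pos (disjoint_of_subset_left subset_union_right hd.symm), sub_self]

variable {U U' : Finset P} (D : Sep i C w v w' v' U U')
include D

/-- the value of a pendant -/
lemma pend {p : P} (hp : p ∈ PN i C) :
    lc (st i C).card 2 (J9 i K psi C w v w' v' (on (con i p)) 1 1 0) =
      vp i p * NN i w v p * oo i C w' v' + vp i p * NN i w' v' p * oo i C w v := by
  by_cases hd : Disjoint (sit i p) (nz i w' ∪ nz i v')
  · rw [pend_R Q hp hd, NN_zero Q hd]
    ring
  · have hd2 : Disjoint (sit i p) (nz i w ∪ nz i v) := by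
      obtain ⟨hpC, y, hcon, hyn, hnz, hcard, hlev, hor⟩ := PN_dat Q.H hp
      have hl : lev p ≠ i := by rcases hor with ⟨-, h, -⟩ | ⟨-, h, -⟩ <;> omega
      have hyC : y ∈ C := con_sub Q.H Q.hC hpC hl (by rw [hcon]; simp)
      rw [← hnz] at hd ⊢
      exact disjoint_of_subset_left (D.hR y hyn hyC hd) (disjoint_of_subset_right D.sL D.hd.symm)
    rw [J9_sym, pend_R Q.sym hp hd2, NN_zero Q.sym hd2]
    ring

/-- ENERGY TWO -/
theorem S2_110 : ∑ e ∈ Co i K psi C 2, lc (st i C).card 2 (J9 i K psi C w v w' v' e 1 1 0) =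
    oo i C w' v' * ∑ p ∈ PN i C, vp i p * NN i w v p +
      oo i C w v * ∑ p ∈ PN i C, vp i p * NN i w' v' p := by
  classical
  obtain ⟨T, hT⟩ : ∃ T : Finset (P → ℕ), T = ((nz i w ∪ nz i v) ×ˢ (nz i w' ∪ nz i v')).image
      (fun q => (Pi.single q.1 1 + Pi.single q.2 1 : P → ℕ)) := ⟨_, rfl⟩
  have memT : ∀ e, e ∈ T ↔ ∃ y ∈ nz i w ∪ nz i v, ∃ y' ∈ nz i w' ∪ nz i v',
      e = Pi.single y 1 + Pi.single y' 1 := by
    intro e
    rw [hT, mem_image]
    constructor
    · rintro ⟨⟨y, y'⟩, hq, rfl⟩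
      rw [mem_product] at hq
      exact ⟨y, hq.1, y', hq.2, rfl⟩
    · rintro ⟨y, hy, y', hy', rfl⟩
      exact ⟨(y, y'), mem_product.2 ⟨hy, hy'⟩, rfl⟩
  have hst := stR Q.sym
  have hst' := stR Q
  have inC : ∀ y ∈ nz i w ∪ nz i v, y ∈ C := by
    intro y hy
    rcases mem_union.1 hy with h | h
    · exact (mem_st.1 (hst.1 h)).1
    · exact (mem_st.1 (hst.2 h)).1
  have inC' : ∀ y ∈ nz i w' ∪ nz i v', y ∈ C := by
    intro y hy
    rcases mem_union.1 hy with h | h
    · exact (mem_st.1 (hst'.1 h)).1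
    · exact (mem_st.1 (hst'.2 h)).1
  have TSc : ∀ e ∈ T, Sc i e ∧ Spt C e ∧ ∑ x, e x = 2 := by
    intro e he
    obtain ⟨y, hy, y', hy', rfl⟩ := (memT e).1 he
    have a1 := Q.sing y (lvL Q hy) (inC y hy)
    have a2 := Q.sing y' (lvL Q.sym hy') (inC' y' hy')
    refine ⟨Sc_add a1.1 a2.1, ?_, ?_⟩
    · intro x hx
      rw [Pi.add_apply, a1.2.1 x hx, a2.2.1 x hx]
    · simp only [Pi.add_apply]
      rw [sum_add_distrib, sum_pi_single' y 1 univ, sum_pi_single' y' 1 univ]
      simp
  have Tsub : T ⊆ Co i K psi C 2 := by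
    intro e he
    obtain ⟨h1, h2, h3⟩ := TSc e he
    exact mem_Co.2 ⟨h3, h2, h1.core Q.H⟩
  -- the sum over the pairs of sites
  have sT : ∑ e ∈ T, DD i e w v * DD i e w' v' = 0 := by
    rw [hT, sum_image, sum_product]
    · have key : ∀ y ∈ nz i w ∪ nz i v, ∑ y' ∈ nz i w' ∪ nz i v',
          DD i (Pi.single y 1 + Pi.single y' 1 : P → ℕ) w v *
            DD i (Pi.single y 1 + Pi.single y' 1 : P → ℕ) w' v' =
          DD i (Pi.single y 1 : P → ℕ) w v *
            ∑ y' ∈ nz i w' ∪ nz i v', DD i (Pi.single y' 1 : P → ℕ) w' v' := by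
        intro y hy
        rw [mul_sum]
        refine sum_congr rfl fun y' hy' => ?_
        rw [DD_two Q (lvL Q hy) hy', add_comm (Pi.single y 1 : P → ℕ) (Pi.single y' 1),
          DD_two Q.sym (lvL Q.sym hy') hy]
      refine (sum_congr rfl key).trans ?_
      rw [← sum_mul, DD_sum3 Q, zero_mul]
    · rintro ⟨y, y'⟩ hq ⟨z, z'⟩ hq' h
      rw [mem_coe, mem_product] at hq hq'
      simp only at h hq hq'
      have hd := dLR' Q
      have n1 : y ≠ z' := fun h' => disjoint_left.1 hd hq.1 (by rw [h']; exact hq'.2)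
      have n2 : z ≠ y' := fun h' => disjoint_left.1 hd hq'.1 (by rw [h']; exact hq.2)
      have e1 := congrFun h y
      have e2 := congrFun h y'
      rw [Pi.add_apply, Pi.add_apply, Pi.single_eq_same, Pi.single_eq_of_ne n1] at e1
      rw [Pi.add_apply, Pi.add_apply, Pi.single_eq_same,
        Pi.single_eq_of_ne (M := fun _ => ℕ) (i := z) (i' := y') n2.symm] at e2
      have f1 : y = z := by
        by_contra hne
        rw [Pi.single_eq_of_ne hne] at e1
        omega
      have f2 : y' = z' := by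
        by_contra hne
        rw [Pi.single_eq_of_ne hne] at e2
        omega
      rw [f1, f2]
  have h1 := Q.sum2 (fun e => lc (st i C).card 2 (J9 i K psi C w v w' v' e 1 1 0) -
    if e ∈ T then DD i e w v * DD i e w' v' else 0) (by
      intro e hs hch hc hE
      show lc (st i C).card 2 (J9 i K psi C w v w' v' e 1 1 0) -
        (if e ∈ T then DD i e w v * DD i e w' v' else 0) = 0
      have ho : od (st i C).card 0 (tC i C e) := SO.dvd_up (SO.cheap_dvd Q.H Q.hC hs hch)
      have h2 := Q.J110 hc hs ho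
      rw [zero_add] at h2
      rw [h2]
      by_cases hT : e ∈ T
      · rw [if_pos hT, ((TSc e hT).1.val (C := C) Q.H Q.hi Q.hi2).2.2.2.2.2]
        ring
      · rw [if_neg hT]
        by_cases hL : DD i e w v = 0
        · rw [hL]; ring
        by_cases hR : DD i e w' v' = 0
        · rw [hR]; ring
        exact absurd ((memT e).2 (two_sites Q D (mem_Co.2 ⟨hE, hs, hc⟩) hL hR)) hT)
  rw [sum_sub_distrib] at h1
  have h2 : ∑ e ∈ Co i K psi C 2, (if e ∈ T then DD i e w v * DD i e w' v' else 0) = 0 := by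
    rw [← sum_filter, (filter_mem_eq_inter : (Co i K psi C 2).filter (fun e => e ∈ T) = _),
      inter_eq_right.2 Tsub, sT]
  rw [h2, sub_zero] at h1
  rw [h1]
  have h3 : ∀ p ∈ PN i C, (fun e => lc (st i C).card 2 (J9 i K psi C w v w' v' e 1 1 0) -
      if e ∈ T then DD i e w v * DD i e w' v' else 0) (on (con i p)) =
      vp i p * NN i w v p * oo i C w' v' + vp i p * NN i w' v' p * oo i C w v := by
    intro p hp
    have hnT : on (con i p) ∉ T := by
      intro h
      obtain ⟨y, hy, y', hy', h'⟩ := (memT _).1 h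
      have h4 := congrFun h' y
      rw [pd_site Q.H hp (lvL Q hy), Pi.add_apply, Pi.single_eq_same] at h4
      omega
    show lc (st i C).card 2 (J9 i K psi C w v w' v' (on (con i p)) 1 1 0) -
      (if on (con i p) ∈ T then _ else 0) = _
    rw [if_neg hnT, sub_zero, pend Q D hp]
  rw [sum_congr rfl h3, sum_add_distrib, ← sum_mul, ← sum_mul]
  ring

end

end Pool.Agent.GaussPoset.Win.Pb
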