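import Pool.Agent.W_448p_h97.PbP

/-!
MP_448cb3_co, G2, case B, window `j`: THE VALUES (2,1) and (4,2) of a component with two stars.  helper97.
-/

namespace Pool.Agent.GaussPoset.Win.Pb

set_option linter.unusedSectionVars false

open Finset W4 Pa
open Pool.Agent.GaussPoset.Win.So (IV IV_chi IV_Fe)
open Pool.Agent.GaussPoset.Win.SO (PN vp con on con_sub)

universe u

variable {P : Type u} [Fintype P] [PartialOrder P] [DecidableEq P] {r i : ℕ}
variable {e f : P → ℕ} {psi : P → P} {C K : Finset P} {w v w' v' : P}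

lemma tri1 (g : ℕ → ℕ → ℕ → ℤ) : ∑ p ∈ antidiagonal 1, ∑ t ∈ antidiagonal p.2,
    (if p.1 ≠ 0 ∧ t.1 ≠ 0 then g p.1 t.1 t.2 else 0) = 0 := by
  simp [Finset.Nat.antidiagonal_succ]

lemma tri0 (g : ℕ → ℕ → ℕ → ℤ) : ∑ p ∈ antidiagonal 0, ∑ t ∈ antidiagonal p.2,
    (if p.1 ≠ 0 ∧ t.1 ≠ 0 then g p.1 t.1 t.2 else 0) = 0 := by
  simp

lemma tri2 (g : ℕ → ℕ → ℕ → ℤ) : ∑ p ∈ antidiagonal 2, ∑ t ∈ antidiagonal p.2,
    (if p.1 ≠ 0 ∧ t.1 ≠ 0 then g p.1 t.1 t.2 else 0) = g 1 1 0 := by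
  simp [Finset.Nat.antidiagonal_succ]

lemma tri3 (g : ℕ → ℕ → ℕ → ℤ) : ∑ p ∈ antidiagonal 3, ∑ t ∈ antidiagonal p.2,
    (if p.1 ≠ 0 ∧ t.1 ≠ 0 then g p.1 t.1 t.2 else 0) = g 1 1 1 + g 1 2 0 + g 2 1 0 := by
  simp [Finset.Nat.antidiagonal_succ]

lemma tri4 (g : ℕ → ℕ → ℕ → ℤ) : ∑ p ∈ antidiagonal 4, ∑ t ∈ antidiagonal p.2,
    (if p.1 ≠ 0 ∧ t.1 ≠ 0 then g p.1 t.1 t.2 else 0) =
      g 1 1 2 + g 1 2 1 + g 1 3 0 + g 2 1 1 + g 2 2 0 + g 3 1 0 := by
  simp [Finset.Nat.antidiagonal_succ]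
  ring

section

variable {a b c a' b' c' : P} (Q : K9c r i K psi C w v w' v' a b c a' b' c')
include Q

lemma lc_ZLR (n l : ℕ) : lc (st i C).card l (ZLR i K psi C w v w' v' n) =
    ∑ q ∈ range (n + 1), ∑ e ∈ Co i K psi C q, ∑ p ∈ antidiagonal (n - q),
      ∑ t ∈ antidiagonal p.2, if p.1 ≠ 0 ∧ t.1 ≠ 0 then
        lc (st i C).card l (J9 i K psi C w v w' v' e p.1 t.1 t.2) else 0 := by
  unfold ZLR
  simp only [lc_sum]
  refine sum_congr rfl fun q _ => sum_congr rfl fun e _ => sum_congr rfl fun p _ =>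
    sum_congr rfl fun t _ => ?_
  split_ifs
  · rfl
  · exact lc_zero _ _

/-- the mixed terms at (2,1) -/
theorem ZLR_two : lc (st i C).card 1 (ZLR i K psi C w v w' v' 2) = 0 := by
  rw [lc_ZLR Q, sum_range_succ, sum_range_succ, sum_range_one]
  have h0 : ∑ e ∈ Co i K psi C 0, ∑ p ∈ antidiagonal (2 - 0), ∑ t ∈ antidiagonal p.2,
      (if p.1 ≠ 0 ∧ t.1 ≠ 0 then
        lc (st i C).card 1 (J9 i K psi C w v w' v' e p.1 t.1 t.2) else 0) = 0 := by
    rw [Co_zero Q.H, sum_singleton, Nat.sub_zero,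
      tri2 (fun x y z => lc (st i C).card 1 (J9 i K psi C w v w' v' (0 : P → ℕ) x y z))]
    have hS0 : Sc i (0 : P → ℕ) := fun _ _ => rfl
    have h := (J_iso_R Q hS0 (fun _ _ => rfl) 1 one_ne_zero).2
    rw [show rk 1 (bt i (0 : P → ℕ) w v b) = 1 from rfl, Q.L0_100, zero_mul] at h
    exact h
  have h1 : ∑ e ∈ Co i K psi C 1, ∑ p ∈ antidiagonal (2 - 1), ∑ t ∈ antidiagonal p.2,
      (if p.1 ≠ 0 ∧ t.1 ≠ 0 then
        lc (st i C).card 1 (J9 i K psi C w v w' v' e p.1 t.1 t.2) else 0) = 0 :=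
    sum_eq_zero fun e _ => tri1 (fun x y z => lc (st i C).card 1 (J9 i K psi C w v w' v' e x y z))
  have h2 : ∑ e ∈ Co i K psi C 2, ∑ p ∈ antidiagonal (2 - 2), ∑ t ∈ antidiagonal p.2,
      (if p.1 ≠ 0 ∧ t.1 ≠ 0 then
        lc (st i C).card 1 (J9 i K psi C w v w' v' e p.1 t.1 t.2) else 0) = 0 :=
    sum_eq_zero fun e _ => tri0 (fun x y z => lc (st i C).card 1 (J9 i K psi C w v w' v' e x y z))
  rw [h0, h1, h2]
  norm_num

/-- the terms without labels on the stars at (2,1) -/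
theorem Z00_two : lc (st i C).card 1 (Z00 i K psi C w v w' v' 2) = ∑ p ∈ PN i C, vp i p := by
  have Q5 := k5L Q.toK9
  unfold Z00
  rw [lc_sum, sum_range_succ, sum_eq_zero, zero_add, lc_sum]
  · rw [Q.sum2 (fun e => lc (st i C).card 1 (J9 i K psi C w v w' v' e 0 0 (2 - 2)))]
    · refine sum_congr rfl fun p hp => ?_
      obtain ⟨-, -, -, hA, ho, hv⟩ := pd_val Q.H Q.hi Q.hi2 Q.hC hp
      have h := Q.J000 (c2_core Q.H hp) (c2_spt Q.H Q.hC hp) ho
      rw [hv] at h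
      exact h
    · intro e hs hch hc hE
      have ho : od (st i C).card 0 (tC i C e) := SO.dvd_up (SO.cheap_dvd Q.H Q.hC hs hch)
      have h := Q.J9_od hch Q.hb Q.hb1 Q.hb' Q.hb1' 0 0 0
      exact lc_lt (by unfold rk; simp) h
  · intro q hq
    rw [mem_range] at hq
    rw [lc_sum]
    refine sum_eq_zero fun e he => ?_
    obtain ⟨h1, h2, h3⟩ := mem_Co.1 he
    have h := Q.J9_od (Q5.cheap0 h3 h2 (by omega)) Q.hb Q.hb1 Q.hb' Q.hb1' 0 0 (2 - q)
    exact lc_lt (by unfold rk; simp) h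

/-- the terms without labels on the stars at (4,2) -/
theorem Z00_four (hb : 1 ≤ (st i C).card) : 2 * lc (st i C).card 2 (Z00 i K psi C w v w' v' 4) =
    ∑ q ∈ P4 i C, vp i q.1 * vp i q.2 - 2 * ((Z4 i C).card - (T4 i C).card : ℤ) := by
  have Q5 := k5L Q.toK9
  rw [← Q5.sum4 hb]
  congr 1
  unfold Z00
  rw [lc_sum, sum_range_succ, sum_eq_zero, zero_add, lc_sum]
  · refine sum_congr rfl fun e he => ?_
    obtain ⟨h1, h2, h3⟩ := mem_Co.1 he
    rw [Nat.sub_self, J9_m0L Q]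
    have h4 : (fun S => Fe i e S * (WW i e w v 0 S * 1)) = Fe i e := by
      funext S
      rw [WW0 Q.H Q.hir Q.nw Q.nv]
      ring
    rw [h4]
    exact congrArg (lc (st i C).card 2) (IV_Fe Q.H Q.part h2)
  · intro q hq
    rw [mem_range] at hq
    rw [lc_sum]
    refine sum_eq_zero fun e he => ?_
    obtain ⟨h1, h2, h3⟩ := mem_Co.1 he
    have h := Q.J9_od (Q5.cheap1 h3 h2 (by omega)) Q.hb Q.hb1 Q.hb' Q.hb1' 0 0 (4 - q)
    exact lc_lt (by unfold rk; simp) h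

/-- the leading coefficient of a star with one attached near element -/
theorem qq_val : qq i K psi C w v = dg i K C a - dg i K C c - W4.mm i K C {a, b} +
    W4.mm i K C {b, c} := by
  have hS0 : Sc i (0 : P → ℕ) := fun _ _ => rfl
  have Q5 := k5L Q.toK9
  have h1 := L0_011 Q.sym
  rw [← h1, J9_sym, J9_left Q.toK9 (hS0.core Q.H), an1, lc_add]
  obtain ⟨-, -, -, -, z5, z6⟩ := Q5.zero_vals Q.uw Q.dv Q.nab Q.nbc Q.nac
  show lc (st i C).card 1 (Jx i K psi C w v 0 0 1 1) + lc (st i C).card 1 (Jx i K psi C w v 0 1 0 1) = _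
  rw [z5, z6]
  unfold Dg
  rw [sum_pair Q.nab, sum_pair Q.nbc]
  ring

variable {U U' : Finset P} (D : Sep i C w v w' v' U U')
include D

/-- the mixed terms at (4,2) -/
theorem ZLR_four : lc (st i C).card 2 (ZLR i K psi C w v w' v' 4) =
    qq i K psi C w v * qq i K psi C w' v' +
      oo i C w' v' * (∑ p ∈ PN i C, vp i p * NN i w v p - 1) +
      oo i C w v * (∑ p ∈ PN i C, vp i p * NN i w' v' p - 1) := by
  rw [lc_ZLR Q, sum_range_succ, sum_range_succ, sum_range_succ, sum_range_succ, sum_range_one]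
  have h0 : ∑ e ∈ Co i K psi C 0, ∑ p ∈ antidiagonal (4 - 0), ∑ t ∈ antidiagonal p.2,
      (if p.1 ≠ 0 ∧ t.1 ≠ 0 then
        lc (st i C).card 2 (J9 i K psi C w v w' v' e p.1 t.1 t.2) else 0) =
      qq i K psi C w v * qq i K psi C w' v' := by
    rw [Co_zero Q.H, sum_singleton, Nat.sub_zero,
      tri4 (fun x y z => lc (st i C).card 2 (J9 i K psi C w v w' v' (0 : P → ℕ) x y z)),
      L0_112 Q D, L0_m1 Q D one_ne_zero two_ne_zero, L0_m1 Q D two_ne_zero one_ne_zero,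
      L0_m0 Q D (by norm_num), L0_m0 Q D two_ne_zero, L0_m0 Q D one_ne_zero]
    ring
  have h1 : ∑ e ∈ Co i K psi C 1, ∑ p ∈ antidiagonal (4 - 1), ∑ t ∈ antidiagonal p.2,
      (if p.1 ≠ 0 ∧ t.1 ≠ 0 then
        lc (st i C).card 2 (J9 i K psi C w v w' v' e p.1 t.1 t.2) else 0) =
      - oo i C w v - oo i C w' v' := by
    rw [sum_congr rfl fun e _ => tri3
      (fun x y z => lc (st i C).card 2 (J9 i K psi C w v w' v' e x y z)), sum_add_distrib,
      sum_add_distrib, S1_111 Q D, S1_210 Q]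
    have h2 : ∑ e ∈ Co i K psi C 1, lc (st i C).card 2 (J9 i K psi C w v w' v' e 1 2 0) =
        - oo i C w v := by
      rw [← S1_210 Q.sym]
      exact sum_congr rfl fun e _ => by rw [J9_sym]
    rw [h2]
    ring
  have h2 : ∑ e ∈ Co i K psi C 2, ∑ p ∈ antidiagonal (4 - 2), ∑ t ∈ antidiagonal p.2,
      (if p.1 ≠ 0 ∧ t.1 ≠ 0 then
        lc (st i C).card 2 (J9 i K psi C w v w' v' e p.1 t.1 t.2) else 0) =
      oo i C w' v' * ∑ p ∈ PN i C, vp i p * NN i w v p +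
      oo i C w v * ∑ p ∈ PN i C, vp i p * NN i w' v' p := by
    rw [sum_congr rfl fun e _ => tri2
      (fun x y z => lc (st i C).card 2 (J9 i K psi C w v w' v' e x y z)), S2_110 Q D]
  have h3 : ∑ e ∈ Co i K psi C 3, ∑ p ∈ antidiagonal (4 - 3), ∑ t ∈ antidiagonal p.2,
      (if p.1 ≠ 0 ∧ t.1 ≠ 0 then
        lc (st i C).card 2 (J9 i K psi C w v w' v' e p.1 t.1 t.2) else 0) = 0 :=
    sum_eq_zero fun e _ => tri1 (fun x y z => lc (st i C).card 2 (J9 i K psi C w v w' v' e x y z))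
  have h4 : ∑ e ∈ Co i K psi C 4, ∑ p ∈ antidiagonal (4 - 4), ∑ t ∈ antidiagonal p.2,
      (if p.1 ≠ 0 ∧ t.1 ≠ 0 then
        lc (st i C).card 2 (J9 i K psi C w v w' v' e p.1 t.1 t.2) else 0) = 0 :=
    sum_eq_zero fun e _ => tri0 (fun x y z => lc (st i C).card 2 (J9 i K psi C w v w' v' e x y z))
  rw [h0, h1, h2, h3, h4]
  ring

end

end Pool.Agent.GaussPoset.Win.Pb
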