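import Pool.Agent.W_448p_h97.PbQ

/-!
MP_448cb3_co, G2, case B, window `j`: THE FORM of one star and of a component with two stars
(the statements of `W_448w4_h10` for a star in a larger set `K` of unmatched doubles, the same proofs:
written by a script from the files of helper10).  helper97.
-/

namespace Pool.Agent.GaussPoset.Win.Pb

set_option linter.unusedSectionVars false

open Finset W4
open Pool.Agent.GaussPoset.Win.So (IV IV_chi IV_Fe)
open Pool.Agent.GaussPoset.Win.SO (LowD UppD val_gen PN vp con on)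

universe u

variable {P : Type u} [Fintype P] [PartialOrder P] [DecidableEq P] {r i : ℕ}
variable {e f : P → ℕ} {psi : P → P} {C K : Finset P} {w v : P}

/-- the value of `al ^ 2 - 2 be` for one star -/
noncomputable def fW (i : ℕ) (K C : Finset P) (w v p q s : P) : ℤ :=
      ∑ q ∈ M4 i C, vp i q.1 * vp i q.2 + 2 * ((Z4 i C).card - (T4 i C).card : ℤ) + 6 -
      2 * ∑ z ∈ Z4 i C, tz i z * (Nx i w z - Nx i v z) -
      ∑ z ∈ PN i C, vp i z * (ch i C z * (Nx i w z - Nx i v z) + 2 * (Mx i w z - Mx i v z)) -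
      2 * ∑ z ∈ PN i C, vp i z * (Nx i w z * (dg i K C p + Ds i K C (sit i z) {p, q}) -
        Nx i v z * (dg i K C s + Ds i K C (sit i z) {q, s})) +
      2 * (dg i K C p + dg i K C s + dg i K C q - 2 * W4.mm i K C {p, q}
        - 2 * W4.mm i K C {q, s} - W4.mm i K C {p, s}) +
      2 * (∑ z ∈ PN i C, vp i z) *
        (dg i K C p - dg i K C s - W4.mm i K C {p, q} + W4.mm i K C {q, s}) +
      (dg i K C p - dg i K C s - W4.mm i K C {p, q} + W4.mm i K C {q, s}) ^ 2

lemma Dg_split {T U : Finset P} (h : Disjoint U T) :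
    Dg i K C (T ∪ U) = Vc i K C + ∑ y ∈ U, dg i K C y + Ds i K C T U := by
  unfold Dg Ds
  rw [sum_union h.symm]
  ring

section

variable (Q : K5w r i K psi C w v) {p q s : P} (hw : uc w = {p, q}) (hv : dc v = {q, s})
  (hpq : p ≠ q) (hqs : q ≠ s) (hps : p ≠ s)
include Q hw hv hpq hqs hps

/-- THE FORM of one star -/
theorem K5w.form (h3 : ∑ z ∈ PN i C, vp i z * (Nx i w z - Nx i v z) = 1) :
    lc (st i C).card 1 (ZW i K psi C w v 2) ^ 2 - 2 * lc (st i C).card 2 (ZW i K psi C w v 4) =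
      fW i K C w v p q s := by
  unfold fW
  obtain ⟨hw2, hv2, hq, hq'⟩ := Q.cards hw hv hpq hqs hps
  have nw := Q.nzw hw hv hpq hqs hps
  have nv := Q.nzv hw hv hpq hqs hps
  have hb : 1 ≤ (st i C).card := by
    obtain ⟨l1, l2, l3⟩ := Q.lpq hw hv hpq hqs hps
    obtain ⟨m1, m2, m3⟩ := Q.memC hw hv hpq hqs hps
    exact card_pos.2 ⟨p, mem_st.2 ⟨m1, l1⟩⟩
  rw [Q.be4_raw hw hv hpq hqs hps hb, Q.al2_raw hw hv hpq hqs hps]
  have e1 : ∑ z ∈ PN i C, vp i z * (Nx i w z * (1 + Dg i K C (sit i z ∪ nz i w)) -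
      Nx i v z * (1 + Dg i K C (sit i z ∪ nz i v))) =
      (1 + Vc i K C + dg i K C q) * ∑ z ∈ PN i C, vp i z * (Nx i w z - Nx i v z) +
      ∑ z ∈ PN i C, vp i z * (Nx i w z * (dg i K C p + Ds i K C (sit i z) {p, q}) -
        Nx i v z * (dg i K C s + Ds i K C (sit i z) {q, s})) := by
    rw [mul_sum, ← sum_add_distrib]
    refine sum_congr rfl fun z _ => ?_
    have a1 : Nx i w z * (1 + Dg i K C (sit i z ∪ nz i w)) =
        Nx i w z * (1 + (Vc i K C + (dg i K C p + dg i K C q) + Ds i K C (sit i z) {p, q})) := by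
      unfold Nx
      by_cases h : Disjoint (nz i w) (sit i z)
      · rw [Dg_split h, nw, sum_pair hpq]
      · rw [if_neg h, zero_mul, zero_mul]
    have a2 : Nx i v z * (1 + Dg i K C (sit i z ∪ nz i v)) =
        Nx i v z * (1 + (Vc i K C + (dg i K C q + dg i K C s) + Ds i K C (sit i z) {q, s})) := by
      unfold Nx
      by_cases h : Disjoint (nz i v) (sit i z)
      · rw [Dg_split h, nv, sum_pair hqs]
      · rw [if_neg h, zero_mul, zero_mul]
    rw [a1, a2]
    ring
  have e2 : ∑ z ∈ PN i C, vp i z * ((2 * ((st i C).card - 8) + ch i C z) *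
      (Nx i w z - Nx i v z) + 2 * (Mx i w z - Mx i v z)) =
      2 * ((st i C).card - 8) * ∑ z ∈ PN i C, vp i z * (Nx i w z - Nx i v z) +
      ∑ z ∈ PN i C, vp i z * (ch i C z * (Nx i w z - Nx i v z) + 2 * (Mx i w z - Mx i v z)) := by
    rw [mul_sum, ← sum_add_distrib]
    exact sum_congr rfl fun z _ => by ring
  have e3 := pairs_split i C
  rw [e1, e2, h3]
  linear_combination e3

end


end Pool.Agent.GaussPoset.Win.Pb
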