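import Pool.Agent.W_448p_h97.PbT

/-!
MP_448cb3_co, G2, case B, window `j`: the mirror image of a row, and THE VALUE `F` of a component with the
pattern [DL] at both ends.  helper97.
-/

namespace Pool.Agent.GaussPoset.Win.Pb

set_option linter.unusedSectionVars false

open Finset W4 Pa
open Pool.Agent.GaussPoset.Win.SO (PN vp con on mem_PN vp_PD vp_PU)

universe u

variable {P : Type u} [Fintype P] [PartialOrder P] [DecidableEq P] {r i : ℕ}
variable {psi : P → P} {C K : Finset P} {w v w' v' : P} {m : ℕ} {x : ℕ → P}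

/-! ### matched near elements -/

section

variable (Q : K9 r i K psi C w v w' v')
include Q

lemma near_C {y z : P} (hy : y ∈ C) (hl : lev y = i) (hz : z ∈ dc y ∨ z ∈ uc y) : z ∈ C := by
  rcases hz with h | h
  · have h1 := lev_cov Q.H (mem_dc.1 h)
    exact Q.hC.dn hy (by omega) (mem_dc.1 h)
  · exact Q.hC.up hy (mem_uc.1 h)

/-- the number of matched near elements at a site, two stars -/
theorem K9_dg {y : P} (hy : y ∈ C) (hl : lev y = i) :
    dg i K C y = ((dc y).card : ℤ) + (uc y).card
      - (if y ∈ uc w then 1 else 0) - (if y ∈ dc v then 1 else 0)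
      - (if y ∈ uc w' then 1 else 0) - (if y ∈ dc v' then 1 else 0) := by
  classical
  have hd : Disjoint (dc y) (uc y) := by
    rw [disjoint_left]
    intro z h1 h2
    have := lev_cov Q.H (mem_dc.1 h1)
    have := lev_cov Q.H (mem_uc.1 h2)
    omega
  have e1 : (N0 i K C).filter (fun z => y ∈ nz i z) =
      ((dc y).erase w).erase w' ∪ ((uc y).erase v).erase v' := by
    ext z
    rw [mem_filter, mem_N0, mem_union, mem_erase, mem_erase, mem_erase, mem_erase]
    constructor
    · rintro ⟨⟨h1, h2, h3⟩, h4⟩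
      have h5 := fun hh => h3 ((Q.hK z h2).2 hh)
      rcases (kf_site Q.H hl).1 ⟨h1, h4⟩ with h | h
      · exact Or.inl ⟨fun e => h5 (by tauto), fun e => h5 (by tauto), h⟩
      · exact Or.inr ⟨fun e => h5 (by tauto), fun e => h5 (by tauto), h⟩
    · have lw := Q.lw
      have lw' := Q.lw'
      have lv := Q.lv
      have lv' := Q.lv'
      rintro (⟨h1, h1', h2⟩ | ⟨h1, h1', h2⟩)
      · obtain ⟨h3, h4⟩ := (kf_site Q.H hl).2 (Or.inl h2)
        have h5 := near_C Q hy hl (Or.inl h2)
        have h7 := lev_cov Q.H (mem_dc.1 h2)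
        refine ⟨⟨h3, h5, fun h6 => ?_⟩, h4⟩
        rcases (Q.hK z h5).1 h6 with h | h | h | h
        · exact h1' h
        · rw [h] at h7
          omega
        · exact h1 h
        · rw [h] at h7
          omega
      · obtain ⟨h3, h4⟩ := (kf_site Q.H hl).2 (Or.inr h2)
        have h5 := near_C Q hy hl (Or.inr h2)
        have h7 := lev_cov Q.H (mem_uc.1 h2)
        refine ⟨⟨h3, h5, fun h6 => ?_⟩, h4⟩
        rcases (Q.hK z h5).1 h6 with h | h | h | h
        · rw [h] at h7
          omega
        · exact h1' h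
        · rw [h] at h7
          omega
        · exact h1 h
  have hd' : Disjoint (((dc y).erase w).erase w') (((uc y).erase v).erase v') :=
    Disjoint.mono ((erase_subset _ _).trans (erase_subset _ _))
      ((erase_subset _ _).trans (erase_subset _ _)) hd
  have key : ∀ (S : Finset P) (a b : P), a ≠ b → (((S.erase a).erase b).card : ℤ) =
      S.card - (if a ∈ S then 1 else 0) - (if b ∈ S then 1 else 0) := by
    intro S a b hab
    have k1 : ∀ (S : Finset P) (a : P), ((S.erase a).card : ℤ) =
        S.card - (if a ∈ S then 1 else 0) := by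
      intro S a
      by_cases h : a ∈ S
      · rw [card_erase_of_mem h, if_pos h]
        have := card_pos.2 ⟨a, h⟩
        omega
      · rw [erase_eq_of_notMem h, if_neg h]
        omega
    rw [k1, k1]
    have : b ∈ S.erase a ↔ b ∈ S := by
      rw [mem_erase]
      exact ⟨fun h => h.2, fun h => ⟨hab.symm, h⟩⟩
    simp only [this]
  have m1 : ∀ a : P, a ∈ dc y ↔ y ∈ uc a := fun a => by rw [mem_dc, mem_uc]
  have m2 : ∀ a : P, a ∈ uc y ↔ y ∈ dc a := fun a => by rw [mem_dc, mem_uc]
  unfold dg
  rw [e1, card_union_of_disjoint hd']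
  push_cast
  rw [key _ _ _ Q.nww, key _ _ _ Q.nvv]
  simp only [m1, m2]
  ring

/-- the matched lower doubles over a pair, two stars -/
theorem K9_mm {a b : P} (ha : a ∈ C) (hl : lev a = i) (hab : a ≠ b) :
    W4.mm i K C {a, b} = (dcv a b : ℤ) - (if uc w = {a, b} then 1 else 0) -
      (if uc w' = {a, b} then 1 else 0) := by
  classical
  have e1 : (N0 i K C).filter (fun z => z ∈ dbL P i ∧ nz i z ⊆ {a, b}) =
      ((univ.filter (fun y : P => y ⋖ a ∧ y ⋖ b)).erase w).erase w' := by
    ext z
    rw [mem_filter, mem_N0, mem_erase, mem_erase, mem_filter]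
    constructor
    · rintro ⟨⟨h1, h2, h3⟩, h4, h5⟩
      obtain ⟨h6, h7⟩ := mem_dbL.1 h4
      rw [nz_low h6] at h5
      have h8 : uc z = {a, b} := by
        refine eq_of_subset_of_card_le h5 ?_
        rw [card_pair hab, h7]
      have h9 := fun hh => h3 ((Q.hK z h2).2 hh)
      refine ⟨fun e => h9 (by tauto), fun e => h9 (by tauto), mem_univ _, ?_, ?_⟩
      · exact mem_uc.1 (by rw [h8]; exact mem_insert_self _ _)
      · exact mem_uc.1 (by rw [h8]; exact mem_insert_of_mem (mem_singleton_self _))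
    · rintro ⟨h1', h1, -, h2, h3⟩
      have h4 := StB_uc_pair Q.H h2 h3 hab
      have h5 := lev_cov Q.H h2
      have h6 : lev z = i + 1 := by omega
      have h7 : z ∈ dbL P i := mem_dbL.2 ⟨h6, by rw [h4, card_pair hab]⟩
      have h8 := near_C Q ha hl (Or.inl (mem_dc.2 h2))
      refine ⟨⟨mem_near.2 (Or.inl h6), h8, fun h9 => ?_⟩, h7, by rw [nz_low h6, h4]⟩
      have lv := Q.lv
      have lv' := Q.lv'
      rcases (Q.hK z h8).1 h9 with h | h | h | h
      · exact h1 h
      · rw [h] at h6
        omega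
      · exact h1' h
      · rw [h] at h6
        omega
  have e2 : ∀ w : P, (uc w = {a, b}) ↔ w ∈ univ.filter (fun y : P => y ⋖ a ∧ y ⋖ b) := by
    intro w
    rw [mem_filter]
    constructor
    · intro h1
      refine ⟨mem_univ _, mem_uc.1 ?_, mem_uc.1 ?_⟩
      · rw [h1]; exact mem_insert_self _ _
      · rw [h1]; exact mem_insert_of_mem (mem_singleton_self _)
    · rintro ⟨-, h1, h2⟩
      exact StB_uc_pair Q.H h1 h2 hab
  have e3 : W4.mm i K C {a, b} = (((N0 i K C).filter
      (fun z => z ∈ dbL P i ∧ nz i z ⊆ {a, b})).card : ℤ) := rfl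
  have e4 : dcv a b = (univ.filter (fun y : P => y ⋖ a ∧ y ⋖ b)).card := rfl
  have key : ∀ (S : Finset P) (a b : P), a ≠ b → (((S.erase a).erase b).card : ℤ) =
      S.card - (if a ∈ S then 1 else 0) - (if b ∈ S then 1 else 0) := by
    intro S a b hab
    have k1 : ∀ (S : Finset P) (a : P), ((S.erase a).card : ℤ) =
        S.card - (if a ∈ S then 1 else 0) := by
      intro S a
      by_cases h : a ∈ S
      · rw [card_erase_of_mem h, if_pos h]
        have := card_pos.2 ⟨a, h⟩
        omega
      · rw [erase_eq_of_notMem h, if_neg h]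
        omega
    rw [k1, k1]
    have : b ∈ S.erase a ↔ b ∈ S := by
      rw [mem_erase]
      exact ⟨fun h => h.2, fun h => ⟨hab.symm, h⟩⟩
    simp only [this]
  rw [e3, e1, key _ _ _ Q.nww, e4]
  simp only [e2]

end

/-! ### the mirror image -/

lemma ucv_comm' (a b : P) : ucv a b = ucv b a := by
  classical
  unfold ucv
  congr 1
  ext y
  simp only [mem_filter, mem_univ, true_and]
  exact and_comm

lemma prow_mirror (W : PRow r i C m x) (hm : 1 ≤ m) : PRow r i C m (fun k => x (m - k)) where
  H := W.H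
  hi := W.hi
  hi2 := W.hi2
  hC := W.hC
  lev_x := fun k _ => W.lev_x (m - k) (by omega)
  inj := fun k l hk hl e => by
    have := W.inj (m - k) (m - l) (by omega) (by omega) e
    omega
  mem := fun k _ => W.mem (m - k) (by omega)
  surj := fun y hy hl => by
    obtain ⟨k, hk, e⟩ := W.surj y hy hl
    refine ⟨m - k, by omega, ?_⟩
    show x (m - (m - k)) = y
    rw [show m - (m - k) = k by omega, e]
  up := fun k l hkl hl => by
    show ucv (x (m - k)) (x (m - l)) = _
    rw [ucv_comm', W.up (m - l) (m - k) (by omega) (by omega)]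
    by_cases h : l = k + 1
    · rw [if_pos h, if_pos (by omega)]
    · rw [if_neg h, if_neg (by omega)]
  up1 := W.up1
  pu := fun a h1 h2 y hy hy' z hz => by
    refine W.pu (m - a - 1) (by omega) (by omega) y ?_ ?_ z hz
    · have : x (m - (a + 1)) ⋖ y := hy'
      rwa [show m - (a + 1) = m - a - 1 by omega] at this
    · have : x (m - a) ⋖ y := hy
      rwa [show m - a - 1 + 1 = m - a by omega]
  uc1 := W.uc1
  pen0 := fun a h1 h2 => W.pen0 (m - a) (by omega) (by omega)
  e0 := fun h0 u h1 h2 => by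
    have h0' : (uc (x (m - 0))).card = 2 := h0
    have h1' : x (m - 0) ⋖ u := h1
    rw [Nat.sub_zero] at h0' h1'
    exact W.em h0' u h2 h1'
  em := fun h0 u h1 h2 => by
    have h0' : (uc (x (m - m))).card = 2 := h0
    have h1' : x (m - (m - 1)) ⋖ u := h1
    have h2' : x (m - m) ⋖ u := h2
    rw [show m - m = 0 by omega] at h0' h2'
    rw [show m - (m - 1) = 1 by omega] at h1'
    exact W.e0 h0' u h2' h1'
  cl := W.cl
  zu := W.zu

lemma ed_mirror {k : ℕ} (hk : k < m) : ed (fun k => x (m - k)) k = ed x (m - 1 - k) := by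
  unfold ed
  show ({x (m - k), x (m - (k + 1))} : Finset P) = _
  rw [pair_comm, show m - (k + 1) = m - 1 - k by omega, show m - 1 - k + 1 = m - k by omega]

lemma NE_mirror {k : ℕ} (hk : k < m) : NE i C (fun k => x (m - k)) k = NE i C x (m - 1 - k) := by
  rw [NE_eq, NE_eq, ed_mirror hk]

lemma CH_mirror {k : ℕ} (hk : k < m) : CH i C (fun k => x (m - k)) k = CH i C x (m - 1 - k) := by
  unfold CH
  rw [ed_mirror hk]

theorem DLe.mirror (h : DLe r i K C w v w' v' m x) (lw : lev w' = i + 1) (lv : lev v' + 1 = i) :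
    DLe r i K C w' v' w v m (fun k => x (m - k)) := by
  have hm := h.hm
  refine ⟨prow_mirror h.W (by omega), hm, ?_, ?_, lw, lv, ?_, ?_, ?_, ?_, ?_, ?_, ?_⟩
  · intro y hy hl
    rw [h.hg y hy hl]
    ring
  · intro a b hab hb
    show W4.mm i K C {x (m - a), x (m - b)} = (dcv (x (m - a)) (x (m - b)) : ℤ) - _ - _
    rw [pair_comm, h.hmm (m - b) (m - a) (by omega) (by omega), kf_dcv_comm]
    have e1 : (m - b = 0 ∧ m - a = 1) ↔ (a + 1 = m ∧ b = m) := by omega
    have e2 : (m - b + 1 = m ∧ m - a = m) ↔ (a = 0 ∧ b = 1) := by omega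
    simp only [e1, e2]
    ring
  · show uc w' = {x (m - 0), x (m - 1)}
    rw [h.hw', Nat.sub_zero]
  · show dc v' = {x (m - 1), x (m - 2)}
    exact h.hv'
  · show uc w = {x (m - m), x (m - (m - 1))}
    rw [h.hw, show m - m = 0 by omega, show m - (m - 1) = 1 by omega]
  · show dc v = {x (m - (m - 1)), x (m - (m - 2))}
    rw [h.hv, show m - (m - 1) = 1 by omega, show m - (m - 2) = 2 by omega]
  · intro k l hkl hl
    show dcv (x (m - k)) (x (m - l)) = _
    rw [kf_dcv_comm, h.dn (m - l) (m - k) (by omega) (by omega)]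
    by_cases e : l = k + 1
    · rw [if_pos e, if_pos (by omega)]
      unfold dk
      split_ifs <;> omega
    · rw [if_neg e, if_neg (by omega)]
  · rw [NE_mirror (by omega), show m - 1 - 2 = m - 3 by omega, h.n2']
  · rw [NE_mirror (by omega), show m - 1 - (m - 3) = 2 by omega, h.n2]

/-- the row data of a component with two stars -/
theorem DLe.of (Q : K9x r i K psi C w v w' v' x m) (W : PRow r i C m x) (hm : 7 ≤ m)
    (hd : ∀ k l, k < l → l ≤ m → dcv (x k) (x l) = if l = k + 1 then dk m k else 0)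
    (n2 : NE i C x 2 = 1) (n2' : NE i C x (m - 3) = 1) : DLe r i K C w v w' v' m x := by
  refine ⟨W, hm, fun y hy hl => K9_dg Q.toK9 hy hl, ?_, Q.lw, Q.lv, Q.uw, Q.dv, Q.uw', Q.dv', hd,
    n2, n2'⟩
  intro a b hab hb
  rw [K9_mm Q.toK9 (W.mem a (by omega)) (W.lev_x a (by omega)) (W.ne (by omega) hb (by omega))]
  have key : ∀ p q : ℕ, p < q → q ≤ m → (({x p, x q} : Finset P) = {x a, x b} ↔
      (a = p ∧ b = q)) := by
    intro p q hpq hq
    constructor
    · intro h1
      have h2 : x a ∈ ({x p, x q} : Finset P) := by rw [h1]; exact mem_insert_self _ _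
      have h3 : x b ∈ ({x p, x q} : Finset P) := by
        rw [h1]; exact mem_insert_of_mem (mem_singleton_self _)
      rw [mem_insert, mem_singleton] at h2 h3
      rcases h2 with h2 | h2
      · have := W.inj _ _ (by omega) (by omega) h2
        rcases h3 with h3 | h3
        · have := W.inj _ _ (by omega) (by omega) h3
          omega
        · have := W.inj _ _ (by omega) (by omega) h3
          omega
      · have := W.inj _ _ (by omega) (by omega) h2
        rcases h3 with h3 | h3
        · have := W.inj _ _ (by omega) (by omega) h3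
          omega
        · have := W.inj _ _ (by omega) (by omega) h3
          omega
    · rintro ⟨rfl, rfl⟩
      rfl
  rw [Q.uw, Q.uw', pair_comm (x m) (x (m - 1))]
  simp only [key 0 1 (by omega) (by omega), key (m - 1) m (by omega) le_rfl]
  have e1 : (a = m - 1 ∧ b = m) ↔ (a + 1 = m ∧ b = m) := by omega
  simp only [e1]

/-! ### the value of `F` -/

theorem DLe.num_QS (h : DLe r i K C w v w' v' m x) :
    ∑ p ∈ PN i C, vp i p + ∑ q ∈ M4 i C, vp i q.1 * vp i q.2 = QS (NE i C x) 0 m := by
  rw [h.W.sum_M4_row h.hd, h.sum_vp]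
  unfold QS
  rw [← range_eq_Ico, add_comm]
  congr 1
  refine sum_congr rfl fun k hk => ?_
  congr 1
  refine sum_congr rfl fun l hl => ?_
  rw [mem_range] at hk hl
  have e : (¬ Disjoint (ed x k) (ed x l)) ↔ (k ≤ l + 1 ∧ l ≤ k + 1) := by
    rw [h.W.disj_ed hk hl]
    omega
  simp only [e]

/-- the value of an end with the pattern [DL], without the path -/
noncomputable def E6 (i : ℕ) (C : Finset P) (x : ℕ → P) (w v : P) : ℤ :=
  (NE i C x 0 + (uc (x 0)).card - 1) ^ 2 + (NE i C x 0 + (uc (x 0)).card - 1) + 4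
    - 2 * ∑ z ∈ Z4 i C, tz i z * (Nx i w z - Nx i v z) - CH i C x 2

/-- THE VALUE `F` of a component with the pattern [DL] at both ends -/
theorem F6 (Q : K9x r i K psi C w v w' v' x m) (h : DLe r i K C w v w' v' m x) :
    Fv i C = E6 i C x w v + QS (NE i C x) 3 (m - 3) + E6 i C (fun k => x (m - k)) w' v' := by
  have hm := h.hm
  have h' := h.mirror Q.lw' Q.lv'
  have e1 := h.end_eq
  have e2 := h'.end_eq
  have d2 : dl i C x 2 = 1 := by
    rw [← h.n2, NE_eq]
    unfold dl chi' ed
    rw [sum_filter]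
    exact sum_congr rfl fun p _ => by split_ifs <;> ring
  have d3 : dl i C x (m - 3) = 1 := by
    rw [← h.n2', NE_eq]
    unfold dl chi' ed
    rw [sum_filter]
    exact sum_congr rfl fun p _ => by split_ifs <;> ring
  have a1 := K9x_al Q
  have a2 := K9x_form Q hm d2 d3
  have q1 := h.num_QS
  have q2 := num_form h.W.H h.W.uc1
  have z4 : (Z4 i C).card = (T4 i C).card := by
    congr 1
    exact Subset.antisymm (fun z hz => Q.zz z hz) (T4_subset i C)
  have s1 : QS (NE i C x) 0 m = NE i C x 0 ^ 2 + NE i C x 0 + 2 + 2 * NE i C x 3 +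
      QS (NE i C x) 3 m := by
    rw [QS_bot _ (by omega), QS_bot _ (by omega), QS_bot _ (by omega), if_pos (by omega),
      if_pos (by omega), if_pos (by omega), h.NE1, h.n2]
    ring
  have l1 : NE i C x (m - 2) = 0 := by
    have := h'.NE1
    rwa [NE_mirror (by omega), show m - 1 - 1 = m - 2 by omega] at this
  have s2 : QS (NE i C x) 3 m = QS (NE i C x) 3 (m - 3) + 2 * NE i C x (m - 4) + 2 +
      NE i C x (m - 1) ^ 2 + NE i C x (m - 1) := by
    obtain ⟨n, rfl⟩ : ∃ n, m = n + 3 := ⟨m - 3, by omega⟩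
    have g1 : n + 3 - 3 = n := by omega
    have g2 : n + 3 - 2 = n + 1 := by omega
    have g3 : n + 3 - 1 = n + 2 := by omega
    have g4 : n + 3 - 4 = n - 1 := by omega
    have f2 := h.n2'
    rw [g1] at f2 ⊢
    rw [g2] at l1
    rw [g3, g4, show n + 3 = n + 2 + 1 by omega, QS_top _ (by omega), QS_top _ (by omega),
      QS_top _ (by omega), if_pos (by omega), if_pos (by omega), if_pos (by omega),
      show n + 2 - 1 = n + 1 by omega, show n + 1 - 1 = n by omega, l1, f2]
    ring
  have c0 : (fun k => x (m - k)) 0 = x m := by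
    show x (m - 0) = x m
    rw [Nat.sub_zero]
  have c1 : NE i C (fun k => x (m - k)) 0 = NE i C x (m - 1) := by
    rw [NE_mirror (by omega)]
    rfl
  have c3 : NE i C (fun k => x (m - k)) 3 = NE i C x (m - 4) := by
    rw [NE_mirror (by omega), show m - 1 - 3 = m - 4 by omega]
  have e3 : fW i K C w' v' ((fun k => x (m - k)) 0) ((fun k => x (m - k)) 1)
      ((fun k => x (m - k)) 2) = fW i K C w' v' (x m) (x (m - 1)) (x (m - 2)) := by
    rw [c0]
  have e4 : dg i K C ((fun k => x (m - k)) 0) - dg i K C ((fun k => x (m - k)) 2) -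
      W4.mm i K C {(fun k => x (m - k)) 0, (fun k => x (m - k)) 1} +
      W4.mm i K C {(fun k => x (m - k)) 1, (fun k => x (m - k)) 2} =
      dg i K C (x m) - dg i K C (x (m - 2)) - W4.mm i K C {x m, x (m - 1)} +
      W4.mm i K C {x (m - 1), x (m - 2)} := by
    rw [c0]
  have e5 : x (m - 0) = x m := by rw [Nat.sub_zero]
  rw [e3, e4, c1, c3, e5] at e2
  unfold Fv
  rw [a2, a1]
  unfold E6
  rw [c1, c0]
  unfold Zs at e1 e2
  rw [z4] at e1 e2 ⊢
  rw [← q2] at e1 e2
  rw [q1, s1, s2] at e1 e2
  have q3 := q1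
  rw [s1, s2] at q3
  linear_combination e1 + e2 - q3

end Pool.Agent.GaussPoset.Win.Pb
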