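import Pool.Agent.W_448p_h97.PbU

/-!
MP_448cb3_co, G2, case B, window `j`: bounds for `F` of a component with the pattern [DL] at both ends
(the arguments of helper15 in `W_448kf_h15/KfF`).  helper97.
-/

namespace Pool.Agent.GaussPoset.Win.Pb

set_option linter.unusedSectionVars false

open Finset W4 Pa
open Pool.Agent.GaussPoset.Win.SO (PN vp con on mem_PN vp_PD vp_PU)

universe u

variable {P : Type u} [Fintype P] [PartialOrder P] [DecidableEq P] {r i : ℕ}
variable {psi : P → P} {C K : Finset P} {w v w' v' : P} {m : ℕ} {x : ℕ → P}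

namespace DLe

variable (h : DLe r i K C w v w' v' m x)
include h

/-- `N_k ≥ 0` at the inner edges -/
lemma NE_nonneg {k : ℕ} (h1 : 1 ≤ k) (h2 : k + 2 ≤ m) : 0 ≤ NE i C x k := by
  unfold NE
  rw [h.W.ue_inner h1 h2, card_empty]
  push_cast
  omega

/-- an element over two doubles -/
lemma T_vals {z : P} {k : ℕ} (hk : k + 2 ≤ m) (hs : sit i z = ed x k ∪ ed x (k + 1)) :
    Nx i w z = (if 2 ≤ k then 1 else 0) ∧ Nx i v z = (if 3 ≤ k then 1 else 0) := by
  have hm := h.hm
  constructor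
  · unfold Nx
    have e : Disjoint (nz i w) (sit i z) ↔ 2 ≤ k := by
      rw [hs, h.nw, disjoint_union_right, h.W.disj_ed (by omega) (by omega),
        h.W.disj_ed (by omega) (by omega)]
      omega
    simp only [e]
  · unfold Nx
    have e : Disjoint (nz i v) (sit i z) ↔ 3 ≤ k := by
      rw [hs, h.nv, disjoint_union_right, h.W.disj_ed (by omega) (by omega),
        h.W.disj_ed (by omega) (by omega)]
      omega
    simp only [e]

lemma T_index {k l : ℕ} (hk : k + 2 ≤ m) (hl : l + 2 ≤ m)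
    (hs : ed x k ∪ ed x (k + 1) = ed x l ∪ ed x (l + 1)) : k = l := by
  have key : ∀ k l, k + 2 ≤ m → l + 2 ≤ m → ed x k ∪ ed x (k + 1) = ed x l ∪ ed x (l + 1) →
      l ≤ k ∧ k ≤ l + 2 := by
    intro k l hk hl hs
    have h1 : x k ∈ ed x l ∪ ed x (l + 1) := by
      rw [← hs]
      exact mem_union_left _ ((h.W.mem_ed (by omega) (by omega)).2 (Or.inl rfl))
    rw [mem_union, h.W.mem_ed (by omega) (by omega), h.W.mem_ed (by omega) (by omega)] at h1
    omega
  have h1 := key k l hk hl hs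
  have h2 := key l k hl hk hs.symm
  omega

lemma T4_term {z : P} (hz : z ∈ T4 i C) :
    tz i z * (Nx i w z - Nx i v z) =
      (if lev z < i ∧ sit i z = ed x 2 ∪ ed x 3 then 1 else 0) -
      (if i < lev z ∧ sit i z = ed x 2 ∪ ed x 3 then 1 else 0) := by
  have hm4 : 4 ≤ m := by have := h.hm; omega
  have hlz : i < lev z ∨ lev z < i := by
    rcases mem_Z4.1 (T4_sub hz) with h1 | h1
    · have := (mem_ZL.1 h1).2.1
      omega
    · have := (mem_ZU.1 h1).2.1
      omega
  rcases hlz with hl | hl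
  · obtain ⟨k, y, y', hk, -, -, -, -, -, -, hs⟩ := h.W.T_low h.hd hz hl
    obtain ⟨v1, v2⟩ := h.T_vals hk hs
    have e : sit i z = ed x 2 ∪ ed x 3 ↔ k = 2 := by
      rw [hs]
      constructor
      · intro h1
        exact h.T_index hk (by omega) h1
      · rintro rfl
        rfl
    rw [v1, v2]
    unfold tz
    rw [if_pos hl]
    simp only [e, hl, true_and, show ¬ lev z < i by omega, false_and, if_false]
    split_ifs <;> omega
  · obtain ⟨k, y, y', hk, -, -, -, -, -, -, hs⟩ := h.W.T_upp hz hl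
    obtain ⟨v1, v2⟩ := h.T_vals hk hs
    have e : sit i z = ed x 2 ∪ ed x 3 ↔ k = 2 := by
      rw [hs]
      constructor
      · intro h1
        exact h.T_index hk (by omega) h1
      · rintro rfl
        rfl
    rw [v1, v2]
    unfold tz
    rw [if_neg (by omega)]
    simp only [e, hl, true_and, show ¬ i < lev z by omega, false_and, if_false]
    split_ifs <;> omega

/-- the contribution of the elements over three sites -/
theorem Z_eq (hz : ∀ z ∈ Z4 i C, z ∈ T4 i C) :
    ∑ z ∈ Z4 i C, tz i z * (Nx i w z - Nx i v z) = (TUs i C x).card - ((TLs i C x).card : ℤ) := by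
  classical
  have e : Z4 i C = T4 i C := Subset.antisymm (fun z h1 => hz z h1) (T4_subset i C)
  rw [e, sum_congr rfl fun z hz => h.T4_term hz, sum_sub_distrib]
  unfold TLs TUs
  rw [card_filter, card_filter]
  push_cast
  ring

/-- at most one upper element over `x 2, x 3, x 4` -/
lemma TUs_le : (TUs i C x).card ≤ 1 := by
  classical
  have hm4 : 4 ≤ m := by have := h.hm; omega
  rw [card_le_one]
  intro z hz z' hz'
  unfold TUs at hz hz'
  rw [mem_filter] at hz hz'
  obtain ⟨k, y, y', hk, hzC, hlz, hne, huc, e1, e2, hs⟩ := h.W.T_upp hz.1 hz.2.1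
  obtain ⟨l, q, q', hl, hzC', hlz', hne', huc', e1', e2', hs'⟩ := h.W.T_upp hz'.1 hz'.2.1
  have hk2 : k = 2 := h.T_index hk (by omega) (hs.symm.trans hz.2.2)
  have hl2 : l = 2 := h.T_index hl (by omega) (hs'.symm.trans hz'.2.2)
  subst hk2
  subst hl2
  have g1 : q = y := h.W.up_uniq (by omega) e1' e1
  have g2 : q' = y' := h.W.up_uniq (by omega) e2' e2
  subst g1
  subst g2
  by_contra hzz
  have hlev : lev z < lev z + 1 := Nat.lt_succ_self _
  have hq : q ∈ dc z := by rw [huc]; exact mem_insert_self _ _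
  have hq' : q' ∈ dc z := by rw [huc]; exact mem_insert_of_mem (mem_singleton_self _)
  have hp : q ∈ dc z' := by rw [huc']; exact mem_insert_self _ _
  have hp' : q' ∈ dc z' := by rw [huc']; exact mem_insert_of_mem (mem_singleton_self _)
  have l1 := lev_cov h.W.H (mem_dc.1 hq)
  have l2 := lev_cov h.W.H (mem_dc.1 hq')
  have c1 := h.W.hC.dn hzC (by omega) (mem_dc.1 hq)
  have c2 := h.W.hC.dn hzC (by omega) (mem_dc.1 hq')
  have h5 := h.W.up1 q c1 q' c2 (by omega) (by omega) hne
  have h6 : ({z, z'} : Finset P) ⊆ univ.filter (fun y => q ⋖ y ∧ q' ⋖ y) := by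
    intro s hs
    rw [mem_insert, mem_singleton] at hs
    rw [mem_filter]
    rcases hs with rfl | rfl
    · exact ⟨mem_univ _, mem_dc.1 hq, mem_dc.1 hq'⟩
    · exact ⟨mem_univ _, mem_dc.1 hp, mem_dc.1 hp'⟩
  have h7 := card_le_card h6
  rw [card_pair hzz] at h7
  unfold ucv at h5
  have h8 : (univ.filter (fun y => q ⋖ y ∧ q' ⋖ y)).card ≤ 1 := by convert h5
  omega

/-- the pendant over `x 2, x 3` and its private children -/
lemma CH2 : ∃ a y, DE i C x 2 = {a} ∧ UE i C x 2 = ∅ ∧ a ∈ C ∧ a ∈ PD P i ∧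
    uc a = {y} ∧ uc y = ed x 2 ∧ y ∈ C ∧ CH i C x 2 = 2 * (pen a).card ∧ (pen a).card ≤ 2 := by
  classical
  have H := h.W.H
  have hm := h.hm
  have hU := h.W.ue_inner (k := 2) (by omega) (by omega)
  have h2 := h.n2
  unfold NE at h2
  rw [hU, card_empty] at h2
  obtain ⟨a, ha⟩ := card_eq_one.1 (show (DE i C x 2).card = 1 by push_cast at h2; omega)
  have ham : a ∈ DE i C x 2 := by rw [ha]; exact mem_singleton_self a
  obtain ⟨haC, haP, has⟩ := mem_DE.1 ham
  obtain ⟨-, y, -, -, -, -, -, hor⟩ := PN_dat H (C := C) (mem_PN.2 ⟨haC, Or.inl haP⟩)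
  rcases hor with ⟨-, hla, hly, h4, h5, -, -⟩ | ⟨h3, -⟩
  swap
  · have := lev_PU h3
    have := lev_PD haP
    omega
  have hyC : y ∈ C := h.W.hC.up haC (mem_uc.1 (by rw [h4]; exact mem_singleton_self y))
  have hye : uc y = ed x 2 := by rw [← h5, has]
  -- the pendants below `y`
  have hpy : pen y = {a} := by
    ext g
    rw [mem_singleton]
    constructor
    · intro hg
      have hgu := uc_pen hg
      have hgl := lev_cov H (mem_pen.1 hg).1
      have hgC := h.W.cl g y hyC hgu
      have : g ∈ DE i C x 2 := by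
        refine mem_DE.2 ⟨hgC, mem_PD.2 ⟨by omega, by rw [hgu, card_singleton], y,
          (mem_pen.1 hg).1, ?_⟩, ?_⟩
        · rw [hye]
          exact h.W.card_ed (by omega)
        · rw [SO.sit_PD H (by omega) hgu, hye]
      rw [ha, mem_singleton] at this
      exact this
    · rintro rfl
      exact mem_pen.2 ⟨mem_uc.1 (by rw [h4]; exact mem_singleton_self y), by rw [h4, card_singleton]⟩
  have hPN : (PN i C).filter (fun z => sit i z = ed x 2) = {a} := by
    rw [PN_eq, filter_union]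
    have e1 : (DC i C).filter (fun z => sit i z = ed x 2) = {a} := ha
    have e2 : (UC i C).filter (fun z => sit i z = ed x 2) = ∅ := hU
    rw [e1, e2, union_empty]
  refine ⟨a, y, ha, hU, haC, haP, h4, hye, hyC, ?_, h.W.pen_le a⟩
  unfold CH
  rw [hPN, sum_singleton, vp_PD haP, h.W.ch_PD haP haC h4, hpy, card_singleton]
  push_cast
  ring

/-- the value of an end with squares -/
theorem E6_eq (hz : ∀ z ∈ Z4 i C, z ∈ T4 i C) : ∃ a y, DE i C x 2 = {a} ∧ a ∈ C ∧ a ∈ PD P i ∧
    uc a = {y} ∧ uc y = ed x 2 ∧ y ∈ C ∧ (pen a).card ≤ 2 ∧ E6 i C x w v =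
      (NE i C x 0 + (uc (x 0)).card - 1) ^ 2 + (NE i C x 0 + (uc (x 0)).card - 1) + 4 +
        2 * (TLs i C x).card - 2 * (TUs i C x).card - 2 * (pen a).card := by
  obtain ⟨a, y, k1, -, k3, k4, k5, k6, k7, h1, h2⟩ := h.CH2
  refine ⟨a, y, k1, k3, k4, k5, k6, k7, h2, ?_⟩
  unfold E6
  rw [h.Z_eq hz, h1]
  ring

/-- a lower bound for any end -/
theorem E6_fold (hz : ∀ z ∈ Z4 i C, z ∈ T4 i C) :
    -2 + 2 * ((TLs i C x).card : ℤ) ≤ E6 i C x w v := by
  obtain ⟨a, y, -, -, -, -, -, -, h2, h1⟩ := h.E6_eq hz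
  have h3 := h.TUs_le
  have h5 := sq_add_nonneg (NE i C x 0 + (uc (x 0)).card - 1)
  rw [h1]
  push_cast
  omega

/-- a closed end -/
theorem E6_closed (hz : ∀ z ∈ Z4 i C, z ∈ T4 i C) (hn : (uc (x 0)).card = 2)
    (hU : UE i C x 0 = ∅) : 0 ≤ E6 i C x w v := by
  obtain ⟨a, y, -, -, -, -, -, -, h2, h1⟩ := h.E6_eq hz
  have h3 := h.TUs_le
  have h5 : 0 ≤ NE i C x 0 := by
    unfold NE
    rw [hU, card_empty]
    push_cast
    omega
  rw [h1, hn]
  push_cast
  nlinarith

/-- the case of equality for a closed end -/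
theorem E6_zero (hz : ∀ z ∈ Z4 i C, z ∈ T4 i C) (hn : (uc (x 0)).card = 2)
    (hU : UE i C x 0 = ∅) (hE : E6 i C x w v = 0) : DE i C x 0 = ∅ ∧ TLs i C x = ∅ ∧
      (TUs i C x).card = 1 ∧ ∃ a y, DE i C x 2 = {a} ∧ a ∈ C ∧ a ∈ PD P i ∧ uc a = {y} ∧
        uc y = ed x 2 ∧ y ∈ C ∧ (pen a).card = 2 := by
  obtain ⟨a, y, k1, k3, k4, k5, k6, k7, h2, h1⟩ := h.E6_eq hz
  have h3 := h.TUs_le
  have h5 : NE i C x 0 = (DE i C x 0).card := by
    unfold NE
    rw [hU, card_empty]
    push_cast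
    omega
  rw [hE, hn, h5] at h1
  push_cast at h1
  have h7 : (0 : ℤ) ≤ ((DE i C x 0).card : ℤ) := by omega
  have h8 : ((DE i C x 0).card : ℤ) = 0 := by nlinarith
  rw [h8] at h1
  refine ⟨card_eq_zero.1 (by exact_mod_cast h8), card_eq_zero.1 (by omega), by omega, a, y, k1, k3,
    k4, k5, k6, k7, by omega⟩

end DLe

/-- the middle of the row -/
lemma mid_nonneg (h : DLe r i K C w v w' v' m x) : 0 ≤ QS (NE i C x) 3 (m - 3) :=
  QS_nonneg (NE i C x) (by have := h.hm; omega)
    fun k hk hk' => h.NE_nonneg (by omega) (by omega)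

lemma mid_zero (h : DLe r i K C w v w' v' m x) (h0 : QS (NE i C x) 3 (m - 3) = 0) :
    ∀ k, 3 ≤ k → k < m - 3 → NE i C x k = 0 := by
  have hm := h.hm
  intro k h1 h2
  obtain ⟨a1, a2, a3⟩ := QS_zero (NE i C x) (s := 3) (t := m - 3) (by omega)
    (fun k hk hk' => h.NE_nonneg (by omega) (by omega)) h0
  by_cases e : k + 2 < m - 3
  · exact a1 k h1 e
  · have hn : 0 ≤ NE i C x k := h.NE_nonneg (by omega) (by omega)
    by_cases e' : 3 + 1 < m - 3
    · have h3 := a2 e'
      have n1 : 0 ≤ NE i C x (m - 3 - 2) := h.NE_nonneg (by omega) (by omega)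
      have n2 : 0 ≤ NE i C x (m - 3 - 1) := h.NE_nonneg (by omega) (by omega)
      have n3 : NE i C x (m - 3 - 2) + NE i C x (m - 3 - 1) = 0 := by nlinarith
      have hk : k = m - 3 - 2 ∨ k = m - 3 - 1 := by omega
      rcases hk with rfl | rfl <;> omega
    · have h3 := a3 (by omega)
      have hk : k = m - 3 - 1 := by omega
      subst hk
      nlinarith

/-- `0 ≤ F` if both ends are closed -/
theorem F6_closed (Q : K9x r i K psi C w v w' v' x m) (h : DLe r i K C w v w' v' m x)
    (hn : (uc (x 0)).card = 2) (hn' : (uc (x m)).card = 2) : 0 ≤ Fv i C := by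
  have hm := h.hm
  have hU := h.W.ue_zero (by omega) hn
  have hU' := h.W.ue_last (by omega) hn'
  have h' := h.mirror Q.lw' Q.lv'
  have z := fun z hz => Q.zz z hz
  have e1 := h.E6_closed z hn hU
  have e2 := h'.E6_closed z (by show (uc (x (m - 0))).card = 2; rwa [Nat.sub_zero])
    (by
      unfold UE at hU' ⊢
      rw [ed_mirror (by omega)]
      exact hU')
  have e3 := mid_nonneg h
  rw [F6 Q h]
  linarith

/-- the cases of equality, both ends closed -/
theorem F6_zero (Q : K9x r i K psi C w v w' v' x m) (h : DLe r i K C w v w' v' m x)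
    (hn : (uc (x 0)).card = 2) (hn' : (uc (x m)).card = 2) (hF : Fv i C = 0) :
    E6 i C x w v = 0 ∧ E6 i C (fun k => x (m - k)) w' v' = 0 ∧
      ∀ k, 3 ≤ k → k < m - 3 → NE i C x k = 0 := by
  have hm := h.hm
  have hU := h.W.ue_zero (by omega) hn
  have hU' := h.W.ue_last (by omega) hn'
  have h' := h.mirror Q.lw' Q.lv'
  have z := fun z hz => Q.zz z hz
  have e1 := h.E6_closed z hn hU
  have e2 := h'.E6_closed z (by show (uc (x (m - 0))).card = 2; rwa [Nat.sub_zero])
    (by
      unfold UE at hU' ⊢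
      rw [ed_mirror (by omega)]
      exact hU')
  have e3 := mid_nonneg h
  rw [F6 Q h] at hF
  exact ⟨by linarith, by linarith, mid_zero h (by linarith)⟩

/-- one end closed, the other end arbitrary -/
theorem F6_fold (Q : K9x r i K psi C w v w' v' x m) (h : DLe r i K C w v w' v' m x)
    (hn : (uc (x 0)).card = 2) : -2 ≤ Fv i C := by
  have hm := h.hm
  have hU := h.W.ue_zero (by omega) hn
  have h' := h.mirror Q.lw' Q.lv'
  have z := fun z hz => Q.zz z hz
  have e1 := h.E6_closed z hn hU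
  have e2 := h'.E6_fold z
  have e3 := mid_nonneg h
  rw [F6 Q h]
  have : (0 : ℤ) ≤ ((TLs i C (fun k => x (m - k))).card : ℤ) := by positivity
  linarith

end Pool.Agent.GaussPoset.Win.Pb
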