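import Pool.Agent.W_448p_h97.PbV
import Pool.Agent.W_448p_h97.PaM

/-!
MP_448cb3_co, G2, case B, window `j`: the row data of a component with two stars of the row
classification.  helper97.
-/

namespace Pool.Agent.GaussPoset.Win.Pb

set_option linter.unusedSectionVars false

open Finset W4 Pa
open Pool.Agent.GaussPoset.Win.SO (PN vp con on mem_PN vp_PD vp_PU)
open Pool.Agent.GaussPoset.EK (Red RowB Row Pat6)
open Pool.Agent.GaussPoset.St
open Pool.Agent.GaussPoset.Wd (NJ)

universe u

variable {P : Type u} [Fintype P] [PartialOrder P] [DecidableEq P] {r i j : ℕ}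
variable {m : ℕ} {x : ℕ → P} {c : ℕ → ℤ} {β : ℤ} {t : Tops P}
variable {psi : P → P} {C K : Finset P} {w v w' v' : P}

lemma dl_NE {k : ℕ} : dl i C x k = NE i C x k := by
  rw [NE_eq]
  unfold dl chi' ed
  rw [sum_filter]
  exact sum_congr rfl fun p _ => by split_ifs <;> ring

section main

variable (h : NJ P r j) (B : RowB P j t m x c β) (hp : Pat6 m c β)

include h B hp

/-- the lower doubles over the pairs of sites -/
lemma pat6_dcv (k l : ℕ) (hkl : k < l) (hl : l ≤ m) :
    dcv (x k) (x l) = if l = k + 1 then dk m k else 0 := by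
  obtain ⟨hm, hb, c0, c1, c2, c3, c4⟩ := id hp
  have h1 := B.row.df k l hkl hl
  rw [Df_pair h.g.H (B.row.lev_x k (by omega))
    (paM_ne h B hp (by omega) hl (by omega)), B.ucv_x k l hkl hl] at h1
  by_cases e : l = k + 1
  · rw [if_pos e] at h1 ⊢
    rw [if_pos e] at h1
    push_cast at h1
    unfold dk
    by_cases e1 : k = 0
    · rw [if_pos (Or.inl e1)]
      rw [e1, c0] at h1
      rw [e1]
      omega
    · by_cases e2 : k + 1 = m
      · rw [if_pos (Or.inr e2)]
        have : k = m - 1 := by omega
        rw [show c k = 1 by rw [this, c3]] at h1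
        omega
      · rw [if_neg (by omega)]
        by_cases e3 : k = 1
        · rw [if_pos (Or.inl e3)]
          rw [show c k = -1 by rw [e3, c1]] at h1
          omega
        · by_cases e4 : k + 2 = m
          · rw [if_pos (Or.inr e4)]
            have : k = m - 2 := by omega
            rw [show c k = -1 by rw [this, c2]] at h1
            omega
          · rw [if_neg (by omega)]
            rw [c4 k (by omega) (by omega)] at h1
            omega
  · rw [if_neg e] at h1 ⊢
    rw [if_neg e] at h1
    push_cast at h1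
    by_cases e5 : k = 0 ∧ l = m
    · rw [if_pos e5, hb] at h1
      omega
    · rw [if_neg e5] at h1
      omega

/-- THE ROW DATA of a component with two stars -/
theorem exists_DLe (hj : 2 ≤ j) (R : Red P j K psi)
    (W : PRow r j (cext (j + 1) (topOf : P → Tops P) t) m x) (h7 : 7 ≤ m)
    (d2 : dl j (cext (j + 1) (topOf : P → Tops P) t) x 2 = 1)
    (d3 : dl j (cext (j + 1) (topOf : P → Tops P) t) x (m - 3) = 1) :
    ∃ w v w' v', K9x r j K psi (cext (j + 1) (topOf : P → Tops P) t) w v w' v' x m ∧
      DLe r j K (cext (j + 1) (topOf : P → Tops P) t) w v w' v' m x := by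
  obtain ⟨w, v, w', v', Q⟩ := exists_k9x h B hp hj R
  rw [dl_NE] at d2 d3
  exact ⟨w, v, w', v', Q, DLe.of Q W h7 (pat6_dcv h B hp) d2 d3⟩

end main

end Pool.Agent.GaussPoset.Win.Pb
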