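import Pool.Agent.W_448p_h97.PbW
import Pool.Agent.W_448mp_h83.MpA

/-!
MP_448cb3_co, G2, case B, window `j`: a component with two stars has a lower element over `x 2, x 3, x 4`,
if all the joins of level `j + 2` are joins of single elements (the piece of the level `j + 1` formed by
the lower doubles over the inner edges).  helper97.
-/

namespace Pool.Agent.GaussPoset.Win.Pb

set_option linter.unusedSectionVars false

open Finset W4 Pa
open Pool.Agent.GaussPoset.Win.SO (PN vp con on mem_PN vp_PD vp_PU)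
open Pool.Agent.GaussPoset.St

universe u

variable {P : Type u} [Fintype P] [PartialOrder P] [DecidableEq P] {r i : ℕ}
variable {m : ℕ} {x : ℕ → P} {C K : Finset P} {w v w' v' : P}

/-- the common lower covers with other elements -/
lemma dcv_sum_le (H : Gr P r) (S : Finset P) (u : P) :
    ∑ y ∈ S.erase u, dcv u y + (pen u).card ≤ (dc u).card := by
  classical
  have e1 : ∑ y ∈ S.erase u, dcv u y =
      ((S.erase u).biUnion (fun y => univ.filter (fun z : P => z ⋖ u ∧ z ⋖ y))).card := by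
    rw [card_biUnion]
    · rfl
    · intro a ha b hb hab
      rw [mem_coe, mem_erase] at ha hb
      show Disjoint (univ.filter (fun z : P => z ⋖ u ∧ z ⋖ a))
        (univ.filter (fun z : P => z ⋖ u ∧ z ⋖ b))
      rw [disjoint_left]
      intro z h1 h2
      rw [mem_filter] at h1 h2
      have h3 := StB_uc_pair H h1.2.1 h1.2.2 (Ne.symm ha.1)
      have h4 := mem_uc.2 h2.2.2
      rw [h3, mem_insert, mem_singleton] at h4
      rcases h4 with h4 | h4
      · exact hb.1 h4
      · exact hab h4.symm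
  have e2 : Disjoint ((S.erase u).biUnion (fun y => univ.filter (fun z : P => z ⋖ u ∧ z ⋖ y)))
      (pen u) := by
    rw [disjoint_left]
    intro z h1 h2
    rw [mem_biUnion] at h1
    obtain ⟨y, hy, h1⟩ := h1
    rw [mem_erase] at hy
    rw [mem_filter] at h1
    have h3 := uc_pen h2
    have h4 := mem_uc.2 h1.2.2
    rw [h3, mem_singleton] at h4
    exact hy.1 h4
  rw [e1, ← card_union_of_disjoint e2]
  refine card_le_card ?_
  intro z hz
  rcases mem_union.1 hz with h | h
  · rw [mem_biUnion] at h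
    obtain ⟨y, -, h1⟩ := h
    exact mem_dc.2 (mem_filter.1 h1).2.1
  · exact mem_dc.2 (mem_pen.1 h).1

/-- data of the level `i + 1` below the inner sites -/
structure Pth (i : ℕ) (C : Finset P) : Prop where
  dbl : ∀ y ∈ C, lev y = i + 1 → (uc y).card = 2
  NQ : K2.NoQ P (i + 2)
  ss : ∀ z, lev z = i + 2 → ∀ y ∈ uc z, y ∈ C → (uc y).card = 2 → z ∈ C
  zz : ∀ z ∈ Z4 i C, z ∈ T4 i C

section

variable (h : DLe r i K C w v w' v' m x) (D : Pth i C)
include h D

lemma dk_mid {k : ℕ} (h1 : 2 ≤ k) (h2 : k + 3 ≤ m) : dk m k = 1 := by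
  unfold dk
  rw [if_neg (by omega), if_neg (by omega)]

lemma x_wd {k : ℕ} (h1 : 2 ≤ k) (h2 : k + 3 ≤ m) : ∃ y, uc y = ed x k := by
  classical
  have e := h.dn k (k + 1) (by omega) (by omega)
  rw [if_pos rfl, dk_mid h D h1 h2] at e
  unfold dcv at e
  obtain ⟨s, hs⟩ := card_eq_one.1 e
  have h3 : s ∈ univ.filter (fun y : P => y ⋖ x k ∧ y ⋖ x (k + 1)) := by
    rw [hs]; exact mem_singleton_self s
  rw [mem_filter] at h3
  exact ⟨s, StB_uc_pair h.W.H h3.2.1 h3.2.2 (h.W.ne (by omega) (by omega) (by omega))⟩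

lemma wd_uniq {k : ℕ} (h1 : 2 ≤ k) (h2 : k + 3 ≤ m) {y y' : P} (e1 : uc y = ed x k)
    (e2 : uc y' = ed x k) : y = y' := by
  classical
  have e := h.dn k (k + 1) (by omega) (by omega)
  rw [if_pos rfl, dk_mid h D h1 h2] at e
  unfold dcv at e
  obtain ⟨s, hs⟩ := card_eq_one.1 e
  have key : ∀ y, uc y = ed x k → y = s := by
    intro y hy
    have : y ∈ ({s} : Finset P) := by
      rw [← hs, mem_filter]
      refine ⟨mem_univ _, ?_, ?_⟩
      · rw [← mem_uc, hy]
        exact (h.W.mem_ed (by omega) (by omega)).2 (Or.inl rfl)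
      · rw [← mem_uc, hy]
        exact (h.W.mem_ed (by omega) (by omega)).2 (Or.inr rfl)
    exact mem_singleton.1 this
  rw [key y e1, key y' e2]

/-- the lower covers of an inner site are over inner edges -/
lemma dc_inner {l : ℕ} (h1 : 2 ≤ l) (h2 : l + 2 ≤ m) {y : P} (hy : y ⋖ x l) :
    ∃ k, 2 ≤ k ∧ k + 3 ≤ m ∧ uc y = ed x k := by
  classical
  have hm := h.hm
  have hl := h.W.lev_x l (by omega)
  have hly := lev_cov h.W.H hy
  have hyC : y ∈ C := h.W.hC.dn (h.W.mem l (by omega)) (by omega) hy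
  obtain ⟨k, hk, e⟩ := h.W.lo_ed h.hd hyC (by omega) (D.dbl y hyC (by omega))
  have h3 : x l ∈ ed x k := by rw [← e]; exact mem_uc.2 hy
  rw [h.W.mem_ed (by omega) hk] at h3
  have h4 : 0 < dcv (x k) (x (k + 1)) := by
    unfold dcv
    refine card_pos.2 ⟨y, ?_⟩
    rw [mem_filter]
    refine ⟨mem_univ _, mem_uc.1 ?_, mem_uc.1 ?_⟩
    · rw [e]
      exact (h.W.mem_ed (by omega) (by omega)).2 (Or.inl rfl)
    · rw [e]
      exact (h.W.mem_ed (by omega) (by omega)).2 (Or.inr rfl)
  rw [h.dn k (k + 1) (by omega) (by omega), if_pos rfl] at h4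
  unfold dk at h4
  refine ⟨k, ?_, ?_, e⟩
  · by_contra hc
    have : k = 1 := by omega
    rw [if_neg (by omega), if_pos (Or.inl this)] at h4
    omega
  · by_contra hc
    have : k + 2 = m := by omega
    rw [if_neg (by omega), if_pos (Or.inr this)] at h4
    omega

/-- the neighbours of a double over an inner edge in the level `i + 1` -/
lemma nb_inner {k : ℕ} (h1 : 2 ≤ k) (h2 : k + 3 ≤ m) {u y : P} (hu : uc u = ed x k) (hyu : y ≠ u)
    (hyn : (∃ s, u ⋖ s ∧ y ⋖ s) ∨ ∃ z, z ⋖ u ∧ z ⋖ y) :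
    ∃ l, 2 ≤ l ∧ l + 3 ≤ m ∧ uc y = ed x l ∧ (l = k + 1 ∨ k = l + 1) := by
  have hm := h.hm
  have key : ∀ s, s ∈ ed x k → y ⋖ s → ∃ l, 2 ≤ l ∧ l + 3 ≤ m ∧ uc y = ed x l ∧
      (l = k + 1 ∨ k = l + 1) := by
    intro s hs hys
    have hs' : s = x k ∨ s = x (k + 1) := by
      unfold ed at hs
      rwa [mem_insert, mem_singleton] at hs
    have : ∃ q, 2 ≤ q ∧ q + 2 ≤ m ∧ s = x q ∧ (q = k ∨ q = k + 1) := by
      rcases hs' with e | e
      · exact ⟨k, by omega, by omega, e, Or.inl rfl⟩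
      · exact ⟨k + 1, by omega, by omega, e, Or.inr rfl⟩
    obtain ⟨q, hq, hq', e, hqk⟩ := this
    obtain ⟨l, g1, g2, g3⟩ := dc_inner h D hq hq' (e ▸ hys)
    refine ⟨l, g1, g2, g3, ?_⟩
    have h3 : x q ∈ ed x l := by rw [← g3]; exact mem_uc.2 (e ▸ hys)
    rw [h.W.mem_ed (by omega) (by omega)] at h3
    have hlk : l ≠ k := by
      rintro rfl
      exact hyu (wd_uniq h D h1 h2 g3 hu)
    omega
  rcases hyn with ⟨s, hus, hys⟩ | ⟨z, hzu, hzy⟩
  · exact key s (by rw [← hu]; exact mem_uc.2 hus) hys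
  · have hxk := h.W.lev_x k (by omega)
    have hxu : u ⋖ x k := mem_uc.1 (by
      rw [hu]; exact (h.W.mem_ed (by omega) (by omega)).2 (Or.inl rfl))
    have l1 := lev_cov h.W.H hxu
    have l2 := lev_cov h.W.H hzu
    have l3 := lev_cov h.W.H hzy
    have huC : u ∈ C := h.W.hC.dn (h.W.mem k (by omega)) (by omega) hxu
    have hu2 : (uc u).card = 2 := by rw [hu]; exact h.W.card_ed (by omega)
    have hzC := D.ss z (by omega) u (mem_uc.2 hzu) huC hu2
    have hyC : y ∈ C := h.W.hC.up hzC hzy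
    have hy2 := D.dbl y hyC (by omega)
    obtain ⟨s, hs1, hs2⟩ := D.NQ z (by omega) u (mem_uc.2 hzu) y (mem_uc.2 hzy) hyu.symm hu2 hy2
    exact key s (by rw [← hu]; exact hs1) (mem_uc.1 hs2)

/-- THE PIECE: there is a lower element over `x 2, x 3, x 4` -/
theorem TLs_ne : TLs i C x ≠ ∅ := by
  classical
  intro hTL
  have hm := h.hm
  have H := h.W.H
  obtain ⟨f, hf⟩ : ∃ f : ℕ → P, ∀ k, 2 ≤ k → k + 3 ≤ m → uc (f k) = ed x k := by
    have : ∀ k, ∃ y, 2 ≤ k → k + 3 ≤ m → uc y = ed x k := by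
      intro k
      by_cases h1 : 2 ≤ k ∧ k + 3 ≤ m
      · obtain ⟨y, hy⟩ := x_wd h D h1.1 h1.2
        exact ⟨y, fun _ _ => hy⟩
      · exact ⟨w, fun h2 h3 => absurd ⟨h2, h3⟩ h1⟩
    choose f hf using this
    exact ⟨f, hf⟩
  have hlev : ∀ k, 2 ≤ k → k + 3 ≤ m → lev (f k) = i + 1 := by
    intro k h1 h2
    have hxu : f k ⋖ x k := mem_uc.1 (by
      rw [hf k h1 h2]; exact (h.W.mem_ed (by omega) (by omega)).2 (Or.inl rfl))
    have l1 := lev_cov H hxu
    have := h.W.lev_x k (by omega)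
    omega
  have hinj : ∀ k l, 2 ≤ k → k + 3 ≤ m → 2 ≤ l → l + 3 ≤ m → f k = f l → k = l := by
    intro k l h1 h2 h3 h4 e
    have e1 := hf k h1 h2
    rw [e, hf l h3 h4] at e1
    exact h.W.ed_inj (by omega) (by omega) e1.symm
  obtain ⟨S, hS⟩ : ∃ S : Finset P, S = (Ico 2 (m - 2)).image f := ⟨_, rfl⟩
  have memS : ∀ y, y ∈ S ↔ ∃ k, 2 ≤ k ∧ k + 3 ≤ m ∧ f k = y := by
    intro y
    rw [hS, mem_image]
    constructor
    · rintro ⟨k, hk, e⟩
      rw [mem_Ico] at hk
      exact ⟨k, by omega, by omega, e⟩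
    · rintro ⟨k, h1, h2, e⟩
      exact ⟨k, mem_Ico.2 ⟨h1, by omega⟩, e⟩
  have memS' : ∀ y l, 2 ≤ l → l + 3 ≤ m → uc y = ed x l → y ∈ S := by
    intro y l h1 h2 e
    exact (memS y).2 ⟨l, h1, h2, wd_uniq h D h1 h2 (hf l h1 h2) e⟩
  have hir : i + 1 ≤ r := by have := h.W.hi2; omega
  have hpce : Mp.Pce P (i + 1) S := by
    refine ⟨?_, ?_⟩
    · intro y hy
      obtain ⟨k, h1, h2, rfl⟩ := (memS y).1 hy
      exact mem_lv.2 (hlev k h1 h2)
    · intro u hu y hy hyS
      obtain ⟨k, h1, h2, rfl⟩ := (memS u).1 hu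
      have hne : y ≠ f k := by
        rintro rfl
        exact hyS hu
      have hno : ¬ ((∃ s, f k ⋖ s ∧ y ⋖ s) ∨ ∃ z, z ⋖ f k ∧ z ⋖ y) := by
        intro hc
        obtain ⟨l, g1, g2, g3, -⟩ := nb_inner h D h1 h2 (hf k h1 h2) hne hc
        exact hyS (memS' y l g1 g2 g3)
      rw [Df_pair H (hlev k h1 h2) hne.symm]
      have e1 : ucv (f k) y = 0 := by
        unfold ucv
        rw [card_eq_zero, filter_eq_empty_iff]
        intro s _ hs
        exact hno (Or.inl ⟨s, hs.1, hs.2⟩)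
      have e2 : dcv (f k) y = 0 := by
        unfold dcv
        rw [card_eq_zero, filter_eq_empty_iff]
        intro s _ hs
        exact hno (Or.inr ⟨s, hs.1, hs.2⟩)
      rw [e1, e2]
      simp
  have hlin := Mp.piece_lin H hir hpce
  -- the sum over the neighbours
  have hsum : ∀ k, 2 ≤ k → k + 3 ≤ m → ∑ y ∈ S.erase (f k), Df (i + 1) {f k, y} =
      ((∑ y ∈ S.erase (f k), dcv (f k) y : ℕ) : ℤ) - ((∑ y ∈ S.erase (f k), ucv (f k) y : ℕ) : ℤ) := by
    intro k h1 h2
    push_cast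
    rw [← sum_sub_distrib]
    refine sum_congr rfl fun y hy => ?_
    rw [mem_erase] at hy
    rw [Df_pair H (hlev k h1 h2) hy.1.symm]
  have hup : ∀ k l, 2 ≤ k → k + 3 ≤ m → 2 ≤ l → l + 3 ≤ m → (l = k + 1 ∨ k = l + 1) →
      1 ≤ ucv (f k) (f l) := by
    intro k l h1 h2 h3 h4 h5
    unfold ucv
    rcases h5 with rfl | rfl
    · refine card_pos.2 ⟨x (k + 1), ?_⟩
      rw [mem_filter]
      refine ⟨mem_univ _, mem_uc.1 ?_, mem_uc.1 ?_⟩
      · rw [hf k h1 h2]
        exact (h.W.mem_ed (by omega) (by omega)).2 (Or.inr rfl)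
      · rw [hf (k + 1) h3 h4]
        exact (h.W.mem_ed (by omega) (by omega)).2 (Or.inl rfl)
    · refine card_pos.2 ⟨x (l + 1), ?_⟩
      rw [mem_filter]
      refine ⟨mem_univ _, mem_uc.1 ?_, mem_uc.1 ?_⟩
      · rw [hf (l + 1) h1 h2]
        exact (h.W.mem_ed (by omega) (by omega)).2 (Or.inl rfl)
      · rw [hf l h3 h4]
        exact (h.W.mem_ed (by omega) (by omega)).2 (Or.inr rfl)
  have hup1 : ∀ k l, 2 ≤ k → k + 3 ≤ m → 2 ≤ l → l + 3 ≤ m → (l = k + 1 ∨ k = l + 1) →
      1 ≤ ∑ y ∈ S.erase (f k), ucv (f k) y := by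
    intro k l h1 h2 h3 h4 h5
    have hmem : f l ∈ S.erase (f k) := by
      rw [mem_erase]
      refine ⟨fun e => ?_, (memS _).2 ⟨l, h3, h4, rfl⟩⟩
      have := hinj l k h3 h4 h1 h2 e
      omega
    exact (hup k l h1 h2 h3 h4 h5).trans
      (single_le_sum (f := fun y => ucv (f k) y) (fun _ _ => Nat.zero_le _) hmem)
  have hle : ∀ k, 2 ≤ k → k + 3 ≤ m → ∑ y ∈ S.erase (f k), Df (i + 1) {f k, y} ≤ 0 := by
    intro k h1 h2
    rw [hsum k h1 h2]
    have hd := dcv_sum_le H S (f k)
    have hd2 : (dc (f k)).card ≤ 2 := dc_card_le H (f k)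
    by_cases e1 : k = 2
    · have h3 := hup1 k (k + 1) h1 h2 (by omega) (by omega) (Or.inl rfl)
      obtain ⟨a, y, k1, k2, k3, k4, k5, k6, k7⟩ := h.CH2
      have hy : y = f k := by
        subst e1
        exact wd_uniq h D h1 h2 k6 (hf 2 h1 h2)
      have ha : a ∈ pen (f k) := by
        rw [← hy]
        refine mem_pen.2 ⟨mem_uc.1 (by rw [k5]; exact mem_singleton_self y), by
          rw [k5, card_singleton]⟩
      have := card_pos.2 ⟨a, ha⟩
      omega
    · by_cases e2 : k + 3 = m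
      · have h3 := hup1 k (k - 1) h1 h2 (by omega) (by omega) (Or.inr (by omega))
        have n2 := h.n2'
        unfold NE at n2
        have hk : m - 3 = k := by omega
        rw [hk] at n2
        have hU := h.W.ue_inner (k := k) (by omega) (by omega)
        rw [hU, card_empty] at n2
        obtain ⟨a, ha⟩ := card_pos.1 (show 0 < (DE i C x k).card by push_cast at n2; omega)
        obtain ⟨haC, haP, has⟩ := mem_DE.1 ha
        obtain ⟨-, y, -, -, -, -, -, hor⟩ := PN_dat H (C := C) (mem_PN.2 ⟨haC, Or.inl haP⟩)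
        rcases hor with ⟨-, hla, hly, h4, h5, -, -⟩ | ⟨h3', -⟩
        swap
        · have := lev_PU h3'
          have := lev_PD haP
          omega
        have hye : uc y = ed x k := by rw [← h5, has]
        have hy : y = f k := wd_uniq h D h1 h2 hye (hf k h1 h2)
        have ha' : a ∈ pen (f k) := by
          rw [← hy]
          exact mem_pen.2 ⟨mem_uc.1 (by rw [h4]; exact mem_singleton_self y), by
            rw [h4, card_singleton]⟩
        have := card_pos.2 ⟨a, ha'⟩
        omega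
      · have h3 := hup k (k + 1) h1 h2 (by omega) (by omega) (Or.inl rfl)
        have h4 := hup k (k - 1) h1 h2 (by omega) (by omega) (Or.inr (by omega))
        have h5 : ∑ y ∈ ({f (k + 1), f (k - 1)} : Finset P), ucv (f k) y ≤
            ∑ y ∈ S.erase (f k), ucv (f k) y := by
          refine sum_le_sum_of_subset ?_
          intro y hy
          rw [mem_insert, mem_singleton] at hy
          rw [mem_erase]
          rcases hy with rfl | rfl
          · refine ⟨fun e => ?_, (memS _).2 ⟨k + 1, by omega, by omega, rfl⟩⟩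
            have := hinj (k + 1) k (by omega) (by omega) h1 h2 e
            omega
          · refine ⟨fun e => ?_, (memS _).2 ⟨k - 1, by omega, by omega, rfl⟩⟩
            have := hinj (k - 1) k (by omega) (by omega) h1 h2 e
            omega
        rw [sum_pair (fun e => by
          have := hinj (k + 1) (k - 1) (by omega) (by omega) (by omega) (by omega) e
          omega)] at h5
        omega
  have hlt : ∑ y ∈ S.erase (f 2), Df (i + 1) {f 2, y} < 0 := by
    rw [hsum 2 le_rfl (by omega)]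
    have h3 := hup1 2 3 le_rfl (by omega) (by omega) (by omega) (Or.inl rfl)
    have h4 : ∑ y ∈ S.erase (f 2), dcv (f 2) y = 0 := by
      refine sum_eq_zero fun y hy => ?_
      rw [mem_erase] at hy
      unfold dcv
      rw [card_eq_zero, filter_eq_empty_iff]
      intro z _ hz
      obtain ⟨l, g1, g2, g3, g4⟩ := nb_inner h D le_rfl (by omega) (hf 2 le_rfl (by omega)) hy.1
        (Or.inr ⟨z, hz.1, hz.2⟩)
      have hl : l = 3 := by omega
      subst hl
      have l1 := lev_cov H hz.1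
      have l2 := hlev 2 le_rfl (by omega)
      have huc : uc z = {f 2, y} := StB_uc_pair H hz.1 hz.2 hy.1.symm
      have hxu : f 2 ⋖ x 2 := mem_uc.1 (by
        rw [hf 2 le_rfl (by omega)]; exact (h.W.mem_ed (by omega) (by omega)).2 (Or.inl rfl))
      have huC : f 2 ∈ C := h.W.hC.dn (h.W.mem 2 (by omega)) (by
        have := h.W.lev_x 2 (by omega); omega) hxu
      have hu2 : (uc (f 2)).card = 2 := by
        rw [hf 2 le_rfl (by omega)]; exact h.W.card_ed (by omega)
      have hzC := D.ss z (by omega) (f 2) (mem_uc.2 hz.1) huC hu2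
      have hsit : sit i z = ed x 2 ∪ ed x 3 := by
        rw [sit_low H (by omega)]
        ext q
        rw [mem_sts_iff H (by omega), huc, mem_union, ← g3, ← hf 2 le_rfl (by omega)]
        simp
      have h23 : (ed x 2 ∪ ed x 3).card = 3 := by
        have e1 := card_union_add_card_inter (ed x 2) (ed x 3)
        rw [h.W.card_ed (k := 2) (by omega), h.W.card_ed (k := 3) (by omega),
          (h.W.inter_ed (k := 2) (l := 3) (by omega) (by omega)).2 (Or.inl rfl)] at e1
        omega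
      have hZ : z ∈ Z4 i C := by
        rw [mem_Z4]
        left
        rw [mem_ZL]
        refine ⟨hzC, by omega, ?_⟩
        have e3 := h23
        rw [← hsit, sit_low H (by omega), card_sts] at e3
        exact e3
      have : z ∈ TLs i C x := by
        unfold TLs
        rw [mem_filter]
        exact ⟨D.zz z hZ, by omega, hsit⟩
      rw [hTL] at this
      exact notMem_empty _ this
    rw [h4]
    omega
  have hfin : ∑ u ∈ S, ∑ y ∈ S.erase u, Df (i + 1) {u, y} < 0 := by
    have hmem : f 2 ∈ S := (memS _).2 ⟨2, le_rfl, by omega, rfl⟩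
    rw [← add_sum_erase S _ hmem]
    have : ∑ u ∈ S.erase (f 2), ∑ y ∈ S.erase u, Df (i + 1) {u, y} ≤ 0 := by
      refine sum_nonpos fun u hu => ?_
      obtain ⟨k, h1, h2, rfl⟩ := (memS u).1 (mem_erase.1 hu).2
      exact hle k h1 h2
    linarith
  omega

end

end Pool.Agent.GaussPoset.Win.Pb
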