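import Pool.Agent.W_448p_h97.PbX

/-!
MP_448cb3_co, G2, case B, window `j`: THE BOUNDS FOR `F` of a component with two stars.  helper97.
-/

namespace Pool.Agent.GaussPoset.Win.Pb

set_option linter.unusedSectionVars false

open Finset W4 Pa
open Pool.Agent.GaussPoset.Win.SO (PN vp con on mem_PN vp_PD vp_PU)
open Pool.Agent.GaussPoset.EK (Red RowB Row Pat6)
open Pool.Agent.GaussPoset.St
open Pool.Agent.GaussPoset.Wd (NJ)

universe u

variable {P : Type u} [Fintype P] [PartialOrder P] [DecidableEq P] {r i j : ℕ}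
variable {m : ℕ} {x : ℕ → P} {c : ℕ → ℤ} {β : ℤ} {t : Tops P}
variable {psi : P → P} {C K : Finset P} {w v w' v' : P}

/-- an end, if all the joins are joins of single elements -/
theorem E6_ss (h : DLe r i K C w v w' v' m x) (D : Pth i C) : 0 ≤ E6 i C x w v ∧
    ((uc (x 0)).card = 2 → 2 ≤ E6 i C x w v) := by
  have hm := h.hm
  have h1 : 0 < (TLs i C x).card := card_pos.2 (nonempty_iff_ne_empty.2 (TLs_ne h D))
  have h2 := h.E6_fold D.zz
  refine ⟨by omega, fun hn => ?_⟩
  obtain ⟨a, y, -, -, -, -, -, -, h3, h4⟩ := h.E6_eq D.zz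
  have h5 := h.TUs_le
  have h6 : 0 ≤ NE i C x 0 := by
    unfold NE
    rw [h.W.ue_zero (by omega) hn, card_empty]
    push_cast
    omega
  rw [h4, hn]
  push_cast
  nlinarith

/-- `F` of a component with two stars, if all the joins are joins of single elements -/
theorem F6_ss (Q : K9x r i K psi C w v w' v' x m) (h : DLe r i K C w v w' v' m x)
    (D : Pth i C) : 0 ≤ Fv i C ∧
      ((uc (x 0)).card = 2 ∨ (uc (x m)).card = 2 → 0 < Fv i C) := by
  have h' := h.mirror Q.lw' Q.lv'
  obtain ⟨e1, e2⟩ := E6_ss h D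
  obtain ⟨e3, e4⟩ := E6_ss h' D
  have e5 := mid_nonneg h
  rw [F6 Q h]
  refine ⟨by linarith, ?_⟩
  rintro (h1 | h1)
  · have := e2 h1
    linarith
  · have := e4 (by show (uc (x (m - 0))).card = 2; rwa [Nat.sub_zero])
    linarith

section main

variable (h : NJ P r j) (B : RowB P j t m x c β) (hp : Pat6 m c β)

include h B hp

/-- THE BOUNDS FOR `F` of a component with two stars of the row classification: `F ≥ 0` if both ends
are closed, `F ≥ -2` if one end is closed, and `F > 0` if one end is closed and no join of level `j + 2`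
is below a double of the component -/
theorem pat6_F (hj : 2 ≤ j) (R : Red P j K psi)
    (W : PRow r j (cext (j + 1) (topOf : P → Tops P) t) m x) (h7 : 7 ≤ m)
    (d2 : dl j (cext (j + 1) (topOf : P → Tops P) t) x 2 = 1)
    (d3 : dl j (cext (j + 1) (topOf : P → Tops P) t) x (m - 3) = 1) :
    ((uc (x 0)).card = 2 → (uc (x m)).card = 2 →
      0 ≤ Fv j (cext (j + 1) (topOf : P → Tops P) t)) ∧
    ((uc (x 0)).card = 2 ∨ (uc (x m)).card = 2 →
      -2 ≤ Fv j (cext (j + 1) (topOf : P → Tops P) t)) ∧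
    ((∀ z, lev z = j + 2 → ∀ y ∈ uc z, y ∈ cext (j + 1) (topOf : P → Tops P) t →
      (uc y).card = 2 → z ∈ cext (j + 1) (topOf : P → Tops P) t) →
      0 ≤ Fv j (cext (j + 1) (topOf : P → Tops P) t) ∧
      ((uc (x 0)).card = 2 ∨ (uc (x m)).card = 2 →
        0 < Fv j (cext (j + 1) (topOf : P → Tops P) t))) := by
  obtain ⟨w, v, w', v', Q, D⟩ := exists_DLe h B hp hj R W h7 d2 d3
  refine ⟨fun h1 h2 => F6_closed Q D h1 h2, ?_, ?_⟩
  · have D' := D.mirror Q.lw' Q.lv'
    have e3 := mid_nonneg D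
    have z := fun z hz => Q.zz z hz
    have q1 := D.E6_fold z
    have q2 := D'.E6_fold z
    rintro (h1 | h1)
    · exact F6_fold Q D h1
    · have e1 := D'.E6_closed z (by show (uc (x (m - 0))).card = 2; rwa [Nat.sub_zero])
        (D'.W.ue_zero (by omega) (by show (uc (x (m - 0))).card = 2; rwa [Nat.sub_zero]))
      have : (0 : ℤ) ≤ ((TLs j (cext (j + 1) (topOf : P → Tops P) t) x).card : ℤ) := by positivity
      rw [F6 Q D]
      linarith
  · intro hss
    exact F6_ss Q D ⟨fun y hy hl => paM_dbl h B hp hl hy, EK.NJ.noQ h hj, hss,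
      fun z hz => paM_T4 h B hp hj hz⟩

end main

end Pool.Agent.GaussPoset.Win.Pb
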